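import Mathlib

/-!
# b-colourings of graphs without 4-cycles: definitions
-/

set_option autoImplicit false

namespace Pool.Agent.Helper95.BC

open Classical in
/-- the set of neighbours of `v` -/
noncomputable def nbr {V : Type} [Fintype V] (G : SimpleGraph V) (v : V) : Finset V :=
  Finset.univ.filter (fun u => G.Adj v u)

/-- there is no cycle `x a y b` of length 4 -/
def C4Free {V : Type} (G : SimpleGraph V) : Prop :=
  ∀ x y a b : V, x ≠ y → a ≠ b → G.Adj x a → G.Adj a y → G.Adj y b → ¬ G.Adj b x

/-- `u` is a b-vertex of the colouring `ψ`: every colour except its own appears on a neighbour -/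
def IsBVertex {V C : Type} (G : SimpleGraph V) (ψ : V → C) (u : V) : Prop :=
  ∀ c, c ≠ ψ u → ∃ w, G.Adj u w ∧ ψ w = c

/-- `ψ` is a b-colouring: it is proper and every colour has a b-vertex -/
def IsBColouring {V C : Type} (G : SimpleGraph V) (ψ : V → C) : Prop :=
  (∀ u v, G.Adj u v → ψ u ≠ ψ v) ∧ ∀ c, ∃ u, ψ u = c ∧ IsBVertex G ψ u

/-- the b-chromatic number: the largest `k` such that there is a b-colouring with `k` colours -/
noncomputable def bChrom {V : Type} (G : SimpleGraph V) : ℕ :=
  sSup {k | ∃ ψ : V → Fin k, IsBColouring G ψ}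

open Classical in
/-- the m-degree: the largest `m` such that at least `m` vertices have degree at least `m - 1` -/
noncomputable def mDegree {V : Type} [Fintype V] (G : SimpleGraph V) : ℕ :=
  sSup {m | m ≤ (Finset.univ.filter (fun v => m - 1 ≤ (nbr G v).card)).card}

theorem mem_nbr {V : Type} [Fintype V] {G : SimpleGraph V} {u v : V} :
    u ∈ nbr G v ↔ G.Adj v u := by
  simp [nbr]

theorem C4Free.card_le_one {V : Type} [Fintype V] [DecidableEq V] {G : SimpleGraph V}
    (h : C4Free G) {x y : V} (hxy : x ≠ y) : (nbr G x ∩ nbr G y).card ≤ 1 := by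
  rw [Finset.card_le_one]
  intro a ha b hb
  rw [Finset.mem_inter, mem_nbr, mem_nbr] at ha hb
  by_contra hab
  exact h x y a b hxy hab ha.1 ha.2.symm hb.2 hb.1.symm

end Pool.Agent.Helper95.BC
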