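import Mathlib
import Pool.Agent.Helper95.BC.Defs

/-!
# b-colourings: piece A (removal of colours without b-vertices, the m-degree)
-/

set_option autoImplicit false

namespace Pool.Agent.Helper95.BC

theorem bddAbove_bCol {V : Type} [Fintype V] (G : SimpleGraph V) :
    BddAbove {k | ∃ ψ : V → Fin k, IsBColouring G ψ} := by
  refine ⟨Fintype.card V, ?_⟩
  rintro k ⟨ψ, hψ⟩
  have hs : Function.Surjective ψ := by
    intro c
    obtain ⟨u, hu, _⟩ := hψ.2 c
    exact ⟨u, hu⟩
  simpa using Fintype.card_le_of_surjective ψ hs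

/-- the induction: colours without b-vertices are removed one after the other -/
theorem card_le_bChrom_aux {V C : Type} [Fintype V] [DecidableEq C] (G : SimpleGraph V) (n : ℕ) :
    ∀ (φ : V → C) (P S : Finset C), P.card = n → (∀ v, φ v ∈ P) →
      (∀ u v, G.Adj u v → φ u ≠ φ v) → S ⊆ P →
      (∀ c ∈ S, ∃ u, φ u = c ∧ ∀ c' ∈ P, c' ≠ c → ∃ w, G.Adj u w ∧ φ w = c') →
      S.card ≤ bChrom G := by
  classical
  induction n with
  | zero =>
    intro φ P S hn hP hφ hSP hS
    have : P = ∅ := Finset.card_eq_zero.mp hn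
    subst this
    have : S = ∅ := Finset.subset_empty.mp hSP
    subst this
    simp
  | succ n ih =>
    intro φ P S hn hP hφ hSP hS
    by_cases hall : ∀ c ∈ P, ∃ u, φ u = c ∧ ∀ c' ∈ P, c' ≠ c → ∃ w, G.Adj u w ∧ φ w = c'
    · -- every colour of `P` has a b-vertex
      let e : P ≃ Fin P.card := P.equivFin
      have hk : P.card ∈ {k | ∃ ψ : V → Fin k, IsBColouring G ψ} := by
        refine ⟨fun v => e ⟨φ v, hP v⟩, ?_, ?_⟩
        · intro u v huv h
          have h1 := e.injective h
          exact hφ u v huv (congrArg Subtype.val h1)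
        · intro c
          obtain ⟨c0, rfl⟩ := e.surjective c
          obtain ⟨u, hu, hu'⟩ := hall c0.1 c0.2
          refine ⟨u, ?_, ?_⟩
          · show e ⟨φ u, hP u⟩ = e c0
            exact congrArg e (Subtype.ext hu)
          · intro c hc
            obtain ⟨c1, rfl⟩ := e.surjective c
            have hne : c1.1 ≠ c0.1 := by
              intro h
              apply hc
              congr 1
              apply Subtype.ext
              rw [h]
              exact hu.symm
            obtain ⟨w, hw, hw'⟩ := hu' c1.1 c1.2 hne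
            refine ⟨w, hw, ?_⟩
            show e ⟨φ w, hP w⟩ = e c1
            exact congrArg e (Subtype.ext hw')
      calc S.card ≤ P.card := Finset.card_le_card hSP
        _ ≤ bChrom G := le_csSup (bddAbove_bCol G) hk
    · push Not at hall
      obtain ⟨c0, hc0, hno⟩ := hall
      -- the vertices of colour `c0` get another colour
      have hch : ∀ v, ∃ c', φ v = c0 → (c' ∈ P ∧ c' ≠ c0 ∧ ∀ w, G.Adj v w → φ w ≠ c') := by
        intro v
        by_cases hv : φ v = c0
        · obtain ⟨c', h1, h2, h3⟩ := hno v hv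
          exact ⟨c', fun _ => ⟨h1, h2, h3⟩⟩
        · exact ⟨c0, fun h => absurd h hv⟩
      choose g hg using hch
      have hc0S : c0 ∉ S := by
        intro h
        obtain ⟨u, hu, hu'⟩ := hS c0 h
        obtain ⟨c', h1, h2, h3⟩ := hno u hu
        obtain ⟨w, hw, hw'⟩ := hu' c' h1 h2
        exact h3 w hw hw'
      refine ih (fun v => if φ v = c0 then g v else φ v) (P.erase c0) S ?_ ?_ ?_ ?_ ?_
      · rw [Finset.card_erase_of_mem hc0, hn]; rfl
      · intro v
        by_cases hv : φ v = c0
        · simp only [hv, if_true]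
          exact Finset.mem_erase.mpr ⟨(hg v hv).2.1, (hg v hv).1⟩
        · simp only [hv, if_false]
          exact Finset.mem_erase.mpr ⟨hv, hP v⟩
      · intro u v huv
        have hne := hφ u v huv
        by_cases hu : φ u = c0
        · have hv : φ v ≠ c0 := fun h => hne (hu.trans h.symm)
          simp only [hu, hv, if_true, if_false]
          exact fun h => (hg u hu).2.2 v huv h.symm
        · by_cases hv : φ v = c0
          · simp only [hu, hv, if_true, if_false]
            exact (hg v hv).2.2 u huv.symm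
          · simp only [hu, hv, if_false]
            exact hne
      · intro c hc
        exact Finset.mem_erase.mpr ⟨fun h => hc0S (h ▸ hc), hSP hc⟩
      · intro c hc
        obtain ⟨u, hu, hu'⟩ := hS c hc
        have hcc : c ≠ c0 := fun h => hc0S (h ▸ hc)
        refine ⟨u, ?_, ?_⟩
        · have : φ u ≠ c0 := by rw [hu]; exact hcc
          simp only [this, if_false]
          exact hu
        · intro c' hc' hne
          obtain ⟨h1, h2⟩ := Finset.mem_erase.mp hc'
          obtain ⟨w, hw, hw'⟩ := hu' c' h2 hne
          refine ⟨w, hw, ?_⟩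
          have : φ w ≠ c0 := by rw [hw']; exact h1
          simp only [this, if_false]
          exact hw'

theorem card_le_bChrom {V C : Type} [Fintype V] [DecidableEq C] (G : SimpleGraph V)
    (φ : V → C) (P S : Finset C) (hP : ∀ v, φ v ∈ P) (hφ : ∀ u v, G.Adj u v → φ u ≠ φ v)
    (hSP : S ⊆ P)
    (hS : ∀ c ∈ S, ∃ u, φ u = c ∧ ∀ c' ∈ P, c' ≠ c → ∃ w, G.Adj u w ∧ φ w = c') :
    S.card ≤ bChrom G :=
  card_le_bChrom_aux G P.card φ P S rfl hP hφ hSP hS

open Classical in
theorem mDegree_spec {V : Type} [Fintype V] (G : SimpleGraph V) :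
    mDegree G ≤ (Finset.univ.filter (fun v => mDegree G - 1 ≤ (nbr G v).card)).card ∧
    (Finset.univ.filter (fun v => mDegree G ≤ (nbr G v).card)).card ≤ mDegree G := by
  have hb : BddAbove {m | m ≤ (Finset.univ.filter (fun v => m - 1 ≤ (nbr G v).card)).card} := by
    refine ⟨Fintype.card V, ?_⟩
    intro m hm
    exact le_trans hm (Finset.card_filter_le _ _)
  have hne : {m | m ≤ (Finset.univ.filter (fun v => m - 1 ≤ (nbr G v).card)).card}.Nonempty :=
    ⟨0, Nat.zero_le _⟩
  refine ⟨Nat.sSup_mem hne hb, ?_⟩
  by_contra h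
  push Not at h
  have h1 : mDegree G + 1 ∈
      {m | m ≤ (Finset.univ.filter (fun v => m - 1 ≤ (nbr G v).card)).card} := by
    show mDegree G + 1 ≤ (Finset.univ.filter (fun v => mDegree G + 1 - 1 ≤ (nbr G v).card)).card
    simpa using h
  have h2 : mDegree G + 1 ≤ mDegree G := le_csSup hb h1
  omega

end Pool.Agent.Helper95.BC
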