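import Pool.Agent.Helper95.BC.Defs

/-!
# The choice of the rows (piece B)
-/

set_option autoImplicit false

namespace Pool.Agent.Helper95.BC

open Finset

open Classical in
/-- sets with pairwise intersections of at most one point -/
theorem sum_card_le_biUnion {V : Type} (S : Finset V) (A : V → Finset V)
    (h : ∀ x ∈ S, ∀ y ∈ S, x ≠ y → (A x ∩ A y).card ≤ 1) :
    ∑ x ∈ S, (A x).card ≤ (S.biUnion A).card + S.card ^ 2 := by
  induction S using Finset.induction_on with
  | empty => simp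
  | insert x S hx ih =>
    have h1 := ih (fun a ha b hb hab => h a (Finset.mem_insert_of_mem ha) b
      (Finset.mem_insert_of_mem hb) hab)
    rw [Finset.sum_insert hx, Finset.biUnion_insert, Finset.card_insert_of_notMem hx]
    have h2 := Finset.card_union_add_card_inter (A x) (S.biUnion A)
    have h3 : (A x ∩ S.biUnion A).card ≤ S.card := by
      rw [Finset.inter_biUnion]
      refine Finset.card_biUnion_le.trans ?_
      refine (Finset.sum_le_card_nsmul S _ 1 fun y hy => ?_).trans (by simp)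
      exact h x (Finset.mem_insert_self _ _) y (Finset.mem_insert_of_mem hy)
        (fun e => hx (e ▸ hy))
    nlinarith

open Classical in
theorem card_big {V : Type} [Fintype V] {G : SimpleGraph V} (hC4 : C4Free G) (U : Finset V)
    (m t : ℕ) (δ : ℝ) (hU : U.card ≤ m) (ht : 8 ≤ δ * t) (htm : t ^ 2 < m) :
    (Finset.univ.filter (fun x => δ * m / 4 < ((nbr G x ∩ U).card : ℝ))).card ≤ t := by
  by_contra hlt
  rw [not_le] at hlt
  obtain ⟨S, hS, hSt⟩ := Finset.exists_subset_card_eq hlt.le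
  have h1 := sum_card_le_biUnion S (fun x => nbr G x ∩ U) (by
    intro x _ y _ hxy
    refine (Finset.card_le_card ?_).trans (hC4.card_le_one hxy)
    intro z hz
    simp only [Finset.mem_inter] at hz ⊢
    exact ⟨hz.1.1, hz.2.1⟩)
  have h2 : (S.biUnion (fun x => nbr G x ∩ U)).card ≤ m := by
    refine (Finset.card_le_card ?_).trans hU
    intro z hz
    obtain ⟨x, _, hx⟩ := Finset.mem_biUnion.1 hz
    exact (Finset.mem_inter.1 hx).2
  have h3 : (t : ℝ) * (δ * m / 4) ≤ ∑ x ∈ S, ((nbr G x ∩ U).card : ℝ) := by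
    rw [← hSt, ← nsmul_eq_mul, ← Finset.sum_const]
    refine Finset.sum_le_sum fun x hx => ?_
    exact (Finset.mem_filter.1 (hS hx)).2.le
  have h4 : (∑ x ∈ S, ((nbr G x ∩ U).card : ℝ)) ≤ m + (t : ℝ) ^ 2 := by
    have h5 : ∑ x ∈ S, (nbr G x ∩ U).card ≤ m + t ^ 2 := by
      rw [← hSt]
      rw [hSt] at h1
      rw [hSt]
      omega
    exact_mod_cast h5
  have h6 : ((t ^ 2 : ℕ) : ℝ) < m := by exact_mod_cast htm
  push_cast at h6
  have h7 : (0 : ℝ) ≤ m := by positivity
  nlinarith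

open Classical in
/-- few neighbours of `i` have more than `T` neighbours in `D` -/
theorem card_heavy {V : Type} [Fintype V] {G : SimpleGraph V} (hC4 : C4Free G) (D : Finset V)
    (T : ℕ) (i : V) :
    ((nbr G i).filter (fun v => T < (nbr G v ∩ D).card)).card * T ≤ D.card := by
  set B := (nbr G i).filter (fun v => T < (nbr G v ∩ D).card) with hB
  have h1 : ∀ v ∈ B, T ≤ ((nbr G v ∩ D).erase i).card := by
    intro v hv
    have h2 := (Finset.mem_filter.1 hv).2
    have h3 := Finset.pred_card_le_card_erase (s := nbr G v ∩ D) (a := i)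
    omega
  have h2 : (B.biUnion (fun v => (nbr G v ∩ D).erase i)).card =
      ∑ v ∈ B, ((nbr G v ∩ D).erase i).card := by
    refine Finset.card_biUnion ?_
    intro v hv w hw hvw
    rw [Finset.mem_coe] at hv hw
    rw [Function.onFun, Finset.disjoint_left]
    intro z hz hz'
    rw [Finset.mem_erase, Finset.mem_inter, mem_nbr] at hz hz'
    have hiv := mem_nbr.1 (Finset.mem_filter.1 hv).1
    have hiw := mem_nbr.1 (Finset.mem_filter.1 hw).1
    exact hC4 i z v w (Ne.symm hz.1) hvw hiv hz.2.1 hz'.2.1.symm hiw.symm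
  have h3 : (B.biUnion (fun v => (nbr G v ∩ D).erase i)).card ≤ D.card := by
    refine Finset.card_le_card ?_
    intro z hz
    obtain ⟨v, _, hv⟩ := Finset.mem_biUnion.1 hz
    exact (Finset.mem_inter.1 (Finset.mem_erase.1 hv).2).2
  have h4 : B.card * T ≤ ∑ v ∈ B, ((nbr G v ∩ D).erase i).card := by
    rw [← smul_eq_mul]
    exact Finset.card_nsmul_le_sum B _ T h1
  omega

open Classical in
theorem setup (ε δ : ℝ) (hε0 : 0 < ε) (hε1 : ε ≤ 1 / 4) (hδ0 : 0 < δ) (hδ1 : δ ≤ ε) :
    ∃ T t₀ m₀ : ℕ, ∀ m : ℕ, m₀ ≤ m → ∀ (V : Type) [Fintype V] (G : SimpleGraph V), C4Free G →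
      m ≤ (Finset.univ.filter (fun v => m - 1 ≤ (nbr G v).card)).card →
      (Finset.univ.filter (fun v => m ≤ (nbr G v).card)).card ≤ m →
      ∃ (D E Hx I : Finset V) (W : V → Finset V),
        D.card = ⌊(1 - ε) * m⌋₊ ∧ E.card ≤ t₀ ∧ Hx.card + D.card ≤ m ∧
        Disjoint D E ∧ Disjoint D Hx ∧ Disjoint E Hx ∧
        (∀ v, m ≤ (nbr G v).card → v ∈ D ∪ E ∪ Hx) ∧
        (∀ y, y ∉ D ∪ E ∪ Hx → ((nbr G y ∩ (D ∪ E ∪ Hx)).card : ℝ) ≤ δ * m) ∧
        (∀ h ∈ Hx, ((nbr G h ∩ D).card : ℝ) ≤ δ * m) ∧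
        I ⊆ D ∧ D.card ≤ I.card + t₀ ∧
        (∀ i ∈ I, W i ⊆ nbr G i ∧ (W i).card = ⌈(1 - δ) * m⌉₊ ∧
          Disjoint (W i) (D ∪ E ∪ Hx) ∧ ∀ v ∈ W i, (nbr G v ∩ D).card ≤ T) := by
  obtain ⟨t, ht⟩ := exists_nat_ge (8 / δ)
  have ht8 : 8 ≤ δ * t := by rwa [div_le_iff₀' hδ0] at ht
  obtain ⟨m₁, hm₁⟩ := exists_nat_ge (8 * (t + 2) / δ)
  refine ⟨t, t, max m₁ (t ^ 2 + 1), fun m hm V _ G hC4 hA hH => ?_⟩
  have hm1 : m₁ ≤ m := (le_max_left _ _).trans hm
  have htm : t ^ 2 < m := (Nat.lt_succ_self _).trans_le ((le_max_right _ _).trans hm)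
  have hmδ : 8 * ((t : ℝ) + 2) ≤ δ * m := by
    have h1 : 8 * ((t : ℝ) + 2) / δ ≤ m := hm₁.trans (by exact_mod_cast hm1)
    rwa [div_le_iff₀' hδ0] at h1
  set A : Finset V := Finset.univ.filter (fun v => m - 1 ≤ (nbr G v).card) with hAdef
  set H : Finset V := Finset.univ.filter (fun v => m ≤ (nbr G v).card) with hHdef
  set n : ℕ := ⌊(1 - ε) * m⌋₊ with hn
  have hm0 : (0 : ℝ) ≤ m := by positivity
  have hnm : n ≤ m := by
    have h1 : (n : ℝ) ≤ (1 - ε) * m := Nat.floor_le (by nlinarith)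
    have h2 : (n : ℝ) ≤ m := by nlinarith
    exact_mod_cast h2
  have hHA : H ⊆ A := by
    intro v hv
    rw [hHdef, Finset.mem_filter] at hv
    rw [hAdef, Finset.mem_filter]
    exact ⟨hv.1, by omega⟩
  obtain ⟨D, hDA, hDn, hDH⟩ : ∃ D : Finset V, D ⊆ A ∧ D.card = n ∧ (D ∪ H).card ≤ m := by
    rcases le_total H.card n with h | h
    · obtain ⟨D, hD1, hD2, hD3⟩ := Finset.exists_subsuperset_card_eq hHA h (hnm.trans hA)
      refine ⟨D, hD2, hD3, ?_⟩
      rw [Finset.union_eq_left.2 hD1, hD3]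
      exact hnm
    · obtain ⟨D, hD1, hD2⟩ := Finset.exists_subset_card_eq h
      refine ⟨D, hD1.trans hHA, hD2, ?_⟩
      rw [Finset.union_eq_right.2 hD1]
      exact hH
  set U : Finset V := D ∪ H with hU
  set Big : Finset V := Finset.univ.filter (fun x => δ * m / 4 < ((nbr G x ∩ U).card : ℝ))
    with hBig
  have hBigt : Big.card ≤ t := card_big hC4 U m t δ hDH ht8 htm
  have hnB : ∀ x, x ∉ Big → ((nbr G x ∩ U).card : ℝ) ≤ δ * m / 4 := by
    intro x hx
    by_contra h
    exact hx (Finset.mem_filter.2 ⟨Finset.mem_univ _, not_le.1 h⟩)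
  set E : Finset V := Big \ D with hE
  set Hx : Finset V := (H \ D) \ Big with hHx
  set P₀ : Finset V := D ∪ E ∪ Hx with hP₀
  have hEt : E.card ≤ t := (Finset.card_le_card Finset.sdiff_subset).trans hBigt
  have hP₀U : P₀ ⊆ U ∪ E := by
    intro v hv
    simp only [hP₀, hHx, hU, Finset.mem_union, Finset.mem_sdiff] at hv ⊢
    tauto
  -- neighbours in `P₀` of vertices which are not big
  have hNP : ∀ y, y ∉ Big → ((nbr G y ∩ P₀).card : ℝ) ≤ δ * m / 4 + t := by
    intro y hy
    have h1 : nbr G y ∩ P₀ ⊆ (nbr G y ∩ U) ∪ E := by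
      intro z hz
      rw [Finset.mem_inter] at hz
      rw [Finset.mem_union, Finset.mem_inter]
      rcases Finset.mem_union.1 (hP₀U hz.2) with h | h
      · exact Or.inl ⟨hz.1, h⟩
      · exact Or.inr h
    have h2 := (Finset.card_le_card h1).trans (Finset.card_union_le _ _)
    have h3 : ((nbr G y ∩ P₀).card : ℝ) ≤ (nbr G y ∩ U).card + E.card := by exact_mod_cast h2
    have h4 : (E.card : ℝ) ≤ t := by exact_mod_cast hEt
    have h5 := hnB y hy
    linarith
  have ht0 : (0 : ℝ) ≤ t := by positivity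
  -- the rows
  set Gd : V → Finset V := fun i =>
    (nbr G i \ P₀).filter (fun v => (nbr G v ∩ D).card ≤ t) with hGd
  have hrow : ∀ i ∈ D \ Big, ⌈(1 - δ) * m⌉₊ ≤ (Gd i).card := by
    intro i hi
    rw [Finset.mem_sdiff] at hi
    have hdeg : m - 1 ≤ (nbr G i).card := (Finset.mem_filter.1 (hDA hi.1)).2
    have hdeg' : (m : ℝ) ≤ (nbr G i).card + 1 := by
      have : m ≤ (nbr G i).card + 1 := by omega
      exact_mod_cast this
    have h1 := card_heavy hC4 D t i
    have h2 : (((nbr G i).filter (fun v => t < (nbr G v ∩ D).card)).card : ℝ) * t ≤ m := by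
      have h3 : ((nbr G i).filter (fun v => t < (nbr G v ∩ D).card)).card * t ≤ m :=
        h1.trans (by rw [hDn]; exact hnm)
      exact_mod_cast h3
    have h3 : (((nbr G i).filter (fun v => t < (nbr G v ∩ D).card)).card : ℝ) ≤ δ * m / 8 := by
      have h4 : (0 : ℝ) < t := by
        by_contra h
        have : (t : ℝ) = 0 := le_antisymm (not_lt.1 h) ht0
        rw [this] at ht8
        linarith
      have h5 : (((nbr G i).filter (fun v => t < (nbr G v ∩ D).card)).card : ℝ) * t ≤
          δ * m / 8 * t := by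
        refine h2.trans ?_
        nlinarith
      exact le_of_mul_le_mul_right h5 h4
    have h4 : nbr G i ⊆ (nbr G i ∩ P₀) ∪
        ((nbr G i).filter (fun v => t < (nbr G v ∩ D).card)) ∪ Gd i := by
      intro v hv
      simp only [hGd, Finset.mem_union, Finset.mem_inter, Finset.mem_filter, Finset.mem_sdiff]
      by_cases h5 : v ∈ P₀
      · exact Or.inl (Or.inl ⟨hv, h5⟩)
      · by_cases h6 : (nbr G v ∩ D).card ≤ t
        · exact Or.inr ⟨⟨hv, h5⟩, h6⟩
        · exact Or.inl (Or.inr ⟨hv, not_le.1 h6⟩)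
    have h5 : ((nbr G i).card : ℝ) ≤ (nbr G i ∩ P₀).card +
        ((nbr G i).filter (fun v => t < (nbr G v ∩ D).card)).card + (Gd i).card := by
      have h6 := (Finset.card_le_card h4).trans ((Finset.card_union_le _ _).trans
        (Nat.add_le_add_right (Finset.card_union_le _ _) _))
      exact_mod_cast h6
    have h6 := hNP i hi.2
    refine Nat.ceil_le.2 ?_
    linarith
  have hch : ∀ i, ∃ w : Finset V, i ∈ D \ Big → w ⊆ Gd i ∧ w.card = ⌈(1 - δ) * m⌉₊ := by
    intro i
    by_cases hi : i ∈ D \ Big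
    · obtain ⟨w, hw1, hw2⟩ := Finset.exists_subset_card_eq (hrow i hi)
      exact ⟨w, fun _ => ⟨hw1, hw2⟩⟩
    · exact ⟨∅, fun h => absurd h hi⟩
  choose W hW using hch
  refine ⟨D, E, Hx, D \ Big, W, hDn, hEt, ?_, ?_, ?_, ?_, ?_, ?_, ?_, Finset.sdiff_subset, ?_,
    ?_⟩
  · have h1 : Disjoint Hx D := by
      rw [Finset.disjoint_left]
      intro v hv hv'
      simp only [hHx, Finset.mem_sdiff] at hv
      exact hv.1.2 hv'
    rw [← Finset.card_union_of_disjoint h1]
    refine (Finset.card_le_card ?_).trans hDH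
    intro v hv
    simp only [hHx, hU, Finset.mem_union, Finset.mem_sdiff] at hv ⊢
    tauto
  · rw [Finset.disjoint_left]
    intro v hv hv'
    exact (Finset.mem_sdiff.1 hv').2 hv
  · rw [Finset.disjoint_left]
    intro v hv hv'
    simp only [hHx, Finset.mem_sdiff] at hv'
    exact hv'.1.2 hv
  · rw [Finset.disjoint_left]
    intro v hv hv'
    simp only [hE, Finset.mem_sdiff] at hv
    simp only [hHx, Finset.mem_sdiff] at hv'
    exact hv'.2 hv.1
  · intro v hv
    have h1 : v ∈ H := Finset.mem_filter.2 ⟨Finset.mem_univ _, hv⟩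
    simp only [hE, hHx, Finset.mem_union, Finset.mem_sdiff]
    tauto
  · intro y hy
    have h1 : y ∉ Big := by
      intro h
      apply hy
      simp only [hE, hHx, Finset.mem_union, Finset.mem_sdiff]
      tauto
    have h2 := hNP y h1
    linarith
  · intro h hh
    have h1 : h ∉ Big := by
      simp only [hHx, Finset.mem_sdiff] at hh
      exact hh.2
    have h2 := hnB h h1
    have h3 : ((nbr G h ∩ D).card : ℝ) ≤ (nbr G h ∩ U).card := by
      have h4 : nbr G h ∩ D ⊆ nbr G h ∩ U :=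
        Finset.inter_subset_inter_left (by rw [hU]; exact Finset.subset_union_left)
      exact_mod_cast Finset.card_le_card h4
    have h4 : 0 ≤ δ * m := by positivity
    linarith
  · have h1 : D ⊆ (D \ Big) ∪ Big := by
      intro v hv
      simp only [Finset.mem_union, Finset.mem_sdiff]
      tauto
    have h2 := (Finset.card_le_card h1).trans (Finset.card_union_le _ _)
    omega
  · intro i hi
    obtain ⟨h1, h2⟩ := hW i hi
    refine ⟨fun v hv => ?_, h2, ?_, fun v hv => ?_⟩
    · have h3 := h1 hv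
      simp only [hGd, Finset.mem_filter, Finset.mem_sdiff] at h3
      exact h3.1.1
    · rw [Finset.disjoint_left]
      intro v hv hv'
      have h3 := h1 hv
      simp only [hGd, Finset.mem_filter, Finset.mem_sdiff] at h3
      exact h3.1.2 hv'
    · have h3 := h1 hv
      simp only [hGd, Finset.mem_filter, Finset.mem_sdiff] at h3
      exact h3.2

end Pool.Agent.Helper95.BC
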