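import Pool.Agent.Helper95.BC.K

/-!
# Colouring of the rows with balanced columns (piece C)

The items are the vertices of the rows and dummies `(i, t)` which fill the row `i` up to `P` items;
the points are the rows and, for every `t`, a group point which contains all dummies `(i, t)`.
-/

set_option autoImplicit false
set_option linter.unusedSectionVars false

namespace Pool.Agent.Helper95.BC

open Finset

theorem mem_inter_any {α : Type} (inst : DecidableEq α) {s t : Finset α} {x : α}
    (h : x ∈ s ∩ t) : x ∈ s ∧ x ∈ t := Finset.mem_inter.1 h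

section rowSystem

variable {V : Type} [Fintype V]

open Classical in
/-- rows, groups and the edges of the graph -/
noncomputable def rowSys (G : SimpleGraph V) (I : Finset V) (W : V → Finset V) (N : ℕ) :
    Sys (V ⊕ (V × Fin N)) (V ⊕ Fin N) where
  S := fun e => match e with
    | Sum.inl v => (I.filter (fun i => v ∈ W i)).map ⟨Sum.inl, Sum.inl_injective⟩
    | Sum.inr a => {Sum.inl a.1, Sum.inr a.2}
  R := fun e f => match e, f with
    | Sum.inl v, Sum.inl w => G.Adj v w
    | _, _ => False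

open Classical in
/-- the vertices of the rows and the dummies -/
noncomputable def rowH (I : Finset V) (W : V → Finset V) (N P : ℕ) :
    Finset (V ⊕ (V × Fin N)) :=
  (univ.filter (fun v => ∃ i ∈ I, v ∈ W i)).disjSum
    (univ.filter (fun a : V × Fin N => a.1 ∈ I ∧ (a.2 : ℕ) < P - (W a.1).card))

variable {G : SimpleGraph V} {I : Finset V} {W : V → Finset V} {N P : ℕ}

theorem inl_mem_S {v i : V} :
    Sum.inl i ∈ (rowSys G I W N).S (Sum.inl v) ↔ i ∈ I ∧ v ∈ W i := by
  simp [rowSys]

theorem inr_mem_S {v : V} {t : Fin N} :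
    Sum.inr t ∈ (rowSys G I W N).S (Sum.inl v) ↔ False := by
  simp [rowSys]

theorem inl_mem_S' {a : V × Fin N} {i : V} :
    Sum.inl i ∈ (rowSys G I W N).S (Sum.inr a) ↔ i = a.1 := by
  simp [rowSys]

theorem inr_mem_S' {a : V × Fin N} {t : Fin N} :
    Sum.inr t ∈ (rowSys G I W N).S (Sum.inr a) ↔ t = a.2 := by
  simp [rowSys]

theorem R_iff {v w : V} : (rowSys G I W N).R (Sum.inl v) (Sum.inl w) ↔ G.Adj v w := Iff.rfl

theorem not_R_left {a : V × Fin N} {f : V ⊕ (V × Fin N)} :
    ¬ (rowSys G I W N).R (Sum.inr a) f := by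
  intro h
  exact h

theorem not_R_right {a : V × Fin N} {e : V ⊕ (V × Fin N)} :
    ¬ (rowSys G I W N).R e (Sum.inr a) := by
  intro h
  cases e <;> exact h

theorem inl_mem_H {v : V} : Sum.inl v ∈ rowH I W N P ↔ ∃ i ∈ I, v ∈ W i := by
  simp [rowH]

theorem inr_mem_H {a : V × Fin N} :
    Sum.inr a ∈ rowH I W N P ↔ a.1 ∈ I ∧ (a.2 : ℕ) < P - (W a.1).card := by
  simp [rowH]

open Classical in
theorem card_att_row {i : V} (hi : i ∈ I) (hPN : P ≤ N) (hW : (W i).card ≤ P) :
    (att (rowSys G I W N) (rowH I W N P) (Sum.inl i)).card = P := by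
  have h1 : att (rowSys G I W N) (rowH I W N P) (Sum.inl i) =
      (W i).disjSum ((univ.filter (fun t : Fin N => (t : ℕ) < P - (W i).card)).map
        ⟨fun t => (i, t), fun s t hst => (Prod.mk.inj hst).2⟩) := by
    ext e
    rw [mem_att]
    cases e with
    | inl v =>
      rw [inl_mem_H, inl_mem_S, Finset.inl_mem_disjSum]
      constructor
      · exact fun h => h.2.2
      · exact fun h => ⟨⟨i, hi, h⟩, hi, h⟩
    | inr a =>
      obtain ⟨j, t⟩ := a
      rw [inr_mem_H, inl_mem_S', Finset.inr_mem_disjSum, Finset.mem_map]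
      constructor
      · rintro ⟨⟨h1, h2⟩, h3⟩
        simp only at h3 h2
        subst h3
        exact ⟨t, by simpa using h2, rfl⟩
      · rintro ⟨s, hs, hst⟩
        have h4 : i = j ∧ s = t := Prod.mk.inj hst
        obtain ⟨rfl, rfl⟩ := h4
        exact ⟨⟨hi, by simpa using hs⟩, rfl⟩
  rw [h1, Finset.card_disjSum, Finset.card_map]
  have h2 : (univ.filter (fun t : Fin N => (t : ℕ) < P - (W i).card)).card = P - (W i).card := by
    rw [Fin.card_filter_val_lt]
    omega
  rw [h2]
  omega

open Classical in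
theorem att_row_eq_empty {i : V} (hi : i ∉ I) :
    att (rowSys G I W N) (rowH I W N P) (Sum.inl i) = ∅ := by
  rw [Finset.eq_empty_iff_forall_notMem]
  intro e he
  rw [mem_att] at he
  cases e with
  | inl v =>
    rw [inl_mem_S] at he
    exact hi he.2.1
  | inr a =>
    rw [inl_mem_S', inr_mem_H] at he
    rw [he.2] at hi
    exact hi he.1.1

open Classical in
theorem card_att_group (t : Fin N) :
    (att (rowSys G I W N) (rowH I W N P) (Sum.inr t)).card ≤ I.card := by
  have h1 : att (rowSys G I W N) (rowH I W N P) (Sum.inr t) ⊆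
      I.map ⟨fun i => Sum.inr (i, t), fun i j hij => (Prod.mk.inj (Sum.inr.inj hij)).1⟩ := by
    intro e he
    rw [mem_att] at he
    cases e with
    | inl v =>
      rw [inr_mem_S] at he
      exact he.2.elim
    | inr a =>
      rw [inr_mem_S', inr_mem_H] at he
      rw [Finset.mem_map]
      exact ⟨a.1, he.1.1, by rw [he.2]; rfl⟩
  have := Finset.card_le_card h1
  rwa [Finset.card_map] at this

open Classical in
theorem rowGood (T : ℕ) (γ : ℝ) (m : ℕ) (hγ0 : 0 < γ) (hγ1 : γ ≤ 1 / 2) (hC4 : C4Free G)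
    (hI : I.card ≤ m) (hmP : m ≤ P) (hPN : P ≤ N) (hP : (P : ℝ) ≤ (1 - γ) * N) (hN : 0 < N)
    (hW : ∀ i ∈ I, W i ⊆ nbr G i ∧ (W i).card ≤ m ∧ Disjoint (W i) I)
    (hv : ∀ i ∈ I, ∀ v ∈ W i, (nbr G v).card ≤ m ∧ (I.filter (fun j => v ∈ W j)).card ≤ T) :
    Good (rowSys G I W N) (T + 2) 2 (T + 2 + 2) N 1 (1 - γ) (rowH I W N P)
      (fun _ (_ : Fin N) => (1 : ℝ) / N) := by
  have hN' : (0 : ℝ) < N := by exact_mod_cast hN
  have hdeg : ∀ v, (att (rowSys G I W N) (rowH I W N P) v).card ≤ P := by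
    intro v
    cases v with
    | inl i =>
      by_cases hi : i ∈ I
      · exact (card_att_row hi hPN ((hW i hi).2.1.trans hmP)).le
      · rw [att_row_eq_empty hi]
        simp
    | inr t => exact (card_att_group t).trans (hI.trans hmP)
  have hrdeg : ∀ e ∈ rowH I W N P,
      (nr (rowSys G I W N) (rowH I W N P) e).card ≤ m := by
    intro e he
    cases e with
    | inl v =>
      obtain ⟨i, hi, hvi⟩ := inl_mem_H.1 he
      have h1 : nr (rowSys G I W N) (rowH I W N P) (Sum.inl v) ⊆
          (nbr G v).map ⟨Sum.inl, Sum.inl_injective⟩ := by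
        intro f hf
        rw [mem_nr] at hf
        cases f with
        | inl w =>
          rw [Finset.mem_map]
          exact ⟨w, mem_nbr.2 (R_iff.1 hf.2), rfl⟩
        | inr a => exact (not_R_right hf.2).elim
      have h2 := Finset.card_le_card h1
      rw [Finset.card_map] at h2
      exact h2.trans (hv i hi v hvi).1
    | inr a =>
      have h1 : nr (rowSys G I W N) (rowH I W N P) (Sum.inr a) = ∅ := by
        rw [Finset.eq_empty_iff_forall_notMem]
        intro f hf
        rw [mem_nr] at hf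
        exact not_R_left hf.2
      rw [h1]
      simp
  refine
    { hq := by norm_num
      hB := le_rfl
      sym := ?_
      irr := ?_
      lin := ?_
      size := ?_
      ne := ?_
      deg := fun v => (hdeg v).trans hPN
      rdeg := fun e he => (hrdeg e he).trans (hmP.trans hPN)
      rlin := ?_
      c4 := ?_
      nonneg := fun _ _ _ => by positivity
      le := fun _ _ _ => le_rfl
      sum := ?_
      supp := ?_
      vc := ?_
      rc := ?_ }
  · intro e f hef
    cases e with
    | inl v =>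
      cases f with
      | inl w => exact (R_iff.1 hef).symm
      | inr a => exact (not_R_right hef).elim
    | inr a => exact (not_R_left hef).elim
  · intro e
    cases e with
    | inl v => exact fun h => G.irrefl (R_iff.1 h)
    | inr a => exact not_R_left
  · -- lin
    intro e he f hf hef
    rw [Finset.card_le_one]
    intro x hx y hy
    replace hx := mem_inter_any _ hx
    replace hy := mem_inter_any _ hy
    cases e with
    | inl v =>
      cases f with
      | inl w =>
        have hvw : v ≠ w := fun h => hef (by rw [h])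
        cases x with
        | inl i =>
          cases y with
          | inl j =>
            rw [inl_mem_S, inl_mem_S] at hx hy
            by_contra hxy
            have hij : i ≠ j := fun h => hxy (by rw [h])
            have h1 := hC4 v w i j hvw hij
            have a1 : G.Adj i v := mem_nbr.1 ((hW i hx.1.1).1 hx.1.2)
            have a2 : G.Adj i w := mem_nbr.1 ((hW i hx.1.1).1 hx.2.2)
            have a3 : G.Adj j v := mem_nbr.1 ((hW j hy.1.1).1 hy.1.2)
            have a4 : G.Adj j w := mem_nbr.1 ((hW j hy.1.1).1 hy.2.2)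
            exact h1 a1.symm a2 a4.symm a3
          | inr t => exact (inr_mem_S.1 hy.1).elim
        | inr t => exact (inr_mem_S.1 hx.1).elim
      | inr b =>
        cases x with
        | inl i =>
          cases y with
          | inl j =>
            rw [inl_mem_S'.1 hx.2, inl_mem_S'.1 hy.2]
          | inr t => exact (inr_mem_S.1 hy.1).elim
        | inr t => exact (inr_mem_S.1 hx.1).elim
    | inr a =>
      cases f with
      | inl w =>
        cases x with
        | inl i =>
          cases y with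
          | inl j =>
            rw [inl_mem_S'.1 hx.1, inl_mem_S'.1 hy.1]
          | inr t => exact (inr_mem_S.1 hy.2).elim
        | inr t => exact (inr_mem_S.1 hx.2).elim
      | inr b =>
        cases x with
        | inl i =>
          cases y with
          | inl j =>
            rw [inl_mem_S'.1 hx.1, inl_mem_S'.1 hy.1]
          | inr t =>
            have h1 := (inl_mem_S'.1 hx.1).symm.trans (inl_mem_S'.1 hx.2)
            have h2 := (inr_mem_S'.1 hy.1).symm.trans (inr_mem_S'.1 hy.2)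
            exact (hef (by rw [Prod.ext h1 h2])).elim
        | inr t =>
          cases y with
          | inl j =>
            have h1 := (inl_mem_S'.1 hy.1).symm.trans (inl_mem_S'.1 hy.2)
            have h2 := (inr_mem_S'.1 hx.1).symm.trans (inr_mem_S'.1 hx.2)
            exact (hef (by rw [Prod.ext h1 h2])).elim
          | inr s =>
            rw [inr_mem_S'.1 hx.1, inr_mem_S'.1 hy.1]
  · -- size
    intro e he
    cases e with
    | inl v =>
      obtain ⟨i, hi, hvi⟩ := inl_mem_H.1 he
      have h1 := (hv i hi v hvi).2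
      have h2 : ((rowSys G I W N).S (Sum.inl v)).card = (I.filter (fun i => v ∈ W i)).card := by
        simp only [rowSys, Finset.card_map]
      omega
    | inr a =>
      have h2 : ((rowSys G I W N).S (Sum.inr a)).card ≤ 2 := by
        simp only [rowSys]
        exact Finset.card_le_two
      omega
  · -- ne
    intro e he
    cases e with
    | inl v =>
      obtain ⟨i, hi, hvi⟩ := inl_mem_H.1 he
      exact ⟨Sum.inl i, inl_mem_S.2 ⟨hi, hvi⟩⟩
    | inr a => exact ⟨Sum.inl a.1, inl_mem_S'.2 rfl⟩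
  · -- rlin
    intro e he x
    rw [Finset.card_le_one]
    intro f hf g hg
    rw [Finset.mem_inter, mem_att, mem_nr] at hf hg
    cases e with
    | inr a => exact (not_R_left hf.2.2).elim
    | inl v =>
      cases f with
      | inr b => exact (not_R_right hf.2.2).elim
      | inl w =>
        cases g with
        | inr b => exact (not_R_right hg.2.2).elim
        | inl u =>
          cases x with
          | inr t => exact (inr_mem_S.1 hf.1.2).elim
          | inl i =>
            rw [inl_mem_S] at hf hg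
            obtain ⟨j, hj, hvj⟩ := inl_mem_H.1 he
            have hvi : v ≠ i := by
              rintro rfl
              exact Finset.disjoint_left.1 (hW j hj).2.2 hvj hf.1.2.1
            by_contra hwu
            have hwu' : w ≠ u := fun h => hwu (by rw [h])
            have a1 : G.Adj i w := mem_nbr.1 ((hW i hf.1.2.1).1 hf.1.2.2)
            have a2 : G.Adj i u := mem_nbr.1 ((hW i hg.1.2.1).1 hg.1.2.2)
            exact hC4 v i w u hvi hwu' (R_iff.1 hf.2.2) a1.symm a2 (R_iff.1 hg.2.2).symm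
  · -- c4
    intro e he f hf hef
    rw [Finset.card_le_one]
    intro x hx y hy
    rw [Finset.mem_inter, mem_nr, mem_nr] at hx hy
    cases e with
    | inr a => exact (not_R_left hx.1.2).elim
    | inl v =>
      cases f with
      | inr a => exact (not_R_left hx.2.2).elim
      | inl w =>
        cases x with
        | inr a => exact (not_R_right hx.1.2).elim
        | inl a =>
          cases y with
          | inr b => exact (not_R_right hy.1.2).elim
          | inl b =>
            by_contra hab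
            have hab' : a ≠ b := fun h => hab (by rw [h])
            have hvw : v ≠ w := fun h => hef (by rw [h])
            exact hC4 v w a b hvw hab' (R_iff.1 hx.1.2) (R_iff.1 hx.2.2).symm
              (R_iff.1 hy.2.2) (R_iff.1 hy.1.2).symm
  · intro e he
    rw [Finset.sum_const, Finset.card_univ, Fintype.card_fin, nsmul_eq_mul]
    field_simp
  · intro e he
    have h1 := Finset.card_filter_le (univ : Finset (Fin N)) (fun _ => (1 : ℝ) / N ≠ 0)
    rw [Finset.card_univ, Fintype.card_fin] at h1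
    omega
  · intro v c
    rw [Finset.sum_const, nsmul_eq_mul, mul_one_div, div_le_iff₀ hN']
    exact le_trans (by exact_mod_cast hdeg v) hP
  · intro e he c
    rw [Finset.sum_const, nsmul_eq_mul, mul_one_div, div_le_iff₀ hN']
    have h1 : ((nr (rowSys G I W N) (rowH I W N P) e).card : ℝ) ≤ P := by
      exact_mod_cast (hrdeg e he).trans hmP
    have h2 : (1 - γ) * N ≤ (2 : ℕ) * (1 - γ) * N := by
      push_cast
      nlinarith
    linarith

open Classical in
/-- the colouring of all items -/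
theorem exists_psi (T : ℕ) (γ : ℝ) (m : ℕ) (hγ0 : 0 < γ) (hγ1 : γ ≤ 1 / 2) (hC4 : C4Free G)
    (hI : I.card ≤ m) (hmP : m ≤ P) (hPN : P ≤ N) (hP : (P : ℝ) ≤ (1 - γ) * N) (hN : 0 < N)
    (hW : ∀ i ∈ I, W i ⊆ nbr G i ∧ (W i).card ≤ m ∧ Disjoint (W i) I)
    (hv : ∀ i ∈ I, ∀ v ∈ W i, (nbr G v).card ≤ m ∧ (I.filter (fun j => v ∈ W j)).card ≤ T)
    (hcore : Good (rowSys G I W N) (T + 2) 2 (T + 2 + 2) N 1 (1 - γ) (rowH I W N P)
      (fun _ (_ : Fin N) => (1 : ℝ) / N) → HasCol (rowSys G I W N) (rowH I W N P)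
      (fun _ (_ : Fin N) => (1 : ℝ) / N)) :
    ∃ ψ : V ⊕ (V × Fin N) → Fin N, ∀ e ∈ rowH I W N P, ∀ f ∈ rowH I W N P, e ≠ f →
      (¬ Disjoint ((rowSys G I W N).S e) ((rowSys G I W N).S f) ∨ (rowSys G I W N).R e f) →
      ψ e ≠ ψ f := by
  obtain ⟨ω, hω⟩ := hcore (rowGood T γ m hγ0 hγ1 hC4 hI hmP hPN hP hN hW hv)
  refine ⟨fun e => (ω e).getD ⟨0, hN⟩, fun e he f hf hef hR h => ?_⟩
  obtain ⟨c, -, hc1, hc2⟩ := hω e he
  obtain ⟨d, -, hd1, -⟩ := hω f hf
  simp only [hc1, hd1, Option.getD_some] at h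
  subst h
  exact hc2 f (mem_nb.2 ⟨hf, hef.symm, hR⟩) hd1

open Classical in
/-- consequences for the rows -/
theorem rows_aux (ψ : V ⊕ (V × Fin N) → Fin N)
    (hψ : ∀ e ∈ rowH I W N P, ∀ f ∈ rowH I W N P, e ≠ f →
      (¬ Disjoint ((rowSys G I W N).S e) ((rowSys G I W N).S f) ∨ (rowSys G I W N).R e f) →
      ψ e ≠ ψ f) (M : ℕ) (hPN : P ≤ N) (hWP : ∀ i ∈ I, (W i).card ≤ P)
    (hM : ∀ i ∈ I, M ≤ (W i).card) (x : ℝ) (hx : 0 < x) :
    ∃ Bad : Finset (Fin N), (Bad.card : ℝ) * x ≤ I.card * (N - P : ℕ) ∧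
      (∀ i ∈ I, Set.InjOn (fun v => ψ (Sum.inl v)) (W i : Set V)) ∧
      (∀ i ∈ I, ∀ j ∈ I, ∀ v ∈ W i, ∀ w ∈ W j, G.Adj v w → ψ (Sum.inl v) ≠ ψ (Sum.inl w)) ∧
      ∀ c, c ∉ Bad → ((I.filter (fun i => c ∉ (W i).image (fun v => ψ (Sum.inl v)))).card : ℝ) ≤
        x + (P - M : ℕ) := by
  set R : V → Finset (V ⊕ (V × Fin N)) := fun i =>
    att (rowSys G I W N) (rowH I W N P) (Sum.inl i) with hR
  have hinj : ∀ i, Set.InjOn ψ (R i : Set (V ⊕ (V × Fin N))) := by
    intro i e he f hf hef
    by_contra hne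
    rw [Finset.mem_coe, hR, mem_att] at he hf
    refine hψ e he.1 f hf.1 hne (Or.inl ?_) hef
    rw [Finset.not_disjoint_iff]
    exact ⟨_, he.2, hf.2⟩
  have hWR : ∀ i ∈ I, ∀ v ∈ W i, Sum.inl v ∈ R i := by
    intro i hi v hv
    rw [hR, mem_att, inl_mem_H, inl_mem_S]
    exact ⟨⟨i, hi, hv⟩, hi, hv⟩
  set U : Fin N → Finset V := fun c => I.filter (fun i => c ∉ (R i).image ψ) with hU
  set Bad : Finset (Fin N) := univ.filter (fun c => x < ((U c).card : ℝ)) with hBad
  refine ⟨Bad, ?_, ?_, ?_, ?_⟩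
  · have h1 : (Bad.card : ℝ) * x ≤ ∑ c ∈ Bad, ((U c).card : ℝ) := by
      rw [← nsmul_eq_mul, ← Finset.sum_const]
      refine Finset.sum_le_sum fun c hc => ?_
      rw [hBad, Finset.mem_filter] at hc
      exact hc.2.le
    have h2 : ∑ c ∈ Bad, ((U c).card : ℝ) ≤ ∑ c, ((U c).card : ℝ) :=
      Finset.sum_le_sum_of_subset_of_nonneg (Finset.subset_univ _) fun _ _ _ => by positivity
    have h3 : ∑ c, (U c).card = ∑ i ∈ I, (N - P) := by
      simp only [hU, Finset.card_filter]
      rw [Finset.sum_comm]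
      refine Finset.sum_congr rfl fun i hi => ?_
      rw [← Finset.card_filter]
      have h4 : (univ.filter (fun c => c ∉ (R i).image ψ)) = univ \ (R i).image ψ := by
        ext c
        simp
      rw [h4, Finset.card_sdiff_of_subset (Finset.subset_univ _), Finset.card_univ,
        Fintype.card_fin, Finset.card_image_of_injOn (hinj i), hR,
        card_att_row hi hPN (hWP i hi)]
    have h5 : ∑ c, ((U c).card : ℝ) = I.card * (N - P : ℕ) := by
      rw [← Nat.cast_sum, h3, Finset.sum_const, smul_eq_mul]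
      push_cast
      ring
    linarith
  · intro i hi v hv w hw hvw
    by_contra hne
    have h1 := hinj i (hWR i hi v hv) (hWR i hi w hw) hvw
    exact hne (Sum.inl_injective h1)
  · intro i hi j hj v hv w hw hvw
    exact hψ _ (inl_mem_H.2 ⟨i, hi, hv⟩) _ (inl_mem_H.2 ⟨j, hj, hw⟩)
      (fun h => hvw.ne (Sum.inl_injective h)) (Or.inr (R_iff.2 hvw))
  · intro c hc
    have hUc : ((U c).card : ℝ) ≤ x := by
      by_contra h
      exact hc (Finset.mem_filter.2 ⟨Finset.mem_univ _, not_le.1 h⟩)
    set J : Finset V := I.filter (fun i => ∃ t : Fin N, (t : ℕ) < P - (W i).card ∧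
      ψ (Sum.inr (i, t)) = c) with hJ
    have h1 : I.filter (fun i => c ∉ (W i).image (fun v => ψ (Sum.inl v))) ⊆ U c ∪ J := by
      intro i hi
      rw [Finset.mem_filter] at hi
      rw [Finset.mem_union, hU, hJ, Finset.mem_filter, Finset.mem_filter]
      by_cases h2 : c ∈ (R i).image ψ
      · right
        refine ⟨hi.1, ?_⟩
        obtain ⟨e, he, hec⟩ := Finset.mem_image.1 h2
        rw [hR, mem_att] at he
        cases e with
        | inl v =>
          exfalso
          rw [inl_mem_S] at he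
          exact hi.2 (Finset.mem_image.2 ⟨v, he.2.2, hec⟩)
        | inr a =>
          obtain ⟨j, t⟩ := a
          rw [inl_mem_S', inr_mem_H] at he
          obtain ⟨⟨h3, h4⟩, h5⟩ := he
          simp only at h5 h4
          subst h5
          exact ⟨t, h4, hec⟩
      · exact Or.inl ⟨hi.1, h2⟩
    have h2 : J.card ≤ P - M := by
      have h3 : ∀ i ∈ J, ∃ t : Fin N, (t : ℕ) < P - (W i).card ∧ ψ (Sum.inr (i, t)) = c :=
        fun i hi => (Finset.mem_filter.1 hi).2
      have : Nonempty (Fin N) := ⟨c⟩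
      choose! t ht1 ht2 using h3
      rw [← Finset.card_range (P - M)]
      refine Finset.card_le_card_of_injOn (fun i => ((t i : Fin N) : ℕ)) ?_ ?_
      · intro i hi
        have h4 := ht1 i hi
        have h5 := hM i (Finset.mem_filter.1 hi).1
        rw [Finset.coe_range, Set.mem_Iio]
        show ((t i : Fin N) : ℕ) < P - M
        omega
      · intro i hi j hj hij
        have hij' : t i = t j := Fin.ext hij
        by_contra hne
        refine hψ (Sum.inr (i, t i))
          (inr_mem_H.2 ⟨(Finset.mem_filter.1 hi).1, ht1 i hi⟩) (Sum.inr (j, t j))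
          (inr_mem_H.2 ⟨(Finset.mem_filter.1 hj).1, ht1 j hj⟩)
          (fun h => hne (Prod.mk.inj (Sum.inr.inj h)).1) (Or.inl ?_)
          ((ht2 i hi).trans (ht2 j hj).symm)
        rw [Finset.not_disjoint_iff]
        exact ⟨Sum.inr (t i), inr_mem_S'.2 rfl, inr_mem_S'.2 hij'⟩
    have h3 := (Finset.card_le_card h1).trans (Finset.card_union_le _ _)
    have h4 : ((I.filter (fun i => c ∉ (W i).image (fun v => ψ (Sum.inl v)))).card : ℝ) ≤
        (U c).card + J.card := by exact_mod_cast h3
    have h5 : (J.card : ℝ) ≤ (P - M : ℕ) := by exact_mod_cast h2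
    linarith

end rowSystem

open Classical in
/-- The rows are coloured with balanced columns (from the engine). -/
theorem rows_of (core : Core) (β δ : ℝ) (hβ0 : 0 < β) (hβ1 : β ≤ 1) (hδ0 : 0 < δ) (hδ : 32 * δ ≤ β) (T : ℕ) :
    ∃ m₀ : ℕ, ∀ m : ℕ, m₀ ≤ m → ∀ (V : Type) [Fintype V] (G : SimpleGraph V)
      (I : Finset V) (W : V → Finset V), C4Free G → I.card ≤ m →
      (∀ i ∈ I, W i ⊆ nbr G i ∧ (W i).card ≤ m ∧ (1 - δ) * m ≤ (W i).card ∧
        Disjoint (W i) I) →
      (∀ i ∈ I, ∀ v ∈ W i, (nbr G v).card ≤ m ∧ (I.filter (fun j => v ∈ W j)).card ≤ T) →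
      ∃ (φ : V → Fin ⌈(1 + δ) * m⌉₊) (Bad : Finset (Fin ⌈(1 + δ) * m⌉₊)),
        (Bad.card : ℝ) ≤ δ * m / 8 ∧
        (∀ i ∈ I, Set.InjOn φ (W i : Set V)) ∧
        (∀ i ∈ I, ∀ j ∈ I, ∀ v ∈ W i, ∀ w ∈ W j, G.Adj v w → φ v ≠ φ w) ∧
        ∀ c, c ∉ Bad → ((I.filter (fun i => c ∉ (W i).image φ)).card : ℝ) ≤ β / 2 * m := by
  have hδ1 : δ ≤ 1 / 32 := by linarith
  set γ : ℝ := δ * β / 128 with hγ
  have hγ0 : 0 < γ := by positivity
  have hγδ : γ ≤ δ / 128 := by
    rw [hγ]
    nlinarith
  have hγ1 : γ ≤ 1 / 2 := by linarith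
  obtain ⟨D0, hD0⟩ := core (T + 2) 2 (by omega) (by norm_num) γ 1 hγ0 hγ1 le_rfl
  obtain ⟨m₁, hm₁⟩ := exists_nat_ge (64 / (β * δ))
  refine ⟨max D0 (max m₁ 2), fun m hm V _ G I W hC4 hI hW hv => ?_⟩
  have hmD : D0 ≤ m := (le_max_left _ _).trans hm
  have hmm₁ : m₁ ≤ m := (le_max_left _ _).trans ((le_max_right _ _).trans hm)
  have hm2 : 2 ≤ m := (le_max_right _ _).trans ((le_max_right _ _).trans hm)
  have hm2' : (2 : ℝ) ≤ m := by exact_mod_cast hm2
  have hmR : 64 / (β * δ) ≤ m := hm₁.trans (by exact_mod_cast hmm₁)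
  have hmR' : 64 ≤ (m : ℝ) * (β * δ) := by rwa [div_le_iff₀ (by positivity)] at hmR
  set N : ℕ := ⌈(1 + δ) * m⌉₊ with hN
  have hN1 : (1 + δ) * m ≤ N := Nat.le_ceil _
  have hN2 : (N : ℝ) < (1 + δ) * m + 1 := Nat.ceil_lt_add_one (by positivity)
  have hN3 : (N : ℝ) ≤ 2 * m := by nlinarith
  have hmN : m ≤ N := by
    have : (m : ℝ) ≤ N := by nlinarith
    exact_mod_cast this
  have hN0 : 0 < N := by omega
  set P : ℕ := ⌊(1 - γ) * N⌋₊ with hPdef
  have hP1 : (P : ℝ) ≤ (1 - γ) * N := Nat.floor_le (by nlinarith)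
  have hP2 : (1 - γ) * N < P + 1 := Nat.lt_floor_add_one _
  have hmP : m ≤ P := by
    refine Nat.le_floor ?_
    have h1 : (m : ℝ) ≤ (1 - γ) * ((1 + δ) * m) := by
      have : 1 ≤ (1 - γ) * (1 + δ) := by nlinarith
      nlinarith
    nlinarith
  have hPN : P ≤ N := by
    have : (P : ℝ) ≤ N := by nlinarith
    exact_mod_cast this
  have hW' : ∀ i ∈ I, W i ⊆ nbr G i ∧ (W i).card ≤ m ∧ Disjoint (W i) I :=
    fun i hi => ⟨(hW i hi).1, (hW i hi).2.1, (hW i hi).2.2.2⟩
  obtain ⟨ψ, hψ⟩ := exists_psi (N := N) (P := P) T γ m hγ0 hγ1 hC4 hI hmP hPN hP1 hN0 hW' hv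
    (hD0 N (hmD.trans hmN) _ _ _ _ _ _)
  have hM : ∀ i ∈ I, ⌈(1 - δ) * m⌉₊ ≤ (W i).card := fun i hi => Nat.ceil_le.2 (hW i hi).2.2.1
  obtain ⟨Bad, hB, h1, h2, h3⟩ := rows_aux ψ hψ ⌈(1 - δ) * m⌉₊ hPN
    (fun i hi => (hW i hi).2.1.trans hmP) hM (β / 4 * m) (by positivity)
  refine ⟨fun v => ψ (Sum.inl v), Bad, ?_, h1, h2, fun c hc => (h3 c hc).trans ?_⟩
  · have h4 : ((N - P : ℕ) : ℝ) ≤ γ * N + 1 := by
      rw [Nat.cast_sub hPN]
      linarith
    have h5 : (I.card : ℝ) ≤ m := by exact_mod_cast hI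
    have h6 : (Bad.card : ℝ) * (β / 4 * m) ≤ m * (γ * (2 * m) + 1) := by
      refine hB.trans (mul_le_mul h5 (h4.trans ?_) (by positivity) (by positivity))
      nlinarith
    have h7 : m * (γ * (2 * m) + 1) ≤ (δ * m / 8) * (β / 4 * m) := by
      rw [hγ]
      have h8 : (m : ℝ) * 1 ≤ m * (m * (β * δ) / 64) := by
        refine mul_le_mul_of_nonneg_left ?_ (by positivity)
        linarith
      nlinarith
    have h9 : 0 < β / 4 * m := by positivity
    exact le_of_mul_le_mul_right (h6.trans h7) h9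
  · have h4 : ((P - ⌈(1 - δ) * m⌉₊ : ℕ) : ℝ) ≤ 2 * δ * m + 1 := by
      rcases le_total ⌈(1 - δ) * m⌉₊ P with h | h
      · rw [Nat.cast_sub h]
        have h5 : (1 - δ) * m ≤ (⌈(1 - δ) * m⌉₊ : ℝ) := Nat.le_ceil _
        have h6 : (P : ℝ) ≤ N := by exact_mod_cast hPN
        linarith
      · rw [Nat.sub_eq_zero_of_le h]
        have : 0 ≤ 2 * δ * m := by positivity
        simpa using by linarith
    have h5 : 1 ≤ β / 8 * m := by
      have : (m : ℝ) * (β * δ) ≤ m * (β * (1 / 32)) := by
        refine mul_le_mul_of_nonneg_left ?_ (by positivity)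
        exact mul_le_mul_of_nonneg_left hδ1 hβ0.le
      linarith
    have h6 : 2 * δ * m ≤ β / 16 * m := by
      refine mul_le_mul_of_nonneg_right ?_ (by positivity)
      linarith
    have h7 : 0 ≤ β * m := by positivity
    nlinarith

end Pool.Agent.Helper95.BC
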