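import Pool.Agent.Helper95.BC.Eng6
import Pool.Agent.Helper95.BC.C

/-!
# The consequences of the engine
-/

set_option autoImplicit false

namespace Pool.Agent.Helper95.BC

theorem core' : Core := core

end Pool.Agent.Helper95.BC
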