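import Pool.Agent.Helper61.LE.Nib4

/-!
# The random experiment of one nibble round: expectations

Adaptation of `Helper61/LE/Nib1.lean` (colour weights on the edges of a linear hypergraph). The
items form the type `X`; the item `e` has the set `T.S e` of points, and in addition there is a
graph `T.R` of further conflicts in which two distinct items have at most one common neighbour.
-/

set_option autoImplicit false
set_option linter.unusedSectionVars false

namespace Pool.Agent.Helper95.BC

open Finset Pool.Agent.Helper61.LE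

section nibble

variable {X V C : Type} [Fintype X] [DecidableEq X] [Fintype C] [DecidableEq C]

/-- Items with their sets of points and a conflict graph. -/
structure Sys (X V : Type) where
  /-- the points of an item -/
  S : X → Finset V
  /-- the conflict graph -/
  R : X → X → Prop

open Classical in
/-- the items of `H` other than `e` that have a common point with `e` or are adjacent to `e` -/
noncomputable def nb (T : Sys X V) (H : Finset X) (e : X) : Finset X :=
  H.filter (fun f => f ≠ e ∧ (¬ Disjoint (T.S e) (T.S f) ∨ T.R e f))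

open Classical in
/-- the items of `H` at `v` -/
noncomputable def att (T : Sys X V) (H : Finset X) (v : V) : Finset X :=
  H.filter (fun e => v ∈ T.S e)

open Classical in
/-- the items of `H` adjacent to `e` in the conflict graph -/
noncomputable def nr (T : Sys X V) (H : Finset X) (e : X) : Finset X :=
  H.filter (fun f => T.R e f)

theorem mem_nb {T : Sys X V} {H : Finset X} {e f : X} :
    f ∈ nb T H e ↔ f ∈ H ∧ f ≠ e ∧ (¬ Disjoint (T.S e) (T.S f) ∨ T.R e f) := by
  simp only [nb, Finset.mem_filter]

theorem mem_att {T : Sys X V} {H : Finset X} {v : V} {e : X} :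
    e ∈ att T H v ↔ e ∈ H ∧ v ∈ T.S e := by
  simp only [att, Finset.mem_filter]

theorem mem_nr {T : Sys X V} {H : Finset X} {e f : X} :
    f ∈ nr T H e ↔ f ∈ H ∧ T.R e f := by
  simp only [nr, Finset.mem_filter]

open Classical in
/-- The data of a round: items with at most `k` points, two items have at most one common point,
at most `D` items at each point and at most `D` neighbours of each item in the conflict graph, for
every item a probability vector on the colours with entries at most `K / D` and support of size at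
most `2 D`, such that the weights of a colour at a point add up to at most `σ` and the weights of a
colour in the neighbourhood of an item in the conflict graph add up to at most `q σ`. -/
structure Good (T : Sys X V) (k q B D : ℕ) (K σ : ℝ) (H : Finset X) (p : X → C → ℝ) : Prop where
  hq : 1 ≤ q
  hB : k + q ≤ B
  sym : ∀ e f, T.R e f → T.R f e
  irr : ∀ e, ¬ T.R e e
  lin : ∀ e ∈ H, ∀ f ∈ H, e ≠ f → (T.S e ∩ T.S f).card ≤ 1
  size : ∀ e ∈ H, (T.S e).card ≤ k
  ne : ∀ e ∈ H, (T.S e).Nonempty
  deg : ∀ v, (att T H v).card ≤ D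
  rdeg : ∀ e ∈ H, (nr T H e).card ≤ D
  rlin : ∀ e ∈ H, ∀ v, (att T H v ∩ nr T H e).card ≤ 1
  c4 : ∀ e ∈ H, ∀ f ∈ H, e ≠ f → (nr T H e ∩ nr T H f).card ≤ 1
  nonneg : ∀ e ∈ H, ∀ c, 0 ≤ p e c
  le : ∀ e ∈ H, ∀ c, p e c ≤ K / D
  sum : ∀ e ∈ H, ∑ c, p e c = 1
  supp : ∀ e ∈ H, (univ.filter (fun c => p e c ≠ 0)).card ≤ 2 * D
  vc : ∀ v c, ∑ e ∈ att T H v, p e c ≤ σ
  rc : ∀ e ∈ H, ∀ c, ∑ f ∈ nr T H e, p f c ≤ q * σ

/-- edges of `H` pick a colour `c` with probability `α * p e c` -/
def mu (α : ℝ) (H : Finset X) (p : X → C → ℝ) (e : X) : Option C → ℝ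
  | none => if e ∈ H then 1 - α else 1
  | some c => if e ∈ H then α * p e c else 0

/-- none of the edges in `F` picks `c` -/
def NoC (F : Finset X) (c : C) (ω : X → Option C) : Prop :=
  ∀ f ∈ F, ω f ≠ some c

/-- `e` picks `a` and keeps it -/
def Cl (T : Sys X V) (H : Finset X) (e : X) (a : C) (ω : X → Option C) : Prop :=
  ω e = some a ∧ NoC (nb T H e) a ω

/-- `e` gets coloured -/
def Clr (T : Sys X V) (H : Finset X) (e : X) (ω : X → Option C) : Prop :=
  ∃ a, Cl T H e a ω

/-- there is a proper colouring of `H` using colours of non-zero weight -/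
def HasCol (T : Sys X V) (H : Finset X) (p : X → C → ℝ) : Prop :=
  ∃ ω : X → Option C, ∀ e ∈ H, ∃ c, p e c ≠ 0 ∧ Cl T H e c ω

variable {T : Sys X V} {k q B D : ℕ} {K σ α : ℝ} {H : Finset X} {p : X → C → ℝ}

theorem Good.le_one (hG : Good T k q B D K σ H p) {e : X} (he : e ∈ H) (c : C) : p e c ≤ 1 := by
  rw [← hG.sum e he]
  exact Finset.single_le_sum (fun c _ => hG.nonneg e he c) (Finset.mem_univ c)

theorem isProb_mu (hG : Good T k q B D K σ H p) (h0 : 0 ≤ α) (h1 : α ≤ 1) : IsProb (mu α H p) := by
  refine ⟨fun e a => ?_, fun e => ?_⟩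
  · cases a with
    | none =>
      simp only [mu]
      split_ifs
      · linarith
      · norm_num
    | some c =>
      simp only [mu]
      split_ifs with he
      · exact mul_nonneg h0 (hG.nonneg e he c)
      · exact le_rfl
  · rw [Fintype.sum_option]
    simp only [mu]
    split_ifs with he
    · rw [← Finset.mul_sum, hG.sum e he]
      ring
    · simp

/-- probability that an edge does not pick `c` -/
theorem sum_ne (hG : Good T k q B D K σ H p) {e : X} (he : e ∈ H) (c : C) :
    ∑ a, (if a ≠ some c then mu α H p e a else 0) = 1 - α * p e c := by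
  rw [Fintype.sum_option]
  simp only [mu, he, if_true]
  have : ∀ i : C, (if some i ≠ some c then α * p e i else 0) =
      α * p e i - (if i = c then α * p e c else 0) := by
    intro i
    by_cases hi : i = c
    · subst hi
      simp
    · simp [hi]
  simp only [this]
  rw [Finset.sum_sub_distrib, ← Finset.mul_sum, hG.sum e he]
  simp

/-- probability that an edge picks neither `a` nor `c` -/
theorem sum_ne2 (hG : Good T k q B D K σ H p) {e : X} (he : e ∈ H) {a c : C} (hac : a ≠ c) :
    ∑ x, (if x ≠ some a ∧ x ≠ some c then mu α H p e x else 0) =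
      1 - α * p e a - α * p e c := by
  rw [Fintype.sum_option]
  simp only [mu, he, if_true]
  have : ∀ i : C, (if some i ≠ some a ∧ some i ≠ some c then α * p e i else 0) =
      α * p e i - (if i = a then α * p e a else 0) - (if i = c then α * p e c else 0) := by
    intro i
    by_cases hi : i = a
    · subst hi
      simp [hac]
    · by_cases hi' : i = c
      · subst hi'
        simp [hi]
      · simp [hi, hi']
  simp only [this]
  rw [Finset.sum_sub_distrib, Finset.sum_sub_distrib, ← Finset.mul_sum, hG.sum e he]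
  simp
  ring

theorem sum_eq (hG : Good T k q B D K σ H p) {e : X} (he : e ∈ H) (a : C) :
    ∑ x, (if x = some a then mu α H p e x else 0) = α * p e a := by
  simp [mu, he]

theorem PP_noC (hG : Good T k q B D K σ H p) (h0 : 0 ≤ α) (h1 : α ≤ 1) {F : Finset X}
    (hF : F ⊆ H) (c : C) : PP (mu α H p) (NoC F c) = ∏ f ∈ F, (1 - α * p f c) := by
  have := PP_forall_mem (isProb_mu hG h0 h1) F (fun _ a => a ≠ some c)
  unfold NoC
  rw [this]
  exact Finset.prod_congr rfl fun f hf => sum_ne hG (hF hf) c

theorem PP_cl_noC_ge (hG : Good T k q B D K σ H p) (h0 : 0 ≤ α) (h1 : α ≤ 1 / 2) {e : X}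
    (he : e ∈ H) {F : Finset X} (hF : F ⊆ nb T H e) {a c : C} (hac : a ≠ c) :
    α * p e a * (∏ f ∈ F, (1 - α * p f c)) * (1 - 2 * α * ∑ f ∈ nb T H e, p f a) ≤
      PP (mu α H p) (fun ω => Cl T H e a ω ∧ NoC F c ω) := by
  classical
  have hμ := isProb_mu hG h0 (by linarith : α ≤ 1)
  have hnbH : nb T H e ⊆ H := Finset.filter_subset _ _
  have henb : e ∉ nb T H e := by
    rw [mem_nb]
    tauto
  have h2 := PP_forall_mem hμ (insert e (nb T H e))
    (fun f x => if f = e then x = some a else (x ≠ some a ∧ (f ∈ F → x ≠ some c)))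
  have h3 : PP (mu α H p) (fun ω => Cl T H e a ω ∧ NoC F c ω) =
      PP (mu α H p) (fun ω => ∀ f ∈ insert e (nb T H e),
        (if f = e then ω f = some a else (ω f ≠ some a ∧ (f ∈ F → ω f ≠ some c)))) := by
    refine PP_congr fun ω => ?_
    unfold Cl NoC
    constructor
    · rintro ⟨⟨h4, h5⟩, h6⟩ f hf
      split_ifs with hfe
      · rw [hfe]
        exact h4
      · have hfn := (Finset.mem_insert.1 hf).resolve_left hfe
        exact ⟨h5 f hfn, h6 f⟩
    · intro h4
      refine ⟨⟨?_, fun f hf => ?_⟩, fun f hf => ?_⟩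
      · have := h4 e (Finset.mem_insert_self _ _)
        rwa [if_pos rfl] at this
      · have := h4 f (Finset.mem_insert_of_mem hf)
        have hfe : f ≠ e := fun h => henb (h ▸ hf)
        rw [if_neg hfe] at this
        exact this.1
      · have := h4 f (Finset.mem_insert_of_mem (hF hf))
        have hfe : f ≠ e := fun h => henb (h ▸ hF hf)
        rw [if_neg hfe] at this
        exact this.2 hf
  rw [h3, h2, Finset.prod_insert henb]
  have e1 : (∑ x, if (if e = e then x = some a else (x ≠ some a ∧ (e ∈ F → x ≠ some c)))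
      then mu α H p e x else 0) = α * p e a := by
    rw [← sum_eq hG he a]
    refine Finset.sum_congr rfl fun x _ => ?_
    simp
  rw [e1, mul_assoc]
  apply mul_le_mul_of_nonneg_left _ (mul_nonneg h0 (hG.nonneg e he a))
  have hp0 : ∀ f ∈ nb T H e, ∀ c, 0 ≤ α * p f c := fun f hf c =>
    mul_nonneg h0 (hG.nonneg f (hnbH hf) c)
  have hp1 : ∀ f ∈ nb T H e, ∀ c, α * p f c ≤ 1 / 2 := fun f hf c => by
    have a1 := hG.le_one (hnbH hf) c
    have a2 := hG.nonneg f (hnbH hf) c
    nlinarith
  have e2 : ∀ f ∈ nb T H e, (1 - 2 * (α * p f a)) * (if f ∈ F then (1 - α * p f c) else 1) ≤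
      (∑ x, if (if f = e then x = some a else (x ≠ some a ∧ (f ∈ F → x ≠ some c)))
        then mu α H p f x else 0) := by
    intro f hf
    have hfe : f ≠ e := fun h => henb (h ▸ hf)
    by_cases hfF : f ∈ F
    · have : (∑ x, if (if f = e then x = some a else (x ≠ some a ∧ (f ∈ F → x ≠ some c)))
        then mu α H p f x else 0) = 1 - α * p f a - α * p f c := by
        rw [← sum_ne2 hG (hnbH hf) hac]
        refine Finset.sum_congr rfl fun x _ => ?_
        simp [hfe, hfF]
      rw [this, if_pos hfF]
      nlinarith [hp0 f hf a, hp0 f hf c, hp1 f hf a, hp1 f hf c]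
    · have : (∑ x, if (if f = e then x = some a else (x ≠ some a ∧ (f ∈ F → x ≠ some c)))
        then mu α H p f x else 0) = 1 - α * p f a := by
        rw [← sum_ne hG (hnbH hf) a]
        refine Finset.sum_congr rfl fun x _ => ?_
        simp [hfe, hfF]
      rw [this, if_neg hfF]
      linarith [hp0 f hf a]
  have hpos : ∀ f ∈ nb T H e, 0 ≤ (1 - 2 * (α * p f a)) * (if f ∈ F then (1 - α * p f c) else 1) := by
    intro f hf
    apply mul_nonneg
    · linarith [hp1 f hf a]
    · split_ifs
      · linarith [hp1 f hf c]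
      · norm_num
  refine le_trans ?_ (Finset.prod_le_prod hpos e2)
  rw [Finset.prod_mul_distrib, mul_comm]
  have e3 : ∏ f ∈ nb T H e, (if f ∈ F then (1 - α * p f c) else 1) = ∏ f ∈ F, (1 - α * p f c) := by
    rw [Finset.prod_ite_mem, Finset.inter_eq_right.2 hF]
  rw [e3]
  apply mul_le_mul_of_nonneg_right
  · have := prod_one_sub_ge (nb T H e) (fun f => 2 * (α * p f a))
      (fun f hf => by linarith [hp0 f hf a]) (fun f hf => by linarith [hp1 f hf a])
    refine le_trans (le_of_eq ?_) this
    rw [Finset.mul_sum]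
    congr 1
    exact Finset.sum_congr rfl fun f _ => by ring
  · exact Finset.prod_nonneg fun f hf => by linarith [hp1 f (hF hf) c]

theorem insert_nb_subset (T : Sys X V) (H : Finset X) {e : X} (he : e ∈ H)
    (hne : (T.S e).Nonempty) :
    insert e (nb T H e) ⊆ (T.S e).biUnion (fun v => att T H v) ∪ nr T H e := by
  classical
  intro f hf
  rw [Finset.mem_union, Finset.mem_biUnion]
  rcases Finset.mem_insert.1 hf with rfl | hf
  · obtain ⟨v, hv⟩ := hne
    exact Or.inl ⟨v, hv, mem_att.2 ⟨he, hv⟩⟩
  · obtain ⟨h1, _, h3⟩ := mem_nb.1 hf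
    rcases h3 with h3 | h3
    · rw [Finset.not_disjoint_iff] at h3
      obtain ⟨v, hv1, hv2⟩ := h3
      exact Or.inl ⟨v, hv1, mem_att.2 ⟨h1, hv2⟩⟩
    · exact Or.inr (mem_nr.2 ⟨h1, h3⟩)

/-- the number of the items in conflict with `e` -/
theorem card_nb_le (hG : Good T k q B D K σ H p) {e : X} (he : e ∈ H) :
    (insert e (nb T H e)).card ≤ B * D := by
  classical
  calc (insert e (nb T H e)).card ≤ ((T.S e).biUnion (fun v => att T H v) ∪ nr T H e).card :=
        Finset.card_le_card (insert_nb_subset T H he (hG.ne e he))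
    _ ≤ ((T.S e).biUnion (fun v => att T H v)).card + (nr T H e).card := Finset.card_union_le _ _
    _ ≤ (T.S e).card * D + D := add_le_add
        (Finset.card_biUnion_le_card_mul _ _ _ fun v _ => hG.deg v) (hG.rdeg e he)
    _ ≤ k * D + D := Nat.add_le_add_right (Nat.mul_le_mul_right _ (hG.size e he)) _
    _ = (k + 1) * D := by ring
    _ ≤ B * D := Nat.mul_le_mul_right _ (by have := hG.hq; have := hG.hB; omega)

/-- the weights of a colour on the items in conflict with `e` -/
theorem sum_nb_le (hG : Good T k q B D K σ H p) (hσ : 0 ≤ σ) {e : X} (he : e ∈ H) (c : C) :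
    ∑ f ∈ insert e (nb T H e), p f c ≤ B * σ := by
  classical
  have h0 : ∀ f ∈ (T.S e).biUnion (fun v => att T H v) ∪ nr T H e, 0 ≤ p f c := by
    intro f hf
    rcases Finset.mem_union.1 hf with hf | hf
    · obtain ⟨v, _, hf⟩ := Finset.mem_biUnion.1 hf
      exact hG.nonneg f (mem_att.1 hf).1 c
    · exact hG.nonneg f (mem_nr.1 hf).1 c
  calc ∑ f ∈ insert e (nb T H e), p f c
      ≤ ∑ f ∈ (T.S e).biUnion (fun v => att T H v) ∪ nr T H e, p f c :=
        Finset.sum_le_sum_of_subset_of_nonneg (insert_nb_subset T H he (hG.ne e he))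
          (fun f hf _ => h0 f hf)
    _ ≤ ∑ f ∈ (T.S e).biUnion (fun v => att T H v), p f c + ∑ f ∈ nr T H e, p f c := by
        rw [← Finset.sum_union_inter]
        have : 0 ≤ ∑ f ∈ (T.S e).biUnion (fun v => att T H v) ∩ nr T H e, p f c :=
          Finset.sum_nonneg fun f hf => h0 f (Finset.mem_union_right _ (Finset.mem_inter.1 hf).2)
        linarith
    _ ≤ (∑ v ∈ T.S e, ∑ f ∈ att T H v, p f c) + q * σ := add_le_add
        (sum_biUnion_le' _ _ _ fun v _ f hf => hG.nonneg f (mem_att.1 hf).1 c) (hG.rc e he c)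
    _ ≤ (∑ _v ∈ T.S e, σ) + q * σ :=
        add_le_add_left (Finset.sum_le_sum fun v _ => hG.vc v c) _
    _ = (T.S e).card * σ + q * σ := by rw [Finset.sum_const, nsmul_eq_mul]
    _ ≤ k * σ + q * σ := by
        have : ((T.S e).card : ℝ) * σ ≤ k * σ := by
          apply mul_le_mul_of_nonneg_right _ hσ
          exact_mod_cast hG.size e he
        linarith
    _ = ((k + q : ℕ) : ℝ) * σ := by push_cast; ring
    _ ≤ B * σ := by
        apply mul_le_mul_of_nonneg_right _ hσ
        exact_mod_cast hG.hB

/-! ### the random variables -/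

/-- the survival probability of the colour `c` at `e` -/
noncomputable def rr (α : ℝ) (T : Sys X V) (H : Finset X) (p : X → C → ℝ) (e : X) (c : C) : ℝ :=
  ∏ f ∈ insert e (nb T H e), (1 - α * p f c)

open Classical in
/-- the new (not normalised) weights -/
noncomputable def nw (α : ℝ) (T : Sys X V) (H : Finset X) (p : X → C → ℝ) (e : X) (c : C)
    (ω : X → Option C) : ℝ :=
  if NoC (insert e (nb T H e)) c ω then p e c / rr α T H p e c else 0

/-- the total new weight at `e` -/
noncomputable def WW (α : ℝ) (T : Sys X V) (H : Finset X) (p : X → C → ℝ) (e : X)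
    (ω : X → Option C) : ℝ := ∑ c, nw α T H p e c ω

/-- the items in conflict with `e` outside `Ex`, and `e` -/
noncomputable def Fv (T : Sys X V) (H : Finset X) (Ex : Finset X) (e : X) : Finset X :=
  insert e ((nb T H e).filter (fun f => f ∉ Ex))

open Classical in
/-- one term of the total weight of `c` -/
noncomputable def zt (α : ℝ) (T : Sys X V) (H : Finset X) (p : X → C → ℝ) (Ex : Finset X) (c : C)
    (e : X) (ω : X → Option C) : ℝ :=
  if NoC (Fv T H Ex e) c ω ∧ ¬ Clr T H e ω then p e c / rr α T H p e c else 0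

/-- the total new weight of `c` at `v`, except that the items at `v` do not kill the colour -/
noncomputable def ZZ (α : ℝ) (T : Sys X V) (H : Finset X) (p : X → C → ℝ) (v : V) (c : C)
    (ω : X → Option C) : ℝ := ∑ e ∈ att T H v, zt α T H p (att T H v) c e ω

/-- the total new weight of `c` in the neighbourhood of `x`, except that `x` does not kill the
colour -/
noncomputable def ZR (α : ℝ) (T : Sys X V) (H : Finset X) (p : X → C → ℝ) (x : X) (c : C)
    (ω : X → Option C) : ℝ := ∑ e ∈ nr T H x, zt α T H p {x} c e ω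

variable {γ : ℝ}

/-- the survival probabilities are at least `1/2` -/
theorem rr_ge (hG : Good T k q B D K σ H p) (hP : Par B γ α σ) {e : X} (he : e ∈ H) (c : C) :
    1 / 2 ≤ rr α T H p e c := by
  have hsub : insert e (nb T H e) ⊆ H := by
    intro f hf
    rcases Finset.mem_insert.1 hf with rfl | hf
    · exact he
    · exact (mem_nb.1 hf).1
  have h1 := prod_one_sub_ge (insert e (nb T H e)) (fun f => α * p f c)
    (fun f hf => mul_nonneg hP.α_pos.le (hG.nonneg f (hsub hf) c))
    (fun f hf => by
      have := hG.le_one (hsub hf) c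
      have := hG.nonneg f (hsub hf) c
      nlinarith [hP.α_le, hP.α_pos])
  have h2 := sum_nb_le hG hP.σ0 he c
  rw [← Finset.mul_sum] at h1
  have h3 : α * ∑ f ∈ insert e (nb T H e), p f c ≤ α * (B * σ) :=
    mul_le_mul_of_nonneg_left h2 hP.α_pos.le
  have h4 : α * (B * σ) ≤ 1 / 8 := by
    rw [← mul_assoc, hP.αk]
    nlinarith [hP.γ0, hP.γ1, hP.σ0, hP.σ1]
  unfold rr
  linarith

theorem nw_nonneg (hG : Good T k q B D K σ H p) (hP : Par B γ α σ) {e : X} (he : e ∈ H) (c : C)
    (ω : X → Option C) : 0 ≤ nw α T H p e c ω := by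
  unfold nw
  split_ifs
  · exact div_nonneg (hG.nonneg e he c) (by linarith [rr_ge hG hP he c])
  · exact le_rfl

theorem w_le (hG : Good T k q B D K σ H p) (hP : Par B γ α σ) {e : X} (he : e ∈ H) (c : C) :
    p e c / rr α T H p e c ≤ 2 * K / D := by
  have h1 := rr_ge hG hP he c
  rw [div_le_iff₀ (by linarith)]
  have h2 := hG.le e he c
  have h3 := hG.nonneg e he c
  have h4 : 0 ≤ K / D := h3.trans h2
  calc p e c ≤ K / D := h2
    _ ≤ 2 * K / D * (1 / 2) := by rw [mul_div_assoc]; linarith
    _ ≤ 2 * K / D * rr α T H p e c := by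
        apply mul_le_mul_of_nonneg_left h1
        rw [mul_div_assoc]
        linarith

theorem nw_le (hG : Good T k q B D K σ H p) (hP : Par B γ α σ) {e : X} (he : e ∈ H) (c : C)
    (ω : X → Option C) : nw α T H p e c ω ≤ 2 * K / D := by
  have h1 := w_le hG hP he c
  unfold nw
  split_ifs
  · exact h1
  · have h2 := hG.le e he c
    have h3 := hG.nonneg e he c
    have h4 : 0 ≤ K / D := h3.trans h2
    rw [mul_div_assoc]
    linarith

/-- unbiasedness -/
theorem EE_nw (hG : Good T k q B D K σ H p) (hP : Par B γ α σ) {e : X} (he : e ∈ H) (c : C) :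
    EE (mu α H p) (nw α T H p e c) = p e c := by
  classical
  have hsub : insert e (nb T H e) ⊆ H := by
    intro f hf
    rcases Finset.mem_insert.1 hf with rfl | hf
    · exact he
    · exact (mem_nb.1 hf).1
  have h1 : EE (mu α H p) (nw α T H p e c) =
      (p e c / rr α T H p e c) * PP (mu α H p) (NoC (insert e (nb T H e)) c) := by
    unfold PP
    rw [← EE_const_mul]
    refine EE_congr fun ω => ?_
    unfold nw
    split_ifs <;> simp
  have h2 := rr_ge hG hP he c
  rw [h1, PP_noC hG hP.α_pos.le (by linarith [hP.α_le]) hsub]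
  have : rr α T H p e c ≠ 0 := by linarith
  change p e c / rr α T H p e c * rr α T H p e c = p e c
  field_simp

theorem EE_WW (hG : Good T k q B D K σ H p) (hP : Par B γ α σ) {e : X} (he : e ∈ H) :
    EE (mu α H p) (WW α T H p e) = 1 := by
  unfold WW
  rw [EE_sum, ← hG.sum e he]
  exact Finset.sum_congr rfl fun c _ => EE_nw hG hP he c

end nibble

end Pool.Agent.Helper95.BC
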