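import Pool.Agent.Helper95.BC.Eng1

/-!
# The expected weight at a vertex
-/

set_option autoImplicit false
set_option linter.unusedSectionVars false

namespace Pool.Agent.Helper95.BC

open Finset Pool.Agent.Helper61.LE

variable {X V C : Type} [Fintype X] [DecidableEq X] [Fintype C] [DecidableEq C]
variable {T : Sys X V} {k q B D : ℕ} {K σ α γ : ℝ} {H : Finset X} {p : X → C → ℝ}

theorem EE_zt_le (hG : Good T k q B D K σ H p) (hP : Par B γ α σ) (hKD : K / D ≤ γ / 8)
    {Ex : Finset X} {e : X} (heH : e ∈ H) (c : C)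
    (hEx : ∑ f ∈ (nb T H e).filter (fun f => f ∈ Ex), p f c ≤ 1 - γ) :
    EE (mu α H p) (zt α T H p Ex c e) ≤ p e c * (1 - α * γ / 2) := by
  classical
  have hμ := isProb_mu hG hP.α_pos.le (by linarith [hP.α_le] : α ≤ 1)
  set F := (nb T H e).filter (fun f => f ∉ Ex) with hF
  have hFnb : F ⊆ nb T H e := Finset.filter_subset _ _
  have hnbH : nb T H e ⊆ H := Finset.filter_subset _ _
  have henb : e ∉ nb T H e := by
    rw [mem_nb]
    tauto
  have heF : e ∉ F := fun h => henb (hFnb h)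
  have hFvH : Fv T H Ex e ⊆ H := by
    intro f hf
    rcases Finset.mem_insert.1 hf with rfl | hf
    · exact heH
    · exact hnbH (hFnb hf)
  set R := ∏ f ∈ Fv T H Ex e, (1 - α * p f c) with hR
  set TT := ∏ f ∈ (nb T H e).filter (fun f => f ∈ Ex), (1 - α * p f c) with hT
  have hp0 : ∀ f ∈ H, ∀ c, 0 ≤ α * p f c := fun f hf c =>
    mul_nonneg hP.α_pos.le (hG.nonneg f hf c)
  have hp1 : ∀ f ∈ H, ∀ c, α * p f c ≤ 1 / 8 := fun f hf c => by
    have a1 := hG.le_one hf c
    have a2 := hG.nonneg f hf c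
    nlinarith [hP.α_le, hP.α_pos]
  have hRpos : 0 < R := Finset.prod_pos fun f hf => by
    linarith [hp1 f (hFvH hf) c]
  have hr : rr α T H p e c = R * TT := by
    unfold rr
    rw [hR, hT]
    unfold Fv
    rw [Finset.prod_insert henb, Finset.prod_insert heF, mul_assoc, hF]
    congr 1
    rw [mul_comm]
    exact (Finset.prod_filter_mul_prod_filter_not (nb T H e) (fun f => f ∈ Ex) _).symm
  have hTge : 1 - α * (1 - γ) ≤ TT := by
    have h1 := prod_one_sub_ge ((nb T H e).filter (fun f => f ∈ Ex)) (fun f => α * p f c)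
      (fun f hf => hp0 f (hnbH (Finset.mem_filter.1 hf).1) c)
      (fun f hf => by linarith [hp1 f (hnbH (Finset.mem_filter.1 hf).1) c])
    rw [← Finset.mul_sum] at h1
    have h3 := mul_le_mul_of_nonneg_left hEx hP.α_pos.le
    linarith
  have hTpos : 0 < TT := by
    have : α * (1 - γ) ≤ 1 / 8 := by nlinarith [hP.α_le, hP.α_pos, hP.γ1, hP.γ0]
    linarith
  -- probability
  have h1 : EE (mu α H p) (zt α T H p Ex c e) =
      (p e c / rr α T H p e c) * PP (mu α H p) (fun ω => NoC (Fv T H Ex e) c ω ∧ ¬ Clr T H e ω) := by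
    unfold PP
    rw [← EE_const_mul]
    refine EE_congr fun ω => ?_
    unfold zt
    split_ifs <;> simp
  have h2 : PP (mu α H p) (NoC (Fv T H Ex e) c) = R :=
    PP_noC hG hP.α_pos.le (by linarith [hP.α_le]) hFvH c
  have h3 := PP_split (μ := mu α H p) (NoC (Fv T H Ex e) c) (Clr T H e)
  have h4 : ∑ a ∈ univ.erase c, PP (mu α H p) (fun ω => Cl T H e a ω ∧ NoC F c ω) ≤
      PP (mu α H p) (fun ω => NoC (Fv T H Ex e) c ω ∧ Clr T H e ω) := by
    unfold PP
    rw [← EE_sum]
    refine EE_mono hμ fun ω => ?_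
    by_cases hex : ∃ a, a ≠ c ∧ (Cl T H e a ω ∧ NoC F c ω)
    · obtain ⟨a, hac, hcl, hno⟩ := hex
      have hpos : NoC (Fv T H Ex e) c ω ∧ Clr T H e ω := by
        refine ⟨fun f hf => ?_, ⟨a, hcl⟩⟩
        rcases Finset.mem_insert.1 hf with rfl | hf
        · rw [hcl.1]
          intro h
          exact hac (Option.some_injective _ h)
        · exact hno f hf
      rw [if_pos hpos]
      rw [Finset.sum_eq_single a]
      · split_ifs <;> norm_num
      · intro b _ hba
        rw [if_neg]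
        rintro ⟨hb, _⟩
        have := hb.1
        rw [hcl.1] at this
        exact hba (Option.some_injective _ this).symm
      · intro ha
        exact absurd (Finset.mem_erase.2 ⟨hac, Finset.mem_univ _⟩) ha
    · push Not at hex
      rw [Finset.sum_eq_zero]
      · split_ifs <;> norm_num
      · intro a ha
        rw [if_neg]
        rintro ⟨h5, h6⟩
        exact hex a (Finset.mem_erase.1 ha).1 h5 h6
  have h5 : α * (1 - p e c) * R * (1 - γ / 4) ≤
      ∑ a ∈ univ.erase c, PP (mu α H p) (fun ω => Cl T H e a ω ∧ NoC F c ω) := by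
    have e1 : ∀ a ∈ univ.erase c, α * p e a * R * (1 - γ / 4) ≤
        PP (mu α H p) (fun ω => Cl T H e a ω ∧ NoC F c ω) := by
      intro a ha
      refine le_trans ?_ (PP_cl_noC_ge hG hP.α_pos.le (by linarith [hP.α_le]) heH hFnb
        (Finset.mem_erase.1 ha).1)
      have e2 : R ≤ ∏ f ∈ F, (1 - α * p f c) := by
        rw [hR]
        unfold Fv
        rw [Finset.prod_insert heF]
        have e3 : 0 ≤ ∏ f ∈ F, (1 - α * p f c) := Finset.prod_nonneg fun f hf => by
          linarith [hp1 f (hnbH (hFnb hf)) c]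
        have e4 := hp0 e heH c
        nlinarith
      have e3 : ∑ f ∈ nb T H e, p f a ≤ B * σ := by
        refine le_trans ?_ (sum_nb_le hG hP.σ0 heH a)
        rw [Finset.sum_insert henb]
        have := hG.nonneg e heH a
        linarith
      have e4 : 2 * α * ∑ f ∈ nb T H e, p f a ≤ γ / 4 := by
        have e5 : 2 * α * ∑ f ∈ nb T H e, p f a ≤ 2 * α * (B * σ) :=
          mul_le_mul_of_nonneg_left e3 (by linarith [hP.α_pos])
        have e6 : 2 * α * (B * σ) = 2 * (α * B) * σ := by ring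
        rw [e6, hP.αk] at e5
        have : 2 * (γ / 8) * σ ≤ γ / 4 := by nlinarith [hP.γ0, hP.σ0, hP.σ1]
        linarith
      have e5 : α * p e a * R ≤ α * p e a * (∏ f ∈ F, (1 - α * p f c)) :=
        mul_le_mul_of_nonneg_left e2 (hp0 e heH a)
      have e6 : 0 ≤ 1 - γ / 4 := by linarith [hP.γ1]
      calc α * p e a * R * (1 - γ / 4) ≤ α * p e a * (∏ f ∈ F, (1 - α * p f c)) * (1 - γ / 4) :=
            mul_le_mul_of_nonneg_right e5 e6
        _ ≤ α * p e a * (∏ f ∈ F, (1 - α * p f c)) * (1 - 2 * α * ∑ f ∈ nb T H e, p f a) := by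
            apply mul_le_mul_of_nonneg_left (by linarith)
            exact le_trans (mul_nonneg (hp0 e heH a) hRpos.le) e5
    refine le_trans (le_of_eq ?_) (Finset.sum_le_sum e1)
    rw [← Finset.sum_mul, ← Finset.sum_mul, ← Finset.mul_sum]
    have e2 : ∑ a ∈ univ.erase c, p e a = 1 - p e c := by
      rw [← hG.sum e heH, ← Finset.add_sum_erase univ (p e) (Finset.mem_univ c)]
      ring
    rw [e2]
  rw [h1, hr]
  have h6 : PP (mu α H p) (fun ω => NoC (Fv T H Ex e) c ω ∧ ¬ Clr T H e ω) ≤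
      R * (1 - α * (1 - p e c) * (1 - γ / 4)) := by
    rw [h2] at h3
    have := h5.trans h4
    nlinarith
  have h7 : 1 - α * (1 - p e c) * (1 - γ / 4) ≤ (1 - α * γ / 2) * TT := by
    have g1 : p e c ≤ γ / 8 := (hG.le e heH c).trans hKD
    have g2 : 1 - α * (1 - γ) ≤ TT := hTge
    have g3 : 0 ≤ 1 - α * γ / 2 := by nlinarith [hP.α_le, hP.α_pos, hP.γ0, hP.γ1]
    have g4 : (1 - α * γ / 2) * (1 - α * (1 - γ)) ≤ (1 - α * γ / 2) * TT :=
      mul_le_mul_of_nonneg_left g2 g3
    refine le_trans ?_ g4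
    have g5 : (1 - γ / 8) * (1 - γ / 4) ≤ (1 - p e c) * (1 - γ / 4) :=
      mul_le_mul_of_nonneg_right (by linarith) (by linarith [hP.γ1])
    have g6 : α * ((1 - γ / 8) * (1 - γ / 4)) ≤ α * ((1 - p e c) * (1 - γ / 4)) :=
      mul_le_mul_of_nonneg_left g5 hP.α_pos.le
    have g7 : 0 ≤ α * γ * (α * (1 - γ)) := by
      apply mul_nonneg (mul_nonneg hP.α_pos.le hP.γ0.le)
      exact mul_nonneg hP.α_pos.le (by linarith [hP.γ1])
    have g8 : 0 ≤ α * (γ * γ) := mul_nonneg hP.α_pos.le (mul_nonneg hP.γ0.le hP.γ0.le)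
    have g9 : 0 ≤ α * γ := mul_nonneg hP.α_pos.le hP.γ0.le
    nlinarith
  have hpe := hG.nonneg e heH c
  rw [div_mul_eq_mul_div, div_le_iff₀ (mul_pos hRpos hTpos)]
  calc p e c * PP (mu α H p) (fun ω => NoC (Fv T H Ex e) c ω ∧ ¬ Clr T H e ω)
      ≤ p e c * (R * (1 - α * (1 - p e c) * (1 - γ / 4))) := mul_le_mul_of_nonneg_left h6 hpe
    _ ≤ p e c * (R * ((1 - α * γ / 2) * TT)) :=
        mul_le_mul_of_nonneg_left (mul_le_mul_of_nonneg_left h7 hRpos.le) hpe
    _ = p e c * (1 - α * γ / 2) * (R * TT) := by ring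

theorem EE_ZZ_le (hG : Good T k q B D K σ H p) (hP : Par B γ α σ) (hKD : K / D ≤ γ / 8) (v : V)
    (c : C) : EE (mu α H p) (ZZ α T H p v c) ≤ σ * (1 - α * γ / 2) := by
  unfold ZZ
  rw [EE_sum]
  calc ∑ e ∈ att T H v, EE (mu α H p) (zt α T H p (att T H v) c e)
      ≤ ∑ e ∈ att T H v, p e c * (1 - α * γ / 2) := by
        refine Finset.sum_le_sum fun e he => EE_zt_le hG hP hKD (mem_att.1 he).1 c ?_
        refine le_trans ?_ ((hG.vc v c).trans hP.σ1)
        apply Finset.sum_le_sum_of_subset_of_nonneg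
        · intro f hf
          exact (Finset.mem_filter.1 hf).2
        · intro f hf _
          exact hG.nonneg f (mem_att.1 hf).1 c
    _ = (∑ e ∈ att T H v, p e c) * (1 - α * γ / 2) := by rw [Finset.sum_mul]
    _ ≤ σ * (1 - α * γ / 2) := by
        apply mul_le_mul_of_nonneg_right (hG.vc v c)
        nlinarith [hP.α_le, hP.α_pos, hP.γ0, hP.γ1]

end Pool.Agent.Helper95.BC
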