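import Pool.Agent.Helper95.BC.Eng2

/-!
# Concentration
-/

set_option autoImplicit false
set_option linter.unusedSectionVars false

namespace Pool.Agent.Helper95.BC

open Finset Pool.Agent.Helper61.LE

variable {X V C : Type} [Fintype X] [DecidableEq X] [Fintype C] [DecidableEq C]
variable {T : Sys X V} {k q B D : ℕ} {K σ α γ : ℝ} {H : Finset X} {p : X → C → ℝ}

/-! ### dependence -/

theorem noC_congr {F : Finset X} {c : C} {ω ω' : X → Option C}
    (h : ∀ f ∈ F, ω f = ω' f) : NoC F c ω ↔ NoC F c ω' := by
  unfold NoC
  exact forall₂_congr fun f hf => by rw [h f hf]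

theorem clr_congr {e : X} {ω ω' : X → Option C}
    (h : ∀ f ∈ insert e (nb T H e), ω f = ω' f) : Clr T H e ω ↔ Clr T H e ω' := by
  unfold Clr Cl
  refine exists_congr fun a => ?_
  rw [h e (Finset.mem_insert_self _ _),
    noC_congr (fun f hf => h f (Finset.mem_insert_of_mem hf))]

theorem Fv_subset (Ex : Finset X) (e : X) : Fv T H Ex e ⊆ insert e (nb T H e) :=
  Finset.insert_subset_insert _ (Finset.filter_subset _ _)

theorem dep_nw (e : X) (c : C) : Dep (nw α T H p e c) (insert e (nb T H e)) := by
  classical
  intro ω ω' h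
  unfold nw
  simp only [noC_congr h]

theorem dep_WW (e : X) : Dep (WW (C := C) α T H p e) (insert e (nb T H e)) := by
  intro ω ω' h
  unfold WW
  exact Finset.sum_congr rfl fun c _ => dep_nw e c ω ω' h

theorem dep_zt (Ex : Finset X) (c : C) (e : X) :
    Dep (zt α T H p Ex c e) (insert e (nb T H e)) := by
  classical
  intro ω ω' h
  unfold zt
  simp only [clr_congr h, noC_congr (fun f hf => h f (Fv_subset Ex e hf))]

/-- the coordinates relevant for a vertex -/
noncomputable def Sv (T : Sys X V) (H : Finset X) (v : V) : Finset X :=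
  (att T H v).biUnion (fun e => insert e (nb T H e))

theorem att_subset_Sv (v : V) : att T H v ⊆ Sv T H v := fun e he =>
  Finset.mem_biUnion.2 ⟨e, he, Finset.mem_insert_self _ _⟩

theorem Sv_subset (v : V) : Sv T H v ⊆ H := by
  intro f hf
  obtain ⟨e, he, hf⟩ := Finset.mem_biUnion.1 hf
  rcases Finset.mem_insert.1 hf with rfl | hf
  · exact (mem_att.1 he).1
  · exact (mem_nb.1 hf).1

theorem card_Sv (hG : Good T k q B D K σ H p) (v : V) : (Sv T H v).card ≤ D * (B * D) := by
  calc (Sv T H v).card ≤ (att T H v).card * (B * D) :=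
        Finset.card_biUnion_le_card_mul _ _ _ fun e he => card_nb_le hG (mem_att.1 he).1
    _ ≤ D * (B * D) := Nat.mul_le_mul_right _ (hG.deg v)

theorem dep_ZZ (v : V) (c : C) : Dep (ZZ α T H p v c) (Sv T H v) := by
  intro ω ω' h
  unfold ZZ
  refine Finset.sum_congr rfl fun e he => dep_zt _ c e ω ω' fun f hf => h f ?_
  exact Finset.mem_biUnion.2 ⟨e, he, hf⟩

/-! ### effect of one coordinate -/

theorem noC_update {F : Finset X} {c : C} {ω : X → Option C} {i : X}
    {a b : Option C} (ha : a ≠ some c) (hb : b ≠ some c) :
    NoC F c (Function.update ω i a) ↔ NoC F c (Function.update ω i b) := by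
  unfold NoC
  refine forall₂_congr fun f _ => ?_
  by_cases hfi : f = i
  · subst hfi
    simp [ha, hb]
  · rw [Function.update_of_ne hfi, Function.update_of_ne hfi]

theorem sum_ite_some_le (a : Option C) {w : ℝ} (hw : 0 ≤ w) :
    ∑ c : C, (if some c = a then w else 0) ≤ w := by
  cases a with
  | none => simpa using hw
  | some a' => simp

theorem WW_update (hG : Good T k q B D K σ H p) (hP : Par B γ α σ) {e : X} (he : e ∈ H)
    (ω : X → Option C) (i : X) (a b : Option C) :
    |WW α T H p e (Function.update ω i a) - WW α T H p e (Function.update ω i b)| ≤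
      2 * (2 * K / D) := by
  classical
  have hw : 0 ≤ 2 * K / D := by
    obtain ⟨c₀, _⟩ : ∃ c : C, True := by
      by_contra hcon
      push Not at hcon
      have h1 := hG.sum e he
      rw [Finset.sum_eq_zero fun c _ => (hcon c).elim] at h1
      norm_num at h1
    exact le_trans (nw_nonneg hG hP he c₀ ω) (nw_le hG hP he c₀ ω)
  unfold WW
  rw [← Finset.sum_sub_distrib]
  calc |∑ c, (nw α T H p e c (Function.update ω i a) - nw α T H p e c (Function.update ω i b))|
      ≤ ∑ c, |nw α T H p e c (Function.update ω i a) - nw α T H p e c (Function.update ω i b)| :=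
        Finset.abs_sum_le_sum_abs _ _
    _ ≤ ∑ c : C, ((if some c = a then 2 * K / D else 0) + (if some c = b then 2 * K / D else 0)) := by
        refine Finset.sum_le_sum fun c _ => ?_
        have h1 := nw_nonneg hG hP he c (Function.update ω i a)
        have h2 := nw_nonneg hG hP he c (Function.update ω i b)
        have h3 := nw_le hG hP he c (Function.update ω i a)
        have h4 := nw_le hG hP he c (Function.update ω i b)
        by_cases ha : some c = a
        · rw [if_pos ha, abs_le]
          split_ifs <;> constructor <;> linarith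
        · by_cases hb : some c = b
          · rw [if_pos hb, abs_le]
            split_ifs <;> constructor <;> linarith
          · have : nw α T H p e c (Function.update ω i a) = nw α T H p e c (Function.update ω i b) := by
              unfold nw
              simp only [noC_update (Ne.symm ha) (Ne.symm hb)]
            rw [this, sub_self, abs_zero]
            split_ifs
            simp
    _ ≤ 2 * K / D + 2 * K / D := by
        rw [Finset.sum_add_distrib]
        exact add_le_add (sum_ite_some_le a hw) (sum_ite_some_le b hw)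
    _ = 2 * (2 * K / D) := by ring

theorem zt_nonneg (hG : Good T k q B D K σ H p) (hP : Par B γ α σ) {Ex : Finset X} {e : X}
    (he : e ∈ H) (c : C) (ω : X → Option C) : 0 ≤ zt α T H p Ex c e ω := by
  unfold zt
  split_ifs
  · exact div_nonneg (hG.nonneg e he c)
      (by linarith [rr_ge hG hP he c])
  · exact le_rfl

theorem zt_le (hG : Good T k q B D K σ H p) (hP : Par B γ α σ) {Ex : Finset X} {e : X}
    (he : e ∈ H) (c : C) (ω : X → Option C) : zt α T H p Ex c e ω ≤ 2 * K / D := by
  have h1 := w_le hG hP he c
  unfold zt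
  split_ifs
  · exact h1
  · refine le_trans ?_ h1
    exact div_nonneg (hG.nonneg e he c) (by linarith [rr_ge hG hP he c])

/-- difference of a sum of terms bounded by the number of changing terms -/
theorem sum_zt_sub_le (hG : Good T k q B D K σ H p) (hP : Par B γ α σ) {A : Finset X}
    (hA : A ⊆ H) (Ex : Finset X) (c : C) (ω ω' : X → Option C) (Bs : Finset X) (m : ℕ)
    (hB : Bs.card ≤ m) (hw : 0 ≤ 2 * K / D)
    (h : ∀ e ∈ A, e ∉ Bs → zt α T H p Ex c e ω = zt α T H p Ex c e ω') :
    |∑ e ∈ A, zt α T H p Ex c e ω - ∑ e ∈ A, zt α T H p Ex c e ω'| ≤ m * (2 * K / D) := by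
  classical
  rw [← Finset.sum_sub_distrib]
  calc |∑ e ∈ A, (zt α T H p Ex c e ω - zt α T H p Ex c e ω')|
      ≤ ∑ e ∈ A, |zt α T H p Ex c e ω - zt α T H p Ex c e ω'| := Finset.abs_sum_le_sum_abs _ _
    _ ≤ ∑ e ∈ A, (if e ∈ Bs then 2 * K / D else 0) := by
        refine Finset.sum_le_sum fun e he => ?_
        split_ifs with heB
        · have h1 := zt_nonneg hG hP (Ex := Ex) (hA he) c ω
          have h2 := zt_nonneg hG hP (Ex := Ex) (hA he) c ω'
          have h3 := zt_le hG hP (Ex := Ex) (hA he) c ω
          have h4 := zt_le hG hP (Ex := Ex) (hA he) c ω'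
          rw [abs_le]
          constructor <;> linarith
        · rw [h e he heB, sub_self, abs_zero]
    _ = ∑ e ∈ A ∩ Bs, (2 * K / D) := by
        rw [Finset.sum_ite_mem]
    _ ≤ ∑ e ∈ Bs, (2 * K / D) :=
        Finset.sum_le_sum_of_subset_of_nonneg Finset.inter_subset_right fun _ _ _ => hw
    _ = Bs.card * (2 * K / D) := by rw [Finset.sum_const, nsmul_eq_mul]
    _ ≤ m * (2 * K / D) := by
        apply mul_le_mul_of_nonneg_right _ hw
        exact_mod_cast hB

theorem att_subset (v : V) : att T H v ⊆ H := fun _ he => (mem_att.1 he).1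

theorem nr_subset (x : X) : nr T H x ⊆ H := fun _ he => (mem_nr.1 he).1

/-- difference of `ZZ` bounded by the number of changing terms -/
theorem ZZ_sub_le (hG : Good T k q B D K σ H p) (hP : Par B γ α σ) (v : V) (c : C)
    (ω ω' : X → Option C) (Bs : Finset X) (m : ℕ) (hB : Bs.card ≤ m)
    (hw : 0 ≤ 2 * K / D)
    (h : ∀ e ∈ att T H v, e ∉ Bs →
      zt α T H p (att T H v) c e ω = zt α T H p (att T H v) c e ω') :
    |ZZ α T H p v c ω - ZZ α T H p v c ω'| ≤ m * (2 * K / D) :=
  sum_zt_sub_le hG hP (att_subset v) _ c ω ω' Bs m hB hw h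

/-- few items at `v` are in conflict with an item not containing `v` -/
theorem card_att_nb (hG : Good T k q B D K σ H p) {v : V} {i : X} (hi : i ∈ H)
    (hv : v ∉ T.S i) : ((att T H v).filter (fun e => i ∈ nb T H e)).card ≤ B := by
  classical
  have hsub : (att T H v).filter (fun e => i ∈ nb T H e) ⊆
      (T.S i).biUnion (fun u => (att T H v).filter (fun e => u ∈ T.S e)) ∪
        (att T H v ∩ nr T H i) := by
    intro e he
    rw [Finset.mem_filter] at he
    obtain ⟨h1, h2⟩ := he
    obtain ⟨_, _, h5⟩ := mem_nb.1 h2
    rw [Finset.mem_union]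
    rcases h5 with h5 | h5
    · rw [Finset.not_disjoint_iff] at h5
      obtain ⟨u, hu1, hu2⟩ := h5
      exact Or.inl (Finset.mem_biUnion.2 ⟨u, hu2, Finset.mem_filter.2 ⟨h1, hu1⟩⟩)
    · exact Or.inr (Finset.mem_inter.2 ⟨h1, mem_nr.2 ⟨(mem_att.1 h1).1, hG.sym _ _ h5⟩⟩)
  have h1 : ((T.S i).biUnion (fun u => (att T H v).filter (fun e => u ∈ T.S e))).card ≤
      (T.S i).card * 1 := by
    refine Finset.card_biUnion_le_card_mul _ _ _ fun u hu => ?_
    rw [Finset.card_le_one]
    intro e he f hf
    rw [Finset.mem_filter, mem_att] at he hf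
    by_contra hne
    have h1 := hG.lin e he.1.1 f hf.1.1 hne
    rw [Finset.card_le_one] at h1
    have h2 := h1 u (Finset.mem_inter.2 ⟨he.2, hf.2⟩) v (Finset.mem_inter.2 ⟨he.1.2, hf.1.2⟩)
    exact hv (h2 ▸ hu)
  have h2 := hG.size i hi
  have h3 := hG.hB
  have h4 := hG.hq
  have h5 := hG.rlin i hi v
  have h6 := (Finset.card_le_card hsub).trans (Finset.card_union_le _ _)
  omega

/-- effect of a coordinate away from `v` -/
theorem ZZ_update_far (hG : Good T k q B D K σ H p) (hP : Par B γ α σ) (hw : 0 ≤ 2 * K / D) (v : V)
    (c : C) (ω : X → Option C) {i : X} (hi : i ∈ H) (hv : v ∉ T.S i)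
    (a b : Option C) :
    |ZZ α T H p v c (Function.update ω i a) - ZZ α T H p v c (Function.update ω i b)| ≤
      B * (2 * K / D) := by
  apply ZZ_sub_le hG hP v c _ _ ((att T H v).filter (fun e => i ∈ nb T H e)) B
    (card_att_nb hG hi hv) hw
  intro e he heB
  apply dep_zt
  intro f hf
  have hfi : f ≠ i := by
    rintro rfl
    rcases Finset.mem_insert.1 hf with rfl | hf
    · exact hv (mem_att.1 he).2
    · exact heB (Finset.mem_filter.2 ⟨he, hf⟩)
  rw [Function.update_of_ne hfi, Function.update_of_ne hfi]

/-- neutral values of a coordinate away from `v` -/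
def Neut (T : Sys X V) (H : Finset X) (v : V) (c : C) (ω : X → Option C) (i : X)
    (a : Option C) : Prop :=
  ∀ y, a = some y → y ≠ c ∧ ∀ e ∈ att T H v, i ∈ nb T H e → ω e ≠ some y

theorem ZZ_update_neut (v : V) (c : C) (ω τ : X → Option C)
    (hτ : ∀ e ∈ att T H v, τ e = ω e) {i : X} (hv : v ∉ T.S i)
    {a b : Option C} (ha : Neut T H v c ω i a) (hb : Neut T H v c ω i b) :
    ZZ α T H p v c (Function.update τ i a) = ZZ α T H p v c (Function.update τ i b) := by
  classical
  have hac : a ≠ some c := fun h => (ha c h).1 rfl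
  have hbc : b ≠ some c := fun h => (hb c h).1 rfl
  unfold ZZ
  refine Finset.sum_congr rfl fun e he => ?_
  have hei : e ≠ i := by
    rintro rfl
    exact hv (mem_att.1 he).2
  have h1 : Clr T H e (Function.update τ i a) ↔ Clr T H e (Function.update τ i b) := by
    unfold Clr Cl
    refine exists_congr fun x => ?_
    rw [Function.update_of_ne hei, Function.update_of_ne hei]
    refine and_congr_right fun hx => ?_
    by_cases hin : i ∈ nb T H e
    · apply noC_update
      · intro h
        exact (ha x h).2 e he hin (by rw [← hτ e he]; exact hx)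
      · intro h
        exact (hb x h).2 e he hin (by rw [← hτ e he]; exact hx)
    · apply noC_congr
      intro f hf
      have hfi : f ≠ i := by
        rintro rfl
        exact hin hf
      rw [Function.update_of_ne hfi, Function.update_of_ne hfi]
  unfold zt
  simp only [h1, noC_update hac hbc]

open Classical in
theorem sum_not_neut (hG : Good T k q B D K σ H p) (hP : Par B γ α σ) (v : V) (c : C)
    (ω : X → Option C) {i : X} (hi : i ∈ H) (hv : v ∉ T.S i) :
    ∑ a, (if Neut T H v c ω i a then 0 else mu α H p i a) ≤ (B + 1) * (K / D) := by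
  rw [Fintype.sum_option]
  have hnone : Neut T H v c ω i none := by
    intro y hy
    exact absurd hy (by simp)
  rw [if_pos hnone, zero_add]
  set Bc : Finset C := insert c (((att T H v).filter (fun e => i ∈ nb T H e)).biUnion
    (fun e => (ω e).toFinset)) with hB
  have hBcard : Bc.card ≤ B + 1 := by
    refine (Finset.card_insert_le _ _).trans ?_
    apply Nat.add_le_add_right
    calc _ ≤ ((att T H v).filter (fun e => i ∈ nb T H e)).card * 1 := by
          refine Finset.card_biUnion_le_card_mul _ _ _ fun e _ => ?_
          cases ω e <;> simp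
      _ ≤ B := by
          rw [mul_one]
          exact card_att_nb hG hi hv
  have h1 : ∀ y : C, (if Neut T H v c ω i (some y) then 0 else mu α H p i (some y)) ≤
      (if y ∈ Bc then K / D else 0) := by
    intro y
    have hp0 := hG.nonneg i hi y
    have hp1 := hG.le i hi y
    have hKD : 0 ≤ K / D := hp0.trans hp1
    by_cases hn : Neut T H v c ω i (some y)
    · rw [if_pos hn]
      split_ifs
      · exact hKD
      · exact le_rfl
    · rw [if_neg hn]
      have hyB : y ∈ Bc := by
        unfold Neut at hn
        push Not at hn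
        obtain ⟨y', hy', h3⟩ := hn
        have : y = y' := Option.some_injective _ hy'
        subst this
        rw [hB, Finset.mem_insert]
        by_cases hyc : y = c
        · exact Or.inl hyc
        · right
          obtain ⟨e, he, hie, h4⟩ := h3 hyc
          rw [Finset.mem_biUnion]
          exact ⟨e, Finset.mem_filter.2 ⟨he, hie⟩, by rw [h4]; simp⟩
      rw [if_pos hyB]
      simp only [mu, hi, if_true]
      nlinarith [hP.α_le, hP.α_pos]
  refine (Finset.sum_le_sum fun y _ => h1 y).trans ?_
  rw [Finset.sum_ite_mem, Finset.univ_inter, Finset.sum_const, nsmul_eq_mul]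
  obtain ⟨c₀, _⟩ : ∃ c : C, True := ⟨c, trivial⟩
  have hKD : 0 ≤ K / D := (hG.nonneg i hi c₀).trans (hG.le i hi c₀)
  apply mul_le_mul_of_nonneg_right _ hKD
  exact_mod_cast hBcard

/-- effect of a coordinate at `v` -/
theorem ZZ_update_near (hG : Good T k q B D K σ H p) (hP : Par B γ α σ) (hw : 0 ≤ 2 * K / D) (v : V)
    (c : C) (ω : X → Option C) {i : X} (hi : i ∈ att T H v)
    (a b : Option C) :
    |ZZ α T H p v c (Function.update ω i a) - ZZ α T H p v c (Function.update ω i b)| ≤
      3 * (2 * K / D) := by
  classical
  set Bs := (att T H v).filter (fun e => e ≠ i ∧ zt α T H p (att T H v) c e (Function.update ω i a) ≠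
    zt α T H p (att T H v) c e (Function.update ω i b)) with hB
  have key : ∀ e ∈ Bs, ω e ∈ ({a, b} : Finset (Option C)) ∧
      ∀ f ∈ att T H v, f ≠ i → f ≠ e → ω f ≠ ω e := by
    intro e he
    rw [hB, Finset.mem_filter] at he
    obtain ⟨he, hei, hne⟩ := he
    have hF : NoC (Fv T H (att T H v) e) c (Function.update ω i a) ↔
        NoC (Fv T H (att T H v) e) c (Function.update ω i b) := by
      apply noC_congr
      intro f hf
      have hfi : f ≠ i := by
        rintro rfl
        rcases Finset.mem_insert.1 hf with h | h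
        · exact hei h.symm
        · exact (Finset.mem_filter.1 h).2 hi
      rw [Function.update_of_ne hfi, Function.update_of_ne hfi]
    have hC : ¬ (Clr T H e (Function.update ω i a) ↔ Clr T H e (Function.update ω i b)) := by
      intro h
      apply hne
      unfold zt
      simp only [h, hF]
    -- there is a colour `x = ω e` for which the status changes
    have hx : ∃ x, ω e = some x ∧ ¬ (NoC (nb T H e) x (Function.update ω i a) ↔
        NoC (nb T H e) x (Function.update ω i b)) := by
      by_contra hcon
      push Not at hcon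
      apply hC
      unfold Clr Cl
      refine exists_congr fun x => ?_
      rw [Function.update_of_ne hei, Function.update_of_ne hei]
      exact and_congr_right fun hx => hcon x hx
    obtain ⟨x, hx1, hx2⟩ := hx
    refine ⟨?_, ?_⟩
    · rw [hx1]
      by_contra hcon
      simp only [Finset.mem_insert, Finset.mem_singleton, not_or] at hcon
      exact hx2 (noC_update (Ne.symm hcon.1) (Ne.symm hcon.2))
    · intro f hf hfi hfe h
      apply hx2
      have hfnb : f ∈ nb T H e := by
        rw [mem_nb]
        refine ⟨(mem_att.1 hf).1, hfe, ?_⟩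
        left
        rw [Finset.not_disjoint_iff]
        exact ⟨v, (mem_att.1 he).2, (mem_att.1 hf).2⟩
      constructor
      · intro h1
        exact absurd (by rw [Function.update_of_ne hfi, h, hx1]) (h1 f hfnb)
      · intro h1
        exact absurd (by rw [Function.update_of_ne hfi, h, hx1]) (h1 f hfnb)
  have hcard : Bs.card ≤ 2 := by
    calc Bs.card ≤ ({a, b} : Finset (Option C)).card := by
          apply Finset.card_le_card_of_injOn ω
          · intro e he
            exact (key e he).1
          · intro e he f hf hef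
            by_contra hne
            rw [Finset.mem_coe] at he hf
            have hf' := hf
            rw [hB, Finset.mem_filter] at hf'
            exact (key e he).2 f hf'.1 hf'.2.1 (Ne.symm hne) hef.symm
      _ ≤ 2 := Finset.card_le_two
  have := ZZ_sub_le hG hP v c (Function.update ω i a) (Function.update ω i b) (insert i Bs) 3
    ((Finset.card_insert_le _ _).trans (by omega)) hw ?_
  · exact_mod_cast this
  · intro e he heB
    rw [Finset.mem_insert, not_or] at heB
    by_contra hne
    exact heB.2 (Finset.mem_filter.2 ⟨he, heB.1, hne⟩)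

end Pool.Agent.Helper95.BC
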