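import Pool.Agent.Helper95.BC.Eng3

/-!
# The weights in the neighbourhood of an item in the conflict graph

The pick `a` of the item `x` is fixed.
-/

set_option autoImplicit false
set_option linter.unusedSectionVars false

namespace Pool.Agent.Helper95.BC

open Finset Pool.Agent.Helper61.LE

variable {X V C : Type} [Fintype X] [DecidableEq X] [Fintype C] [DecidableEq C]
variable {T : Sys X V} {k q B D : ℕ} {K σ α γ : ℝ} {H : Finset X} {p : X → C → ℝ}

theorem self_not_mem_nr (hG : Good T k q B D K σ H p) (x : X) : x ∉ nr T H x := fun h =>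
  hG.irr x (mem_nr.1 h).2

theorem ne_of_mem_nr (hG : Good T k q B D K σ H p) {x f : X} (h : f ∈ nr T H x) : f ≠ x := by
  rintro rfl
  exact self_not_mem_nr hG _ h

/-- the expected weight in the neighbourhood of `x` -/
theorem EE_ZR_le (hG : Good T k q B D K σ H p) (hP : Par B γ α σ) (hγ : γ ≤ 1 / 2)
    (hKD : K / D ≤ γ / 8) {x : X} (hx : x ∈ H) (c : C) :
    EE (mu α H p) (ZR α T H p x c) ≤ q * σ * (1 - α * γ / 2) := by
  classical
  unfold ZR
  rw [EE_sum]
  calc ∑ e ∈ nr T H x, EE (mu α H p) (zt α T H p {x} c e)
      ≤ ∑ e ∈ nr T H x, p e c * (1 - α * γ / 2) := by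
        refine Finset.sum_le_sum fun e he => EE_zt_le hG hP hKD (mem_nr.1 he).1 c ?_
        calc ∑ f ∈ (nb T H e).filter (fun f => f ∈ ({x} : Finset X)), p f c
            ≤ ∑ f ∈ ({x} : Finset X), p f c := by
              apply Finset.sum_le_sum_of_subset_of_nonneg
              · intro f hf
                exact (Finset.mem_filter.1 hf).2
              · intro f hf _
                rw [Finset.mem_singleton] at hf
                rw [hf]
                exact hG.nonneg x hx c
          _ = p x c := Finset.sum_singleton _ _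
          _ ≤ 1 - γ := by
              have := hG.le x hx c
              have := hP.γ0
              linarith
    _ = (∑ e ∈ nr T H x, p e c) * (1 - α * γ / 2) := by rw [Finset.sum_mul]
    _ ≤ q * σ * (1 - α * γ / 2) := by
        apply mul_le_mul_of_nonneg_right (hG.rc x hx c)
        nlinarith [hP.α_le, hP.α_pos, hP.γ0, hP.γ1]

/-- effect of fixing the pick of `x` -/
theorem zt_update_le (hG : Good T k q B D K σ H p) (hP : Par B γ α σ) {x : X} {f : X}
    (hf : f ∈ nr T H x) (c : C) (ω : X → Option C) (a : Option C) :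
    zt α T H p {x} c f (Function.update ω x a) ≤
      zt α T H p {x} c f ω + (if ω f = a ∧ a ≠ none then 2 * K / D else 0) := by
  classical
  have hfH := (mem_nr.1 hf).1
  have hfx := ne_of_mem_nr hG hf
  have hw := w_le hG hP hfH c
  have hw0 : 0 ≤ p f c / rr α T H p f c :=
    div_nonneg (hG.nonneg f hfH c) (by linarith [rr_ge hG hP hfH c])
  have hF : NoC (Fv T H {x} f) c (Function.update ω x a) ↔ NoC (Fv T H {x} f) c ω := by
    unfold NoC
    refine forall₂_congr fun g hg => ?_
    have hgx : g ≠ x := by
      rintro rfl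
      rcases Finset.mem_insert.1 hg with h | h
      · exact hfx h.symm
      · exact (Finset.mem_filter.1 h).2 (Finset.mem_singleton_self _)
    rw [Function.update_of_ne hgx]
  unfold zt
  by_cases h1 : NoC (Fv T H {x} f) c ω
  · by_cases h2 : Clr T H f ω
    · by_cases h3 : Clr T H f (Function.update ω x a)
      · rw [if_neg (fun h => h.2 h3), if_neg (fun h => h.2 h2)]
        split_ifs <;> linarith
      · obtain ⟨b, hb1, hb2⟩ := h2
        have h4 : a = some b := by
          by_contra hab
          apply h3
          refine ⟨b, ?_, ?_⟩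
          · rw [Function.update_of_ne hfx]
            exact hb1
          · intro g hg
            by_cases hgx : g = x
            · subst hgx
              rw [Function.update_self]
              exact hab
            · rw [Function.update_of_ne hgx]
              exact hb2 g hg
        have h5 : ω f = a ∧ a ≠ none := by
          rw [h4, hb1]
          exact ⟨rfl, by simp⟩
        rw [if_pos h5]
        split_ifs <;> linarith
    · have e1 : (if NoC (Fv T H {x} f) c ω ∧ ¬ Clr T H f ω then p f c / rr α T H p f c
          else 0) = p f c / rr α T H p f c := if_pos ⟨h1, h2⟩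
      rw [e1]
      split_ifs <;> linarith
  · rw [if_neg (fun h => h1 (hF.1 h.1)), if_neg (fun h => h1 h.1)]
    split_ifs <;> linarith

/-- the conditional expectation of the weight in the neighbourhood of `x` -/
theorem EE_ZR_update_le (hG : Good T k q B D K σ H p) (hP : Par B γ α σ) (hγ : γ ≤ 1 / 2)
    (hKD : K / D ≤ γ / 8) (hK : 0 ≤ K) (hD : 1 ≤ D) {x : X} (hx : x ∈ H) (c : C)
    (a : Option C) :
    EE (mu α H p) (fun ω => ZR α T H p x c (Function.update ω x a)) ≤
      q * σ * (1 - α * γ / 2) + 2 * K ^ 2 / D := by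
  classical
  have hμ := isProb_mu hG hP.α_pos.le (by linarith [hP.α_le] : α ≤ 1)
  have hD' : (1 : ℝ) ≤ D := by exact_mod_cast hD
  have h1 : ∀ ω, ZR α T H p x c (Function.update ω x a) ≤ ZR α T H p x c ω +
      ∑ f ∈ nr T H x, (if ω f = a ∧ a ≠ none then 2 * K / D else 0) := by
    intro ω
    unfold ZR
    rw [← Finset.sum_add_distrib]
    exact Finset.sum_le_sum fun f hf => zt_update_le hG hP hf c ω a
  refine (EE_mono hμ h1).trans ?_
  rw [EE_add]
  refine add_le_add (EE_ZR_le hG hP hγ hKD hx c) ?_
  rw [EE_sum]
  have h2 : ∀ f ∈ nr T H x,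
      EE (mu α H p) (fun ω => if ω f = a ∧ a ≠ none then 2 * K / D else 0) ≤
        2 * K / D * (K / D) := by
    intro f hf
    have hfH := (mem_nr.1 hf).1
    cases a with
    | none =>
      have : EE (mu α H p) (fun ω : X → Option C =>
          if ω f = none ∧ (none : Option C) ≠ none then 2 * K / (D : ℝ) else 0) = 0 := by
        refine Eq.trans (EE_congr (g := fun _ => 0) fun ω => ?_) (EE_const hμ 0)
        simp
      rw [this]
      positivity
    | some b =>
      have h3 : EE (mu α H p) (fun ω : X → Option C =>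
          if ω f = some b ∧ (some b : Option C) ≠ none then 2 * K / (D : ℝ) else 0) =
          2 * K / D * PP (mu α H p) (fun ω => ∀ i ∈ ({f} : Finset X), ω i = some b) := by
        unfold PP
        rw [← EE_const_mul]
        refine EE_congr fun ω => ?_
        by_cases h : ω f = some b <;> simp [h]
      rw [h3, PP_forall_mem hμ ({f} : Finset X) (fun _ y => y = some b),
        Finset.prod_singleton, sum_eq hG hfH]
      apply mul_le_mul_of_nonneg_left _ (by positivity)
      have h4 := hG.le f hfH b
      have h5 := hG.nonneg f hfH b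
      nlinarith [hP.α_le, hP.α_pos]
  refine (Finset.sum_le_sum h2).trans ?_
  rw [Finset.sum_const, nsmul_eq_mul]
  have h3 : ((nr T H x).card : ℝ) ≤ D := by exact_mod_cast hG.rdeg x hx
  calc ((nr T H x).card : ℝ) * (2 * K / D * (K / D)) ≤ D * (2 * K / D * (K / D)) :=
        mul_le_mul_of_nonneg_right h3 (by positivity)
    _ = 2 * K ^ 2 / D := by
        field_simp

/-! ### effect of the other coordinates -/

/-- the coordinates relevant for the neighbourhood of `x` -/
noncomputable def Sr (T : Sys X V) (H : Finset X) (x : X) : Finset X :=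
  insert x ((nr T H x).biUnion (fun e => insert e (nb T H e)))

theorem nr_subset_Sr (x : X) : nr T H x ⊆ Sr T H x := fun e he =>
  Finset.mem_insert_of_mem (Finset.mem_biUnion.2 ⟨e, he, Finset.mem_insert_self _ _⟩)

theorem Sr_subset {x : X} (hx : x ∈ H) : Sr T H x ⊆ H := by
  intro f hf
  rcases Finset.mem_insert.1 hf with rfl | hf
  · exact hx
  · obtain ⟨e, he, hf⟩ := Finset.mem_biUnion.1 hf
    rcases Finset.mem_insert.1 hf with rfl | hf
    · exact (mem_nr.1 he).1
    · exact (mem_nb.1 hf).1

theorem card_Sr (hG : Good T k q B D K σ H p) {x : X} (hx : x ∈ H) :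
    (Sr T H x).card ≤ D * (B * D) + 1 := by
  refine (Finset.card_insert_le _ _).trans (Nat.add_le_add_right ?_ 1)
  calc _ ≤ (nr T H x).card * (B * D) :=
        Finset.card_biUnion_le_card_mul _ _ _ fun e he => card_nb_le hG (mem_nr.1 he).1
    _ ≤ D * (B * D) := Nat.mul_le_mul_right _ (hG.rdeg x hx)

theorem dep_ZR (x : X) (c : C) : Dep (ZR α T H p x c) (Sr T H x) := by
  intro ω ω' h
  unfold ZR
  refine Finset.sum_congr rfl fun e he => dep_zt _ c e ω ω' fun f hf => h f ?_
  exact Finset.mem_insert_of_mem (Finset.mem_biUnion.2 ⟨e, he, hf⟩)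

/-- few neighbours of `x` are in conflict with an item different from `x` -/
theorem card_nr_nb (hG : Good T k q B D K σ H p) {x : X} (hx : x ∈ H) {i : X} (hi : i ∈ H)
    (hix : i ≠ x) : ((nr T H x).filter (fun e => i ∈ nb T H e)).card ≤ B := by
  classical
  have hsub : (nr T H x).filter (fun e => i ∈ nb T H e) ⊆
      (T.S i).biUnion (fun u => att T H u ∩ nr T H x) ∪ (nr T H i ∩ nr T H x) := by
    intro e he
    rw [Finset.mem_filter] at he
    obtain ⟨h1, h2⟩ := he
    obtain ⟨_, _, h5⟩ := mem_nb.1 h2
    rw [Finset.mem_union]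
    rcases h5 with h5 | h5
    · rw [Finset.not_disjoint_iff] at h5
      obtain ⟨u, hu1, hu2⟩ := h5
      exact Or.inl (Finset.mem_biUnion.2 ⟨u, hu2, Finset.mem_inter.2
        ⟨mem_att.2 ⟨(mem_nr.1 h1).1, hu1⟩, h1⟩⟩)
    · exact Or.inr (Finset.mem_inter.2 ⟨mem_nr.2 ⟨(mem_nr.1 h1).1, hG.sym _ _ h5⟩, h1⟩)
  have h1 : ((T.S i).biUnion (fun u => att T H u ∩ nr T H x)).card ≤ (T.S i).card * 1 :=
    Finset.card_biUnion_le_card_mul _ _ _ fun u _ => hG.rlin x hx u
  have h2 := hG.size i hi
  have h3 := hG.hB
  have h4 := hG.hq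
  have h5 := hG.c4 i hi x hx hix
  have h6 := (Finset.card_le_card hsub).trans (Finset.card_union_le _ _)
  omega

/-- effect of a coordinate away from `x` -/
theorem ZR_update_far (hG : Good T k q B D K σ H p) (hP : Par B γ α σ) (hw : 0 ≤ 2 * K / D)
    {x : X} (hx : x ∈ H) (c : C) (ω : X → Option C) {i : X} (hi : i ∈ H) (hix : i ≠ x)
    (hin : i ∉ nr T H x) (a b : Option C) :
    |ZR α T H p x c (Function.update ω i a) - ZR α T H p x c (Function.update ω i b)| ≤
      B * (2 * K / D) := by
  apply sum_zt_sub_le hG hP (nr_subset x) _ c _ _ ((nr T H x).filter (fun e => i ∈ nb T H e)) B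
    (card_nr_nb hG hx hi hix) hw
  intro e he heB
  apply dep_zt
  intro f hf
  have hfi : f ≠ i := by
    rintro rfl
    rcases Finset.mem_insert.1 hf with rfl | hf
    · exact hin he
    · exact heB (Finset.mem_filter.2 ⟨he, hf⟩)
  rw [Function.update_of_ne hfi, Function.update_of_ne hfi]

/-- neutral values of a coordinate away from `x` -/
def NeutR (T : Sys X V) (H : Finset X) (x : X) (c : C) (ω : X → Option C) (i : X)
    (a : Option C) : Prop :=
  ∀ y, a = some y → y ≠ c ∧ ∀ e ∈ nr T H x, i ∈ nb T H e → ω e ≠ some y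

theorem ZR_update_neut (x : X) (c : C) (ω τ : X → Option C)
    (hτ : ∀ e ∈ nr T H x, τ e = ω e) {i : X} (hin : i ∉ nr T H x)
    {a b : Option C} (ha : NeutR T H x c ω i a) (hb : NeutR T H x c ω i b) :
    ZR α T H p x c (Function.update τ i a) = ZR α T H p x c (Function.update τ i b) := by
  classical
  have hac : a ≠ some c := fun h => (ha c h).1 rfl
  have hbc : b ≠ some c := fun h => (hb c h).1 rfl
  unfold ZR
  refine Finset.sum_congr rfl fun e he => ?_
  have hei : e ≠ i := by
    rintro rfl
    exact hin he
  have h1 : Clr T H e (Function.update τ i a) ↔ Clr T H e (Function.update τ i b) := by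
    unfold Clr Cl
    refine exists_congr fun y => ?_
    rw [Function.update_of_ne hei, Function.update_of_ne hei]
    refine and_congr_right fun hy => ?_
    by_cases hin' : i ∈ nb T H e
    · apply noC_update
      · intro h
        exact (ha y h).2 e he hin' (by rw [← hτ e he]; exact hy)
      · intro h
        exact (hb y h).2 e he hin' (by rw [← hτ e he]; exact hy)
    · apply noC_congr
      intro f hf
      have hfi : f ≠ i := by
        rintro rfl
        exact hin' hf
      rw [Function.update_of_ne hfi, Function.update_of_ne hfi]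
  unfold zt
  simp only [h1, noC_update hac hbc]

open Classical in
theorem sum_not_neutR (hG : Good T k q B D K σ H p) (hP : Par B γ α σ) {x : X} (hx : x ∈ H)
    (c : C) (ω : X → Option C) {i : X} (hi : i ∈ H) (hix : i ≠ x) :
    ∑ a, (if NeutR T H x c ω i a then 0 else mu α H p i a) ≤ (B + 1) * (K / D) := by
  rw [Fintype.sum_option]
  have hnone : NeutR T H x c ω i none := by
    intro y hy
    exact absurd hy (by simp)
  rw [if_pos hnone, zero_add]
  set Bc : Finset C := insert c (((nr T H x).filter (fun e => i ∈ nb T H e)).biUnion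
    (fun e => (ω e).toFinset)) with hB
  have hBcard : Bc.card ≤ B + 1 := by
    refine (Finset.card_insert_le _ _).trans ?_
    apply Nat.add_le_add_right
    calc _ ≤ ((nr T H x).filter (fun e => i ∈ nb T H e)).card * 1 := by
          refine Finset.card_biUnion_le_card_mul _ _ _ fun e _ => ?_
          cases ω e <;> simp
      _ ≤ B := by
          rw [mul_one]
          exact card_nr_nb hG hx hi hix
  have h1 : ∀ y : C, (if NeutR T H x c ω i (some y) then 0 else mu α H p i (some y)) ≤
      (if y ∈ Bc then K / D else 0) := by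
    intro y
    have hp0 := hG.nonneg i hi y
    have hp1 := hG.le i hi y
    have hKD : 0 ≤ K / D := hp0.trans hp1
    by_cases hn : NeutR T H x c ω i (some y)
    · rw [if_pos hn]
      split_ifs
      · exact hKD
      · exact le_rfl
    · rw [if_neg hn]
      have hyB : y ∈ Bc := by
        unfold NeutR at hn
        push Not at hn
        obtain ⟨y', hy', h3⟩ := hn
        have : y = y' := Option.some_injective _ hy'
        subst this
        rw [hB, Finset.mem_insert]
        by_cases hyc : y = c
        · exact Or.inl hyc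
        · right
          obtain ⟨e, he, hie, h4⟩ := h3 hyc
          rw [Finset.mem_biUnion]
          exact ⟨e, Finset.mem_filter.2 ⟨he, hie⟩, by rw [h4]; simp⟩
      rw [if_pos hyB]
      simp only [mu, hi, if_true]
      nlinarith [hP.α_le, hP.α_pos]
  refine (Finset.sum_le_sum fun y _ => h1 y).trans ?_
  rw [Finset.sum_ite_mem, Finset.univ_inter, Finset.sum_const, nsmul_eq_mul]
  obtain ⟨c₀, _⟩ : ∃ c : C, True := ⟨c, trivial⟩
  have hKD : 0 ≤ K / D := (hG.nonneg i hi c₀).trans (hG.le i hi c₀)
  apply mul_le_mul_of_nonneg_right _ hKD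
  exact_mod_cast hBcard

/-- effect of a coordinate in the neighbourhood of `x` -/
theorem ZR_update_near (hG : Good T k q B D K σ H p) (hP : Par B γ α σ) (hw : 0 ≤ 2 * K / D)
    {x : X} (hx : x ∈ H) (c : C) (ω : X → Option C) {i : X} (hi : i ∈ nr T H x)
    (a b : Option C) :
    |ZR α T H p x c (Function.update ω i a) - ZR α T H p x c (Function.update ω i b)| ≤
      3 * (2 * K / D) := by
  classical
  have hiH := (mem_nr.1 hi).1
  have hix := ne_of_mem_nr hG hi
  have h1 := hG.c4 i hiH x hx hix
  have := sum_zt_sub_le (α := α) hG hP (nr_subset (T := T) x) {x} c (Function.update ω i a)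
    (Function.update ω i b) (insert i (nr T H i ∩ nr T H x)) 3
    ((Finset.card_insert_le _ _).trans (by omega)) hw ?_
  · exact_mod_cast this
  · intro e he heB
    rw [Finset.mem_insert, not_or] at heB
    apply dep_zt
    intro f hf
    have hfi : f ≠ i := by
      rintro rfl
      rcases Finset.mem_insert.1 hf with h | hf
      · exact heB.1 h.symm
      · obtain ⟨_, _, h5⟩ := mem_nb.1 hf
        rcases h5 with h5 | h5
        · rw [Finset.not_disjoint_iff] at h5
          obtain ⟨u, hu1, hu2⟩ := h5
          have h6 := hG.rlin x hx u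
          rw [Finset.card_le_one] at h6
          exact heB.1 (h6 e (Finset.mem_inter.2 ⟨mem_att.2 ⟨(mem_nr.1 he).1, hu1⟩, he⟩) _
            (Finset.mem_inter.2 ⟨mem_att.2 ⟨hiH, hu2⟩, hi⟩))
        · exact heB.2 (Finset.mem_inter.2 ⟨mem_nr.2 ⟨(mem_nr.1 he).1, hG.sym _ _ h5⟩, he⟩)
    rw [Function.update_of_ne hfi, Function.update_of_ne hfi]

end Pool.Agent.Helper95.BC
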