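import Pool.Agent.Helper95.BC.Eng3b

/-!
# Tail bounds
-/

set_option autoImplicit false
set_option linter.unusedSectionVars false

namespace Pool.Agent.Helper95.BC

open Finset Pool.Agent.Helper61.LE

variable {X V C : Type} [Fintype X] [DecidableEq X] [Fintype C] [DecidableEq C]
variable {T : Sys X V} {k q B D : ℕ} {K σ α γ : ℝ} {H : Finset X} {p : X → C → ℝ}

/-- exponential moments of the weight at a vertex -/
theorem mgf_ZZ (hG : Good T k q B D K σ H p) (hP : Par B γ α σ) (hw : 0 ≤ 2 * K / D) (v : V) (c : C)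
    {l : ℝ} (hl : 0 ≤ l) (hl1 : l * (B * (2 * K / D)) ≤ 1) (hl2 : l * (3 * (2 * K / D)) ≤ 1) :
    EE (mu α H p) (fun ω => Real.exp (l * ZZ α T H p v c ω)) ≤
      Real.exp (l * EE (mu α H p) (ZZ α T H p v c) +
        l ^ 2 * (D * (3 * (2 * K / D)) ^ 2 + D * (B * D) * (((B + 1) * (K / D)) *
          (B * (2 * K / D)) ^ 2))) := by
  classical
  have hμ := isProb_mu hG hP.α_pos.le (by linarith [hP.α_le] : α ≤ 1)
  set S₁ := att T H v with hS₁
  set S₂ := Sv T H v \ att T H v with hS₂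
  set w := 2 * K / D with hwdef
  have hKD : (0 : ℝ) ≤ K / D := by
    rw [hwdef, mul_div_assoc] at hw
    linarith
  rw [← EE_mix hμ S₁ (fun ω => Real.exp (l * ZZ α T H p v c ω)),
    ← EE_mix hμ S₁ (ZZ α T H p v c)]
  -- inner estimate
  have inner : ∀ ω, EE (mu α H p) (fun ω' => Real.exp (l * ZZ α T H p v c (mix S₁ ω ω'))) ≤
      Real.exp (l ^ 2 * (D * (B * D) * (((B + 1) * (K / D)) * (B * w) ^ 2))) *
      Real.exp (l * EE (mu α H p) (fun ω' => ZZ α T H p v c (mix S₁ ω ω'))) := by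
    intro ω
    have h1 := mgf hμ (fun _ => B * w) (fun _ => (B + 1) * (K / D)) hl
      (Neut T H v c ω) S₂ (fun ω' => ZZ α T H p v c (mix S₁ ω ω')) ?_ ?_ ?_ ?_ ?_
    · refine h1.trans ?_
      rw [← Real.exp_add]
      apply Real.exp_le_exp.2
      rw [Finset.sum_const, nsmul_eq_mul]
      have h2 : (S₂.card : ℝ) ≤ D * (B * D) := by
        have := (Finset.card_le_card (Finset.sdiff_subset (s := Sv T H v) (t := att T H v))).trans
          (card_Sv hG v)
        exact_mod_cast this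
      have h3 : 0 ≤ ((B + 1) * (K / D)) * (B * w) ^ 2 := by positivity
      have h4 := mul_le_mul_of_nonneg_right h2 h3
      have h5 := mul_le_mul_of_nonneg_left h4 (sq_nonneg l)
      linarith
    · intro ω₁ ω₂ h
      apply dep_ZZ
      intro f hf
      by_cases hfS : f ∈ S₁
      · rw [mix_mem hfS, mix_mem hfS]
      · rw [mix_not_mem hfS, mix_not_mem hfS]
        exact h f (Finset.mem_sdiff.2 ⟨hf, hfS⟩)
    · intro i _
      exact hl1
    · intro i hi ω' a b
      rw [Finset.mem_sdiff] at hi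
      have hiH := Sv_subset v hi.1
      have hv : v ∉ T.S i := fun h => hi.2 (mem_att.2 ⟨hiH, h⟩)
      rw [mix_update_not_mem hi.2, mix_update_not_mem hi.2]
      exact ZZ_update_far hG hP hw v c _ hiH hv a b
    · intro i hi ω' a b ha hb
      rw [Finset.mem_sdiff] at hi
      have hiH := Sv_subset v hi.1
      have hv : v ∉ T.S i := fun h => hi.2 (mem_att.2 ⟨hiH, h⟩)
      rw [mix_update_not_mem hi.2, mix_update_not_mem hi.2]
      exact ZZ_update_neut v c ω _ (fun e he => mix_mem he) hv ha hb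
    · intro i hi
      rw [Finset.mem_sdiff] at hi
      have hiH := Sv_subset v hi.1
      have hv : v ∉ T.S i := fun h => hi.2 (mem_att.2 ⟨hiH, h⟩)
      exact sum_not_neut hG hP v c ω hiH hv
  refine (EE_mono hμ inner).trans ?_
  rw [EE_const_mul]
  have outer := mgf hμ (fun _ => 3 * w) (fun _ => 1) hl (fun _ _ => False) S₁
    (fun ω => EE (mu α H p) (fun ω' => ZZ α T H p v c (mix S₁ ω ω'))) ?_ ?_ ?_ ?_ ?_
  · refine (mul_le_mul_of_nonneg_left outer (Real.exp_pos _).le).trans ?_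
    rw [← Real.exp_add]
    apply Real.exp_le_exp.2
    rw [Finset.sum_const, nsmul_eq_mul]
    have h2 : (S₁.card : ℝ) ≤ D := by exact_mod_cast hG.deg v
    have h3 : 0 ≤ 1 * (3 * w) ^ 2 := by positivity
    have h4 := mul_le_mul_of_nonneg_right h2 h3
    have h5 := mul_le_mul_of_nonneg_left h4 (sq_nonneg l)
    linarith
  · intro ω₁ ω₂ h
    refine EE_congr fun ω' => ?_
    congr 1
    ext1 f
    by_cases hfS : f ∈ S₁
    · rw [mix_mem hfS, mix_mem hfS, h f hfS]
    · rw [mix_not_mem hfS, mix_not_mem hfS]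
  · intro i _
    exact hl2
  · intro i hi ω a b
    apply EE_abs_sub_le hμ
    intro ω'
    rw [mix_update_mem hi, mix_update_mem hi]
    exact ZZ_update_near hG hP hw v c _ hi a b
  · intro i _ ω a b ha
    exact ha.elim
  · intro i _
    simp only [if_false]
    rw [hμ.sum_one i]

theorem mgf_WW (hG : Good T k q B D K σ H p) (hP : Par B γ α σ) {e : X} (he : e ∈ H)
    {l : ℝ} (hl : 0 ≤ l) (hl1 : l * (2 * (2 * K / D)) ≤ 1) :
    EE (mu α H p) (fun ω => Real.exp (l * (-WW α T H p e ω))) ≤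
      Real.exp (l * EE (mu α H p) (fun ω => -WW α T H p e ω) +
        l ^ 2 * (B * D * (2 * (2 * K / D)) ^ 2)) := by
  classical
  have hμ := isProb_mu hG hP.α_pos.le (by linarith [hP.α_le] : α ≤ 1)
  have h := mgf hμ (fun _ => 2 * (2 * K / D)) (fun _ => 1) hl (fun _ _ => False)
    (insert e (nb T H e)) (fun ω => -WW α T H p e ω) ?_ ?_ ?_ ?_ ?_
  · refine h.trans ?_
    apply Real.exp_le_exp.2
    rw [Finset.sum_const, nsmul_eq_mul]
    have h2 : ((insert e (nb T H e)).card : ℝ) ≤ B * D := by exact_mod_cast card_nb_le hG he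
    have h3 : 0 ≤ 1 * (2 * (2 * K / (D : ℝ))) ^ 2 := by positivity
    have h4 := mul_le_mul_of_nonneg_right h2 h3
    have h5 := mul_le_mul_of_nonneg_left h4 (sq_nonneg l)
    linarith
  · intro ω₁ ω₂ h
    dsimp only
    rw [dep_WW e ω₁ ω₂ h]
  · intro i _
    exact hl1
  · intro i _ ω a b
    have := WW_update hG hP he ω i a b
    rw [abs_sub_comm] at this
    rw [show -WW α T H p e (Function.update ω i a) - -WW α T H p e (Function.update ω i b) =
      WW α T H p e (Function.update ω i b) - WW α T H p e (Function.update ω i a) by ring]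
    exact this
  · intro i _ ω a b ha
    exact ha.elim
  · intro i _
    simp only [if_false]
    rw [hμ.sum_one i]

theorem tail_ZZ (hG : Good T k q B D K σ H p) (hP : Par B γ α σ) (hK : 1 ≤ K) (hD : 1 ≤ D) {δ : ℝ}
    (hδ0 : 0 ≤ δ) (hδ1 : δ ≤ 1) (v : V) (c : C) :
    PP (mu α H p) (fun ω => EE (mu α H p) (ZZ α T H p v c) + δ ≤ ZZ α T H p v c ω) ≤
      Real.exp (-(δ ^ 2 / (4 * AA B K) * D)) := by
  have hμ := isProb_mu hG hP.α_pos.le (by linarith [hP.α_le] : α ≤ 1)
  have hD' : (1 : ℝ) ≤ D := by exact_mod_cast hD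
  have hk' : (1 : ℝ) ≤ B := by exact_mod_cast hP.k1
  have hA := AA_pos hP.k1 hK
  have hA1 := AA_ge1 hP.k1 hK
  have hA2 := AA_ge2 hP.k1 hK
  have hw : 0 ≤ 2 * K / (D : ℝ) := by positivity
  refine tail hμ (ZZ α T H p v c) (Vr := D * (3 * (2 * K / D)) ^ 2 + D * (B * D) *
    (((B + 1) * (K / D)) * (B * (2 * K / D)) ^ 2)) hA (by linarith) hδ0 ?_ ?_
  · rw [le_div_iff₀ (by linarith)]
    have h1 : (D * (3 * (2 * K / D)) ^ 2 + D * (B * D) *
      (((B + 1) * (K / D)) * (B * (2 * K / D)) ^ 2)) * (D : ℝ) =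
      36 * K ^ 2 + 4 * B ^ 3 * (B + 1) * K ^ 3 := by
      field_simp
      ring
    rw [h1]
    unfold AA
    have h2 : K ^ 2 ≤ (B : ℝ) ^ 4 * K ^ 3 := by
      have a1 : (1 : ℝ) ≤ (B : ℝ) ^ 4 := one_le_pow₀ hk'
      have a2 : K ^ 2 * 1 ≤ K ^ 2 * K := mul_le_mul_of_nonneg_left hK (by positivity)
      have a3 : 1 * K ^ 3 ≤ (B : ℝ) ^ 4 * K ^ 3 := mul_le_mul_of_nonneg_right a1 (by positivity)
      nlinarith
    have h3 : 4 * (B : ℝ) ^ 3 * (B + 1) * K ^ 3 ≤ 8 * (B : ℝ) ^ 4 * K ^ 3 := by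
      have : 4 * (B : ℝ) ^ 3 * (B + 1) ≤ 8 * (B : ℝ) ^ 4 := by
        have : (B : ℝ) ^ 3 * (B + 1) ≤ (B : ℝ) ^ 3 * (2 * B) :=
          mul_le_mul_of_nonneg_left (by linarith) (by positivity)
        nlinarith
      exact mul_le_mul_of_nonneg_right this (by positivity)
    linarith
  · apply mgf_ZZ hG hP hw
    · positivity
    · have : δ / (2 * AA B K) * D * (B * (2 * K / D)) = δ * (B * K) / AA B K := by
        field_simp
      rw [this, div_le_one hA]
      have : δ * (B * K) ≤ 1 * (B * K) := mul_le_mul_of_nonneg_right hδ1 (by positivity)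
      nlinarith
    · have : δ / (2 * AA B K) * D * (3 * (2 * K / D)) = δ * (3 * K) / AA B K := by
        field_simp
      rw [this, div_le_one hA]
      have : δ * (3 * K) ≤ 1 * (3 * K) := mul_le_mul_of_nonneg_right hδ1 (by positivity)
      nlinarith

theorem tail_WW (hG : Good T k q B D K σ H p) (hP : Par B γ α σ) (hK : 1 ≤ K) (hD : 1 ≤ D) {δ : ℝ}
    (hδ0 : 0 ≤ δ) (hδ1 : δ ≤ 1) {e : X} (he : e ∈ H) :
    PP (mu α H p) (fun ω => WW α T H p e ω ≤ 1 - δ) ≤
      Real.exp (-(δ ^ 2 / (4 * AA B K) * D)) := by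
  have hμ := isProb_mu hG hP.α_pos.le (by linarith [hP.α_le] : α ≤ 1)
  have hD' : (1 : ℝ) ≤ D := by exact_mod_cast hD
  have hk' : (1 : ℝ) ≤ B := by exact_mod_cast hP.k1
  have hA := AA_pos hP.k1 hK
  have hA1 := AA_ge1 hP.k1 hK
  have hw : 0 ≤ 2 * K / (D : ℝ) := by positivity
  have h0 : PP (mu α H p) (fun ω => WW α T H p e ω ≤ 1 - δ) =
      PP (mu α H p) (fun ω => EE (mu α H p) (fun ω => -WW α T H p e ω) + δ ≤ -WW α T H p e ω) := by
    refine PP_congr fun ω => ?_
    rw [EE_neg, EE_WW hG hP he]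
    constructor <;> intro h <;> linarith
  rw [h0]
  refine tail hμ (fun ω => -WW α T H p e ω) (Vr := B * D * (2 * (2 * K / D)) ^ 2)
    hA (by linarith) hδ0 ?_ ?_
  · rw [le_div_iff₀ (by linarith)]
    have h1 : (B * D * (2 * (2 * K / D)) ^ 2) * (D : ℝ) = 16 * B * K ^ 2 := by
      field_simp
      ring
    rw [h1]
    unfold AA
    have a1 : (B : ℝ) ≤ (B : ℝ) ^ 4 := le_self_pow₀ hk' (by norm_num)
    have a2 : K ^ 2 * 1 ≤ K ^ 2 * K := mul_le_mul_of_nonneg_left hK (by positivity)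
    have a3 : (B : ℝ) * K ^ 3 ≤ (B : ℝ) ^ 4 * K ^ 3 :=
      mul_le_mul_of_nonneg_right a1 (by positivity)
    have a4 : (B : ℝ) * (K ^ 2 * 1) ≤ B * (K ^ 2 * K) :=
      mul_le_mul_of_nonneg_left a2 (by positivity)
    have a5 : (0 : ℝ) ≤ (B : ℝ) * K ^ 2 := by positivity
    nlinarith
  · apply mgf_WW hG hP he
    · positivity
    · have : δ / (2 * AA B K) * D * (2 * (2 * K / D)) = δ * (2 * K) / AA B K := by
        field_simp
      rw [this, div_le_one hA]
      have : δ * (2 * K) ≤ 1 * (2 * K) := mul_le_mul_of_nonneg_right hδ1 (by positivity)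
      nlinarith

/-- exponential moments of the weight in the neighbourhood of `x`, for a fixed pick of `x` -/
theorem mgf_ZR (hG : Good T k q B D K σ H p) (hP : Par B γ α σ) (hw : 0 ≤ 2 * K / D) {x : X}
    (hx : x ∈ H) (c : C) (a : Option C)
    {l : ℝ} (hl : 0 ≤ l) (hl1 : l * (B * (2 * K / D)) ≤ 1) (hl2 : l * (3 * (2 * K / D)) ≤ 1) :
    EE (mu α H p) (fun ω => Real.exp (l * ZR α T H p x c (Function.update ω x a))) ≤
      Real.exp (l * EE (mu α H p) (fun ω => ZR α T H p x c (Function.update ω x a)) +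
        l ^ 2 * (D * (3 * (2 * K / D)) ^ 2 + D * (B * D) * (((B + 1) * (K / D)) *
          (B * (2 * K / D)) ^ 2))) := by
  classical
  have hμ := isProb_mu hG hP.α_pos.le (by linarith [hP.α_le] : α ≤ 1)
  set S₁ := nr T H x with hS₁
  set S₂ := (Sr T H x \ nr T H x).erase x with hS₂
  set w := 2 * K / D with hwdef
  have hKD : (0 : ℝ) ≤ K / D := by
    rw [hwdef, mul_div_assoc] at hw
    linarith
  set g : (X → Option C) → ℝ := fun ω => ZR α T H p x c (Function.update ω x a) with hg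
  have hxS₁ : x ∉ S₁ := self_not_mem_nr hG x
  have hgu : ∀ (ω : X → Option C) (i : X) (b : Option C), i ≠ x →
      g (Function.update ω i b) = ZR α T H p x c (Function.update (Function.update ω x a) i b) := by
    intro ω i b hi
    simp only [hg]
    rw [Function.update_comm hi]
  change EE (mu α H p) (fun ω => Real.exp (l * g ω)) ≤ Real.exp (l * EE (mu α H p) g + _)
  rw [← EE_mix hμ S₁ (fun ω => Real.exp (l * g ω)), ← EE_mix hμ S₁ g]
  have hdep : Dep g (Sr T H x) := by
    intro ω₁ ω₂ h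
    simp only [hg]
    apply dep_ZR
    intro f hf
    by_cases hfx : f = x
    · subst hfx
      rw [Function.update_self, Function.update_self]
    · rw [Function.update_of_ne hfx, Function.update_of_ne hfx]
      exact h f hf
  have hS₂mem : ∀ i ∈ S₂, i ∈ H ∧ i ≠ x ∧ i ∉ S₁ := by
    intro i hi
    rw [hS₂, Finset.mem_erase, Finset.mem_sdiff] at hi
    exact ⟨Sr_subset hx hi.2.1, hi.1, hi.2.2⟩
  -- inner estimate
  have inner : ∀ ω, EE (mu α H p) (fun ω' => Real.exp (l * g (mix S₁ ω ω'))) ≤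
      Real.exp (l ^ 2 * (D * (B * D) * (((B + 1) * (K / D)) * (B * w) ^ 2))) *
      Real.exp (l * EE (mu α H p) (fun ω' => g (mix S₁ ω ω'))) := by
    intro ω
    have h1 := mgf hμ (fun _ => B * w) (fun _ => (B + 1) * (K / D)) hl
      (NeutR T H x c ω) S₂ (fun ω' => g (mix S₁ ω ω')) ?_ ?_ ?_ ?_ ?_
    · refine h1.trans ?_
      rw [← Real.exp_add]
      apply Real.exp_le_exp.2
      rw [Finset.sum_const, nsmul_eq_mul]
      have h2 : (S₂.card : ℝ) ≤ D * (B * D) := by
        have h3 : S₂ ⊆ (nr T H x).biUnion (fun e => insert e (nb T H e)) := by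
          intro i hi
          rw [hS₂, Finset.mem_erase, Finset.mem_sdiff] at hi
          exact (Finset.mem_insert.1 hi.2.1).resolve_left hi.1
        have h4 : ((nr T H x).biUnion (fun e => insert e (nb T H e))).card ≤
            (nr T H x).card * (B * D) :=
          Finset.card_biUnion_le_card_mul _ _ _ fun e he => card_nb_le hG (mem_nr.1 he).1
        have h5 := (Finset.card_le_card h3).trans
          (h4.trans (Nat.mul_le_mul_right _ (hG.rdeg x hx)))
        exact_mod_cast h5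
      have h3 : 0 ≤ ((B + 1) * (K / D)) * (B * w) ^ 2 := by positivity
      have h4 := mul_le_mul_of_nonneg_right h2 h3
      have h5 := mul_le_mul_of_nonneg_left h4 (sq_nonneg l)
      linarith
    · intro ω₁ ω₂ h
      simp only [hg]
      apply dep_ZR
      intro f hf
      by_cases hfx : f = x
      · subst hfx
        rw [Function.update_self, Function.update_self]
      · rw [Function.update_of_ne hfx, Function.update_of_ne hfx]
        by_cases hfS : f ∈ S₁
        · rw [mix_mem hfS, mix_mem hfS]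
        · rw [mix_not_mem hfS, mix_not_mem hfS]
          exact h f (Finset.mem_erase.2 ⟨hfx, Finset.mem_sdiff.2 ⟨hf, hfS⟩⟩)
    · intro i _
      exact hl1
    · intro i hi ω' a' b
      obtain ⟨hiH, hix, hiS⟩ := hS₂mem i hi
      rw [mix_update_not_mem hiS, mix_update_not_mem hiS, hgu _ _ _ hix, hgu _ _ _ hix]
      exact ZR_update_far hG hP hw hx c _ hiH hix hiS a' b
    · intro i hi ω' a' b ha hb
      obtain ⟨hiH, hix, hiS⟩ := hS₂mem i hi
      rw [mix_update_not_mem hiS, mix_update_not_mem hiS, hgu _ _ _ hix, hgu _ _ _ hix]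
      refine ZR_update_neut x c ω _ (fun e he => ?_) hiS ha hb
      rw [Function.update_of_ne (ne_of_mem_nr hG he)]
      exact mix_mem he
    · intro i hi
      obtain ⟨hiH, hix, hiS⟩ := hS₂mem i hi
      exact sum_not_neutR hG hP hx c ω hiH hix
  refine (EE_mono hμ inner).trans ?_
  rw [EE_const_mul]
  have outer := mgf hμ (fun _ => 3 * w) (fun _ => 1) hl (fun _ _ => False) S₁
    (fun ω => EE (mu α H p) (fun ω' => g (mix S₁ ω ω'))) ?_ ?_ ?_ ?_ ?_
  · refine (mul_le_mul_of_nonneg_left outer (Real.exp_pos _).le).trans ?_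
    rw [← Real.exp_add]
    apply Real.exp_le_exp.2
    rw [Finset.sum_const, nsmul_eq_mul]
    have h2 : (S₁.card : ℝ) ≤ D := by exact_mod_cast hG.rdeg x hx
    have h3 : 0 ≤ 1 * (3 * w) ^ 2 := by positivity
    have h4 := mul_le_mul_of_nonneg_right h2 h3
    have h5 := mul_le_mul_of_nonneg_left h4 (sq_nonneg l)
    linarith
  · intro ω₁ ω₂ h
    refine EE_congr fun ω' => ?_
    congr 1
    ext1 f
    by_cases hfS : f ∈ S₁
    · rw [mix_mem hfS, mix_mem hfS, h f hfS]
    · rw [mix_not_mem hfS, mix_not_mem hfS]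
  · intro i _
    exact hl2
  · intro i hi ω a' b
    apply EE_abs_sub_le hμ
    intro ω'
    have hix : i ≠ x := ne_of_mem_nr hG hi
    rw [mix_update_mem hi, mix_update_mem hi, hgu _ _ _ hix, hgu _ _ _ hix]
    exact ZR_update_near hG hP hw hx c _ hi a' b
  · intro i _ ω a' b ha
    exact ha.elim
  · intro i _
    simp only [if_false]
    rw [hμ.sum_one i]

theorem tail_ZR (hG : Good T k q B D K σ H p) (hP : Par B γ α σ) (hγ : γ ≤ 1 / 2)
    (hKD : K / D ≤ γ / 8) (hK : 1 ≤ K) (hD : 1 ≤ D) {δ : ℝ}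
    (hδ0 : 0 ≤ δ) (hδ1 : δ ≤ 1) {x : X} (hx : x ∈ H) (c : C) :
    PP (mu α H p) (fun ω => q * σ * (1 - α * γ / 2) + 2 * K ^ 2 / D + δ ≤ ZR α T H p x c ω) ≤
      Real.exp (-(δ ^ 2 / (4 * AA B K) * D)) := by
  classical
  have hμ := isProb_mu hG hP.α_pos.le (by linarith [hP.α_le] : α ≤ 1)
  have hD' : (1 : ℝ) ≤ D := by exact_mod_cast hD
  have hk' : (1 : ℝ) ≤ B := by exact_mod_cast hP.k1
  have hA := AA_pos hP.k1 hK
  have hA1 := AA_ge1 hP.k1 hK
  have hA2 := AA_ge2 hP.k1 hK
  have hw : 0 ≤ 2 * K / (D : ℝ) := by positivity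
  set E := Real.exp (-(δ ^ 2 / (4 * AA B K) * D)) with hE
  have key : ∀ a : Option C, PP (mu α H p) (fun ω => q * σ * (1 - α * γ / 2) + 2 * K ^ 2 / D + δ ≤
      ZR α T H p x c (Function.update ω x a)) ≤ E := by
    intro a
    have h0 := EE_ZR_update_le hG hP hγ hKD (by linarith) hD hx c a
    refine (PP_mono hμ (B := fun ω => EE (mu α H p)
      (fun ω => ZR α T H p x c (Function.update ω x a)) + δ ≤
        ZR α T H p x c (Function.update ω x a)) (fun ω h => by linarith)).trans ?_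
    refine tail hμ (fun ω => ZR α T H p x c (Function.update ω x a))
      (Vr := D * (3 * (2 * K / D)) ^ 2 + D * (B * D) *
      (((B + 1) * (K / D)) * (B * (2 * K / D)) ^ 2)) hA (by linarith) hδ0 ?_ ?_
    · rw [le_div_iff₀ (by linarith)]
      have h1 : (D * (3 * (2 * K / D)) ^ 2 + D * (B * D) *
        (((B + 1) * (K / D)) * (B * (2 * K / D)) ^ 2)) * (D : ℝ) =
        36 * K ^ 2 + 4 * B ^ 3 * (B + 1) * K ^ 3 := by
        field_simp
        ring
      rw [h1]
      unfold AA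
      have h2 : K ^ 2 ≤ (B : ℝ) ^ 4 * K ^ 3 := by
        have a1 : (1 : ℝ) ≤ (B : ℝ) ^ 4 := one_le_pow₀ hk'
        have a2 : K ^ 2 * 1 ≤ K ^ 2 * K := mul_le_mul_of_nonneg_left hK (by positivity)
        have a3 : 1 * K ^ 3 ≤ (B : ℝ) ^ 4 * K ^ 3 := mul_le_mul_of_nonneg_right a1 (by positivity)
        nlinarith
      have h3 : 4 * (B : ℝ) ^ 3 * (B + 1) * K ^ 3 ≤ 8 * (B : ℝ) ^ 4 * K ^ 3 := by
        have : 4 * (B : ℝ) ^ 3 * (B + 1) ≤ 8 * (B : ℝ) ^ 4 := by
          have : (B : ℝ) ^ 3 * (B + 1) ≤ (B : ℝ) ^ 3 * (2 * B) :=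
            mul_le_mul_of_nonneg_left (by linarith) (by positivity)
          nlinarith
        exact mul_le_mul_of_nonneg_right this (by positivity)
      linarith
    · apply mgf_ZR hG hP hw hx
      · positivity
      · have : δ / (2 * AA B K) * D * (B * (2 * K / D)) = δ * (B * K) / AA B K := by
          field_simp
        rw [this, div_le_one hA]
        have : δ * (B * K) ≤ 1 * (B * K) := mul_le_mul_of_nonneg_right hδ1 (by positivity)
        nlinarith
      · have : δ / (2 * AA B K) * D * (3 * (2 * K / D)) = δ * (3 * K) / AA B K := by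
          field_simp
        rw [this, div_le_one hA]
        have : δ * (3 * K) ≤ 1 * (3 * K) := mul_le_mul_of_nonneg_right hδ1 (by positivity)
        nlinarith
  unfold PP
  rw [← EE_resample hμ x]
  have h1 : ∀ ω : X → Option C, (∑ a, mu α H p x a * (if q * σ * (1 - α * γ / 2) +
      2 * K ^ 2 / D + δ ≤ ZR α T H p x c (Function.update ω x a) then (1 : ℝ) else 0)) =
      ∑ a, mu α H p x a * (if q * σ * (1 - α * γ / 2) +
      2 * K ^ 2 / D + δ ≤ ZR α T H p x c (Function.update ω x a) then (1 : ℝ) else 0) :=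
    fun _ => rfl
  rw [EE_sum]
  calc ∑ a, EE (mu α H p) (fun ω => mu α H p x a * (if q * σ * (1 - α * γ / 2) +
      2 * K ^ 2 / D + δ ≤ ZR α T H p x c (Function.update ω x a) then (1 : ℝ) else 0))
      ≤ ∑ a, mu α H p x a * E := by
        refine Finset.sum_le_sum fun a _ => ?_
        rw [EE_const_mul]
        apply mul_le_mul_of_nonneg_left _ (hμ.nonneg x a)
        exact key a
    _ = E := by rw [← Finset.sum_mul, hμ.sum_one, one_mul]

end Pool.Agent.Helper95.BC
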