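import Pool.Agent.Helper95.BC.Eng4

/-!
# One round
-/

set_option autoImplicit false
set_option linter.unusedSectionVars false

namespace Pool.Agent.Helper95.BC

open Finset Pool.Agent.Helper61.LE

variable {X V C : Type} [Fintype X] [DecidableEq X] [Fintype C] [DecidableEq C]
variable {T : Sys X V} {k q B D : ℕ} {K σ α γ : ℝ} {H : Finset X} {p : X → C → ℝ}

theorem nb_symm (hG : Good T k q B D K σ H p) {e f : X} (he : e ∈ H) (h : f ∈ nb T H e) :
    e ∈ nb T H f := by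
  rw [mem_nb] at h ⊢
  refine ⟨he, h.2.1.symm, ?_⟩
  rcases h.2.2 with h1 | h1
  · exact Or.inl fun hd => h1 hd.symm
  · exact Or.inr (hG.sym _ _ h1)

open Classical in
/-- the events at a point -/
noncomputable def VC (T : Sys X V) (H : Finset X) (p : X → C → ℝ) : Finset (V × C) :=
  H.biUnion (fun e => T.S e ×ˢ univ.filter (fun c => p e c ≠ 0))

theorem mem_VC {vc : V × C} : vc ∈ VC T H p ↔ ∃ e ∈ att T H vc.1, p e vc.2 ≠ 0 := by
  classical
  simp only [VC, Finset.mem_biUnion, Finset.mem_product, Finset.mem_filter, Finset.mem_univ,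
    true_and, mem_att]
  constructor
  · rintro ⟨e, he, h1, h2⟩
    exact ⟨e, ⟨he, h1⟩, h2⟩
  · rintro ⟨e, ⟨he, h1⟩, h2⟩
    exact ⟨e, he, h1, h2⟩

open Classical in
/-- the events in the neighbourhood of an item -/
noncomputable def RC (T : Sys X V) (H : Finset X) (p : X → C → ℝ) : Finset (X × C) :=
  H.biUnion (fun x => (nr T H x).biUnion
    (fun e => (univ.filter (fun c => p e c ≠ 0)).image (fun c => (x, c))))

theorem mem_RC {xc : X × C} :
    xc ∈ RC T H p ↔ xc.1 ∈ H ∧ ∃ e ∈ nr T H xc.1, p e xc.2 ≠ 0 := by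
  classical
  simp only [RC, Finset.mem_biUnion, Finset.mem_image, Finset.mem_filter, Finset.mem_univ,
    true_and]
  constructor
  · rintro ⟨x, hx, e, he, c, hc, rfl⟩
    exact ⟨hx, e, he, hc⟩
  · rintro ⟨hx, e, he, hc⟩
    exact ⟨xc.1, hx, e, he, xc.2, hc, rfl⟩

theorem card_edges_at (hG : Good T k q B D K σ H p) {x : X} (hx : x ∈ H) :
    (H.filter (fun e => x ∈ insert e (nb T H e))).card ≤ B * D := by
  refine le_trans (Finset.card_le_card ?_) (card_nb_le hG hx)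
  intro e he
  rw [Finset.mem_filter] at he
  rcases Finset.mem_insert.1 he.2 with h | h
  · rw [h]
    exact Finset.mem_insert_self _ _
  · exact Finset.mem_insert_of_mem (nb_symm hG he.1 h)

theorem k_le_B (hG : Good T k q B D K σ H p) : k ≤ B := by
  have := hG.hB
  omega

theorem card_VC_at (hG : Good T k q B D K σ H p) {x : X} (hx : x ∈ H) :
    ((VC T H p).filter (fun vc => x ∈ Sv T H vc.1)).card ≤ B * D * B * (D * (2 * D)) := by
  classical
  have hsub : (VC T H p).filter (fun vc => x ∈ Sv T H vc.1) ⊆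
      ((insert x (nb T H x)).biUnion T.S).biUnion (fun v =>
        ((att T H v).biUnion (fun e => univ.filter (fun c => p e c ≠ 0))).image (fun c => (v, c))) := by
    rintro ⟨v, c⟩ hvc
    rw [Finset.mem_filter, mem_VC] at hvc
    obtain ⟨⟨e', he', hpe⟩, hxv⟩ := hvc
    rw [Finset.mem_biUnion]
    refine ⟨v, ?_, ?_⟩
    · obtain ⟨e, he, hxe⟩ := Finset.mem_biUnion.1 hxv
      rw [Finset.mem_biUnion]
      refine ⟨e, ?_, (mem_att.1 he).2⟩
      rcases Finset.mem_insert.1 hxe with h | h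
      · rw [h]
        exact Finset.mem_insert_self _ _
      · exact Finset.mem_insert_of_mem (nb_symm hG (mem_att.1 he).1 h)
    · rw [Finset.mem_image]
      refine ⟨c, ?_, rfl⟩
      rw [Finset.mem_biUnion]
      exact ⟨e', he', Finset.mem_filter.2 ⟨Finset.mem_univ _, hpe⟩⟩
  refine (Finset.card_le_card hsub).trans ?_
  calc _ ≤ ((insert x (nb T H x)).biUnion T.S).card * (D * (2 * D)) := by
        refine Finset.card_biUnion_le_card_mul _ _ _ fun v _ => ?_
        refine Finset.card_image_le.trans ?_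
        calc _ ≤ (att T H v).card * (2 * D) :=
              Finset.card_biUnion_le_card_mul _ _ _ fun e he => hG.supp e (mem_att.1 he).1
          _ ≤ D * (2 * D) := Nat.mul_le_mul_right _ (hG.deg v)
    _ ≤ B * D * B * (D * (2 * D)) := by
        apply Nat.mul_le_mul_right
        calc ((insert x (nb T H x)).biUnion T.S).card ≤ (insert x (nb T H x)).card * B := by
              refine Finset.card_biUnion_le_card_mul _ _ _ fun e he => ?_
              rcases Finset.mem_insert.1 he with h | h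
              · rw [h]
                exact (hG.size x hx).trans (k_le_B hG)
              · exact (hG.size e (mem_nb.1 h).1).trans (k_le_B hG)
          _ ≤ B * D * B := Nat.mul_le_mul_right _ (card_nb_le hG hx)

theorem card_RC_at (hG : Good T k q B D K σ H p) {z : X} (hz : z ∈ H) :
    ((RC T H p).filter (fun xc => z ∈ Sr T H xc.1)).card ≤
      (B * D * D + 1) * (D * (2 * D)) := by
  classical
  have hsub : (RC T H p).filter (fun xc => z ∈ Sr T H xc.1) ⊆
      (insert z ((insert z (nb T H z)).biUnion (fun f => nr T H f))).biUnion (fun x =>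
        (if x ∈ H then (nr T H x).biUnion (fun e => univ.filter (fun c => p e c ≠ 0))
          else ∅).image (fun c => (x, c))) := by
    rintro ⟨x, c⟩ hxc
    rw [Finset.mem_filter, mem_RC] at hxc
    obtain ⟨⟨hxH, e', he', hpe⟩, hzx⟩ := hxc
    rw [Finset.mem_biUnion]
    refine ⟨x, ?_, ?_⟩
    · unfold Sr at hzx
      rcases Finset.mem_insert.1 hzx with h | h
      · simp only at h
        rw [h]
        exact Finset.mem_insert_self _ _
      · obtain ⟨e, he, hze⟩ := Finset.mem_biUnion.1 h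
        apply Finset.mem_insert_of_mem
        rw [Finset.mem_biUnion]
        refine ⟨e, ?_, mem_nr.2 ⟨hxH, hG.sym _ _ (mem_nr.1 he).2⟩⟩
        rcases Finset.mem_insert.1 hze with h | h
        · rw [h]
          exact Finset.mem_insert_self _ _
        · exact Finset.mem_insert_of_mem (nb_symm hG (mem_nr.1 he).1 h)
    · simp only at hxH
      rw [Finset.mem_image]
      refine ⟨c, ?_, rfl⟩
      rw [if_pos hxH, Finset.mem_biUnion]
      exact ⟨e', he', Finset.mem_filter.2 ⟨Finset.mem_univ _, hpe⟩⟩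
  refine (Finset.card_le_card hsub).trans ?_
  calc _ ≤ (insert z ((insert z (nb T H z)).biUnion (fun f => nr T H f))).card *
        (D * (2 * D)) := by
        refine Finset.card_biUnion_le_card_mul _ _ _ fun x _ => ?_
        refine Finset.card_image_le.trans ?_
        split_ifs with hxH
        · calc _ ≤ (nr T H x).card * (2 * D) :=
              Finset.card_biUnion_le_card_mul _ _ _ fun e he => hG.supp e (mem_nr.1 he).1
          _ ≤ D * (2 * D) := Nat.mul_le_mul_right _ (hG.rdeg x hxH)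
        · simp
    _ ≤ (B * D * D + 1) * (D * (2 * D)) := by
        apply Nat.mul_le_mul_right
        refine (Finset.card_insert_le _ _).trans (Nat.add_le_add_right ?_ 1)
        calc ((insert z (nb T H z)).biUnion (fun f => nr T H f)).card
            ≤ (insert z (nb T H z)).card * D := by
              refine Finset.card_biUnion_le_card_mul _ _ _ fun f hf => ?_
              rcases Finset.mem_insert.1 hf with h | h
              · rw [h]
                exact hG.rdeg z hz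
              · exact hG.rdeg f (mem_nb.1 h).1
          _ ≤ B * D * D := Nat.mul_le_mul_right _ (card_nb_le hG hz)

/-- the good outcome -/
theorem exists_good (hG : Good T k q B D K σ H p) (hP : Par B γ α σ) (hγ : γ ≤ 1 / 2)
    (hKD : K / D ≤ γ / 8) (hK : 1 ≤ K) (hD : 1 ≤ D) {δ : ℝ} (hδ0 : 0 ≤ δ) (hδ1 : δ ≤ 1)
    (hbig : 14 * (B : ℝ) ^ 3 * (D : ℝ) ^ 6 * Real.exp (-(δ ^ 2 / (4 * AA B K) * D)) ≤ 1 / 4) :
    ∃ ω : X → Option C, (∀ e, mu α H p e (ω e) ≠ 0) ∧
      (∀ e ∈ H, 1 - δ < WW α T H p e ω) ∧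
      (∀ v c, (∃ e ∈ att T H v, p e c ≠ 0) →
        ZZ α T H p v c ω < EE (mu α H p) (ZZ α T H p v c) + δ) ∧
      ∀ x ∈ H, ∀ c, (∃ e ∈ nr T H x, p e c ≠ 0) →
        ZR α T H p x c ω < q * σ * (1 - α * γ / 2) + 2 * K ^ 2 / D + δ := by
  classical
  have hμ := isProb_mu hG hP.α_pos.le (by linarith [hP.α_le] : α ≤ 1)
  have hD' : (1 : ℝ) ≤ D := by exact_mod_cast hD
  have hk' : (1 : ℝ) ≤ B := by exact_mod_cast hP.k1
  set P := Real.exp (-(δ ^ 2 / (4 * AA B K) * D)) with hPdef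
  have hPpos : 0 < P := Real.exp_pos _
  let A : X ⊕ ((V × C) ⊕ (X × C)) → (X → Option C) → Prop :=
    Sum.elim (fun e ω => WW α T H p e ω ≤ 1 - δ)
      (Sum.elim (fun vc ω => EE (mu α H p) (ZZ α T H p vc.1 vc.2) + δ ≤ ZZ α T H p vc.1 vc.2 ω)
        (fun xc ω => q * σ * (1 - α * γ / 2) + 2 * K ^ 2 / D + δ ≤ ZR α T H p xc.1 xc.2 ω))
  let S : X ⊕ ((V × C) ⊕ (X × C)) → Finset X :=
    Sum.elim (fun e => insert e (nb T H e))
      (Sum.elim (fun vc => Sv T H vc.1) (fun xc => Sr T H xc.1))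
  let J : Finset (X ⊕ ((V × C) ⊕ (X × C))) := H.disjSum ((VC T H p).disjSum (RC T H p))
  have hcases : ∀ j ∈ J, (∃ e ∈ H, j = Sum.inl e) ∨ (∃ vc ∈ VC T H p, j = Sum.inr (Sum.inl vc)) ∨
      ∃ xc ∈ RC T H p, j = Sum.inr (Sum.inr xc) := by
    intro j hj
    rcases Finset.mem_disjSum.1 hj with ⟨e, he, rfl⟩ | ⟨y, hy, rfl⟩
    · exact Or.inl ⟨e, he, rfl⟩
    · rcases Finset.mem_disjSum.1 hy with ⟨vc, hvc, rfl⟩ | ⟨xc, hxc, rfl⟩
      · exact Or.inr (Or.inl ⟨vc, hvc, rfl⟩)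
      · exact Or.inr (Or.inr ⟨xc, hxc, rfl⟩)
  have hPP : ∀ j ∈ J, PP (mu α H p) (A j) ≤ P := by
    intro j hj
    rcases hcases j hj with ⟨e, he, rfl⟩ | ⟨vc, _, rfl⟩ | ⟨xc, hxc, rfl⟩
    · exact tail_WW hG hP hK hD hδ0 hδ1 he
    · exact tail_ZZ hG hP hK hD hδ0 hδ1 vc.1 vc.2
    · exact tail_ZR hG hP hγ hKD hK hD hδ0 hδ1 (mem_RC.1 hxc).1 xc.2
  have hSH : ∀ j ∈ J, S j ⊆ H := by
    intro j hj
    rcases hcases j hj with ⟨e, he, rfl⟩ | ⟨vc, _, rfl⟩ | ⟨xc, hxc, rfl⟩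
    · intro f hf
      rcases Finset.mem_insert.1 hf with rfl | hf
      · exact he
      · exact (mem_nb.1 hf).1
    · exact Sv_subset _
    · exact Sr_subset (mem_RC.1 hxc).1
  have hBD : 1 ≤ B * D := Nat.mul_pos hP.k1 hD
  have hScard : ∀ j ∈ J, (S j).card ≤ 2 * (D * (B * D)) := by
    intro j hj
    rcases hcases j hj with ⟨e, he, rfl⟩ | ⟨vc, _, rfl⟩ | ⟨xc, hxc, rfl⟩
    · calc (insert e (nb T H e)).card ≤ B * D := card_nb_le hG he
        _ = 1 * (B * D) := by ring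
        _ ≤ D * (B * D) := Nat.mul_le_mul_right _ hD
        _ ≤ 2 * (D * (B * D)) := by omega
    · exact (card_Sv hG _).trans (by omega)
    · refine (card_Sr hG (mem_RC.1 hxc).1).trans ?_
      have : 1 ≤ D * (B * D) := Nat.mul_pos hD hBD
      omega
  have hxcard : ∀ x ∈ H, ((J.filter (fun j => x ∈ S j)).card : ℝ) ≤
      7 * (B : ℝ) ^ 2 * (D : ℝ) ^ 4 := by
    intro x hx
    have h1 : J.filter (fun j => x ∈ S j) ⊆
        (H.filter (fun e => x ∈ insert e (nb T H e))).disjSum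
          (((VC T H p).filter (fun vc => x ∈ Sv T H vc.1)).disjSum
            ((RC T H p).filter (fun xc => x ∈ Sr T H xc.1))) := by
      intro j hj
      rw [Finset.mem_filter] at hj
      obtain ⟨hj, hxj⟩ := hj
      rcases hcases j hj with ⟨e, he, rfl⟩ | ⟨vc, hvc, rfl⟩ | ⟨xc, hxc, rfl⟩
      · exact Finset.mem_disjSum.2 (Or.inl ⟨e, Finset.mem_filter.2 ⟨he, hxj⟩, rfl⟩)
      · exact Finset.mem_disjSum.2 (Or.inr ⟨_, Finset.mem_disjSum.2
          (Or.inl ⟨vc, Finset.mem_filter.2 ⟨hvc, hxj⟩, rfl⟩), rfl⟩)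
      · exact Finset.mem_disjSum.2 (Or.inr ⟨_, Finset.mem_disjSum.2
          (Or.inr ⟨xc, Finset.mem_filter.2 ⟨hxc, hxj⟩, rfl⟩), rfl⟩)
    have h2 := Finset.card_le_card h1
    rw [Finset.card_disjSum, Finset.card_disjSum] at h2
    have h3 : (J.filter (fun j => x ∈ S j)).card ≤
        B * D + (B * D * B * (D * (2 * D)) + (B * D * D + 1) * (D * (2 * D))) :=
      h2.trans (add_le_add (card_edges_at hG hx) (add_le_add (card_VC_at hG hx)
        (card_RC_at hG hx)))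
    have h4 : ((J.filter (fun j => x ∈ S j)).card : ℝ) ≤
        (B : ℝ) * D + (B * D * B * (D * (2 * D)) + (B * D * D + 1) * (D * (2 * D))) := by
      exact_mod_cast h3
    have b2 : (B : ℝ) ≤ (B : ℝ) ^ 2 := le_self_pow₀ hk' (by norm_num)
    have b0 : (1 : ℝ) ≤ (B : ℝ) ^ 2 := one_le_pow₀ hk'
    have d4 : (D : ℝ) ≤ (D : ℝ) ^ 4 := le_self_pow₀ hD' (by norm_num)
    have d3 : (D : ℝ) ^ 3 ≤ (D : ℝ) ^ 4 := pow_le_pow_right₀ hD' (by norm_num)
    have d2 : (D : ℝ) ^ 2 ≤ (D : ℝ) ^ 4 := pow_le_pow_right₀ hD' (by norm_num)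
    have hd4 : (0 : ℝ) ≤ (D : ℝ) ^ 4 := by positivity
    have e1 : (B : ℝ) * D ≤ (B : ℝ) ^ 2 * (D : ℝ) ^ 4 :=
      mul_le_mul b2 d4 (by positivity) (by positivity)
    have e2 : (B : ℝ) ^ 2 * (D : ℝ) ^ 3 ≤ (B : ℝ) ^ 2 * (D : ℝ) ^ 4 :=
      mul_le_mul_of_nonneg_left d3 (by positivity)
    have e3 : (B : ℝ) * (D : ℝ) ^ 4 ≤ (B : ℝ) ^ 2 * (D : ℝ) ^ 4 :=
      mul_le_mul_of_nonneg_right b2 hd4
    have e4 : (D : ℝ) ^ 2 ≤ (B : ℝ) ^ 2 * (D : ℝ) ^ 4 := by
      calc (D : ℝ) ^ 2 = 1 * (D : ℝ) ^ 2 := by ring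
        _ ≤ _ := mul_le_mul b0 d2 (by positivity) (by positivity)
    calc _ ≤ _ := h4
      _ = (B : ℝ) * D + 2 * ((B : ℝ) ^ 2 * (D : ℝ) ^ 3) + 2 * ((B : ℝ) * (D : ℝ) ^ 4) +
          2 * (D : ℝ) ^ 2 := by ring
      _ ≤ 7 * (B : ℝ) ^ 2 * (D : ℝ) ^ 4 := by linarith
  have hL := lll' hμ J A S ?_ ?_ ?_
  · obtain ⟨ω, hω1, hω2⟩ := hL
    refine ⟨ω, hω1, fun e he => ?_, fun v c hvc => ?_, fun x hx c hxc => ?_⟩
    · have := hω2 (Sum.inl e) (Finset.mem_disjSum.2 (Or.inl ⟨e, he, rfl⟩))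
      exact not_le.1 this
    · have := hω2 (Sum.inr (Sum.inl (v, c))) (Finset.mem_disjSum.2 (Or.inr
        ⟨_, Finset.mem_disjSum.2 (Or.inl ⟨(v, c), mem_VC.2 hvc, rfl⟩), rfl⟩))
      exact not_le.1 this
    · have := hω2 (Sum.inr (Sum.inr (x, c))) (Finset.mem_disjSum.2 (Or.inr
        ⟨_, Finset.mem_disjSum.2 (Or.inr ⟨(x, c), mem_RC.2 ⟨hx, hxc⟩, rfl⟩), rfl⟩))
      exact not_le.1 this
  · intro j hj
    rcases hcases j hj with ⟨e, he, rfl⟩ | ⟨vc, _, rfl⟩ | ⟨xc, hxc, rfl⟩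
    · intro ω ω' h
      change (WW α T H p e ω ≤ 1 - δ) = (WW α T H p e ω' ≤ 1 - δ)
      rw [dep_WW e ω ω' h]
    · intro ω ω' h
      change (EE (mu α H p) (ZZ α T H p vc.1 vc.2) + δ ≤ ZZ α T H p vc.1 vc.2 ω) =
        (EE (mu α H p) (ZZ α T H p vc.1 vc.2) + δ ≤ ZZ α T H p vc.1 vc.2 ω')
      rw [dep_ZZ vc.1 vc.2 ω ω' h]
    · intro ω ω' h
      change (q * σ * (1 - α * γ / 2) + 2 * K ^ 2 / D + δ ≤ ZR α T H p xc.1 xc.2 ω) =
        (q * σ * (1 - α * γ / 2) + 2 * K ^ 2 / D + δ ≤ ZR α T H p xc.1 xc.2 ω')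
      rw [dep_ZR xc.1 xc.2 ω ω' h]
  · intro j hj
    refine (hPP j hj).trans ?_
    have h1 : (1 : ℝ) ≤ 14 * (B : ℝ) ^ 3 * (D : ℝ) ^ 6 := by
      have a1 : (1 : ℝ) ≤ (B : ℝ) ^ 3 := one_le_pow₀ hk'
      have a2 : (1 : ℝ) ≤ (D : ℝ) ^ 6 := one_le_pow₀ hD'
      nlinarith
    nlinarith
  · intro i hi
    calc ∑ x ∈ S i, ∑ j ∈ J.filter (fun j => x ∈ S j), PP (mu α H p) (A j)
        ≤ ∑ _x ∈ S i, 7 * (B : ℝ) ^ 2 * (D : ℝ) ^ 4 * P := by
          refine Finset.sum_le_sum fun x hx => ?_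
          calc ∑ j ∈ J.filter (fun j => x ∈ S j), PP (mu α H p) (A j)
              ≤ ∑ _j ∈ J.filter (fun j => x ∈ S j), P :=
                Finset.sum_le_sum fun j hj => hPP j (Finset.mem_filter.1 hj).1
            _ = ((J.filter (fun j => x ∈ S j)).card : ℝ) * P := by
                rw [Finset.sum_const, nsmul_eq_mul]
            _ ≤ _ := mul_le_mul_of_nonneg_right (hxcard x (hSH i hi hx)) hPpos.le
      _ = ((S i).card : ℝ) * (7 * (B : ℝ) ^ 2 * (D : ℝ) ^ 4 * P) := by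
          rw [Finset.sum_const, nsmul_eq_mul]
      _ ≤ (2 * ((D : ℝ) * (B * D))) * (7 * (B : ℝ) ^ 2 * (D : ℝ) ^ 4 * P) := by
          apply mul_le_mul_of_nonneg_right _ (by positivity)
          exact_mod_cast hScard i hi
      _ = 14 * (B : ℝ) ^ 3 * (D : ℝ) ^ 6 * P := by ring
      _ ≤ 1 / 4 := hbig


end Pool.Agent.Helper95.BC
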