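import Pool.Agent.Helper95.BC.Eng5
import Pool.Agent.Helper61.LE.Nib6

/-!
# One round, continued
-/

set_option autoImplicit false
set_option linter.unusedSectionVars false

namespace Pool.Agent.Helper95.BC

open Finset Pool.Agent.Helper61.LE

variable {X V C : Type} [Fintype X] [DecidableEq X] [Fintype C] [DecidableEq C]
variable {T : Sys X V} {k q B D : ℕ} {K σ α γ : ℝ} {H : Finset X} {p : X → C → ℝ}

/-- the new normalised weights are at most the terms divided by `1 - δ` -/
theorem sum_new_le (hG : Good T k q B D K σ H p) (hP : Par B γ α σ) {ω : X → Option C} {δ : ℝ}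
    (hW : ∀ e ∈ H, 1 - δ < WW α T H p e ω) (hδ : 0 < 1 - δ) {A A' : Finset X} (hA : A ⊆ H)
    (Ex : Finset X) (c : C) (hne : ∀ e ∈ A', e ∈ A ∧ ¬ Clr T H e ω) :
    ∑ e ∈ A', nw α T H p e c ω / WW α T H p e ω ≤
      ∑ e ∈ A, zt α T H p Ex c e ω / (1 - δ) := by
  classical
  have h2 : ∀ e ∈ A', nw α T H p e c ω / WW α T H p e ω ≤ zt α T H p Ex c e ω / (1 - δ) := by
    intro e he
    obtain ⟨h3, h4⟩ := hne e he
    have h5 := hW e (hA h3)
    have h6 : nw α T H p e c ω ≤ zt α T H p Ex c e ω := by
      unfold nw zt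
      by_cases h7 : NoC (insert e (nb T H e)) c ω
      · have h8 : NoC (Fv T H Ex e) c ω := fun f hf => h7 f (Fv_subset Ex e hf)
        rw [if_pos h7, if_pos ⟨h8, h4⟩]
      · rw [if_neg h7]
        split_ifs
        · exact div_nonneg (hG.nonneg e (hA h3) c)
            (by linarith [rr_ge hG hP (hA h3) c])
        · exact le_rfl
    have h7 := nw_nonneg hG hP (hA h3) c ω
    exact div_le_div₀ (h7.trans h6) h6 hδ h5.le
  refine (Finset.sum_le_sum h2).trans ?_
  apply Finset.sum_le_sum_of_subset_of_nonneg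
  · intro e he
    exact (hne e he).1
  · intro e he _
    exact div_nonneg (zt_nonneg hG hP (hA he) c ω) hδ.le

/-- One round. -/
theorem round_step (hG : Good T k q B D K σ H p) (hP : Par B γ α σ) (hσ : 1 / (16 * B) ≤ σ)
    (hγ : γ ≤ 1 / 2) (hK : 1 ≤ K) (hD : 1 ≤ D) (hKD : K / D ≤ γ / 8)
    (hKD2 : 2 * K ^ 2 / D ≤ dl B α γ)
    (hbig : 14 * (B : ℝ) ^ 3 * (D : ℝ) ^ 6 *
      Real.exp (-((dl B α γ) ^ 2 / (4 * AA B K) * D)) ≤ 1 / 4) :
    ∃ (ω : X → Option C) (H' : Finset X) (p' : X → C → ℝ),
      (∀ e ∈ H, ∀ c, ω e = some c → p e c ≠ 0) ∧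
      H' ⊆ H ∧ (∀ e ∈ H, e ∉ H' → Clr T H e ω) ∧
      Good T k q B D (4 * K) ((1 - α * γ / 4) * σ) H' p' ∧
      ∀ e ∈ H', ∀ c, p' e c ≠ 0 → p e c ≠ 0 ∧ NoC (insert e (nb T H e)) c ω := by
  classical
  have hα := hP.α_pos
  have hα8 := hP.α_le
  have hγ0 := hP.γ0
  have hγ1 := hP.γ1
  have hk' : (1 : ℝ) ≤ B := by exact_mod_cast hP.k1
  have hD' : (1 : ℝ) ≤ D := by exact_mod_cast hD
  have hαγ : α * γ ≤ 1 / 8 := by nlinarith
  have hαγ0 : 0 < α * γ := mul_pos hα hγ0
  have hδpos := dl_pos hP
  have hδle := dl_le hP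
  have hδ1 : dl B α γ ≤ 1 / 2 := by linarith
  obtain ⟨ω, hω, hW, hZ, hR⟩ := exists_good hG hP hγ hKD hK hD hδpos.le (by linarith) hbig
  set δ := dl B α γ with hδdef
  refine ⟨ω, H.filter (fun e => ¬ Clr T H e ω), fun e c => nw α T H p e c ω / WW α T H p e ω,
    ?_, Finset.filter_subset _ _, ?_, ?_, ?_⟩
  · intro e he c hc hp
    apply hω e
    rw [hc]
    simp [mu, he, hp]
  · intro e he he'
    by_contra h
    exact he' (Finset.mem_filter.2 ⟨he, h⟩)
  · have hWpos : ∀ e ∈ H, 1 / 2 < WW α T H p e ω := fun e he => by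
      linarith [hW e he]
    have hsubH : ∀ e ∈ H.filter (fun e => ¬ Clr T H e ω), e ∈ H := fun e he =>
      (Finset.mem_filter.1 he).1
    have hσ0 : 0 < σ := lt_of_lt_of_le (by positivity) hσ
    have hattsub : ∀ v, att T (H.filter (fun e => ¬ Clr T H e ω)) v ⊆ att T H v := by
      intro v e he
      rw [mem_att] at he ⊢
      exact ⟨hsubH e he.1, he.2⟩
    have hnrsub : ∀ e, nr T (H.filter (fun e => ¬ Clr T H e ω)) e ⊆ nr T H e := by
      intro e f hf
      rw [mem_nr] at hf ⊢
      exact ⟨hsubH f hf.1, hf.2⟩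
    -- numeric estimate
    have hδσ : δ ≤ α * γ * σ / 16 := by
      rw [hδdef]
      unfold dl
      have h3 : α * γ * (1 / (16 * B)) ≤ α * γ * σ := mul_le_mul_of_nonneg_left hσ hαγ0.le
      have h4 : α * γ / (256 * B) = α * γ * (1 / (16 * B)) / 16 := by
        field_simp
        norm_num
      rw [h4]
      linarith
    have hδ16 : δ ≤ α * γ / 16 := by linarith
    refine ⟨hG.hq, hG.hB, hG.sym, hG.irr, ?_, ?_, ?_, ?_, ?_, ?_, ?_, ?_, ?_, ?_, ?_, ?_, ?_⟩
    · intro e he f hf
      exact hG.lin e (hsubH e he) f (hsubH f hf)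
    · intro e he
      exact hG.size e (hsubH e he)
    · intro e he
      exact hG.ne e (hsubH e he)
    · intro v
      exact (Finset.card_le_card (hattsub v)).trans (hG.deg v)
    · intro e he
      exact (Finset.card_le_card (hnrsub e)).trans (hG.rdeg e (hsubH e he))
    · intro e he v
      exact (Finset.card_le_card (Finset.inter_subset_inter (hattsub v) (hnrsub e))).trans
        (hG.rlin e (hsubH e he) v)
    · intro e he f hf hef
      exact (Finset.card_le_card (Finset.inter_subset_inter (hnrsub e) (hnrsub f))).trans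
        (hG.c4 e (hsubH e he) f (hsubH f hf) hef)
    · intro e he c
      exact div_nonneg (nw_nonneg hG hP (hsubH e he) c ω) (by linarith [hWpos e (hsubH e he)])
    · intro e he c
      have h1 := hWpos e (hsubH e he)
      have h2 := nw_le hG hP (hsubH e he) c ω
      rw [div_le_iff₀ (by linarith)]
      calc nw α T H p e c ω ≤ 2 * K / D := h2
        _ = 4 * K / D * (1 / 2) := by ring
        _ ≤ 4 * K / D * WW α T H p e ω := by
            apply mul_le_mul_of_nonneg_left h1.le
            positivity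
    · intro e he
      have h1 := hWpos e (hsubH e he)
      rw [← Finset.sum_div]
      change WW α T H p e ω / WW α T H p e ω = 1
      exact div_self (by linarith)
    · intro e he
      refine (Finset.card_le_card ?_).trans (hG.supp e (hsubH e he))
      intro c hc
      rw [Finset.mem_filter] at hc ⊢
      refine ⟨hc.1, fun h => hc.2 ?_⟩
      unfold nw
      rw [h]
      simp
    · intro v c
      have hne : ∀ e ∈ att T (H.filter (fun e => ¬ Clr T H e ω)) v,
          e ∈ att T H v ∧ ¬ Clr T H e ω := by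
        intro e he
        rw [mem_att, Finset.mem_filter] at he
        exact ⟨mem_att.2 ⟨he.1.1, he.2⟩, he.1.2⟩
      by_cases hex : ∃ e ∈ att T H v, p e c ≠ 0
      · have hZ' := hZ v c hex
        have hE := EE_ZZ_le hG hP hKD v c
        have h1 : ∑ e ∈ att T (H.filter (fun e => ¬ Clr T H e ω)) v,
            nw α T H p e c ω / WW α T H p e ω ≤ ZZ α T H p v c ω / (1 - δ) := by
          rw [ZZ, Finset.sum_div]
          exact sum_new_le hG hP hW (by linarith) (att_subset v) _ c hne
        refine h1.trans ?_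
        rw [div_le_iff₀ (by linarith)]
        have h4 : (1 - α * γ / 4) * σ * (1 - α * γ / 16) ≤ (1 - α * γ / 4) * σ * (1 - δ) := by
          apply mul_le_mul_of_nonneg_left (by linarith)
          apply mul_nonneg (by linarith) hσ0.le
        have h5 : 0 ≤ (α * γ) ^ 2 * σ := by positivity
        nlinarith
      · push Not at hex
        rw [Finset.sum_eq_zero]
        · apply mul_nonneg (by linarith) hσ0.le
        · intro e he
          have : p e c = 0 := hex e (hne e he).1
          unfold nw
          rw [this]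
          simp
    · intro x hx c
      have hxH := hsubH x hx
      have hq1 : (1 : ℝ) ≤ q := by exact_mod_cast hG.hq
      have hne : ∀ e ∈ nr T (H.filter (fun e => ¬ Clr T H e ω)) x,
          e ∈ nr T H x ∧ ¬ Clr T H e ω := by
        intro e he
        rw [mem_nr, Finset.mem_filter] at he
        exact ⟨mem_nr.2 ⟨he.1.1, he.2⟩, he.1.2⟩
      by_cases hex : ∃ e ∈ nr T H x, p e c ≠ 0
      · have hZ' := hR x hxH c hex
        have h1 : ∑ e ∈ nr T (H.filter (fun e => ¬ Clr T H e ω)) x,
            nw α T H p e c ω / WW α T H p e ω ≤ ZR α T H p x c ω / (1 - δ) := by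
          rw [ZR, Finset.sum_div]
          exact sum_new_le hG hP hW (by linarith) (nr_subset x) _ c hne
        refine h1.trans ?_
        rw [div_le_iff₀ (by linarith)]
        have hqσ : σ ≤ q * σ := by nlinarith
        have h2 : δ + δ ≤ α * γ * (q * σ) / 8 := by
          have : α * γ * σ ≤ α * γ * (q * σ) := mul_le_mul_of_nonneg_left hqσ hαγ0.le
          linarith
        have h4 : q * ((1 - α * γ / 4) * σ) * (1 - α * γ / 16) ≤
            q * ((1 - α * γ / 4) * σ) * (1 - δ) := by
          apply mul_le_mul_of_nonneg_left (by linarith)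
          apply mul_nonneg (by linarith)
          apply mul_nonneg (by linarith) hσ0.le
        have h5 : 0 ≤ (α * γ) ^ 2 * (q * σ) := by positivity
        have h6 : q * ((1 - α * γ / 4) * σ) * (1 - α * γ / 16) =
            q * σ - 5 / 16 * (α * γ * (q * σ)) + (α * γ) ^ 2 * (q * σ) / 64 := by ring
        have h7 : (q : ℝ) * σ * (1 - α * γ / 2) = q * σ - 1 / 2 * (α * γ * (q * σ)) := by ring
        nlinarith
      · push Not at hex
        rw [Finset.sum_eq_zero]
        · apply mul_nonneg (by linarith)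
          apply mul_nonneg (by linarith) hσ0.le
        · intro e he
          have : p e c = 0 := hex e (hne e he).1
          unfold nw
          rw [this]
          simp
  · intro e he c hc
    have h1 : NoC (insert e (nb T H e)) c ω := by
      by_contra h
      apply hc
      simp only [nw, if_neg h]
      simp
    refine ⟨fun h => hc ?_, h1⟩
    simp only [nw, h]
    simp

end Pool.Agent.Helper95.BC
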