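import Pool.Agent.Helper95.BC.Eng5b

/-!
# Final step and iteration
-/

set_option autoImplicit false
set_option linter.unusedSectionVars false

namespace Pool.Agent.Helper95.BC

open Finset Pool.Agent.Helper61.LE

section

variable {X V C : Type} [Fintype X] [DecidableEq X] [Fintype C] [DecidableEq C]
variable {T : Sys X V} {k q B D : ℕ} {K σ α γ : ℝ} {H : Finset X} {p : X → C → ℝ}

theorem PP_pair (hG : Good T k q B D K σ H p) {e f : X} (he : e ∈ H) (hf : f ∈ H) (hef : f ≠ e)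
    (c : C) : PP (mu 1 H p) (fun ω => ω e = some c ∧ ω f = some c) = p e c * p f c := by
  classical
  have hμ := isProb_mu hG (zero_le_one) (le_refl (1 : ℝ))
  have h1 := PP_forall_mem hμ ({e, f} : Finset X) (fun _ a => a = some c)
  have h2 : PP (mu 1 H p) (fun ω => ω e = some c ∧ ω f = some c) =
      PP (mu 1 H p) (fun ω => ∀ i ∈ ({e, f} : Finset X), ω i = some c) := by
    refine PP_congr fun ω => ?_
    simp
  rw [h2, h1, Finset.prod_pair hef.symm, sum_eq hG he, sum_eq hG hf]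
  ring

theorem sum_pair_le (hG : Good T k q B D K σ H p) (hσ : 0 ≤ σ) {x : X} (hx : x ∈ H) :
    ∑ f ∈ nb T H x, ∑ c, p x c * p f c ≤ B * σ := by
  rw [Finset.sum_comm]
  calc ∑ c, ∑ f ∈ nb T H x, p x c * p f c ≤ ∑ c, p x c * (B * σ) := by
        refine Finset.sum_le_sum fun c _ => ?_
        rw [← Finset.mul_sum]
        apply mul_le_mul_of_nonneg_left _ (hG.nonneg x hx c)
        refine le_trans ?_ (sum_nb_le hG hσ hx c)
        apply Finset.sum_le_sum_of_subset_of_nonneg (Finset.subset_insert _ _)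
        intro f hf _
        rcases Finset.mem_insert.1 hf with rfl | hf
        · exact hG.nonneg f hx c
        · exact hG.nonneg f (mem_nb.1 hf).1 c
    _ = B * σ := by rw [← Finset.sum_mul, hG.sum x hx, one_mul]

theorem final_step (hG : Good T k q B D K σ H p) (hk : 1 ≤ B) (hσ0 : 0 ≤ σ) (hσ : σ ≤ 1 / (16 * B)) :
    HasCol T H p := by
  classical
  have hk' : (1 : ℝ) ≤ B := by exact_mod_cast hk
  have hkσ : B * σ ≤ 1 / 16 := by
    calc (B : ℝ) * σ ≤ B * (1 / (16 * B)) := mul_le_mul_of_nonneg_left hσ (by linarith)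
      _ = 1 / 16 := by field_simp
  have hμ := isProb_mu hG (zero_le_one) (le_refl (1 : ℝ))
  let J : Finset (X × X × C) :=
    (H ×ˢ (H ×ˢ univ)).filter (fun j => j.2.1 ∈ nb T H j.1)
  have hJ : ∀ j ∈ J, j.1 ∈ H ∧ j.2.1 ∈ nb T H j.1 := by
    intro j hj
    rw [Finset.mem_filter, Finset.mem_product] at hj
    exact ⟨hj.1.1, hj.2⟩
  have hJ' : ∀ e f c, e ∈ H → f ∈ nb T H e → (e, f, c) ∈ J := by
    intro e f c he hf
    rw [Finset.mem_filter, Finset.mem_product, Finset.mem_product]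
    exact ⟨⟨he, (mem_nb.1 hf).1, Finset.mem_univ _⟩, hf⟩
  have hnn : ∀ j ∈ J, 0 ≤ p j.1 j.2.2 * p j.2.1 j.2.2 := fun j hj =>
    mul_nonneg (hG.nonneg _ (hJ j hj).1 _) (hG.nonneg _ (mem_nb.1 (hJ j hj).2).1 _)
  have hPP : ∀ j ∈ J, PP (mu 1 H p) (fun ω => ω j.1 = some j.2.2 ∧ ω j.2.1 = some j.2.2) =
      p j.1 j.2.2 * p j.2.1 j.2.2 := by
    intro j hj
    obtain ⟨h1, h2⟩ := hJ j hj
    obtain ⟨h3, h4, _⟩ := mem_nb.1 h2
    exact PP_pair hG h1 h3 h4 _
  have hone : ∀ x ∈ H, ∑ j ∈ J.filter (fun j => j.1 = x), p j.1 j.2.2 * p j.2.1 j.2.2 ≤ B * σ := by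
    intro x hx
    refine le_trans ?_ (sum_pair_le hG hσ0 hx)
    rw [← Finset.sum_product' (nb T H x) univ (fun f c => p x c * p f c)]
    have hinj : Set.InjOn (fun fc : X × C => (x, fc.1, fc.2))
        ((nb T H x ×ˢ (univ : Finset C) : Finset (X × C)) : Set (X × C)) := by
      rintro ⟨f, c⟩ _ ⟨f', c'⟩ _ h
      simp only [Prod.mk.injEq, true_and] at h
      rw [h.1, h.2]
    rw [← Finset.sum_image (f := fun j : X × X × C => p j.1 j.2.2 * p j.2.1 j.2.2)
      hinj]
    apply Finset.sum_le_sum_of_subset_of_nonneg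
    · rintro ⟨e, f, c⟩ hj
      rw [Finset.mem_filter] at hj
      obtain ⟨hj, hjx⟩ := hj
      simp only at hjx
      subst hjx
      rw [Finset.mem_image]
      exact ⟨(f, c), Finset.mem_product.2 ⟨(hJ _ hj).2, Finset.mem_univ _⟩, rfl⟩
    · intro j hj _
      rw [Finset.mem_image] at hj
      obtain ⟨⟨f, c⟩, hfc, rfl⟩ := hj
      rw [Finset.mem_product] at hfc
      exact mul_nonneg (hG.nonneg _ hx _) (hG.nonneg _ (mem_nb.1 hfc.1).1 _)
  have htwo : ∀ x ∈ H, ∑ j ∈ J.filter (fun j => j.2.1 = x), p j.1 j.2.2 * p j.2.1 j.2.2 ≤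
      B * σ := by
    intro x hx
    refine le_trans ?_ (sum_pair_le hG hσ0 hx)
    rw [← Finset.sum_product' (nb T H x) univ (fun f c => p x c * p f c)]
    have hinj : Set.InjOn (fun fc : X × C => (fc.1, x, fc.2))
        ((nb T H x ×ˢ (univ : Finset C) : Finset (X × C)) : Set (X × C)) := by
      rintro ⟨f, c⟩ _ ⟨f', c'⟩ _ h
      simp only [Prod.mk.injEq, true_and] at h
      rw [h.1, h.2]
    have e1 : ∑ fc ∈ nb T H x ×ˢ (univ : Finset C), p x fc.2 * p fc.1 fc.2 =
        ∑ fc ∈ nb T H x ×ˢ (univ : Finset C), p fc.1 fc.2 * p x fc.2 :=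
      Finset.sum_congr rfl fun fc _ => mul_comm _ _
    rw [e1, ← Finset.sum_image (f := fun j : X × X × C =>
      p j.1 j.2.2 * p j.2.1 j.2.2) hinj]
    apply Finset.sum_le_sum_of_subset_of_nonneg
    · rintro ⟨e, f, c⟩ hj
      rw [Finset.mem_filter] at hj
      obtain ⟨hj, hjx⟩ := hj
      simp only at hjx
      subst hjx
      rw [Finset.mem_image]
      exact ⟨(e, c), Finset.mem_product.2 ⟨nb_symm hG (hJ _ hj).1 (hJ _ hj).2, Finset.mem_univ _⟩,
        rfl⟩
    · intro j hj _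
      rw [Finset.mem_image] at hj
      obtain ⟨⟨f, c⟩, hfc, rfl⟩ := hj
      rw [Finset.mem_product] at hfc
      exact mul_nonneg (hG.nonneg _ (mem_nb.1 hfc.1).1 _) (hG.nonneg _ hx _)
  have hL := lll' hμ J (fun j ω => ω j.1 = some j.2.2 ∧ ω j.2.1 = some j.2.2)
    (fun j => {j.1, j.2.1}) ?_ ?_ ?_
  · obtain ⟨ω, hω1, hω2⟩ := hL
    refine ⟨ω, fun e he => ?_⟩
    have h1 := hω1 e
    cases hωe : ω e with
    | none =>
      rw [hωe] at h1
      simp [mu, he] at h1
    | some c =>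
      rw [hωe] at h1
      simp only [mu, he, if_true, one_mul] at h1
      refine ⟨c, h1, hωe, fun f hf hfc => ?_⟩
      exact hω2 (e, f, c) (hJ' e f c he hf) ⟨hωe, hfc⟩
  · intro j _ ω ω' h
    have h1 := h j.1 (by simp)
    have h2 := h j.2.1 (by simp)
    dsimp only
    rw [h1, h2]
  · intro j hj
    rw [hPP j hj]
    have h1 : p j.2.1 j.2.2 ≤ B * σ := by
      refine le_trans ?_ (sum_nb_le hG hσ0 (hJ j hj).1 j.2.2)
      apply Finset.single_le_sum (f := fun f => p f j.2.2)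
      · intro f hf
        rcases Finset.mem_insert.1 hf with rfl | hf
        · exact hG.nonneg _ (hJ j hj).1 _
        · exact hG.nonneg f (mem_nb.1 hf).1 _
      · exact Finset.mem_insert_of_mem (hJ j hj).2
    have h2 := hG.le_one (hJ j hj).1 j.2.2
    have h3 := hG.nonneg _ (hJ j hj).1 j.2.2
    have h4 := hG.nonneg _ (mem_nb.1 (hJ j hj).2).1 j.2.2
    nlinarith
  · intro i hi
    have hSH : ∀ x ∈ ({i.1, i.2.1} : Finset X), x ∈ H := by
      intro x hx
      rw [Finset.mem_insert, Finset.mem_singleton] at hx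
      rcases hx with rfl | rfl
      · exact (hJ i hi).1
      · exact (mem_nb.1 (hJ i hi).2).1
    calc _ ≤ ∑ _x ∈ ({i.1, i.2.1} : Finset X), 2 * (B * σ) := by
          refine Finset.sum_le_sum fun x hx => ?_
          have hxH := hSH x hx
          calc _ = ∑ j ∈ J.filter (fun j => x ∈ ({j.1, j.2.1} : Finset X)),
                p j.1 j.2.2 * p j.2.1 j.2.2 :=
                Finset.sum_congr rfl fun j hj => hPP j (Finset.mem_filter.1 hj).1
            _ ≤ ∑ j ∈ J.filter (fun j => j.1 = x) ∪ J.filter (fun j => j.2.1 = x),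
                p j.1 j.2.2 * p j.2.1 j.2.2 := by
                apply Finset.sum_le_sum_of_subset_of_nonneg
                · intro j hj
                  rw [Finset.mem_filter, Finset.mem_insert, Finset.mem_singleton] at hj
                  rcases hj.2 with h | h
                  · exact Finset.mem_union_left _ (Finset.mem_filter.2 ⟨hj.1, h.symm⟩)
                  · exact Finset.mem_union_right _ (Finset.mem_filter.2 ⟨hj.1, h.symm⟩)
                · intro j hj _
                  rcases Finset.mem_union.1 hj with h | h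
                  · exact hnn j (Finset.mem_filter.1 h).1
                  · exact hnn j (Finset.mem_filter.1 h).1
            _ ≤ ∑ j ∈ J.filter (fun j => j.1 = x), p j.1 j.2.2 * p j.2.1 j.2.2 +
                ∑ j ∈ J.filter (fun j => j.2.1 = x), p j.1 j.2.2 * p j.2.1 j.2.2 := by
                rw [← Finset.sum_union_inter]
                have : 0 ≤ ∑ j ∈ J.filter (fun j => j.1 = x) ∩ J.filter (fun j => j.2.1 = x),
                    p j.1 j.2.2 * p j.2.1 j.2.2 :=
                  Finset.sum_nonneg fun j hj =>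
                    hnn j (Finset.mem_filter.1 (Finset.mem_inter.1 hj).1).1
                linarith
            _ ≤ B * σ + B * σ := add_le_add (hone x hxH) (htwo x hxH)
            _ = 2 * (B * σ) := by ring
      _ = (({i.1, i.2.1} : Finset X).card : ℝ) * (2 * (B * σ)) := by
          rw [Finset.sum_const, nsmul_eq_mul]
      _ ≤ 2 * (2 * (B * σ)) := by
          apply mul_le_mul_of_nonneg_right _ (by positivity)
          exact_mod_cast Finset.card_le_two
      _ ≤ 1 / 4 := by linarith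

/-- combining a round with a colouring of the rest -/
theorem combine (hG : Good T k q B D K σ H p) {H' : Finset X} {p' : X → C → ℝ} {ω : X → Option C}
    (h1 : ∀ e ∈ H, ∀ c, ω e = some c → p e c ≠ 0)
    (h3 : ∀ e ∈ H, e ∉ H' → Clr T H e ω)
    (h4 : ∀ e ∈ H', ∀ c, p' e c ≠ 0 → p e c ≠ 0 ∧ NoC (insert e (nb T H e)) c ω)
    (h5 : HasCol T H' p') : HasCol T H p := by
  classical
  obtain ⟨ω', hω'⟩ := h5
  refine ⟨fun e => if e ∈ H' then ω' e else ω e, fun e he => ?_⟩
  by_cases heH' : e ∈ H'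
  · obtain ⟨c, hc, hcl⟩ := hω' e heH'
    obtain ⟨hpc, hno⟩ := h4 e heH' c hc
    refine ⟨c, hpc, ?_, ?_⟩
    · simp only [heH', if_true]
      exact hcl.1
    · intro f hf
      by_cases hfH' : f ∈ H'
      · simp only [hfH', if_true]
        apply hcl.2 f
        rw [mem_nb] at hf ⊢
        exact ⟨hfH', hf.2⟩
      · simp only [hfH', if_false]
        exact hno f (Finset.mem_insert_of_mem hf)
  · obtain ⟨c, hc1, hc2⟩ := h3 e he heH'
    refine ⟨c, h1 e he c hc1, ?_, ?_⟩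
    · simp only [heH', if_false]
      exact hc1
    · intro f hf
      by_cases hfH' : f ∈ H'
      · simp only [hfH', if_true]
        obtain ⟨c', hc', hcl'⟩ := hω' f hfH'
        rw [hcl'.1]
        intro hcc
        have hcc' : c' = c := Option.some_injective _ hcc
        subst hcc'
        exact (h4 f hfH' c' hc').2 e (Finset.mem_insert_of_mem (nb_symm hG he hf)) hc1
      · simp only [hfH', if_false]
        exact hc2 f hf

end

/-- large `D` satisfy the numerical conditions -/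
theorem exists_large (B : ℕ) (K c γ d : ℝ) (hc : 0 < c) (hγ : 0 < γ) (hd : 0 < d) :
    ∃ D₀ : ℕ, ∀ D : ℕ, D₀ ≤ D → 1 ≤ D ∧ K / D ≤ γ / 8 ∧ 2 * K ^ 2 / D ≤ d ∧
      14 * (B : ℝ) ^ 3 * (D : ℝ) ^ 6 * Real.exp (-(c * D)) ≤ 1 / 4 := by
  have h1 : Filter.Tendsto (fun D : ℕ => K / (D : ℝ)) Filter.atTop (nhds 0) :=
    tendsto_const_div_atTop_nhds_zero_nat K
  have h2 : ∀ᶠ D : ℕ in Filter.atTop, K / (D : ℝ) ≤ γ / 8 := by
    have : ∀ᶠ D : ℕ in Filter.atTop, K / (D : ℝ) < γ / 8 :=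
      h1.eventually_lt_const (by positivity)
    exact this.mono fun _ h => h.le
  have h1' : Filter.Tendsto (fun D : ℕ => 2 * K ^ 2 / (D : ℝ)) Filter.atTop (nhds 0) :=
    tendsto_const_div_atTop_nhds_zero_nat _
  have h2' : ∀ᶠ D : ℕ in Filter.atTop, 2 * K ^ 2 / (D : ℝ) ≤ d := by
    have : ∀ᶠ D : ℕ in Filter.atTop, 2 * K ^ 2 / (D : ℝ) < d :=
      h1'.eventually_lt_const hd
    exact this.mono fun _ h => h.le
  have h3 : Filter.Tendsto (fun x : ℝ => x ^ 6 * Real.exp (-x)) Filter.atTop (nhds 0) :=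
    Real.tendsto_pow_mul_exp_neg_atTop_nhds_zero 6
  have h4 : Filter.Tendsto (fun D : ℕ => c * (D : ℝ)) Filter.atTop Filter.atTop :=
    Filter.Tendsto.const_mul_atTop hc tendsto_natCast_atTop_atTop
  have h5 := h3.comp h4
  have h6 : Filter.Tendsto (fun D : ℕ => 14 * (B : ℝ) ^ 3 / c ^ 6 *
      ((c * (D : ℝ)) ^ 6 * Real.exp (-(c * (D : ℝ))))) Filter.atTop (nhds 0) := by
    have := h5.const_mul (14 * (B : ℝ) ^ 3 / c ^ 6)
    simpa using this
  have h7 : ∀ᶠ D : ℕ in Filter.atTop, 14 * (B : ℝ) ^ 3 * (D : ℝ) ^ 6 * Real.exp (-(c * D)) ≤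
      1 / 4 := by
    have : ∀ᶠ D : ℕ in Filter.atTop, 14 * (B : ℝ) ^ 3 / c ^ 6 *
      ((c * (D : ℝ)) ^ 6 * Real.exp (-(c * (D : ℝ)))) < 1 / 4 :=
      h6.eventually_lt_const (by norm_num)
    filter_upwards [this] with D hD
    refine le_trans (le_of_eq ?_) hD.le
    field_simp
  obtain ⟨D₀, hD₀⟩ := Filter.eventually_atTop.1 (h2.and (h2'.and h7))
  refine ⟨max D₀ 1, fun D hD => ⟨(le_max_right _ _).trans hD, ?_⟩⟩
  exact hD₀ D ((le_max_left _ _).trans hD)

theorem core_ind (k q B : ℕ) (hB : 1 ≤ B) (γ α : ℝ) (hγ0 : 0 < γ) (hγ1 : γ ≤ 1 / 2)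
    (hα : α = γ / (8 * B)) (m : ℕ) :
    ∀ K : ℝ, 1 ≤ K → ∃ D₀ : ℕ, ∀ D : ℕ, D₀ ≤ D →
      ∀ (X V C : Type) [Fintype X] [DecidableEq X] [Fintype C] [DecidableEq C]
        (T : Sys X V) (H : Finset X) (p : X → C → ℝ) (σ : ℝ),
        Good T k q B D K σ H p → 0 ≤ σ → σ ≤ 1 - γ → (1 - α * γ / 4) ^ m * σ ≤ 1 / (16 * B) →
        HasCol T H p := by
  induction m with
  | zero =>
    intro K _
    refine ⟨0, ?_⟩
    intro D _ X V C _ _ _ _ T H p σ hG hσ0 _ hσ
    rw [pow_zero, one_mul] at hσ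
    exact final_step hG hB hσ0 hσ
  | succ m ih =>
    intro K hK
    obtain ⟨D₁, hD₁⟩ := ih (4 * K) (by linarith)
    have hP0 : Par B γ α 0 := ⟨hB, hγ0, by linarith, hα, le_rfl, by linarith⟩
    have hdl := dl_pos hP0
    have hc : 0 < (dl B α γ) ^ 2 / (4 * AA B K) := by
      have h2 := AA_pos hB hK
      positivity
    obtain ⟨D₂, hD₂⟩ := exists_large B K _ γ (dl B α γ) hc hγ0 hdl
    refine ⟨max D₁ D₂, ?_⟩
    intro D hD X V C _ _ _ _ T H p σ hG hσ0 hσ1 hσ
    by_cases hsmall : σ ≤ 1 / (16 * B)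
    · exact final_step hG hB hσ0 hsmall
    · have hP : Par B γ α σ := ⟨hB, hγ0, by linarith, hα, hσ0, hσ1⟩
      obtain ⟨hDone, hKD, hKD2, hbig⟩ := hD₂ D ((le_max_right _ _).trans hD)
      obtain ⟨ω, H', p', h1, h2, h3, h4, h5⟩ :=
        round_step hG hP (not_le.1 hsmall).le hγ1 hK hDone hKD hKD2 hbig
      have hαγ : α * γ ≤ 1 / 8 := by
        have := hP.α_le
        have := hP.α_pos
        nlinarith
      have hαγ0 : 0 < α * γ := mul_pos hP.α_pos hγ0
      refine combine hG h1 h3 h5 (hD₁ D ((le_max_left _ _).trans hD) X V C T H' p' _ h4 ?_ ?_ ?_)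
      · exact mul_nonneg (by linarith) hσ0
      · nlinarith
      · rw [pow_succ] at hσ
        rw [← mul_assoc]
        exact hσ

/-- The main nibble theorem: if the weights of each colour at each point add up to at most
`1 - γ`, those in each neighbourhood of the conflict graph to at most `q (1 - γ)`, and `D` is
large, then there is a proper colouring. -/
theorem core (k q : ℕ) (hk : 1 ≤ k) (hq : 1 ≤ q) (γ K : ℝ) (hγ0 : 0 < γ) (hγ1 : γ ≤ 1 / 2)
    (hK : 1 ≤ K) :
    ∃ D₀ : ℕ, ∀ D : ℕ, D₀ ≤ D →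
      ∀ (X V C : Type) [Fintype X] [DecidableEq X] [Fintype C] [DecidableEq C]
        (T : Sys X V) (H : Finset X) (p : X → C → ℝ),
        Good T k q (k + q) D K (1 - γ) H p → HasCol T H p := by
  have hB : 1 ≤ k + q := by omega
  have hP0 : Par (k + q) γ (γ / (8 * ((k + q : ℕ) : ℝ))) 0 :=
    ⟨hB, hγ0, by linarith, rfl, le_rfl, by linarith⟩
  have hB' : (1 : ℝ) ≤ ((k + q : ℕ) : ℝ) := by exact_mod_cast hB
  have hαγ : γ / (8 * ((k + q : ℕ) : ℝ)) * γ ≤ 1 / 8 := by
    have := hP0.α_le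
    have := hP0.α_pos
    nlinarith
  have hαγ0 : 0 < γ / (8 * ((k + q : ℕ) : ℝ)) * γ := mul_pos hP0.α_pos hγ0
  obtain ⟨m, hm⟩ := exists_pow_lt_of_lt_one
    (show (0 : ℝ) < 1 / (16 * ((k + q : ℕ) : ℝ)) by positivity)
    (show 1 - γ / (8 * ((k + q : ℕ) : ℝ)) * γ / 4 < 1 by linarith)
  obtain ⟨D₀, hD₀⟩ := core_ind k q (k + q) hB γ _ hγ0 hγ1 rfl m K hK
  refine ⟨D₀, ?_⟩
  intro D hD X V C _ _ _ _ T H p hG
  refine hD₀ D hD X V C T H p _ hG (by linarith) le_rfl ?_
  have h1 : 0 ≤ (1 - γ / (8 * ((k + q : ℕ) : ℝ)) * γ / 4) ^ m := pow_nonneg (by linarith) _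
  nlinarith

end Pool.Agent.Helper95.BC
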