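import Pool.Agent.Helper95.BC.Defs

/-!
# Greedy completion with an exponential potential (piece F)
-/

set_option autoImplicit false

namespace Pool.Agent.Helper95.BC

namespace Fcompl

variable {β V ι : Type} [DecidableEq β] [DecidableEq V]

/-- the contribution of a test to the potential -/
noncomputable def term (T : Finset β) (hit : Finset V) (t s : ℝ) (S : Finset β) (u : β → V) : ℝ :=
  Real.exp (((T ∩ S).filter (fun a => u a ∈ hit)).card) * (1 + 4 / s) ^ ((T \ S).card) *
    Real.exp (-t)

theorem term_of_notMem (T : Finset β) (hit : Finset V) (t s : ℝ) (S : Finset β) (u : β → V)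
    (a : β) (v : V) (haT : a ∉ T) :
    term T hit t s (insert a S) (Function.update u a v) = term T hit t s S u := by
  have h1 : T ∩ insert a S = T ∩ S := by
    ext b
    simp only [Finset.mem_inter, Finset.mem_insert]
    constructor
    · rintro ⟨hb, rfl | hb'⟩
      · exact absurd hb haT
      · exact ⟨hb, hb'⟩
    · rintro ⟨hb, hb'⟩
      exact ⟨hb, Or.inr hb'⟩
  have h2 : T \ insert a S = T \ S := by
    ext b
    simp only [Finset.mem_sdiff, Finset.mem_insert, not_or]
    constructor
    · rintro ⟨hb, _, hb'⟩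
      exact ⟨hb, hb'⟩
    · rintro ⟨hb, hb'⟩
      refine ⟨hb, ?_, hb'⟩
      rintro rfl
      exact haT hb
  have h3 : (T ∩ S).filter (fun b => Function.update u a v b ∈ hit) =
      (T ∩ S).filter (fun b => u b ∈ hit) := by
    apply Finset.filter_congr
    intro b hb
    have hba : b ≠ a := by
      rintro rfl
      exact haT (Finset.mem_inter.mp hb).1
    rw [Function.update_of_ne hba]
  unfold term
  rw [h1, h2, h3]

theorem term_of_mem (T : Finset β) (hit : Finset V) (t s : ℝ) (S : Finset β) (u : β → V)
    (a : β) (v : V) (haT : a ∈ T) (haS : a ∉ S) :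
    term T hit t s (insert a S) (Function.update u a v) * (1 + 4 / s) =
      term T hit t s S u * (if v ∈ hit then Real.exp 1 else 1) := by
  have h1 : T ∩ insert a S = insert a (T ∩ S) := by
    ext b
    simp only [Finset.mem_inter, Finset.mem_insert]
    constructor
    · rintro ⟨hb, rfl | hb'⟩
      · exact Or.inl rfl
      · exact Or.inr ⟨hb, hb'⟩
    · rintro (rfl | ⟨hb, hb'⟩)
      · exact ⟨haT, Or.inl rfl⟩
      · exact ⟨hb, Or.inr hb'⟩
  have h2 : (T \ S).card = (T \ insert a S).card + 1 := by
    have h : T \ S = insert a (T \ insert a S) := by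
      ext b
      simp only [Finset.mem_sdiff, Finset.mem_insert, not_or]
      constructor
      · rintro ⟨hb, hb'⟩
        by_cases hba : b = a
        · exact Or.inl hba
        · exact Or.inr ⟨hb, hba, hb'⟩
      · rintro (rfl | ⟨hb, _, hb'⟩)
        · exact ⟨haT, haS⟩
        · exact ⟨hb, hb'⟩
    rw [h, Finset.card_insert_of_notMem]
    simp
  have h3 : (T ∩ S).filter (fun b => Function.update u a v b ∈ hit) =
      (T ∩ S).filter (fun b => u b ∈ hit) := by
    apply Finset.filter_congr
    intro b hb
    have hba : b ≠ a := by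
      rintro rfl
      exact haS (Finset.mem_inter.mp hb).2
    rw [Function.update_of_ne hba]
  have h4 : ((T ∩ insert a S).filter (fun b => Function.update u a v b ∈ hit)).card =
      ((T ∩ S).filter (fun b => u b ∈ hit)).card + (if v ∈ hit then 1 else 0) := by
    rw [h1, Finset.filter_insert, Function.update_self, h3]
    split_ifs with hv
    · rw [Finset.card_insert_of_notMem]
      intro h
      exact haS (Finset.mem_inter.mp (Finset.mem_filter.mp h).1).2
    · rfl
  unfold term
  rw [h4, h2, pow_succ]
  have h5 : Real.exp (((((T ∩ S).filter (fun b => u b ∈ hit)).card +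
      (if v ∈ hit then 1 else 0) : ℕ) : ℝ)) =
      Real.exp ((((T ∩ S).filter (fun b => u b ∈ hit)).card : ℝ)) *
        (if v ∈ hit then Real.exp 1 else 1) := by
    split_ifs with hv
    · push_cast
      rw [Real.exp_add]
    · simp
  rw [h5]
  ring

theorem term_nonneg (T : Finset β) (hit : Finset V) (t s : ℝ) (hs : 0 < s) (S : Finset β)
    (u : β → V) : 0 ≤ term T hit t s S u := by
  unfold term
  positivity

theorem sum_term_le (T : Finset β) (hit : Finset V) (t s : ℝ) (hs : 0 < s) (S : Finset β)
    (u : β → V) (a : β) (haS : a ∉ S) (B : Finset V) (hB : s / 2 ≤ B.card)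
    (hhit : a ∈ T → (B ∩ hit).card ≤ 1) :
    ∑ v ∈ B, term T hit t s (insert a S) (Function.update u a v) ≤
      B.card * term T hit t s S u := by
  by_cases haT : a ∈ T
  · have hq : (0 : ℝ) < 1 + 4 / s := by positivity
    have h1 : (∑ v ∈ B, term T hit t s (insert a S) (Function.update u a v)) * (1 + 4 / s) ≤
        (B.card * term T hit t s S u) * (1 + 4 / s) := by
      rw [Finset.sum_mul]
      rw [Finset.sum_congr rfl (fun v _ => term_of_mem T hit t s S u a v haT haS)]
      rw [← Finset.mul_sum]
      have h2 : ∑ v ∈ B, (if v ∈ hit then Real.exp 1 else 1) ≤ (B.card : ℝ) * (1 + 4 / s) := by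
        have h3 : ∑ v ∈ B, (if v ∈ hit then Real.exp 1 else 1) =
            ∑ v ∈ B, (1 + (if v ∈ hit then (Real.exp 1 - 1) else 0)) := by
          apply Finset.sum_congr rfl
          intro v _
          split_ifs <;> ring
        rw [h3, Finset.sum_add_distrib, ← Finset.sum_filter, Finset.sum_const, Finset.sum_const,
          nsmul_eq_mul, nsmul_eq_mul, Finset.filter_mem_eq_inter]
        have h4 : ((B ∩ hit).card : ℝ) ≤ 1 := by exact_mod_cast hhit haT
        have h5 : Real.exp 1 - 1 ≤ 2 := by
          have := Real.exp_one_lt_d9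
          linarith
        have h6 : 0 ≤ Real.exp 1 - 1 := by
          have := Real.add_one_le_exp (1 : ℝ)
          linarith
        have h7 : ((B ∩ hit).card : ℝ) * (Real.exp 1 - 1) ≤ 2 := by nlinarith
        have h8 : 2 ≤ (B.card : ℝ) * (4 / s) := by
          rw [mul_div_assoc', le_div_iff₀ hs]
          linarith
        linarith
      have h0 := term_nonneg T hit t s hs S u
      calc term T hit t s S u * ∑ v ∈ B, (if v ∈ hit then Real.exp 1 else 1)
          ≤ term T hit t s S u * ((B.card : ℝ) * (1 + 4 / s)) :=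
            mul_le_mul_of_nonneg_left h2 h0
        _ = _ := by ring
    exact le_of_mul_le_mul_right h1 hq
  · rw [Finset.sum_congr rfl (fun v _ => term_of_notMem T hit t s S u a v haT)]
    rw [Finset.sum_const, nsmul_eq_mul]

open Classical in
theorem core (M : Finset β) (A : β → Finset V) (ok : β → V → β → V → Prop)
    (hsymm : ∀ a v b w, ok a v b w → ok b w a v) (s : ℝ) (hs : 0 < s) (u₀ : β → V)
    (J : Finset ι) (T : ι → Finset β) (hit : ι → Finset V) (t : ι → ℝ)
    (h5 : ∀ j ∈ J, ∀ a ∈ T j, (A a ∩ hit j).card ≤ 1)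
    (h7 : ∑ j ∈ J, Real.exp (4 * (T j).card / s - t j) ≤ 1 / 2)
    (hav : ∀ S ⊆ M, ∀ u : β → V, (∀ b ∈ S, u b ∈ A b) →
      (∀ j ∈ J, (((T j ∩ S).filter (fun a => u a ∈ hit j)).card : ℝ) ≤ t j) →
      ∀ a ∈ M, a ∉ S → s / 2 ≤ (((A a).filter (fun v => ∀ b ∈ S, ok a v b (u b))).card : ℝ)) :
    ∃ u : β → V, (∀ a ∈ M, u a ∈ A a) ∧ (∀ a ∈ M, ∀ b ∈ M, a ≠ b → ok a (u a) b (u b)) ∧
      ∀ j ∈ J, (((T j ∩ M).filter (fun a => u a ∈ hit j)).card : ℝ) ≤ t j := by
  have small : ∀ (S : Finset β) (u : β → V), ∑ j ∈ J, term (T j) (hit j) (t j) s S u ≤ 1 / 2 →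
      ∀ j ∈ J, (((T j ∩ S).filter (fun a => u a ∈ hit j)).card : ℝ) ≤ t j := by
    intro S u h j hj
    have h1 : term (T j) (hit j) (t j) s S u ≤ 1 / 2 :=
      (Finset.single_le_sum (fun i _ => term_nonneg (T i) (hit i) (t i) s hs S u) hj).trans h
    unfold term at h1
    set X : ℝ := (((T j ∩ S).filter (fun a => u a ∈ hit j)).card : ℝ) with hX
    have h2 : (1 : ℝ) ≤ (1 + 4 / s) ^ ((T j \ S).card) := by
      apply one_le_pow₀
      have : 0 < 4 / s := by positivity
      linarith
    have h3 : Real.exp X * Real.exp (-t j) ≤ 1 / 2 := by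
      calc Real.exp X * Real.exp (-t j) = Real.exp X * 1 * Real.exp (-t j) := by ring
        _ ≤ Real.exp X * (1 + 4 / s) ^ ((T j \ S).card) * Real.exp (-t j) := by gcongr
        _ ≤ 1 / 2 := h1
    rw [← Real.exp_add] at h3
    have h4 : X + -t j < 0 := by
      rw [← Real.exp_lt_one_iff]
      linarith
    linarith
  have main : ∃ u : β → V, (∀ a ∈ M, u a ∈ A a) ∧
      (∀ a ∈ M, ∀ b ∈ M, a ≠ b → ok a (u a) b (u b)) ∧
      ∑ j ∈ J, term (T j) (hit j) (t j) s M u ≤ 1 / 2 := by
    refine Finset.induction_on' (motive := fun S => ∃ u : β → V, (∀ a ∈ S, u a ∈ A a) ∧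
      (∀ a ∈ S, ∀ b ∈ S, a ≠ b → ok a (u a) b (u b)) ∧
      ∑ j ∈ J, term (T j) (hit j) (t j) s S u ≤ 1 / 2) M ?_ ?_
    · refine ⟨u₀, by simp, by simp, ?_⟩
      refine le_trans (Finset.sum_le_sum fun j _ => ?_) h7
      unfold term
      have h1 : ((T j ∩ ∅).filter (fun a => u₀ a ∈ hit j)).card = 0 := by simp
      have h2 : T j \ ∅ = T j := by simp
      rw [h1, h2, Nat.cast_zero, Real.exp_zero, one_mul, sub_eq_add_neg, Real.exp_add]
      apply mul_le_mul_of_nonneg_right _ (Real.exp_pos _).le
      have h3 : 1 + 4 / s ≤ Real.exp (4 / s) := by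
        have := Real.add_one_le_exp (4 / s)
        linarith
      calc (1 + 4 / s) ^ (T j).card ≤ (Real.exp (4 / s)) ^ (T j).card := by
            apply pow_le_pow_left₀ _ h3
            positivity
        _ = Real.exp (4 * (T j).card / s) := by
            rw [← Real.exp_nat_mul]
            congr 1
            ring
    · rintro a S haM hSM haS ⟨u, hu1, hu2, hu3⟩
      set B := (A a).filter (fun v => ∀ b ∈ S, ok a v b (u b)) with hBdef
      have hB : s / 2 ≤ (B.card : ℝ) := hav S hSM u hu1 (small S u hu3) a haM haS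
      have hBpos : (0 : ℝ) < B.card := by linarith [half_pos hs]
      have hBne : B.Nonempty := by
        rw [← Finset.card_pos]
        exact_mod_cast hBpos
      have hsum : ∑ v ∈ B, ∑ j ∈ J, term (T j) (hit j) (t j) s (insert a S)
          (Function.update u a v) ≤ ∑ _v ∈ B, (1 / 2 : ℝ) := by
        rw [Finset.sum_comm, Finset.sum_const, nsmul_eq_mul]
        calc ∑ j ∈ J, ∑ v ∈ B, term (T j) (hit j) (t j) s (insert a S) (Function.update u a v)
            ≤ ∑ j ∈ J, B.card * term (T j) (hit j) (t j) s S u := by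
              apply Finset.sum_le_sum
              intro j hj
              apply sum_term_le (T j) (hit j) (t j) s hs S u a haS B hB
              intro haT
              refine le_trans (Finset.card_le_card ?_) (h5 j hj a haT)
              exact Finset.inter_subset_inter (Finset.filter_subset _ _) (Finset.Subset.refl _)
          _ = B.card * ∑ j ∈ J, term (T j) (hit j) (t j) s S u := by rw [Finset.mul_sum]
          _ ≤ B.card * (1 / 2) := mul_le_mul_of_nonneg_left hu3 hBpos.le
      obtain ⟨v, hvB, hv⟩ := Finset.exists_le_of_sum_le hBne hsum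
      have hvA : v ∈ A a := (Finset.mem_filter.mp hvB).1
      have hvok : ∀ b ∈ S, ok a v b (u b) := (Finset.mem_filter.mp hvB).2
      refine ⟨Function.update u a v, ?_, ?_, hv⟩
      · intro b hb
        rcases Finset.mem_insert.mp hb with hba | hbS
        · rw [hba, Function.update_self]
          exact hvA
        · have : b ≠ a := fun h => haS (h ▸ hbS)
          rw [Function.update_of_ne this]
          exact hu1 b hbS
      · intro b hb c hc hbc
        rcases Finset.mem_insert.mp hb with hba | hbS
        · rcases Finset.mem_insert.mp hc with hca | hcS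
          · exact absurd (hba.trans hca.symm) hbc
          · have hca : c ≠ a := fun h => haS (h ▸ hcS)
            rw [hba, Function.update_self, Function.update_of_ne hca]
            exact hvok c hcS
        · have hba : b ≠ a := fun h => haS (h ▸ hbS)
          rcases Finset.mem_insert.mp hc with hca | hcS
          · rw [hca, Function.update_self, Function.update_of_ne hba]
            exact hsymm _ _ _ _ (hvok b hbS)
          · have hca : c ≠ a := fun h => haS (h ▸ hcS)
            rw [Function.update_of_ne hba, Function.update_of_ne hca]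
            exact hu2 b hbS c hcS hbc
  obtain ⟨u, hu1, hu2, hu3⟩ := main
  exact ⟨u, hu1, hu2, small M u hu3⟩

end Fcompl

open Classical in
theorem completion {V C κ : Type} [DecidableEq V] [DecidableEq C] (M : Finset (V × C))
    (A : V × C → Finset V) (W : V → Finset V) (adj : V → V → Prop)
    (hadj : ∀ u v, adj u v → adj v u) (hirr : ∀ v, ¬ adj v v)
    (s r : ℝ) (hs : 0 < s) (hr : r ≤ s / 8)
    (hAW : ∀ a ∈ M, A a ⊆ W a.1) (hA : ∀ a ∈ M, s ≤ (A a).card)
    (h1 : ∀ a ∈ M, ((M.filter (fun b => b.1 = a.1)).card : ℝ) ≤ r)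
    (h2 : ∀ a ∈ M, ((M.filter (fun b => b.2 = a.2)).card : ℝ) ≤ r)
    (h3 : ∀ a ∈ M, ∀ b ∈ M, a.1 ≠ b.1 → (W a.1 ∩ W b.1).card ≤ 1)
    (h4 : ∀ a ∈ M, ∀ b ∈ M, ∀ v ∈ A b, ((A a).filter (fun w => adj v w)).card ≤ 1)
    (Y : Finset κ) (T : κ → Finset (V × C)) (hit : κ → Finset V) (t : κ → ℝ)
    (hT : ∀ y ∈ Y, T y ⊆ M) (h5 : ∀ y ∈ Y, ∀ a ∈ T y, (A a ∩ hit y).card ≤ 1)
    (h6 : (M.image Prod.fst).card * Real.exp (4 * M.card / s - s / 4) ≤ 1 / 4)
    (h7 : ∑ y ∈ Y, Real.exp (4 * (T y).card / s - t y) ≤ 1 / 4) :
    ∃ u : V × C → V, (∀ a ∈ M, u a ∈ A a) ∧ (∀ a ∈ M, ∀ b ∈ M, u a = u b → a = b) ∧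
      (∀ a ∈ M, ∀ b ∈ M, a.2 = b.2 → ¬ adj (u a) (u b)) ∧
      ∀ y ∈ Y, (((T y).filter (fun a => u a ∈ hit y)).card : ℝ) ≤ t y := by
  set J : Finset (V ⊕ κ) := (M.image Prod.fst).disjSum Y with hJ
  set T' : V ⊕ κ → Finset (V × C) := Sum.elim (fun i => M.filter (fun b => b.1 ≠ i)) T with hT'
  set hit' : V ⊕ κ → Finset V := Sum.elim W hit with hhit'
  set t' : V ⊕ κ → ℝ := Sum.elim (fun _ => s / 4) t with ht'
  obtain ⟨u, hu1, hu2, hu3⟩ := Fcompl.core M A
    (fun a v b w => v ≠ w ∧ (a.2 = b.2 → ¬ adj v w ∧ ¬ adj w v))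
    (fun a v b w h => ⟨h.1.symm, fun hab => ⟨(h.2 hab.symm).2, (h.2 hab.symm).1⟩⟩)
    s hs (fun a => a.1) J T' hit' t' (by
      intro j hj a ha
      rcases Finset.mem_disjSum.mp hj with ⟨i, hi, rfl⟩ | ⟨y, hy, rfl⟩
      · obtain ⟨b, hb, rfl⟩ := Finset.mem_image.mp hi
        obtain ⟨haM, hab⟩ := Finset.mem_filter.mp ha
        refine le_trans (Finset.card_le_card ?_) (h3 a haM b hb hab)
        exact Finset.inter_subset_inter (hAW a haM) (Finset.Subset.refl _)
      · exact h5 y hy a ha) (by
      rw [hJ, Finset.sum_disjSum]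
      have e1 : ∑ i ∈ M.image Prod.fst, Real.exp (4 * (T' (Sum.inl i)).card / s - t' (Sum.inl i))
          ≤ (M.image Prod.fst).card * Real.exp (4 * M.card / s - s / 4) := by
        rw [← nsmul_eq_mul]
        apply Finset.sum_le_card_nsmul
        intro i _
        apply Real.exp_le_exp.mpr
        have h : ((T' (Sum.inl i)).card : ℝ) ≤ M.card := by
          exact_mod_cast Finset.card_le_card (Finset.filter_subset _ _)
        have h' : t' (Sum.inl i) = s / 4 := rfl
        rw [h']
        gcongr
      have e2 : ∑ y ∈ Y, Real.exp (4 * (T' (Sum.inr y)).card / s - t' (Sum.inr y)) ≤ 1 / 4 := h7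
      linarith) (by
      intro S hSM u hu hX a haM haS
      set X : Finset V := (A a).filter (fun v => ∀ b ∈ S, v ≠ u b ∧
        (a.2 = b.2 → ¬ adj v (u b) ∧ ¬ adj (u b) v)) with hXdef
      set R₁ : Finset V := (M.filter (fun b => b.1 = a.1)).image u with hR1
      set R₂ : Finset V := ((T' (Sum.inl a.1) ∩ S).filter
        (fun b => u b ∈ hit' (Sum.inl a.1))).image u with hR2
      set R₃ : Finset V := ((M.filter (fun b => b.2 = a.2)) ∩ S).biUnion
        (fun b => (A a).filter (fun w => adj (u b) w)) with hR3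
      have hsub : A a ⊆ X ∪ (R₁ ∪ R₂ ∪ R₃) := by
        intro v hv
        by_cases hvX : v ∈ X
        · exact Finset.mem_union_left _ hvX
        · apply Finset.mem_union_right
          have h : ∃ b ∈ S, ¬ (v ≠ u b ∧ (a.2 = b.2 → ¬ adj v (u b) ∧ ¬ adj (u b) v)) := by
            by_contra hne
            push Not at hne
            apply hvX
            rw [hXdef, Finset.mem_filter]
            refine ⟨hv, fun b hb => ?_⟩
            have := hne b hb
            exact ⟨this.1, this.2⟩
          obtain ⟨b, hbS, hb⟩ := h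
          have hbM := hSM hbS
          by_cases hvu : v = u b
          · apply Finset.mem_union_left
            by_cases hba : b.1 = a.1
            · apply Finset.mem_union_left
              rw [hR1, Finset.mem_image]
              exact ⟨b, Finset.mem_filter.mpr ⟨hbM, hba⟩, hvu.symm⟩
            · apply Finset.mem_union_right
              rw [hR2, Finset.mem_image]
              refine ⟨b, Finset.mem_filter.mpr ⟨Finset.mem_inter.mpr
                ⟨Finset.mem_filter.mpr ⟨hbM, hba⟩, hbS⟩, ?_⟩, hvu.symm⟩
              rw [← hvu]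
              exact hAW a haM hv
          · have hb2 : a.2 = b.2 ∧ (adj v (u b) ∨ adj (u b) v) := by
              by_contra hne
              apply hb
              refine ⟨hvu, fun h2' => ?_⟩
              constructor
              · intro h3'
                exact hne ⟨h2', Or.inl h3'⟩
              · intro h3'
                exact hne ⟨h2', Or.inr h3'⟩
            have hb3 : adj (u b) v := by
              rcases hb2.2 with h | h
              · exact hadj _ _ h
              · exact h
            apply Finset.mem_union_right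
            rw [hR3, Finset.mem_biUnion]
            exact ⟨b, Finset.mem_inter.mpr ⟨Finset.mem_filter.mpr ⟨hbM, hb2.1.symm⟩, hbS⟩,
              Finset.mem_filter.mpr ⟨hv, hb3⟩⟩
      have c0 : (A a).card ≤ X.card + (R₁.card + R₂.card + R₃.card) :=
        (Finset.card_le_card hsub).trans ((Finset.card_union_le _ _).trans
          (Nat.add_le_add_left ((Finset.card_union_le _ _).trans
            (Nat.add_le_add_right (Finset.card_union_le _ _) _)) _))
      have c1 : (R₁.card : ℝ) ≤ r := by
        refine le_trans ?_ (h1 a haM)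
        exact_mod_cast Finset.card_image_le
      have c2 : (R₂.card : ℝ) ≤ s / 4 := by
        have hj : (Sum.inl a.1 : V ⊕ κ) ∈ J :=
          Finset.mem_disjSum.mpr (Or.inl ⟨a.1, Finset.mem_image_of_mem _ haM, rfl⟩)
        refine le_trans ?_ (hX _ hj)
        exact_mod_cast Finset.card_image_le
      have c3 : (R₃.card : ℝ) ≤ r := by
        refine le_trans ?_ (h2 a haM)
        have h : R₃.card ≤ ((M.filter (fun b => b.2 = a.2)) ∩ S).card * 1 := by
          apply Finset.card_biUnion_le_card_mul
          intro b hb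
          have hbS := (Finset.mem_inter.mp hb).2
          exact h4 a haM b (hSM hbS) (u b) (hu b hbS)
        have h' : R₃.card ≤ (M.filter (fun b => b.2 = a.2)).card := by
          rw [mul_one] at h
          exact h.trans (Finset.card_le_card Finset.inter_subset_left)
        exact_mod_cast h'
      have c0' : ((A a).card : ℝ) ≤ X.card + (R₁.card + R₂.card + R₃.card) := by
        exact_mod_cast c0
      have c4 := hA a haM
      have c5 : s / 2 ≤ (X.card : ℝ) := by linarith
      refine c5.trans ?_
      have c6 : ∀ Z : Finset V, (∀ v ∈ X, v ∈ Z) → (X.card : ℝ) ≤ Z.card := fun Z h => by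
        exact_mod_cast Finset.card_le_card h
      apply c6
      intro v hv
      have hv' := Finset.mem_filter.mp hv
      simp only [Finset.mem_filter]
      exact hv')
  refine ⟨u, hu1, ?_, ?_, ?_⟩
  · intro a ha b hb hab
    by_contra hne
    exact (hu2 a ha b hb hne).1 hab
  · intro a ha b hb hab
    by_cases hne : a = b
    · subst hne
      exact hirr _
    · exact ((hu2 a ha b hb hne).2 hab).1
  · intro y hy
    have hj : (Sum.inr y : V ⊕ κ) ∈ J := Finset.mem_disjSum.mpr (Or.inr ⟨y, hy, rfl⟩)
    have h := hu3 _ hj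
    have h' : T' (Sum.inr y) ∩ M = T y := Finset.inter_eq_left.mpr (hT y hy)
    rw [h'] at h
    exact h

end Pool.Agent.Helper95.BC
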