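import Pool.Agent.Helper61.LE.Prob
import Pool.Agent.Helper95.BC.Defs

/-!
# A random subset of the colours
-/

set_option autoImplicit false

namespace Pool.Agent.Helper95.BC

open Finset Pool.Agent.Helper61.LE

/-- the weights of one coordinate -/
def rsW (ε : ℝ) (b : Bool) : ℝ := if b then 1 - ε else ε

/-- the number of elements of `F` in the random set -/
def rsN {C : Type} (F : Finset C) (ω : C → Bool) : ℝ := ∑ c ∈ F, if ω c then (1 : ℝ) else 0

theorem rs_isProb {C : Type} (ε : ℝ) (h0 : 0 ≤ ε) (h1 : ε ≤ 1) :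
    IsProb (fun (_ : C) => rsW ε) := by
  refine ⟨fun _ b => ?_, fun _ => ?_⟩
  · cases b <;> simp [rsW] <;> linarith
  · simp [rsW]

theorem rs_EE {C : Type} [Fintype C] [DecidableEq C] (ε : ℝ) (F : Finset C) :
    EE (fun (_ : C) => rsW ε) (rsN F) = (1 - ε) * F.card := by
  have h1 : ∀ c : C, EE (fun (_ : C) => rsW ε) (fun ω => if ω c then (1 : ℝ) else 0) = 1 - ε := by
    intro c
    have h3 : (fun ω : C → Bool => if ω c then (1 : ℝ) else 0) =
        fun ω => ∏ j, (if j = c then (if ω j then (1 : ℝ) else 0) else 1) := by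
      ext ω
      rw [Finset.prod_eq_single c]
      · simp
      · intro b _ hb
        simp [hb]
      · simp
    rw [h3, EE_prod (fun j (b : Bool) => if j = c then (if b = true then (1 : ℝ) else 0) else 1)]
    rw [Finset.prod_eq_single c]
    · simp [rsW]
    · intro b _ hb
      simp [hb, rsW]
    · simp
  have h2 : EE (fun (_ : C) => rsW ε) (rsN F) =
      ∑ c ∈ F, EE (fun (_ : C) => rsW ε) (fun ω => if ω c then (1 : ℝ) else 0) :=
    EE_sum F _
  rw [h2, Finset.sum_congr rfl (fun c _ => h1 c), Finset.sum_const, nsmul_eq_mul, mul_comm]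

theorem rs_dep {C : Type} [DecidableEq C] (F : Finset C) : Dep (rsN F) F := by
  intro ω ω' h
  unfold rsN
  exact Finset.sum_congr rfl fun c hc => by rw [h c hc]

theorem rs_update {C : Type} [DecidableEq C] (F : Finset C) {i : C} (hi : i ∈ F) (ω : C → Bool)
    (a b : Bool) : |rsN F (Function.update ω i a) - rsN F (Function.update ω i b)| ≤ 1 := by
  unfold rsN
  rw [← Finset.add_sum_erase F _ hi, ← Finset.add_sum_erase F (fun c =>
    if Function.update ω i b c then (1 : ℝ) else 0) hi]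
  have h1 : ∑ x ∈ F.erase i, (if Function.update ω i a x then (1 : ℝ) else 0) =
      ∑ x ∈ F.erase i, (if Function.update ω i b x then (1 : ℝ) else 0) := by
    refine Finset.sum_congr rfl fun x hx => ?_
    have := Finset.ne_of_mem_erase hx
    rw [Function.update_of_ne this, Function.update_of_ne this]
  rw [h1]
  simp only [Function.update_self]
  cases a <;> cases b <;> simp

/-- two sided exponential moment -/
theorem rs_mgf {C : Type} [Fintype C] [DecidableEq C] (ε : ℝ) (h0 : 0 ≤ ε) (h1 : ε ≤ 1)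
    (F : Finset C) {l : ℝ} (hl : 0 ≤ l) (hl1 : l ≤ 1) (s : ℝ) (hs : s = 1 ∨ s = -1) :
    EE (fun (_ : C) => rsW ε) (fun ω => Real.exp (l * (s * rsN F ω))) ≤
      Real.exp (l * (s * ((1 - ε) * F.card)) + l ^ 2 * F.card) := by
  classical
  have hμ := rs_isProb (C := C) ε h0 h1
  have hm := mgf hμ (fun _ => 1) (fun _ => 1) hl (fun _ _ => False) F
    (fun ω => s * rsN F ω) ?_ ?_ ?_ ?_ ?_
  · refine hm.trans (le_of_eq ?_)
    rw [EE_const_mul, rs_EE]
    simp
  · intro ω ω' h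
    simp only [rs_dep F ω ω' h]
  · intro i _
    simpa using hl1
  · intro i hi ω a b
    rw [← mul_sub, abs_mul]
    have : |s| = 1 := by
      rcases hs with rfl | rfl <;> simp
    rw [this, one_mul]
    exact rs_update F hi ω a b
  · intro i _ ω a b ha
    exact ha.elim
  · intro i _
    simp only [if_false]
    rw [hμ.sum_one i]

theorem rs_tail {C : Type} [Fintype C] [DecidableEq C] (ε : ℝ) (h0 : 0 ≤ ε) (h1 : ε ≤ 1)
    (F : Finset C) {l ξ : ℝ} (hl : 0 ≤ l) (hl1 : l ≤ 1) (hlξ : l ≤ ξ / 4) (N : ℕ)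
    (hF : F.card ≤ 2 * N) (s : ℝ) (hs : s = 1 ∨ s = -1) :
    PP (fun (_ : C) => rsW ε) (fun ω => s * ((1 - ε) * F.card) + ξ * N ≤ s * rsN F ω) ≤
      Real.exp (-(l * ξ / 2 * N)) := by
  have hμ := rs_isProb (C := C) ε h0 h1
  refine (PP_ge_le_exp hμ (fun ω => s * rsN F ω) _ l hl).trans ?_
  refine (mul_le_mul_of_nonneg_left (rs_mgf ε h0 h1 F hl hl1 s hs) (Real.exp_pos _).le).trans ?_
  rw [← Real.exp_add]
  apply Real.exp_le_exp.2
  have h2 : (F.card : ℝ) ≤ 2 * N := by exact_mod_cast hF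
  have h3 : (0 : ℝ) ≤ N := Nat.cast_nonneg N
  have h4 : l ^ 2 * F.card ≤ l ^ 2 * (2 * N) := mul_le_mul_of_nonneg_left h2 (sq_nonneg l)
  have h5 : l ^ 2 * (2 * N) ≤ l * (ξ / 4) * (2 * N) := by
    apply mul_le_mul_of_nonneg_right _ (by positivity)
    rw [sq]
    exact mul_le_mul_of_nonneg_left hlξ hl
  nlinarith

theorem random_subset (ε ξ : ℝ) (hε0 : 0 < ε) (hε1 : ε < 1) (hξ : 0 < ξ) (a : ℕ) :
    ∃ N₀ : ℕ, ∀ N : ℕ, N₀ ≤ N → ∀ (κ C : Type) [Fintype C] [DecidableEq C] (J : Finset κ)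
      (F : κ → Finset C), Fintype.card C ≤ 2 * N → J.card ≤ N ^ a →
      ∃ P : Finset C, ∀ j ∈ J, |((F j ∩ P).card : ℝ) - (1 - ε) * (F j).card| ≤ ξ * N := by
  set l : ℝ := min 1 (ξ / 4) with hl
  have hl0 : 0 < l := lt_min one_pos (by positivity)
  have hl1 : l ≤ 1 := min_le_left _ _
  have hlξ : l ≤ ξ / 4 := min_le_right _ _
  set c : ℝ := l * ξ / 2 with hc
  have hc0 : 0 < c := by positivity
  have h6 : Filter.Tendsto (fun N : ℕ => 2 / c ^ a * ((c * (N : ℝ)) ^ a *
      Real.exp (-(c * (N : ℝ))))) Filter.atTop (nhds (2 / c ^ a * 0)) := by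
    apply Filter.Tendsto.const_mul
    have h1 := Real.tendsto_pow_mul_exp_neg_atTop_nhds_zero a
    have h2 : Filter.Tendsto (fun N : ℕ => c * (N : ℝ)) Filter.atTop Filter.atTop :=
      Filter.Tendsto.const_mul_atTop hc0 tendsto_natCast_atTop_atTop
    exact h1.comp h2
  rw [mul_zero] at h6
  obtain ⟨N₀, hN₀⟩ := Filter.eventually_atTop.1 (h6.eventually_lt_const (one_pos))
  refine ⟨N₀, ?_⟩
  intro N hN κ C _ _ J F hC hJ
  classical
  have hbig : 2 * (N : ℝ) ^ a * Real.exp (-(c * N)) < 1 := by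
    refine lt_of_le_of_lt (le_of_eq ?_) (hN₀ N hN)
    rw [mul_pow]
    field_simp
  have hμ := rs_isProb (C := C) ε hε0.le hε1.le
  have hFc : ∀ j, (F j).card ≤ 2 * N := fun j => (Finset.card_le_univ _).trans hC
  have hbad : PP (fun (_ : C) => rsW ε) (fun ω => ∃ js ∈ J ×ˢ ({1, -1} : Finset ℝ),
      js.2 * ((1 - ε) * (F js.1).card) + ξ * N ≤ js.2 * rsN (F js.1) ω) < 1 := by
    refine lt_of_le_of_lt (PP_exists_le hμ _ _) ?_
    have h1 : ∀ js ∈ J ×ˢ ({1, -1} : Finset ℝ), PP (fun (_ : C) => rsW ε)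
        (fun ω => js.2 * ((1 - ε) * (F js.1).card) + ξ * N ≤ js.2 * rsN (F js.1) ω) ≤
        Real.exp (-(c * N)) := by
      intro js hjs
      have hs : js.2 = 1 ∨ js.2 = -1 := by
        have := (Finset.mem_product.1 hjs).2
        simpa using this
      exact rs_tail ε hε0.le hε1.le (F js.1) hl0.le hl1 hlξ N (hFc _) js.2 hs
    refine lt_of_le_of_lt (Finset.sum_le_sum h1) ?_
    rw [Finset.sum_const, nsmul_eq_mul, Finset.card_product]
    have h2 : ((J.card * ({1, -1} : Finset ℝ).card : ℕ) : ℝ) ≤ 2 * (N : ℝ) ^ a := by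
      have h3 : ({1, -1} : Finset ℝ).card ≤ 2 := Finset.card_le_two
      have h4 : J.card * ({1, -1} : Finset ℝ).card ≤ N ^ a * 2 := Nat.mul_le_mul hJ h3
      have h5 : ((J.card * ({1, -1} : Finset ℝ).card : ℕ) : ℝ) ≤ ((N ^ a * 2 : ℕ) : ℝ) := by
        exact_mod_cast h4
      refine h5.trans (le_of_eq ?_)
      push_cast
      ring
    exact lt_of_le_of_lt (mul_le_mul_of_nonneg_right h2 (Real.exp_pos _).le) hbig
  -- a good point
  obtain ⟨ω, hω⟩ : ∃ ω : C → Bool, ¬ ∃ js ∈ J ×ˢ ({1, -1} : Finset ℝ),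
      js.2 * ((1 - ε) * (F js.1).card) + ξ * N ≤ js.2 * rsN (F js.1) ω := by
    by_contra hcon
    push Not at hcon
    have h1 : PP (fun (_ : C) => rsW ε) (fun ω => ∃ js ∈ J ×ˢ ({1, -1} : Finset ℝ),
        js.2 * ((1 - ε) * (F js.1).card) + ξ * N ≤ js.2 * rsN (F js.1) ω) = 1 :=
      (PP_congr fun ω => ⟨fun _ => trivial, fun _ => hcon ω⟩).trans (PP_true hμ)
    linarith
  refine ⟨Finset.univ.filter (fun c => ω c = true), fun j hj => ?_⟩
  have hcard : (((F j) ∩ Finset.univ.filter (fun c => ω c = true)).card : ℝ) = rsN (F j) ω := by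
    unfold rsN
    rw [Finset.sum_boole]
    congr 2
    ext c
    simp
  rw [hcard, abs_le]
  have h1 : ¬ ((1 : ℝ) * ((1 - ε) * (F j).card) + ξ * N ≤ 1 * rsN (F j) ω) := by
    intro h
    exact hω ⟨(j, 1), Finset.mem_product.2 ⟨hj, by simp⟩, h⟩
  have h2 : ¬ ((-1 : ℝ) * ((1 - ε) * (F j).card) + ξ * N ≤ -1 * rsN (F j) ω) := by
    intro h
    exact hω ⟨(j, -1), Finset.mem_product.2 ⟨hj, by simp⟩, h⟩
  push Not at h1 h2
  constructor <;> linarith

end Pool.Agent.Helper95.BC
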