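import Pool.Agent.Helper95.BC.Sys
import Pool.Agent.Helper95.BC.R

/-!
# The palette
-/

set_option autoImplicit false
set_option linter.unusedSectionVars false

namespace Pool.Agent.Helper95.BC

section pieces

variable {V C : Type} [Fintype V] {G : SimpleGraph V} {m T : ℕ} {δ : ℝ}
  {I : Finset V} {W : V → Finset V} {φ : V → C}

theorem g1_mem_items {v : V} : v ∈ items I W ↔ ∃ i ∈ I, v ∈ W i := by
  classical
  unfold items
  exact Finset.mem_biUnion

open Classical in
/-- a colour is on at most one item of each row -/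
theorem g1_col_card (hφ : RowCol G I W φ) (c : C) :
    ((items I W).filter (fun w => φ w = c)).card ≤ I.card := by
  have h : ∀ w ∈ (items I W).filter (fun w => φ w = c), ∃ i ∈ I, w ∈ W i := by
    intro w hw
    exact g1_mem_items.1 (Finset.mem_filter.1 hw).1
  choose! f hf1 hf2 using h
  apply Finset.card_le_card_of_injOn f
  · intro w hw
    exact hf1 w hw
  · intro w hw w' hw' hww
    have h1 := hf2 w hw
    have h2 := hf2 w' hw'
    rw [← hww] at h2
    rw [Finset.mem_coe, Finset.mem_filter] at hw hw'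
    exact hφ.inj (f w) (hf1 w (Finset.mem_filter.2 hw)) (Finset.mem_coe.2 h1)
      (Finset.mem_coe.2 h2) (hw.2.trans hw'.2.symm)

open Classical in
/-- few elements of a row have an item neighbour of a given colour -/
theorem g1_nbr_card (hR : RowSys G m T δ I W) (hφ : RowCol G I W φ) {i : V} (hi : i ∈ I) (c : C) :
    ((W i).filter (fun v => ¬ ∀ w ∈ items I W, G.Adj v w → φ w ≠ c)).card ≤ I.card := by
  have hsub : (W i).filter (fun v => ¬ ∀ w ∈ items I W, G.Adj v w → φ w ≠ c) ⊆
      ((items I W).filter (fun w => φ w = c)).biUnion (fun w => W i ∩ nbr G w) := by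
    intro v hv
    rw [Finset.mem_filter] at hv
    obtain ⟨hv, h⟩ := hv
    push Not at h
    obtain ⟨w, hw, hvw, hwc⟩ := h
    exact Finset.mem_biUnion.2 ⟨w, Finset.mem_filter.2 ⟨hw, hwc⟩,
      Finset.mem_inter.2 ⟨hv, mem_nbr.2 hvw.symm⟩⟩
  calc _ ≤ (((items I W).filter (fun w => φ w = c)).biUnion (fun w => W i ∩ nbr G w)).card :=
        Finset.card_le_card hsub
    _ ≤ ((items I W).filter (fun w => φ w = c)).card * 1 := by
        refine Finset.card_biUnion_le_card_mul _ _ _ fun w hw => ?_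
        have hwi : i ≠ w := by
          rintro rfl
          obtain ⟨j, hj, hij⟩ := g1_mem_items.1 (Finset.mem_filter.1 hw).1
          exact Finset.disjoint_left.1 (hR.disj j hj) hij hi
        exact (Finset.card_le_card (Finset.inter_subset_inter_right (hR.sub i hi))).trans
          (hR.c4.card_le_one hwi)
    _ ≤ I.card := by
        rw [mul_one]
        exact g1_col_card hφ c

open Classical in
theorem g1_Y_card (hR : RowSys G m T δ I W) (hI : I.card ≤ m) :
    (Finset.univ.filter (fun y => ∃ v ∈ items I W, G.Adj y v)).card ≤ m * m * m := by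
  have h1 : Finset.univ.filter (fun y => ∃ v ∈ items I W, G.Adj y v) ⊆
      (items I W).biUnion (fun v => nbr G v) := by
    intro y hy
    rw [Finset.mem_filter] at hy
    obtain ⟨_, v, hv, hyv⟩ := hy
    exact Finset.mem_biUnion.2 ⟨v, hv, mem_nbr.2 hyv.symm⟩
  have hit : (items I W).card ≤ m * m := by
    have h2 : items I W = I.biUnion W := by
      unfold items
      convert rfl
    rw [h2]
    exact (Finset.card_biUnion_le_card_mul _ _ _ fun i hi => hR.le i hi).trans
      (Nat.mul_le_mul_right _ hI)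
  refine (Finset.card_le_card h1).trans ?_
  refine (Finset.card_biUnion_le_card_mul _ _ m fun v hv => ?_).trans (Nat.mul_le_mul_right _ hit)
  obtain ⟨i, hi, hv⟩ := g1_mem_items.1 hv
  exact hR.deg i hi v hv

end pieces

open Classical in
theorem palette (ε δ : ℝ) (hε0 : 0 < ε) (hε1 : ε ≤ 1 / 4) (hδ0 : 0 < δ) (hδ1 : δ ≤ ε / 2) (T : ℕ) :
    ∃ m₀ : ℕ, ∀ m : ℕ, m₀ ≤ m → ∀ (V : Type) [Fintype V] (G : SimpleGraph V)
      (I : Finset V) (W : V → Finset V) (φ : V → Fin ⌈(1 + δ) * m⌉₊)
      (Bad : Finset (Fin ⌈(1 + δ) * m⌉₊)),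
      RowSys G m T δ I W → (I.card : ℝ) ≤ (1 - ε) * m → RowCol G I W φ →
      (Bad.card : ℝ) ≤ δ * m / 8 →
      ∃ P : Finset (Fin ⌈(1 + δ) * m⌉₊), Disjoint P Bad ∧ (1 - ε) * m + δ * m / 2 ≤ P.card ∧
        (∀ y, (nbr G y).card ≤ m →
          ((((nbr G y ∩ items I W).image φ) ∩ P).card : ℝ) + δ * m / 2 ≤ P.card) ∧
        ∀ i ∈ I, ∀ c, ε ^ 2 * m / 4 ≤
          ((W i).filter (fun v => φ v ∉ P ∧ ∀ w ∈ items I W, G.Adj v w → φ w ≠ c)).card := by
  set ξ : ℝ := min (δ / 32) (ε ^ 2 / 8) with hξ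
  have hξ0 : 0 < ξ := lt_min (by positivity) (by positivity)
  have hξ1 : ξ ≤ δ / 32 := min_le_left _ _
  have hξ2 : ξ ≤ ε ^ 2 / 8 := min_le_right _ _
  obtain ⟨N₀, hN₀⟩ := random_subset ε ξ hε0 (by linarith) hξ0 4
  refine ⟨max N₀ 2, ?_⟩
  intro m hm V _ G I W φ Bad hR hI hφ hBad
  have hm2 : 2 ≤ m := (le_max_right _ _).trans hm
  have hm2' : (2 : ℝ) ≤ m := by exact_mod_cast hm2
  have hNceil : (1 + δ) * m ≤ (⌈(1 + δ) * (m : ℝ)⌉₊ : ℝ) := Nat.le_ceil _
  have hNlt : (⌈(1 + δ) * (m : ℝ)⌉₊ : ℝ) < (1 + δ) * m + 1 :=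
    Nat.ceil_lt_add_one (by positivity)
  have hN2 : (⌈(1 + δ) * (m : ℝ)⌉₊ : ℝ) ≤ 2 * m := by nlinarith
  have hmN : m ≤ ⌈(1 + δ) * (m : ℝ)⌉₊ := by
    have : (m : ℝ) ≤ ⌈(1 + δ) * (m : ℝ)⌉₊ := by nlinarith
    exact_mod_cast this
  generalize ⌈(1 + δ) * (m : ℝ)⌉₊ = N at *
  have hIm : I.card ≤ m := by
    have : (I.card : ℝ) ≤ m := by nlinarith
    exact_mod_cast this
  have hN2' : 2 ≤ N := hm2.trans hmN
  have hξN : ξ * N ≤ ξ * (2 * m) := mul_le_mul_of_nonneg_left hN2 hξ0.le
  -- the sets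
  set S : V → Fin N → Finset (Fin N) := fun i c =>
    ((W i).filter (fun v => ∀ w ∈ items I W, G.Adj v w → φ w ≠ c)).image φ with hS
  set Z : V → Finset (Fin N) := fun y => (nbr G y ∩ items I W).image φ with hZ
  set Y : Finset V := Finset.univ.filter (fun y => ∃ v ∈ items I W, G.Adj y v) with hY
  set J : Finset (Finset (Fin N)) := insert (Finset.univ \ Bad) (Y.image Z ∪
    (I ×ˢ (Finset.univ : Finset (Fin N))).image (fun a => S a.1 a.2)) with hJ
  have hJcard : J.card ≤ N ^ 4 := by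
    have h1 : J.card ≤ (Y.image Z ∪
      (I ×ˢ (Finset.univ : Finset (Fin N))).image (fun a => S a.1 a.2)).card + 1 :=
      Finset.card_insert_le _ _
    have h2 : (Y.image Z ∪
      (I ×ˢ (Finset.univ : Finset (Fin N))).image (fun a => S a.1 a.2)).card ≤
      m * m * m + m * N := by
      refine (Finset.card_union_le _ _).trans (add_le_add ?_ ?_)
      · exact Finset.card_image_le.trans (g1_Y_card hR hIm)
      · refine Finset.card_image_le.trans ?_
        rw [Finset.card_product, Finset.card_univ, Fintype.card_fin]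
        exact Nat.mul_le_mul_right _ hIm
    have h3 : m * m * m ≤ N * N * N := Nat.mul_le_mul (Nat.mul_le_mul hmN hmN) hmN
    have h4 : m * N ≤ N * N := Nat.mul_le_mul_right _ hmN
    have h5 : N * N * N + N * N + 1 ≤ N ^ 4 := by
      have h6 : 4 ≤ N * N := Nat.mul_le_mul hN2' hN2'
      have h7 : 2 * (N * N) ≤ N * (N * N) := Nat.mul_le_mul_right _ hN2'
      have h8 : 2 * (N * N * N) ≤ N * (N * N * N) := Nat.mul_le_mul_right _ hN2'
      have h9 : N ^ 4 = N * (N * N * N) := by ring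
      have h10 : N * N * N = N * (N * N) := by ring
      rw [h9]
      omega
    omega
  obtain ⟨P₀, hP₀⟩ := hN₀ N (((le_max_left _ _).trans hm).trans hmN) (Finset (Fin N)) (Fin N) J id
    (by rw [Fintype.card_fin]; omega) hJcard
  have hP₀' : ∀ F ∈ J, |((F ∩ P₀).card : ℝ) - (1 - ε) * F.card| ≤ ξ * N := by
    intro F hF
    have := hP₀ F hF
    simpa using this
  -- the size of the palette
  have hPP : (Finset.univ \ Bad) ∩ P₀ = P₀ \ Bad := by
    ext c
    simp only [Finset.mem_inter, Finset.mem_sdiff, Finset.mem_univ, true_and]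
    tauto
  have hBcard : ((Finset.univ \ Bad : Finset (Fin N)).card : ℝ) = N - Bad.card := by
    have h1 := Finset.card_sdiff_add_card_eq_card (Finset.subset_univ Bad)
    rw [Finset.card_univ, Fintype.card_fin] at h1
    have h2 : ((Finset.univ \ Bad : Finset (Fin N)).card : ℝ) + Bad.card = N := by
      exact_mod_cast h1
    linarith
  have hPcard : (1 - ε) * m + 21 / 32 * (δ * m) - ξ * N ≤ ((P₀ \ Bad).card : ℝ) := by
    have h1 := hP₀' _ (Finset.mem_insert_self _ _)
    rw [hPP, hBcard, abs_le] at h1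
    have h2 : (1 - ε) * ((1 + δ) * m - δ * m / 8) ≤ (1 - ε) * ((N : ℝ) - Bad.card) :=
      mul_le_mul_of_nonneg_left (by linarith) (by linarith)
    have h3 : (1 - ε) * ((1 + δ) * m - δ * m / 8) = (1 - ε) * m + (1 - ε) * (7 / 8 * (δ * m)) := by
      ring
    have h4 : 3 / 4 * (7 / 8 * (δ * m)) ≤ (1 - ε) * (7 / 8 * (δ * m)) :=
      mul_le_mul_of_nonneg_right (by linarith) (by positivity)
    linarith [h1.1]
  have hδm : 0 ≤ δ * m := by positivity
  have hξNδ : ξ * N ≤ 1 / 16 * (δ * m) := by nlinarith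
  have hξNε : ξ * N ≤ ε ^ 2 * m / 4 := by nlinarith
  refine ⟨P₀ \ Bad, Finset.sdiff_disjoint, by linarith, ?_, ?_⟩
  · intro y hy
    have hsub : (((nbr G y ∩ items I W).image φ) ∩ (P₀ \ Bad)).card ≤ (Z y ∩ P₀).card :=
      Finset.card_le_card (Finset.inter_subset_inter_left Finset.sdiff_subset)
    have hZm : ((Z y).card : ℝ) ≤ m := by
      have : (Z y).card ≤ m := (Finset.card_image_le.trans
        (Finset.card_le_card Finset.inter_subset_left)).trans hy
      exact_mod_cast this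
    have hsub' : ((((nbr G y ∩ items I W).image φ) ∩ (P₀ \ Bad)).card : ℝ) ≤
      ((Z y ∩ P₀).card : ℝ) := by exact_mod_cast hsub
    by_cases hyY : y ∈ Y
    · have h1 := hP₀' (Z y) (Finset.mem_insert_of_mem (Finset.mem_union_left _
        (Finset.mem_image_of_mem _ hyY)))
      rw [abs_le] at h1
      have h2 : (1 - ε) * ((Z y).card : ℝ) ≤ (1 - ε) * m :=
        mul_le_mul_of_nonneg_left hZm (by linarith)
      linarith [h1.2]
    · have h1 : Z y = ∅ := by
        rw [hZ]
        simp only [Finset.image_eq_empty]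
        rw [Finset.eq_empty_iff_forall_notMem]
        intro v hv
        rw [Finset.mem_inter, mem_nbr] at hv
        exact hyY (Finset.mem_filter.2 ⟨Finset.mem_univ _, v, hv.2, hv.1⟩)
      rw [h1, Finset.empty_inter, Finset.card_empty, Nat.cast_zero] at hsub'
      have h2 : 0 ≤ (1 - ε) * (m : ℝ) := by
        apply mul_nonneg (by linarith)
        linarith
      linarith
  · intro i hi c
    have h1 := hP₀' (S i c) (Finset.mem_insert_of_mem (Finset.mem_union_right _
      (Finset.mem_image.2 ⟨(i, c), Finset.mem_product.2 ⟨hi, Finset.mem_univ _⟩, rfl⟩)))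
    rw [abs_le] at h1
    have h2 : (W i).card ≤
        ((W i).filter (fun v => ∀ w ∈ items I W, G.Adj v w → φ w ≠ c)).card + I.card := by
      rw [← Finset.card_filter_add_card_filter_not (s := W i)
        (fun v => ∀ w ∈ items I W, G.Adj v w → φ w ≠ c)]
      have hg := g1_nbr_card hR hφ hi c
      refine Nat.add_le_add_left ?_ _
      convert hg
    have h3 : (S i c).card =
        ((W i).filter (fun v => ∀ w ∈ items I W, G.Adj v w → φ w ≠ c)).card := by
      apply Finset.card_image_of_injOn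
      intro x hx y hy hxy
      exact hφ.inj i hi (Finset.mem_coe.2 (Finset.mem_filter.1 (Finset.mem_coe.1 hx)).1)
        (Finset.mem_coe.2 (Finset.mem_filter.1 (Finset.mem_coe.1 hy)).1) hxy
    rw [← h3] at h2
    have h2' : ((W i).card : ℝ) ≤ (S i c).card + I.card := by exact_mod_cast h2
    have h4 := hR.ge i hi
    have h5 : ε / 2 * m ≤ ((S i c).card : ℝ) := by nlinarith
    have h6 : (S i c).card ≤ (S i c ∩ P₀).card + (S i c \ P₀).card := by
      rw [Finset.card_inter_add_card_sdiff]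
    have h6' : ((S i c).card : ℝ) ≤ (S i c ∩ P₀).card + (S i c \ P₀).card := by
      exact_mod_cast h6
    have h7 : S i c \ P₀ ⊆ ((W i).filter (fun v => φ v ∉ P₀ \ Bad ∧
        ∀ w ∈ items I W, G.Adj v w → φ w ≠ c)).image φ := by
      intro x hx
      rw [Finset.mem_sdiff] at hx
      obtain ⟨v, hv, hvx⟩ := Finset.mem_image.1 hx.1
      rw [Finset.mem_filter] at hv
      refine Finset.mem_image.2 ⟨v, Finset.mem_filter.2 ⟨hv.1, ?_, hv.2⟩, hvx⟩
      intro h
      rw [hvx] at h
      exact hx.2 (Finset.mem_sdiff.1 h).1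
    have h8 : ((S i c \ P₀).card : ℝ) ≤ (((W i).filter (fun v => φ v ∉ P₀ \ Bad ∧
        ∀ w ∈ items I W, G.Adj v w → φ w ≠ c)).card : ℝ) := by
      exact_mod_cast (Finset.card_le_card h7).trans Finset.card_image_le
    have h9 : ε * (ε / 2 * m) ≤ ε * ((S i c).card : ℝ) := mul_le_mul_of_nonneg_left h5 hε0.le
    have h10 : ε * (ε / 2 * m) = ε ^ 2 * m / 4 + ε ^ 2 * m / 4 := by ring
    linarith [h1.2]

end Pool.Agent.Helper95.BC
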