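import Pool.Agent.Helper95.BC.Sys

/-!
# Piece G2: few bad colours
-/

set_option autoImplicit false

namespace Pool.Agent.Helper95.BC

theorem mem_items {V : Type} {I : Finset V} {W : V → Finset V} {v : V} :
    v ∈ items I W ↔ ∃ i ∈ I, v ∈ W i := by
  classical
  unfold items
  rw [Finset.mem_biUnion]

open Classical in
theorem sum_fiber_le {α β : Type} (Z : Finset α) (f : α → β) (B : Finset β) :
    ∑ c ∈ B, (Z.filter (fun v => f v = c)).card ≤ Z.card := by
  rw [← Finset.card_biUnion]
  · exact Finset.card_le_card (Finset.biUnion_subset.2 fun c _ => Finset.filter_subset _ _)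
  · intro c _ d _ hcd
    refine Finset.disjoint_left.2 ?_
    intro v hv hv'
    exact hcd ((Finset.mem_filter.1 hv).2.symm.trans (Finset.mem_filter.1 hv').2)

open Classical in
/-- at most `2m` items are adjacent to `x` -/
theorem items_nbr {V : Type} [Fintype V] (G : SimpleGraph V) {m T : ℕ} {δ : ℝ}
    {I : Finset V} {W : V → Finset V} (hR : RowSys G m T δ I W) (hI : I.card ≤ m) (x : V) :
    ((items I W).filter (fun v => G.Adj x v)).card ≤ 2 * m := by
  have h1 : ∀ i ∈ I, ((W i).filter (fun v => G.Adj x v)).card ≤ 1 + (if i = x then m else 0) := by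
    intro i hi
    by_cases hix : i = x
    · rw [if_pos hix]
      exact (Finset.card_filter_le _ _).trans ((hR.le i hi).trans (Nat.le_add_left _ _))
    · rw [if_neg hix]
      refine le_trans (Finset.card_le_card ?_) (hR.c4.card_le_one hix)
      intro v hv
      rw [Finset.mem_filter] at hv
      exact Finset.mem_inter.2 ⟨hR.sub i hi hv.1, mem_nbr.2 hv.2⟩
  have h2 : (items I W).filter (fun v => G.Adj x v) ⊆
      I.biUnion (fun i => (W i).filter (fun v => G.Adj x v)) := by
    intro v hv
    rw [Finset.mem_filter] at hv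
    obtain ⟨i, hi, hvi⟩ := mem_items.1 hv.1
    exact Finset.mem_biUnion.2 ⟨i, hi, Finset.mem_filter.2 ⟨hvi, hv.2⟩⟩
  have h3 : ∑ i ∈ I, (1 + (if i = x then m else 0)) ≤ 2 * m := by
    rw [Finset.sum_add_distrib, Finset.sum_const, smul_eq_mul, mul_one]
    have h4 : ∑ i ∈ I, (if i = x then m else 0) ≤ m := by
      rw [Finset.sum_ite_eq']
      split_ifs
      · exact le_rfl
      · exact Nat.zero_le _
    omega
  exact (Finset.card_le_card h2).trans (Finset.card_biUnion_le.trans
    ((Finset.sum_le_sum h1).trans h3))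

open Classical in
theorem bad_row {V C : Type} [Fintype V] (G : SimpleGraph V) {m T : ℕ} {δ : ℝ}
    {I : Finset V} {W : V → Finset V} (hR : RowSys G m T δ I W) (hI : I.card ≤ m)
    (hm : 1 ≤ m) (φ : V → C) (η : ℝ) (hη : 0 < η) (P : Finset C) (x : V) :
    ((P.filter (fun c => η * m <
      (((items I W).filter (fun v => G.Adj x v ∧ φ v = c)).card : ℝ))).card : ℝ) ≤ 2 / η := by
  set B := P.filter (fun c => η * m <
      (((items I W).filter (fun v => G.Adj x v ∧ φ v = c)).card : ℝ)) with hB
  have hm' : (0 : ℝ) < m := by exact_mod_cast hm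
  have h1 : (B.card : ℝ) * (η * m) ≤
      ∑ c ∈ B, ((((items I W).filter (fun v => G.Adj x v)).filter (fun v => φ v = c)).card : ℝ) := by
    rw [← nsmul_eq_mul]
    refine Finset.card_nsmul_le_sum _ _ _ fun c hc => ?_
    rw [Finset.filter_filter]
    exact (Finset.mem_filter.1 hc).2.le
  have h2 : ∑ c ∈ B,
      ((((items I W).filter (fun v => G.Adj x v)).filter (fun v => φ v = c)).card : ℝ) ≤ 2 * m := by
    have h := (sum_fiber_le ((items I W).filter (fun v => G.Adj x v)) φ B).trans
      (items_nbr G hR hI x)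
    exact_mod_cast h
  rw [le_div_iff₀ hη]
  have h3 : (B.card : ℝ) * η * m ≤ 2 * m := by
    calc (B.card : ℝ) * η * m = B.card * (η * m) := by ring
      _ ≤ 2 * m := h1.trans h2
  exact le_of_mul_le_mul_right h3 hm'

open Classical in
theorem class_card {V C : Type} [Fintype V] (G : SimpleGraph V)
    {I : Finset V} {W : V → Finset V} (φ : V → C) (hφ : RowCol G I W φ) (c : C) :
    ((items I W).filter (fun v => φ v = c)).card ≤ I.card := by
  have h1 : (items I W).filter (fun v => φ v = c) ⊆
      I.biUnion (fun i => (W i).filter (fun v => φ v = c)) := by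
    intro v hv
    rw [Finset.mem_filter] at hv
    obtain ⟨i, hi, hvi⟩ := mem_items.1 hv.1
    exact Finset.mem_biUnion.2 ⟨i, hi, Finset.mem_filter.2 ⟨hvi, hv.2⟩⟩
  have h2 : ∀ i ∈ I, ((W i).filter (fun v => φ v = c)).card ≤ 1 := by
    intro i hi
    rw [Finset.card_le_one]
    intro a ha b hb
    rw [Finset.mem_filter] at ha hb
    exact hφ.inj i hi (Finset.mem_coe.2 ha.1) (Finset.mem_coe.2 hb.1) (ha.2.trans hb.2.symm)
  refine (Finset.card_le_card h1).trans (Finset.card_biUnion_le.trans
    ((Finset.sum_le_sum h2).trans ?_))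
  simp

open Classical in
theorem bad_col {V C : Type} [Fintype V] (G : SimpleGraph V) {m T : ℕ} {δ : ℝ}
    {I : Finset V} {W : V → Finset V} (hR : RowSys G m T δ I W) (hI : I.card ≤ m)
    (hm : 1 ≤ m) (φ : V → C) (hφ : RowCol G I W φ) (η : ℝ) (hη : 0 < η) (D : Finset V)
    (hD : ∀ v ∈ items I W, (nbr G v ∩ D).card ≤ T) (c : C) :
    ((D.filter (fun x => η * m <
      (((items I W).filter (fun v => G.Adj x v ∧ φ v = c)).card : ℝ))).card : ℝ) ≤ T / η := by
  set B := D.filter (fun x => η * m <
      (((items I W).filter (fun v => G.Adj x v ∧ φ v = c)).card : ℝ)) with hB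
  have hm' : (0 : ℝ) < m := by exact_mod_cast hm
  set Z := (items I W).filter (fun v => φ v = c) with hZ
  have h1 : (B.card : ℝ) * (η * m) ≤
      ∑ x ∈ B, ((Z.filter (fun v => G.Adj x v)).card : ℝ) := by
    rw [← nsmul_eq_mul]
    refine Finset.card_nsmul_le_sum _ _ _ fun x hx => ?_
    refine (Finset.mem_filter.1 hx).2.le.trans ?_
    have h : (items I W).filter (fun v => G.Adj x v ∧ φ v = c) ⊆
        Z.filter (fun v => G.Adj x v) := by
      intro v hv
      rw [Finset.mem_filter] at hv
      exact Finset.mem_filter.2 ⟨Finset.mem_filter.2 ⟨hv.1, hv.2.2⟩, hv.2.1⟩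
    exact_mod_cast Finset.card_le_card h
  have h2 : ∑ x ∈ B, (Z.filter (fun v => G.Adj x v)).card =
      ∑ v ∈ Z, (B.filter (fun x => G.Adj x v)).card :=
    Finset.sum_card_bipartiteAbove_eq_sum_card_bipartiteBelow G.Adj
  have h3 : ∑ v ∈ Z, (B.filter (fun x => G.Adj x v)).card ≤ Z.card * T := by
    rw [← smul_eq_mul]
    refine Finset.sum_le_card_nsmul _ _ _ fun v hv => ?_
    refine le_trans (Finset.card_le_card ?_) (hD v (Finset.mem_filter.1 hv).1)
    intro x hx
    rw [Finset.mem_filter] at hx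
    exact Finset.mem_inter.2 ⟨mem_nbr.2 hx.2.symm, (Finset.mem_filter.1 hx.1).1⟩
  have h4 : Z.card ≤ m := (class_card G φ hφ c).trans hI
  have h5 : (B.card : ℝ) * (η * m) ≤ m * T := by
    refine h1.trans ?_
    have h6 : ∑ x ∈ B, (Z.filter (fun v => G.Adj x v)).card ≤ m * T :=
      h2.le.trans (h3.trans (Nat.mul_le_mul_right T h4))
    exact_mod_cast h6
  rw [le_div_iff₀ hη]
  have h6 : (B.card : ℝ) * η * m ≤ T * m := by
    calc (B.card : ℝ) * η * m = B.card * (η * m) := by ring
      _ ≤ m * T := h5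
      _ = T * m := mul_comm _ _
  exact le_of_mul_le_mul_right h6 hm'

end Pool.Agent.Helper95.BC
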