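import Pool.Agent.Helper95.BC.G2

/-!
# Piece G3: the losses
-/

set_option autoImplicit false

namespace Pool.Agent.Helper95.BC

open Classical in
theorem rows_count {V : Type} [Fintype V] (G : SimpleGraph V) {m T : ℕ} {δ : ℝ}
    {I : Finset V} {W : V → Finset V} (hR : RowSys G m T δ I W) (p : V → Prop) :
    ∑ i ∈ I, ((W i).filter p).card ≤ ((items I W).filter p).card * T := by
  have h1 : ∑ i ∈ I, (((items I W).filter p).filter (fun v => v ∈ W i)).card =
      ∑ v ∈ (items I W).filter p, (I.filter (fun i => v ∈ W i)).card :=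
    Finset.sum_card_bipartiteAbove_eq_sum_card_bipartiteBelow (fun (i v : V) => v ∈ W i)
  have h2 : ∀ i ∈ I, ((W i).filter p).card ≤
      (((items I W).filter p).filter (fun v => v ∈ W i)).card := by
    intro i hi
    refine Finset.card_le_card fun v hv => ?_
    rw [Finset.mem_filter] at hv
    exact Finset.mem_filter.2 ⟨Finset.mem_filter.2 ⟨mem_items.2 ⟨i, hi, hv.1⟩, hv.2⟩, hv.1⟩
  refine (Finset.sum_le_sum h2).trans (h1.le.trans ?_)
  rw [← smul_eq_mul]
  refine Finset.sum_le_card_nsmul _ _ _ fun v hv => ?_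
  obtain ⟨i, hi, hvi⟩ := mem_items.1 (Finset.mem_filter.1 hv).1
  exact hR.rk i hi v hvi

open Classical in
theorem loss_row {V C : Type} [Fintype V] (G : SimpleGraph V) {m T : ℕ} {δ : ℝ}
    {I : Finset V} {W : V → Finset V} (hR : RowSys G m T δ I W)
    (φ l : V → C) (Q : Finset V) (η θ : ℝ) (hη : 0 ≤ η) (hθ : 0 < θ) (hm : 1 ≤ m) (hQ : Q.card ≤ 2 * m)
    (hl : ∀ x ∈ Q, (((items I W).filter (fun v => G.Adj x v ∧ φ v = l x)).card : ℝ) ≤ η * m) :
    ((I.filter (fun i => θ * m < (((W i).filter (fun v => Lost G Q φ l v)).card : ℝ))).card : ℝ)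
      ≤ 2 * T * η / θ * m := by
  set B := I.filter (fun i => θ * m < (((W i).filter (fun v => Lost G Q φ l v)).card : ℝ)) with hB
  have hm' : (0 : ℝ) < m := by exact_mod_cast hm
  have h1 : (B.card : ℝ) * (θ * m) ≤
      ∑ i ∈ B, (((W i).filter (fun v => Lost G Q φ l v)).card : ℝ) := by
    rw [← nsmul_eq_mul]
    exact Finset.card_nsmul_le_sum _ _ _ fun i hi => (Finset.mem_filter.1 hi).2.le
  have h2 : ∑ i ∈ B, (((W i).filter (fun v => Lost G Q φ l v)).card : ℝ) ≤
      (((items I W).filter (fun v => Lost G Q φ l v)).card : ℝ) * T := by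
    have h := (Finset.sum_le_sum_of_subset (f := fun i =>
      ((W i).filter (fun v => Lost G Q φ l v)).card) (Finset.filter_subset _ I :
        B ⊆ I)).trans (rows_count G hR (fun v => Lost G Q φ l v))
    exact_mod_cast h
  have h3 : (((items I W).filter (fun v => Lost G Q φ l v)).card : ℝ) ≤ 2 * m * (η * m) := by
    have h4 : (items I W).filter (fun v => Lost G Q φ l v) ⊆
        Q.biUnion (fun x => (items I W).filter (fun v => G.Adj x v ∧ φ v = l x)) := by
      intro v hv
      rw [Finset.mem_filter] at hv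
      obtain ⟨x, hx, hvx, hlx⟩ := hv.2
      exact Finset.mem_biUnion.2 ⟨x, hx, Finset.mem_filter.2 ⟨hv.1, hvx.symm, hlx.symm⟩⟩
    have h5 : (((items I W).filter (fun v => Lost G Q φ l v)).card : ℝ) ≤
        ∑ x ∈ Q, (((items I W).filter (fun v => G.Adj x v ∧ φ v = l x)).card : ℝ) := by
      exact_mod_cast (Finset.card_le_card h4).trans Finset.card_biUnion_le
    refine h5.trans ((Finset.sum_le_card_nsmul _ _ _ hl).trans ?_)
    rw [nsmul_eq_mul]
    refine mul_le_mul_of_nonneg_right ?_ (mul_nonneg hη hm'.le)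
    exact_mod_cast hQ
  have h4 : (B.card : ℝ) * (θ * m) ≤ 2 * m * (η * m) * T :=
    h1.trans (h2.trans (mul_le_mul_of_nonneg_right h3 (Nat.cast_nonneg T)))
  have h5 : (B.card : ℝ) * (θ * m) ≤ (2 * T * η / θ * m) * (θ * m) := by
    refine h4.trans_eq ?_
    field_simp
  exact le_of_mul_le_mul_right h5 (mul_pos hθ hm')

open Classical in
theorem loss_col {V C : Type} [Fintype V] (G : SimpleGraph V) {m T : ℕ} {δ : ℝ}
    {I : Finset V} {W : V → Finset V} (hR : RowSys G m T δ I W)
    (φ l : V → C) (D E Hx : Finset V) (P : Finset C) (hL : Lab G D E Hx P l) (η : ℝ)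
    (hη : 0 ≤ η)
    (hl : ∀ x ∈ D ∪ E ∪ Hx,
      (((items I W).filter (fun v => G.Adj x v ∧ φ v = l x)).card : ℝ) ≤ η * m) (c : C) :
    ((I.filter (fun i => ∃ v ∈ W i, φ v = c ∧ Lost G (D ∪ E ∪ Hx) φ l v)).card : ℝ) ≤
      2 * T * η * m := by
  set Q := D ∪ E ∪ Hx with hQ
  have hm' : (0 : ℝ) ≤ m := Nat.cast_nonneg m
  obtain ⟨p, hp⟩ : ∃ p : V → Prop, ∀ v, p v ↔ (φ v = c ∧ Lost G Q φ l v) := ⟨_, fun _ => Iff.rfl⟩
  have h0 : (I.filter (fun i => ∃ v ∈ W i, φ v = c ∧ Lost G Q φ l v)).card ≤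
      ∑ i ∈ I, ((W i).filter p).card := by
    rw [Finset.card_filter]
    refine Finset.sum_le_sum fun i _ => ?_
    split_ifs with h
    · obtain ⟨v, hv, hv'⟩ := h
      exact Finset.card_pos.2 ⟨v, Finset.mem_filter.2 ⟨hv, (hp v).2 hv'⟩⟩
    · exact Nat.zero_le _
  have h1 := h0.trans (rows_count G hR p)
  have h2 : (((items I W).filter p).card : ℝ) ≤ 2 * (η * m) := by
    have h4 : (items I W).filter p ⊆
        (Q.filter (fun x => l x = c)).biUnion
          (fun x => (items I W).filter (fun v => G.Adj x v ∧ φ v = l x)) := by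
      intro v hv
      rw [Finset.mem_filter] at hv
      obtain ⟨hv1, x, hx, hvx, hlx⟩ := (hp v).1 hv.2
      exact Finset.mem_biUnion.2 ⟨x, Finset.mem_filter.2 ⟨hx, hlx.trans hv1⟩,
        Finset.mem_filter.2 ⟨hv.1, hvx.symm, hlx.symm⟩⟩
    have h5 : (((items I W).filter p).card : ℝ) ≤
        ∑ x ∈ Q.filter (fun x => l x = c),
          (((items I W).filter (fun v => G.Adj x v ∧ φ v = l x)).card : ℝ) := by
      exact_mod_cast (Finset.card_le_card h4).trans Finset.card_biUnion_le
    have h6 : (Q.filter (fun x => l x = c)).card ≤ 2 := by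
      have h7 : Q.filter (fun x => l x = c) ⊆
          (D ∪ E).filter (fun x => l x = c) ∪ Hx.filter (fun x => l x = c) := by
        intro x hx
        rw [Finset.mem_filter] at hx
        rw [Finset.mem_union, Finset.mem_filter, Finset.mem_filter]
        rcases Finset.mem_union.1 hx.1 with h | h
        · exact Or.inl ⟨h, hx.2⟩
        · exact Or.inr ⟨h, hx.2⟩
      have h8 : ((D ∪ E).filter (fun x => l x = c)).card ≤ 1 := by
        rw [Finset.card_le_one]
        intro a ha b hb
        rw [Finset.mem_filter] at ha hb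
        exact hL.inj1 (Finset.mem_coe.2 ha.1) (Finset.mem_coe.2 hb.1) (ha.2.trans hb.2.symm)
      have h9 : (Hx.filter (fun x => l x = c)).card ≤ 1 := by
        rw [Finset.card_le_one]
        intro a ha b hb
        rw [Finset.mem_filter] at ha hb
        exact hL.inj2 (Finset.mem_coe.2 ha.1) (Finset.mem_coe.2 hb.1) (ha.2.trans hb.2.symm)
      have h10 := (Finset.card_le_card h7).trans (Finset.card_union_le _ _)
      omega
    refine h5.trans ((Finset.sum_le_card_nsmul _ _ _
      (fun x hx => hl x (Finset.mem_filter.1 hx).1)).trans ?_)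
    rw [nsmul_eq_mul]
    refine mul_le_mul_of_nonneg_right ?_ (mul_nonneg hη hm')
    exact_mod_cast h6
  have h3 : ((I.filter (fun i => ∃ v ∈ W i, φ v = c ∧ Lost G Q φ l v)).card : ℝ) ≤
      (((items I W).filter p).card : ℝ) * T := by
    exact_mod_cast h1
  refine h3.trans ((mul_le_mul_of_nonneg_right h2 (Nat.cast_nonneg T)).trans_eq ?_)
  ring

end Pool.Agent.Helper95.BC
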