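import Pool.Agent.Helper95.BC.Sys
import Pool.Agent.Helper95.BC.F

/-!
# The missing pairs are completed
-/

set_option autoImplicit false
set_option linter.unusedSectionVars false

namespace Pool.Agent.Helper95.BC

/-- polynomial against exponential -/
theorem g4_large (c : ℝ) (hc : 0 < c) (a : ℕ) :
    ∃ m₀ : ℕ, ∀ m : ℕ, m₀ ≤ m → (m : ℝ) ^ a * Real.exp (-(c * m)) ≤ 1 / 4 := by
  have h6 : Filter.Tendsto (fun N : ℕ => 1 / c ^ a * ((c * (N : ℝ)) ^ a *
      Real.exp (-(c * (N : ℝ))))) Filter.atTop (nhds (1 / c ^ a * 0)) := by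
    apply Filter.Tendsto.const_mul
    have h1 := Real.tendsto_pow_mul_exp_neg_atTop_nhds_zero a
    have h2 : Filter.Tendsto (fun N : ℕ => c * (N : ℝ)) Filter.atTop Filter.atTop :=
      Filter.Tendsto.const_mul_atTop hc tendsto_natCast_atTop_atTop
    exact h1.comp h2
  rw [mul_zero] at h6
  obtain ⟨N₀, hN₀⟩ := Filter.eventually_atTop.1
    (h6.eventually_lt_const (show (0 : ℝ) < 1 / 4 by norm_num))
  refine ⟨N₀, fun N hN => ?_⟩
  refine le_trans (le_of_eq ?_) (hN₀ N hN).le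
  rw [mul_pow]
  field_simp

section pieces

variable {V C : Type} [Fintype V] {G : SimpleGraph V} {m T : ℕ} {δ : ℝ}
  {D E Hx I : Finset V} {W : V → Finset V} {φ l : V → C} {P : Finset C}

open Classical in
/-- few vertices of a row have a neighbour with a given label -/
theorem g4_lab (hR : RowSys G m T δ I W) (hL : Lab G D E Hx P l) {i : V} (hi : i ∈ I) {c : C}
    (hc : c ≠ l i) :
    ((W i).filter (fun v => ∃ x ∈ D ∪ E ∪ Hx, G.Adj v x ∧ l x = c)).card ≤ 2 := by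
  have hsub : (W i).filter (fun v => ∃ x ∈ D ∪ E ∪ Hx, G.Adj v x ∧ l x = c) ⊆
      ((D ∪ E ∪ Hx).filter (fun x => l x = c)).biUnion (fun x => W i ∩ nbr G x) := by
    intro v hv
    rw [Finset.mem_filter] at hv
    obtain ⟨hv, x, hx, hvx, hlx⟩ := hv
    exact Finset.mem_biUnion.2 ⟨x, Finset.mem_filter.2 ⟨hx, hlx⟩,
      Finset.mem_inter.2 ⟨hv, mem_nbr.2 hvx.symm⟩⟩
  have hX : ((D ∪ E ∪ Hx).filter (fun x => l x = c)).card ≤ 2 := by
    rw [Finset.filter_union]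
    refine (Finset.card_union_le _ _).trans ?_
    have h1 : ((D ∪ E).filter (fun x => l x = c)).card ≤ 1 := by
      rw [Finset.card_le_one]
      intro x hx y hy
      rw [Finset.mem_filter] at hx hy
      exact hL.inj1 (Finset.mem_coe.2 hx.1) (Finset.mem_coe.2 hy.1) (hx.2.trans hy.2.symm)
    have h2 : (Hx.filter (fun x => l x = c)).card ≤ 1 := by
      rw [Finset.card_le_one]
      intro x hx y hy
      rw [Finset.mem_filter] at hx hy
      exact hL.inj2 (Finset.mem_coe.2 hx.1) (Finset.mem_coe.2 hy.1) (hx.2.trans hy.2.symm)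
    omega
  calc _ ≤ (((D ∪ E ∪ Hx).filter (fun x => l x = c)).biUnion (fun x => W i ∩ nbr G x)).card :=
        Finset.card_le_card hsub
    _ ≤ ((D ∪ E ∪ Hx).filter (fun x => l x = c)).card * 1 := by
        refine Finset.card_biUnion_le_card_mul _ _ _ fun x hx => ?_
        have hxi : i ≠ x := by
          rintro rfl
          exact hc (Finset.mem_filter.1 hx).2.symm
        exact (Finset.card_le_card (Finset.inter_subset_inter_right (hR.sub i hi))).trans
          (hR.c4.card_le_one hxi)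
    _ ≤ 2 := by rw [mul_one]; exact hX

open Classical in
/-- the missing pairs -/
noncomputable def g4M (G : SimpleGraph V) (I : Finset V) (W : V → Finset V) (P : Finset C)
    (Q : Finset V) (φ l : V → C) : Finset (V × C) :=
  (I ×ˢ P).filter (fun a => a.2 ≠ l a.1 ∧ ¬ ∃ v ∈ W a.1, φ v = a.2 ∧ ¬ Lost G Q φ l v)

open Classical in
/-- the candidates -/
noncomputable def g4A (G : SimpleGraph V) (I : Finset V) (W : V → Finset V) (P : Finset C)
    (Q : Finset V) (φ l : V → C) (a : V × C) : Finset V :=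
  (W a.1).filter (fun v => (φ v ∉ P ∧ ∀ w ∈ items I W, G.Adj v w → φ w ≠ a.2) ∧
    ∀ x ∈ Q, G.Adj v x → l x ≠ a.2)

theorem mem_g4M {Q : Finset V} {a : V × C} : a ∈ g4M G I W P Q φ l ↔
    a.1 ∈ I ∧ a.2 ∈ P ∧ a.2 ≠ l a.1 ∧ ¬ ∃ v ∈ W a.1, φ v = a.2 ∧ ¬ Lost G Q φ l v := by
  classical
  unfold g4M
  rw [Finset.mem_filter, Finset.mem_product, and_assoc]

theorem mem_g4A {Q : Finset V} {a : V × C} {v : V} : v ∈ g4A G I W P Q φ l a ↔
    v ∈ W a.1 ∧ (φ v ∉ P ∧ ∀ w ∈ items I W, G.Adj v w → φ w ≠ a.2) ∧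
      ∀ x ∈ Q, G.Adj v x → l x ≠ a.2 := by
  classical
  unfold g4A
  rw [Finset.mem_filter]

open Classical in
theorem g4_A_card (hR : RowSys G m T δ I W) (hL : Lab G D E Hx P l) {b : ℝ}
    (hcand : ∀ i ∈ I, ∀ c, b ≤
      ((W i).filter (fun v => φ v ∉ P ∧ ∀ w ∈ items I W, G.Adj v w → φ w ≠ c)).card)
    {a : V × C} (ha : a ∈ g4M G I W P (D ∪ E ∪ Hx) φ l) :
    b ≤ ((g4A G I W P (D ∪ E ∪ Hx) φ l a).card : ℝ) + 2 := by
  obtain ⟨hi, _, hc, _⟩ := mem_g4M.1 ha
  have h1 := hcand a.1 hi a.2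
  have h2 := g4_lab (c := a.2) hR hL hi hc
  have h3 : (W a.1).filter (fun v => φ v ∉ P ∧ ∀ w ∈ items I W, G.Adj v w → φ w ≠ a.2) ⊆
      g4A G I W P (D ∪ E ∪ Hx) φ l a ∪
        (W a.1).filter (fun v => ∃ x ∈ D ∪ E ∪ Hx, G.Adj v x ∧ l x = a.2) := by
    intro v hv
    rw [Finset.mem_filter] at hv
    rw [Finset.mem_union, mem_g4A, Finset.mem_filter]
    by_cases h : ∃ x ∈ D ∪ E ∪ Hx, G.Adj v x ∧ l x = a.2
    · exact Or.inr ⟨hv.1, h⟩
    · left
      refine ⟨hv.1, hv.2, fun x hx hvx hlx => h ⟨x, hx, hvx, hlx⟩⟩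
  have h4 := (Finset.card_le_card h3).trans (Finset.card_union_le _ _)
  have h5 : (((W a.1).filter (fun v => φ v ∉ P ∧ ∀ w ∈ items I W, G.Adj v w → φ w ≠ a.2)).card
      : ℝ) ≤ ((g4A G I W P (D ∪ E ∪ Hx) φ l a).card : ℝ) + 2 := by
    exact_mod_cast h4.trans (Nat.add_le_add_left h2 _)
  exact h1.trans h5

open Classical in
/-- the missing pairs with a colour in a set -/
theorem g4_col_card {Q : Finset V} {r : ℝ}
    (hcol : ∀ c ∈ P, ((I.filter (fun i => ¬ ∃ v ∈ W i, φ v = c ∧ ¬ Lost G Q φ l v)).card : ℝ) ≤ r)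
    (R : Finset C) (hRP : R ⊆ P) :
    (((g4M G I W P Q φ l).filter (fun a => a.2 ∈ R)).card : ℝ) ≤ R.card * r := by
  have h1 : (g4M G I W P Q φ l).filter (fun a => a.2 ∈ R) ⊆
      R.biUnion (fun c => (I.filter (fun i => ¬ ∃ v ∈ W i, φ v = c ∧ ¬ Lost G Q φ l v)).image
        (fun i => (i, c))) := by
    intro a ha
    rw [Finset.mem_filter, mem_g4M] at ha
    obtain ⟨⟨h1, _, _, h4⟩, h5⟩ := ha
    rw [Finset.mem_biUnion]
    refine ⟨a.2, h5, ?_⟩
    rw [Finset.mem_image]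
    exact ⟨a.1, Finset.mem_filter.2 ⟨h1, h4⟩, rfl⟩
  have h2 : (((g4M G I W P Q φ l).filter (fun a => a.2 ∈ R)).card : ℝ) ≤
      ((∑ c ∈ R, (I.filter (fun i => ¬ ∃ v ∈ W i, φ v = c ∧ ¬ Lost G Q φ l v)).card : ℕ) : ℝ) := by
    have h3 := (Finset.card_le_card h1).trans (Finset.card_biUnion_le)
    have h4 : ∑ c ∈ R, ((I.filter (fun i => ¬ ∃ v ∈ W i, φ v = c ∧ ¬ Lost G Q φ l v)).image
        (fun i => (i, c))).card ≤
        ∑ c ∈ R, (I.filter (fun i => ¬ ∃ v ∈ W i, φ v = c ∧ ¬ Lost G Q φ l v)).card :=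
      Finset.sum_le_sum fun c _ => Finset.card_image_le
    exact_mod_cast h3.trans h4
  refine h2.trans ?_
  rw [Nat.cast_sum, ← nsmul_eq_mul, ← Finset.sum_const]
  exact Finset.sum_le_sum fun c hc => hcol c (hRP hc)

open Classical in
theorem g4_row_card {Q : Finset V} {r : ℝ}
    (hrow : ∀ i ∈ I, ((P.filter (fun c => ¬ ∃ v ∈ W i, φ v = c ∧ ¬ Lost G Q φ l v)).card : ℝ) ≤ r)
    {i : V} (hi : i ∈ I) :
    (((g4M G I W P Q φ l).filter (fun a => a.1 = i)).card : ℝ) ≤ r := by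
  refine le_trans ?_ (hrow i hi)
  have h1 : (g4M G I W P Q φ l).filter (fun a => a.1 = i) ⊆
      (P.filter (fun c => ¬ ∃ v ∈ W i, φ v = c ∧ ¬ Lost G Q φ l v)).image (fun c => (i, c)) := by
    intro a ha
    rw [Finset.mem_filter, mem_g4M] at ha
    obtain ⟨⟨_, h2, _, h4⟩, h5⟩ := ha
    rw [Finset.mem_image]
    refine ⟨a.2, Finset.mem_filter.2 ⟨h2, ?_⟩, ?_⟩
    · rw [← h5]
      exact h4
    · rw [← h5]
  exact_mod_cast (Finset.card_le_card h1).trans Finset.card_image_le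

open Classical in
theorem g4_M_card {Q : Finset V} {r : ℝ}
    (hrow : ∀ i ∈ I, ((P.filter (fun c => ¬ ∃ v ∈ W i, φ v = c ∧ ¬ Lost G Q φ l v)).card : ℝ) ≤ r) :
    ((g4M G I W P Q φ l).card : ℝ) ≤ I.card * r := by
  have h1 : g4M G I W P Q φ l ⊆
      I.biUnion (fun i => (g4M G I W P Q φ l).filter (fun a => a.1 = i)) := by
    intro a ha
    rw [Finset.mem_biUnion]
    exact ⟨a.1, (mem_g4M.1 ha).1, Finset.mem_filter.2 ⟨ha, rfl⟩⟩
  have h2 : ((g4M G I W P Q φ l).card : ℝ) ≤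
      ((∑ i ∈ I, ((g4M G I W P Q φ l).filter (fun a => a.1 = i)).card : ℕ) : ℝ) := by
    exact_mod_cast (Finset.card_le_card h1).trans Finset.card_biUnion_le
  refine h2.trans ?_
  rw [Nat.cast_sum, ← nsmul_eq_mul, ← Finset.sum_const]
  exact Finset.sum_le_sum fun i hi => g4_row_card hrow hi

open Classical in
/-- the vertices outside `Q` with a neighbour in a row -/
theorem g4_Y_card (hR : RowSys G m T δ I W) (hI : I.card ≤ m) (Q : Finset V) :
    (Finset.univ.filter (fun y => y ∉ Q ∧ ∃ v ∈ items I W, G.Adj y v)).card ≤ m * m * m := by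
  have h1 : Finset.univ.filter (fun y => y ∉ Q ∧ ∃ v ∈ items I W, G.Adj y v) ⊆
      (items I W).biUnion (fun v => nbr G v) := by
    intro y hy
    rw [Finset.mem_filter] at hy
    obtain ⟨_, _, v, hv, hyv⟩ := hy
    exact Finset.mem_biUnion.2 ⟨v, hv, mem_nbr.2 hyv.symm⟩
  have hit : (items I W).card ≤ m * m := by
    have h2 : items I W = I.biUnion W := by
      unfold items
      convert rfl
    rw [h2]
    exact (Finset.card_biUnion_le_card_mul _ _ _ fun i hi => hR.le i hi).trans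
      (Nat.mul_le_mul_right _ hI)
  refine (Finset.card_le_card h1).trans ?_
  refine (Finset.card_biUnion_le_card_mul _ _ m fun v hv => ?_).trans (Nat.mul_le_mul_right _ hit)
  unfold items at hv
  rw [Finset.mem_biUnion] at hv
  obtain ⟨i, hi, hv⟩ := hv
  exact hR.deg i hi v hv

end pieces

open Classical in
theorem complete (ε β δ : ℝ) (hε0 : 0 < ε) (hε1 : ε ≤ 1 / 4) (hβ0 : 0 < β)
    (hβ : β ≤ ε ^ 4 / 10 ^ 5) (hδ0 : 0 < δ) (hδ1 : δ ≤ β / 32) (T : ℕ) :
    ∃ m₀ : ℕ, ∀ m : ℕ, m₀ ≤ m → ∀ (V C : Type) [Fintype V] (G : SimpleGraph V)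
      (D E Hx I : Finset V) (W : V → Finset V) (φ l : V → C) (P : Finset C),
      RowSys G m T δ I W → I ⊆ D → I.card ≤ m → (∀ i ∈ I, Disjoint (W i) (D ∪ E ∪ Hx)) →
      RowCol G I W φ → Lab G D E Hx P l → (P.card : ℝ) ≤ 2 * m →
      -- rows and columns
      (∀ i ∈ I, ((P.filter (fun c => ¬ ∃ v ∈ W i, φ v = c ∧ ¬ Lost G (D ∪ E ∪ Hx) φ l v)).card
        : ℝ) ≤ β * m) →
      (∀ c ∈ P, ((I.filter (fun i => ¬ ∃ v ∈ W i, φ v = c ∧ ¬ Lost G (D ∪ E ∪ Hx) φ l v)).card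
        : ℝ) ≤ β * m) →
      -- candidates
      (∀ i ∈ I, ∀ c, ε ^ 2 * m / 4 ≤
          ((W i).filter (fun v => φ v ∉ P ∧ ∀ w ∈ items I W, G.Adj v w → φ w ≠ c)).card) →
      -- the other vertices miss many colours
      (∀ y, y ∉ D ∪ E ∪ Hx → δ * m / 4 ≤ ((P \ seen G I W P (D ∪ E ∪ Hx) φ l y).card : ℝ)) →
      -- a choice of vertices for the missing pairs
      ∃ u : V × C → V,
        (∀ i ∈ I, ∀ c ∈ P, c ≠ l i → (¬ ∃ v ∈ W i, φ v = c ∧ ¬ Lost G (D ∪ E ∪ Hx) φ l v) →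
          u (i, c) ∈ W i ∧ φ (u (i, c)) ∉ P ∧ (∀ w ∈ items I W, G.Adj (u (i, c)) w → φ w ≠ c) ∧
          (∀ x ∈ D ∪ E ∪ Hx, G.Adj (u (i, c)) x → l x ≠ c) ∧
          ∀ j ∈ I, ∀ c' ∈ P, c' ≠ l j →
            (¬ ∃ v ∈ W j, φ v = c' ∧ ¬ Lost G (D ∪ E ∪ Hx) φ l v) →
            (u (i, c) = u (j, c') → i = j ∧ c = c') ∧
            (c = c' → ¬ G.Adj (u (i, c)) (u (j, c')))) ∧
        ∀ y, y ∉ D ∪ E ∪ Hx → δ * m / 8 ≤
          (((P \ seen G I W P (D ∪ E ∪ Hx) φ l y).filter (fun c => ∀ i ∈ I, c ≠ l i →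
            (¬ ∃ v ∈ W i, φ v = c ∧ ¬ Lost G (D ∪ E ∪ Hx) φ l v) →
              ¬ G.Adj y (u (i, c)))).card : ℝ) := by
  obtain ⟨m₁, hm₁⟩ := g4_large (ε ^ 2 / 64) (by positivity) 1
  obtain ⟨m₂, hm₂⟩ := g4_large (δ / 16) (by positivity) 3
  refine ⟨max (max m₁ m₂) (⌈16 / ε ^ 2⌉₊ + 1), ?_⟩
  intro m hm V C _ G D E Hx I W φ l P hR hID hI hdis hφ hL hP hrow hcol hcand hmiss
  have hmm₁ : m₁ ≤ m := (le_max_left _ _).trans ((le_max_left _ _).trans hm)
  have hmm₂ : m₂ ≤ m := (le_max_right _ _).trans ((le_max_left _ _).trans hm)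
  have hmm₃ : ⌈16 / ε ^ 2⌉₊ + 1 ≤ m := (le_max_right _ _).trans hm
  have hm1 : (1 : ℝ) ≤ m := by
    have : 1 ≤ m := by omega
    exact_mod_cast this
  have hε2 : 0 < ε ^ 2 := by positivity
  have hm16 : 16 ≤ ε ^ 2 * m := by
    have h1 : 16 / ε ^ 2 ≤ ⌈16 / ε ^ 2⌉₊ := Nat.le_ceil _
    have h2 : ((⌈16 / ε ^ 2⌉₊ + 1 : ℕ) : ℝ) ≤ m := by exact_mod_cast hmm₃
    push_cast at h2
    have h3 : 16 / ε ^ 2 ≤ m := by linarith
    rw [div_le_iff₀ hε2] at h3
    linarith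
  have hε24 : ε ^ 4 ≤ ε ^ 2 / 16 := by
    have : ε ^ 2 ≤ 1 / 16 := by nlinarith
    nlinarith
  have hβ2 : 32 * β ≤ ε ^ 2 / 64 := by
    have : (0 : ℝ) < 10 ^ 5 := by norm_num
    have h2 : β ≤ ε ^ 2 / 16 / 10 ^ 5 := hβ.trans (div_le_div_of_nonneg_right hε24 this.le)
    nlinarith
  have hβ4 : 32 * β ≤ ε ^ 2 * (ε ^ 2 / 64) := by
    have h2 : (0 : ℝ) ≤ ε ^ 4 := by positivity
    nlinarith
  set Q := D ∪ E ∪ Hx with hQ
  have hIQ : ∀ i ∈ I, i ∈ Q := fun i hi =>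
    Finset.mem_union_left _ (Finset.mem_union_left _ (hID hi))
  set s : ℝ := ε ^ 2 * m / 8 with hs
  have hs0 : 0 < s := by positivity
  set M := g4M G I W P Q φ l with hM
  set A := g4A G I W P Q φ l with hA
  set Y : Finset V := Finset.univ.filter (fun y => y ∉ Q ∧ ∃ v ∈ items I W, G.Adj y v) with hY
  set Ty : V → Finset (V × C) := fun y => M.filter (fun a => a.2 ∈ P \ seen G I W P Q φ l y)
    with hTy
  have hrowsub : ∀ i ∈ I, ∀ j ∈ I, i ≠ j → (W i ∩ W j).card ≤ 1 := by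
    intro i hi j hj hij
    exact (Finset.card_le_card (Finset.inter_subset_inter (hR.sub i hi) (hR.sub j hj))).trans
      (hR.c4.card_le_one hij)
  have hIm : (I.card : ℝ) ≤ m := by exact_mod_cast hI
  have hbm : 0 ≤ β * m := by positivity
  have key := completion M A W G.Adj (fun _ _ h => h.symm) (fun _ => G.irrefl) s (β * m) hs0
    (by rw [hs]; nlinarith) (fun a _ => Finset.filter_subset _ _) ?_ ?_ ?_ ?_ ?_ Y Ty
    (fun y => nbr G y) (fun y => ((P \ seen G I W P Q φ l y).card : ℝ) / 2) ?_ ?_ ?_ ?_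
  · obtain ⟨u, hu1, hu2, hu3, hu4⟩ := key
    refine ⟨u, ?_, ?_⟩
    · intro i hi c hc hcl hmis
      have hiM : (i, c) ∈ M := mem_g4M.2 ⟨hi, hc, hcl, hmis⟩
      obtain ⟨h1, ⟨h2, h3⟩, h4⟩ := mem_g4A.1 (hu1 _ hiM)
      refine ⟨h1, h2, h3, h4, ?_⟩
      intro j hj c' hc' hcl' hmis'
      have hjM : (j, c') ∈ M := mem_g4M.2 ⟨hj, hc', hcl', hmis'⟩
      refine ⟨fun h => ?_, fun h => ?_⟩
      · have := hu2 _ hiM _ hjM h
        exact Prod.ext_iff.1 this
      · exact hu3 _ hiM _ hjM h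
    · intro y hy
      have hmy := hmiss y hy
      set R := P \ seen G I W P Q φ l y with hRdef
      by_cases hyY : ∃ v ∈ items I W, G.Adj y v
      · have hyY' : y ∈ Y := Finset.mem_filter.2 ⟨Finset.mem_univ _, hy, hyY⟩
        have h1 := hu4 y hyY'
        have h2 : R ⊆ (R.filter (fun c => ∀ i ∈ I, c ≠ l i →
            (¬ ∃ v ∈ W i, φ v = c ∧ ¬ Lost G Q φ l v) → ¬ G.Adj y (u (i, c)))) ∪
            ((Ty y).filter (fun a => u a ∈ nbr G y)).image Prod.snd := by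
          intro c hc
          rw [Finset.mem_union, Finset.mem_filter, Finset.mem_image]
          by_cases h : ∀ i ∈ I, c ≠ l i →
            (¬ ∃ v ∈ W i, φ v = c ∧ ¬ Lost G Q φ l v) → ¬ G.Adj y (u (i, c))
          · exact Or.inl ⟨hc, h⟩
          · right
            push Not at h
            obtain ⟨i, hi, hcl, hmis, hadj⟩ := h
            have hcP : c ∈ P := (Finset.mem_sdiff.1 hc).1
            refine ⟨(i, c), ?_, rfl⟩
            rw [Finset.mem_filter, hTy, Finset.mem_filter]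
            refine ⟨⟨mem_g4M.2 ⟨hi, hcP, hcl, ?_⟩, hc⟩, mem_nbr.2 hadj⟩
            push Not
            exact hmis
        have h3 := (Finset.card_le_card h2).trans (Finset.card_union_le _ _)
        have h4 : (((Ty y).filter (fun a => u a ∈ nbr G y)).image Prod.snd).card ≤
          ((Ty y).filter (fun a => u a ∈ nbr G y)).card := Finset.card_image_le
        have h5 : (R.card : ℝ) ≤ ((R.filter (fun c => ∀ i ∈ I, c ≠ l i →
            (¬ ∃ v ∈ W i, φ v = c ∧ ¬ Lost G Q φ l v) → ¬ G.Adj y (u (i, c)))).card : ℝ) +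
            (((Ty y).filter (fun a => u a ∈ nbr G y)).card : ℝ) := by
          exact_mod_cast h3.trans (Nat.add_le_add_left h4 _)
        linarith
      · have h1 : R.filter (fun c => ∀ i ∈ I, c ≠ l i →
            (¬ ∃ v ∈ W i, φ v = c ∧ ¬ Lost G Q φ l v) → ¬ G.Adj y (u (i, c))) = R := by
          apply Finset.filter_true_of_mem
          intro c hc i hi hcl hmis hadj
          have hcP : c ∈ P := (Finset.mem_sdiff.1 hc).1
          have hiM : (i, c) ∈ M := mem_g4M.2 ⟨hi, hcP, hcl, hmis⟩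
          obtain ⟨h1, _⟩ := mem_g4A.1 (hu1 _ hiM)
          refine hyY ⟨u (i, c), ?_, hadj⟩
          unfold items
          exact Finset.mem_biUnion.2 ⟨i, hi, h1⟩
        rw [h1]
        have : 0 ≤ δ * m := by positivity
        linarith
  · intro a ha
    have := g4_A_card hR hL hcand ha
    rw [hs]
    linarith
  · intro a ha
    exact g4_row_card hrow (mem_g4M.1 ha).1
  · intro a ha
    have h1 := g4_col_card (r := β * m) hcol {a.2} (by
      rw [Finset.singleton_subset_iff]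
      exact (mem_g4M.1 ha).2.1)
    rw [Finset.card_singleton, Nat.cast_one, one_mul] at h1
    simpa using h1
  · intro a ha b hb hab
    exact hrowsub _ (mem_g4M.1 ha).1 _ (mem_g4M.1 hb).1 hab
  · intro a ha b hb v hv
    have hva : v ≠ a.1 := by
      rintro rfl
      exact Finset.disjoint_left.1 (hR.disj b.1 (mem_g4M.1 hb).1) (mem_g4A.1 hv).1
        (mem_g4M.1 ha).1
    refine (Finset.card_le_card ?_).trans (hR.c4.card_le_one hva)
    intro w hw
    rw [Finset.mem_filter] at hw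
    exact Finset.mem_inter.2 ⟨mem_nbr.2 hw.2,
      hR.sub _ (mem_g4M.1 ha).1 (mem_g4A.1 hw.1).1⟩
  · intro y _
    exact Finset.filter_subset _ _
  · intro y hy a ha
    have haM := (Finset.mem_filter.1 ha).1
    have hya : a.1 ≠ y := by
      rintro rfl
      exact (Finset.mem_filter.1 hy).2.1 (hIQ _ (mem_g4M.1 haM).1)
    refine (Finset.card_le_card ?_).trans (hR.c4.card_le_one hya)
    intro w hw
    rw [Finset.mem_inter] at hw
    exact Finset.mem_inter.2 ⟨hR.sub _ (mem_g4M.1 haM).1 (mem_g4A.1 hw.1).1, hw.2⟩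
  · have h1 : ((M.image Prod.fst).card : ℝ) ≤ m := by
      refine le_trans ?_ hIm
      have : M.image Prod.fst ⊆ I := by
        intro i hi
        obtain ⟨a, ha, rfl⟩ := Finset.mem_image.1 hi
        exact (mem_g4M.1 ha).1
      exact_mod_cast Finset.card_le_card this
    have h2 : (M.card : ℝ) ≤ m * (β * m) :=
      (g4_M_card hrow).trans (mul_le_mul_of_nonneg_right hIm hbm)
    have h3 : 4 * (M.card : ℝ) / s - s / 4 ≤ -(ε ^ 2 / 64 * m) := by
      have h4 : 4 * (M.card : ℝ) / s ≤ ε ^ 2 / 64 * m := by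
        rw [div_le_iff₀ hs0, hs]
        have h5 : 32 * β * (m * m) ≤ ε ^ 2 * (ε ^ 2 / 64) * (m * m) :=
          mul_le_mul_of_nonneg_right hβ4 (by positivity)
        nlinarith
      have h5 : s / 4 = 2 * (ε ^ 2 / 64 * m) := by
        rw [hs]
        ring
      linarith
    refine le_trans (mul_le_mul h1 (Real.exp_le_exp.2 h3) (Real.exp_pos _).le
      (by positivity)) ?_
    have := hm₁ m hmm₁
    rwa [pow_one] at this
  · have h1 : ∀ y ∈ Y, Real.exp (4 * ((Ty y).card : ℝ) / s -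
        ((P \ seen G I W P Q φ l y).card : ℝ) / 2) ≤ Real.exp (-(δ / 16 * m)) := by
      intro y hy
      apply Real.exp_le_exp.2
      have hmy := hmiss y (Finset.mem_filter.1 hy).2.1
      have h2 := g4_col_card (r := β * m) hcol (P \ seen G I W P Q φ l y) Finset.sdiff_subset
      set R : ℝ := ((P \ seen G I W P Q φ l y).card : ℝ) with hRdef
      have hR0 : 0 ≤ R := Nat.cast_nonneg _
      have h3 : 4 * ((Ty y).card : ℝ) / s ≤ R / 4 := by
        rw [div_le_iff₀ hs0, hs]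
        have h4 : ((Ty y).card : ℝ) ≤ R * (β * m) := h2
        have h5 : 32 * β * (R * m) ≤ ε ^ 2 / 64 * (R * m) :=
          mul_le_mul_of_nonneg_right hβ2 (by positivity)
        have h6 : 0 ≤ ε ^ 2 * (R * m) := by positivity
        nlinarith
      linarith
    refine (Finset.sum_le_sum h1).trans ?_
    rw [Finset.sum_const, nsmul_eq_mul]
    have h2 : (Y.card : ℝ) ≤ (m : ℝ) ^ 3 := by
      have := g4_Y_card hR hI Q
      have h3 : (Y.card : ℝ) ≤ ((m * m * m : ℕ) : ℝ) := by exact_mod_cast this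
      refine h3.trans (le_of_eq ?_)
      push_cast
      ring
    exact (mul_le_mul_of_nonneg_right h2 (Real.exp_pos _).le).trans (hm₂ m hmm₂)

end Pool.Agent.Helper95.BC
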