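import Pool.Agent.Helper95.BC.Defs
import Pool.Agent.Helper95.BC.Eng1

/-!
# Colouring from short lists
-/

set_option autoImplicit false

namespace Pool.Agent.Helper95.BC

open Finset

/-- The statement of the engine. -/
def Core : Prop :=
  ∀ (k q : ℕ), 1 ≤ k → 1 ≤ q → ∀ (g K : ℝ), 0 < g → g ≤ 1 / 2 → 1 ≤ K →
    ∃ D₀ : ℕ, ∀ D, D₀ ≤ D → ∀ (X V C : Type) [Fintype X] [DecidableEq X] [Fintype C]
      [DecidableEq C] (T : Sys X V) (H : Finset X) (p : X → C → ℝ),
      Good T k q (k + q) D K (1 - g) H p → HasCol T H p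

open Classical in
/-- Colouring from short lists (from the engine). -/
theorem kim_of (core : Core) (δ : ℝ) (hδ : 0 < δ) :
    ∃ m₀ : ℕ, ∀ m : ℕ, m₀ ≤ m → ∀ (V C : Type) [Fintype V] [Fintype C] [DecidableEq C]
      [Nonempty C] (G : SimpleGraph V) (Y : Finset V) (L : V → Finset C), C4Free G →
      (∀ y ∈ Y, (nbr G y).card ≤ m ∧ δ * m ≤ (L y).card ∧ (L y).card ≤ 2 * m) →
      ∃ φ : V → C, (∀ y ∈ Y, φ y ∈ L y) ∧
        ∀ x ∈ Y, ∀ y ∈ Y, G.Adj x y → φ x ≠ φ y := by
  set K : ℝ := 1 / δ + 1 with hK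
  have hδ' : 0 < 1 / δ := by positivity
  have hK1 : 1 ≤ K := by linarith
  obtain ⟨q, hq⟩ := exists_nat_ge (2 * K)
  have hq1 : 1 ≤ q := by
    have : (1 : ℝ) ≤ q := by linarith
    exact_mod_cast this
  obtain ⟨D₀, hD₀⟩ := core 1 q le_rfl hq1 (1 / 2) K (by norm_num) le_rfl hK1
  obtain ⟨D₁, hD₁⟩ := exists_nat_ge (2 * K)
  refine ⟨max D₀ D₁, fun m hm V C _ _ _ _ G Y L hC4 hL => ?_⟩
  have hm0 : D₀ ≤ m := (le_max_left _ _).trans hm
  have hm1 : 2 * K ≤ m := hD₁.trans (by exact_mod_cast (le_max_right _ _).trans hm)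
  have hmp : (0 : ℝ) < m := by linarith
  have hmn : 1 ≤ m := by
    have : (1 : ℝ) ≤ m := by linarith
    exact_mod_cast this
  let T : Sys V V := ⟨fun v => {v}, G.Adj⟩
  let p : V → C → ℝ := fun v c => if c ∈ L v then 1 / ((L v).card : ℝ) else 0
  have hcard : ∀ y ∈ Y, (0 : ℝ) < (L y).card := fun y hy => by
    have := (hL y hy).2.1
    have h2 : 0 < δ * m := by positivity
    linarith
  have hp0 : ∀ v c, 0 ≤ p v c := by
    intro v c
    simp only [p]
    split_ifs
    · positivity
    · exact le_rfl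
  have hple : ∀ y ∈ Y, ∀ c, p y c ≤ K / m := by
    intro y hy c
    have h1 : (0 : ℝ) ≤ K / m := by positivity
    simp only [p]
    split_ifs
    · have h2 := (hL y hy).2.1
      have h3 : 1 / ((L y).card : ℝ) ≤ 1 / (δ * m) :=
        one_div_le_one_div_of_le (by positivity) h2
      have h4 : 1 / (δ * m) = (1 / δ) / m := by
        rw [one_div, one_div, mul_inv, div_eq_mul_inv]
      rw [h4] at h3
      refine h3.trans ?_
      apply div_le_div_of_nonneg_right _ hmp.le
      linarith
    · exact h1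
  have hatt : ∀ v, (att T Y v).card ≤ 1 := by
    intro v
    have : att T Y v ⊆ {v} := by
      intro e he
      rw [mem_att] at he
      have h1 : v ∈ ({e} : Finset V) := he.2
      rw [Finset.mem_singleton] at h1 ⊢
      exact h1.symm
    exact (Finset.card_le_card this).trans (Finset.card_singleton v).le
  have hnr : ∀ e, nr T Y e ⊆ nbr G e := by
    intro e f hf
    rw [mem_nr] at hf
    rw [mem_nbr]
    exact hf.2
  have hnrY : ∀ e, nr T Y e ⊆ Y := by
    intro e f hf
    rw [mem_nr] at hf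
    exact hf.1
  have hattY : ∀ e, att T Y e ⊆ Y := by
    intro e f hf
    rw [mem_att] at hf
    exact hf.1
  have hgood : Good T 1 q (1 + q) m K (1 - 1 / 2) Y p := by
    refine ⟨hq1, le_rfl, fun e f h => SimpleGraph.Adj.symm h, fun e h => G.ne_of_adj h rfl, ?_, ?_, ?_, ?_,
      ?_, ?_, ?_, ?_, hple, ?_, ?_, ?_, ?_⟩
    · intro e _ f _ _
      exact (Finset.card_le_card Finset.inter_subset_left).trans (Finset.card_singleton e).le
    · intro e _
      exact (Finset.card_singleton e).le
    · intro e _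
      exact Finset.singleton_nonempty e
    · intro v
      exact (hatt v).trans hmn
    · intro e he
      exact (Finset.card_le_card (hnr e)).trans (hL e he).1
    · intro e _ v
      exact (Finset.card_le_card Finset.inter_subset_left).trans (hatt v)
    · intro e _ f _ hef
      exact (Finset.card_le_card (Finset.inter_subset_inter (hnr e) (hnr f))).trans
        (hC4.card_le_one hef)
    · intro e _ c
      exact hp0 e c
    · intro e he
      simp only [p]
      rw [Finset.sum_ite_mem, Finset.univ_inter, Finset.sum_const, nsmul_eq_mul]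
      exact mul_one_div_cancel (hcard e he).ne'
    · intro e he
      refine (Finset.card_le_card ?_).trans (hL e he).2.2
      intro c hc
      by_contra hcL
      have := (Finset.mem_filter.1 hc).2
      exact this (if_neg hcL)
    · intro v c
      have h1 : ∑ e ∈ att T Y v, p e c ≤ ∑ e ∈ att T Y v, K / m :=
        Finset.sum_le_sum fun e he => hple e (hattY v he) c
      rw [Finset.sum_const, nsmul_eq_mul] at h1
      have h2 : ((att T Y v).card : ℝ) ≤ 1 := by exact_mod_cast hatt v
      have h3 : K / m ≤ 1 / 2 := by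
        rw [div_le_iff₀ hmp]
        linarith
      have h4 : 0 ≤ K / m := by positivity
      nlinarith
    · intro e he c
      have h1 : ∑ f ∈ nr T Y e, p f c ≤ ∑ f ∈ nr T Y e, K / m :=
        Finset.sum_le_sum fun f hf => hple f (hnrY e hf) c
      rw [Finset.sum_const, nsmul_eq_mul] at h1
      have h2 : ((nr T Y e).card : ℝ) ≤ m := by
        exact_mod_cast (Finset.card_le_card (hnr e)).trans (hL e he).1
      have h3 : ((nr T Y e).card : ℝ) * (K / m) ≤ m * (K / m) :=
        mul_le_mul_of_nonneg_right h2 (by positivity)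
      have h4 : (m : ℝ) * (K / m) = K := mul_div_cancel₀ K hmp.ne'
      linarith
  obtain ⟨ω, hω⟩ := hD₀ m hm0 V V C T Y p hgood
  refine ⟨fun v => (ω v).getD (Classical.arbitrary C), fun y hy => ?_, fun x hx y hy hxy => ?_⟩
  · obtain ⟨c, hc, hcl⟩ := hω y hy
    show (ω y).getD _ ∈ L y
    rw [hcl.1]
    by_contra hcL
    exact hc (if_neg hcL)
  · obtain ⟨c, hc, hcl⟩ := hω x hx
    obtain ⟨d, hd, hdl⟩ := hω y hy
    show (ω x).getD _ ≠ (ω y).getD _
    rw [hcl.1, hdl.1]
    show c ≠ d
    rintro rfl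
    refine hcl.2 y ?_ hdl.1
    rw [mem_nb]
    exact ⟨hy, (G.ne_of_adj hxy).symm, Or.inr hxy⟩

end Pool.Agent.Helper95.BC
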