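import Pool.Agent.Helper95.BC.Sys
import Pool.Agent.Helper95.BC.K
import Pool.Agent.Helper95.BC.A

/-!
# The final colouring
-/

set_option autoImplicit false
set_option linter.unusedSectionVars false

namespace Pool.Agent.Helper95.BC

section types

variable {V C : Type} [Fintype V]

/-- the missing pairs -/
def G5task (G : SimpleGraph V) (I : Finset V) (W : V → Finset V) (P : Finset C) (Q : Finset V)
    (φ l : V → C) (i : V) (c : C) : Prop :=
  i ∈ I ∧ c ∈ P ∧ c ≠ l i ∧ ¬ ∃ v ∈ W i, φ v = c ∧ ¬ Lost G Q φ l v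

/-- `v` has the colour `c` before the last step -/
def G5R (G : SimpleGraph V) (I : Finset V) (W : V → Finset V) (P : Finset C) (Q : Finset V)
    (φ l : V → C) (u : V × C → V) (v : V) (c : C) : Prop :=
  (v ∈ Q ∧ l v = c) ∨ (∃ i, G5task G I W P Q φ l i c ∧ u (i, c) = v) ∨
    (v ∈ items I W ∧ φ v = c ∧ c ∈ P ∧ ¬ Lost G Q φ l v)

end types

open Classical in
theorem finish (core : Core) (δ : ℝ) (hδ0 : 0 < δ) :
    ∃ m₀ : ℕ, ∀ m : ℕ, m₀ ≤ m → ∀ (V C : Type) [Fintype V] [Fintype C] (G : SimpleGraph V)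
      (D E Hx I : Finset V) (W : V → Finset V) (φ l : V → C) (P : Finset C) (u : V × C → V),
      C4Free G → I ⊆ D → (∀ i ∈ I, W i ⊆ nbr G i ∧ Disjoint (W i) (D ∪ E ∪ Hx)) →
      RowCol G I W φ → Lab G D E Hx P l → (P.card : ℝ) ≤ 2 * m →
      (∀ y, y ∉ D ∪ E ∪ Hx → (nbr G y).card ≤ m) →
      (∀ i ∈ I, ∀ c ∈ P, c ≠ l i → (¬ ∃ v ∈ W i, φ v = c ∧ ¬ Lost G (D ∪ E ∪ Hx) φ l v) →
          u (i, c) ∈ W i ∧ φ (u (i, c)) ∉ P ∧ (∀ w ∈ items I W, G.Adj (u (i, c)) w → φ w ≠ c) ∧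
          (∀ x ∈ D ∪ E ∪ Hx, G.Adj (u (i, c)) x → l x ≠ c) ∧
          ∀ j ∈ I, ∀ c' ∈ P, c' ≠ l j →
            (¬ ∃ v ∈ W j, φ v = c' ∧ ¬ Lost G (D ∪ E ∪ Hx) φ l v) →
            (u (i, c) = u (j, c') → i = j ∧ c = c') ∧
            (c = c' → ¬ G.Adj (u (i, c)) (u (j, c')))) →
      (∀ y, y ∉ D ∪ E ∪ Hx → δ * m / 8 ≤
          (((P \ seen G I W P (D ∪ E ∪ Hx) φ l y).filter (fun c => ∀ i ∈ I, c ≠ l i →
            (¬ ∃ v ∈ W i, φ v = c ∧ ¬ Lost G (D ∪ E ∪ Hx) φ l v) →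
              ¬ G.Adj y (u (i, c)))).card : ℝ)) →
      I.card ≤ bChrom G := by
  obtain ⟨m₀, hm₀⟩ := kim_of core (δ / 8) (by positivity)
  refine ⟨m₀, ?_⟩
  intro m hm V C _ _ G D E Hx I W φ l P u hC4 hID hW hφ hL hP hdeg hu hmiss
  rcases I.eq_empty_or_nonempty with hI0 | ⟨i₀, hi₀⟩
  · rw [hI0]
    exact Nat.zero_le _
  have : Nonempty C := ⟨φ i₀⟩
  set Q := D ∪ E ∪ Hx with hQ
  have hIQ : ∀ i ∈ I, i ∈ Q := fun i hi =>
    Finset.mem_union_left _ (Finset.mem_union_left _ (hID hi))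
  have hmemit : ∀ v, v ∈ items I W ↔ ∃ i ∈ I, v ∈ W i := by
    intro v
    unfold items
    exact Finset.mem_biUnion
  have hitQ : ∀ v ∈ items I W, v ∉ Q := by
    intro v hv hvQ
    obtain ⟨i, hi, hv⟩ := (hmemit v).1 hv
    exact Finset.disjoint_left.1 (hW i hi).2 hv hvQ
  set R : V → C → Prop := G5R G I W P Q φ l u with hR
  -- two coloured neighbours
  have hpro : ∀ v w c, R v c → R w c → ¬ G.Adj v w := by
    intro v w c hv hw hvw
    rcases hv with ⟨hvQ, hv⟩ | ⟨i, hi, hv⟩ | ⟨hvi, hv, hvP, hvl⟩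
    · rcases hw with ⟨hwQ, hw⟩ | ⟨j, hj, hw⟩ | ⟨hwi, hw, hwP, hwl⟩
      · exact hL.proper v hvQ w hwQ hvw (hv.trans hw.symm)
      · have := (hu j hj.1 c hj.2.1 hj.2.2.1 hj.2.2.2).2.2.2.1 v hvQ
        rw [hw] at this
        exact this hvw.symm hv
      · exact hwl ⟨v, hvQ, hvw.symm, hv.trans hw.symm⟩
    · rcases hw with ⟨hwQ, hw⟩ | ⟨j, hj, hw⟩ | ⟨hwi, hw, hwP, hwl⟩
      · have := (hu i hi.1 c hi.2.1 hi.2.2.1 hi.2.2.2).2.2.2.1 w hwQ
        rw [hv] at this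
        exact this hvw hw
      · have := ((hu i hi.1 c hi.2.1 hi.2.2.1 hi.2.2.2).2.2.2.2 j hj.1 c hj.2.1 hj.2.2.1
          hj.2.2.2).2 rfl
        rw [hv, hw] at this
        exact this hvw
      · have := (hu i hi.1 c hi.2.1 hi.2.2.1 hi.2.2.2).2.2.1 w hwi
        rw [hv] at this
        exact this hvw hw
    · rcases hw with ⟨hwQ, hw⟩ | ⟨j, hj, hw⟩ | ⟨hwi, hw, hwP, hwl⟩
      · exact hvl ⟨w, hwQ, hvw, hw.trans hv.symm⟩
      · have := (hu j hj.1 c hj.2.1 hj.2.2.1 hj.2.2.2).2.2.1 v hvi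
        rw [hw] at this
        exact this hvw.symm hv
      · exact hφ.proper v hvi w hwi hvw (hv.trans hw.symm)
  -- colours are unique
  have huni : ∀ v c c', R v c → R v c' → c = c' := by
    have huW : ∀ i c, G5task G I W P Q φ l i c → u (i, c) ∈ items I W ∧ φ (u (i, c)) ∉ P := by
      intro i c hi
      have h := hu i hi.1 c hi.2.1 hi.2.2.1 hi.2.2.2
      exact ⟨(hmemit _).2 ⟨i, hi.1, h.1⟩, h.2.1⟩
    intro v c c' hv hw
    rcases hv with ⟨hvQ, hv⟩ | ⟨i, hi, hv⟩ | ⟨hvi, hv, hvP, hvl⟩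
    · rcases hw with ⟨hwQ, hw⟩ | ⟨j, hj, hw⟩ | ⟨hwi, hw, hwP, hwl⟩
      · exact hv.symm.trans hw
      · exact absurd hvQ (hitQ v (hw ▸ (huW j c' hj).1))
      · exact absurd hvQ (hitQ v hwi)
    · rcases hw with ⟨hwQ, hw⟩ | ⟨j, hj, hw⟩ | ⟨hwi, hw, hwP, hwl⟩
      · exact absurd hwQ (hitQ v (hv ▸ (huW i c hi).1))
      · have := ((hu i hi.1 c hi.2.1 hi.2.2.1 hi.2.2.2).2.2.2.2 j hj.1 c' hj.2.1 hj.2.2.1
          hj.2.2.2).1 (hv.trans hw.symm)
        exact this.2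
      · have := (huW i c hi).2
        rw [hv, hw] at this
        exact absurd hwP this
    · rcases hw with ⟨hwQ, hw⟩ | ⟨j, hj, hw⟩ | ⟨hwi, hw, hwP, hwl⟩
      · exact absurd hwQ (hitQ v hvi)
      · have := (huW j c' hj).2
        rw [hw, hv] at this
        exact absurd hvP this
      · exact hv.symm.trans hw
  -- the colours are in P
  have hRP : ∀ v c, R v c → c ∈ P := by
    intro v c hv
    rcases hv with ⟨hvQ, hv⟩ | ⟨i, hi, hv⟩ | ⟨hvi, hv, hvP, hvl⟩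
    · rw [← hv]
      exact hL.mem v hvQ
    · exact hi.2.1
    · exact hvP
  -- the rest
  set Y : Finset V := Finset.univ.filter (fun v => ¬ ∃ c, R v c) with hY
  have hYQ : ∀ y ∈ Y, y ∉ Q := by
    intro y hy hyQ
    exact (Finset.mem_filter.1 hy).2 ⟨l y, Or.inl ⟨hyQ, rfl⟩⟩
  set L : V → Finset C := fun y => (P \ seen G I W P Q φ l y).filter (fun c => ∀ i ∈ I, c ≠ l i →
    (¬ ∃ v ∈ W i, φ v = c ∧ ¬ Lost G Q φ l v) → ¬ G.Adj y (u (i, c))) with hLdef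
  have hLP : ∀ y, L y ⊆ P := fun y =>
    (Finset.filter_subset _ _).trans Finset.sdiff_subset
  have hLR : ∀ y c v, c ∈ L y → R v c → ¬ G.Adj y v := by
    intro y c v hc hv hyv
    rw [hLdef, Finset.mem_filter, Finset.mem_sdiff] at hc
    obtain ⟨⟨hcP, hcs⟩, hcu⟩ := hc
    rcases hv with ⟨hvQ, hv⟩ | ⟨i, hi, hv⟩ | ⟨hvi, hv, hvP, hvl⟩
    · apply hcs
      unfold seen
      exact Finset.mem_union_left _ (Finset.mem_image.2
        ⟨v, Finset.mem_inter.2 ⟨mem_nbr.2 hyv, hvQ⟩, hv⟩)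
    · have := hcu i hi.1 hi.2.2.1 hi.2.2.2
      rw [hv] at this
      exact this hyv
    · apply hcs
      unfold seen
      refine Finset.mem_union_right _ (Finset.mem_image.2 ⟨v, Finset.mem_filter.2
        ⟨Finset.mem_inter.2 ⟨mem_nbr.2 hyv, hvi⟩, ?_, hvl⟩, hv⟩)
      rw [hv]
      exact hvP
  obtain ⟨χ, hχ1, hχ2⟩ := hm₀ m hm V C G Y L hC4 (by
    intro y hy
    refine ⟨hdeg y (hYQ y hy), ?_, ?_⟩
    · have := hmiss y (hYQ y hy)
      have h2 : δ / 8 * m = δ * m / 8 := by ring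
      rw [h2]
      exact this
    · have h1 : ((L y).card : ℝ) ≤ P.card := by exact_mod_cast Finset.card_le_card (hLP y)
      have h2 := h1.trans hP
      exact_mod_cast h2)
  set ψ : V → C := fun v => if h : ∃ c, R v c then Classical.choose h else χ v with hψ
  have hψR : ∀ v c, R v c → ψ v = c := by
    intro v c hv
    have h : ∃ c, R v c := ⟨c, hv⟩
    rw [hψ]
    simp only [dif_pos h]
    exact huni v _ _ (Classical.choose_spec h) hv
  have hψY : ∀ v, (¬ ∃ c, R v c) → v ∈ Y ∧ ψ v = χ v := by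
    intro v hv
    refine ⟨Finset.mem_filter.2 ⟨Finset.mem_univ _, hv⟩, ?_⟩
    rw [hψ]
    simp only [dif_neg hv]
  have hψP : ∀ v, ψ v ∈ P := by
    intro v
    by_cases h : ∃ c, R v c
    · obtain ⟨c, hc⟩ := h
      rw [hψR v c hc]
      exact hRP v c hc
    · obtain ⟨h1, h2⟩ := hψY v h
      rw [h2]
      exact hLP v (hχ1 v h1)
  have hψpro : ∀ v w, G.Adj v w → ψ v ≠ ψ w := by
    intro v w hvw heq
    by_cases h : ∃ c, R v c
    · obtain ⟨c, hc⟩ := h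
      rw [hψR v c hc] at heq
      by_cases h' : ∃ c, R w c
      · obtain ⟨c', hc'⟩ := h'
        rw [hψR w c' hc'] at heq
        rw [← heq] at hc'
        exact hpro v w c hc hc' hvw
      · obtain ⟨h1, h2⟩ := hψY w h'
        rw [h2] at heq
        have h3 := hχ1 w h1
        rw [← heq] at h3
        exact hLR w c v h3 hc hvw.symm
    · obtain ⟨h1, h2⟩ := hψY v h
      rw [h2] at heq
      by_cases h' : ∃ c, R w c
      · obtain ⟨c', hc'⟩ := h'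
        rw [hψR w c' hc'] at heq
        have h3 := hχ1 v h1
        rw [heq] at h3
        exact hLR v c' w h3 hc' hvw
      · obtain ⟨h3, h4⟩ := hψY w h'
        rw [h4] at heq
        exact hχ2 v h1 w h3 hvw heq
  have hinj : Set.InjOn l (I : Set V) := by
    intro x hx y hy hxy
    exact hL.inj1 (Finset.mem_coe.2 (Finset.mem_union_left _ (hID hx)))
      (Finset.mem_coe.2 (Finset.mem_union_left _ (hID hy))) hxy
  have hcard : (I.image l).card = I.card := Finset.card_image_of_injOn hinj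
  rw [← hcard]
  refine card_le_bChrom G ψ P (I.image l) hψP hψpro ?_ ?_
  · intro c hc
    obtain ⟨i, hi, rfl⟩ := Finset.mem_image.1 hc
    exact hL.mem i (hIQ i hi)
  · intro c hc
    obtain ⟨i, hi, rfl⟩ := Finset.mem_image.1 hc
    refine ⟨i, hψR i _ (Or.inl ⟨hIQ i hi, rfl⟩), ?_⟩
    intro c' hc' hne
    by_cases h : ∃ v ∈ W i, φ v = c' ∧ ¬ Lost G Q φ l v
    · obtain ⟨v, hv, hvc, hvl⟩ := h
      refine ⟨v, mem_nbr.1 ((hW i hi).1 hv), hψR v c' (Or.inr (Or.inr ?_))⟩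
      exact ⟨(hmemit v).2 ⟨i, hi, hv⟩, hvc, hc', hvl⟩
    · have h1 := hu i hi c' hc' hne h
      refine ⟨u (i, c'), mem_nbr.1 ((hW i hi).1 h1.1), hψR _ c' (Or.inr (Or.inl ?_))⟩
      exact ⟨i, ⟨hi, hc', hne, h⟩, rfl⟩

end Pool.Agent.Helper95.BC
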