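import Pool.Agent.Helper95.BC.A

/-!
# The last step
-/

set_option autoImplicit false

namespace Pool.Agent.Helper95.BC

open Classical in
theorem asymptotic_of
    (hmain : ∀ e : ℝ, 0 < e → e ≤ 1 / 4 → ∃ m₀ : ℕ, ∀ m : ℕ, m₀ ≤ m → ∀ (V : Type) [Fintype V]
      (G : SimpleGraph V), C4Free G →
      m ≤ (Finset.univ.filter (fun v => m - 1 ≤ (nbr G v).card)).card →
      (Finset.univ.filter (fun v => m ≤ (nbr G v).card)).card ≤ m →
      (1 - 2 * e) * m ≤ bChrom G)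
    (ε : ℝ) (hε : 0 < ε) :
    ∃ m₀ : ℕ, ∀ (V : Type) [Fintype V] (G : SimpleGraph V), C4Free G → m₀ ≤ mDegree G →
      (1 - ε) * mDegree G ≤ bChrom G := by
  obtain ⟨m₀, hm₀⟩ := hmain (min (ε / 2) (1 / 4)) (lt_min (by positivity) (by norm_num))
    (min_le_right _ _)
  refine ⟨m₀, fun V _ G hC4 hm => ?_⟩
  obtain ⟨h1, h2⟩ := mDegree_spec G
  refine le_trans ?_ (hm₀ (mDegree G) hm V G hC4 h1 h2)
  have h3 : min (ε / 2) (1 / 4) ≤ ε / 2 := min_le_left _ _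
  exact mul_le_mul_of_nonneg_right (by linarith) (Nat.cast_nonneg _)

end Pool.Agent.Helper95.BC
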