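import Pool.Agent.Helper95.BC.Defs

/-!
# Piece L: labels (greedy)
-/

set_option autoImplicit false

namespace Pool.Agent.Helper95.BC

theorem greedy_labels {V C : Type} [DecidableEq V] [DecidableEq C] [Nonempty C] (P : Finset C) (F : V → Finset C) (b : ℕ)
    (S : Finset V) (hF : ∀ x ∈ S, (P ∩ F x).card ≤ b) (h : S.card + b ≤ P.card) :
    ∃ l : V → C, (∀ x ∈ S, l x ∈ P ∧ l x ∉ F x) ∧ Set.InjOn l (S : Set V) := by
  induction S using Finset.induction_on with
  | empty =>
    exact ⟨fun _ => Classical.arbitrary C, by simp, by simp⟩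
  | insert a S ha ih =>
    rw [Finset.card_insert_of_notMem ha] at h
    obtain ⟨l, hl, hinj⟩ := ih (fun x hx => hF x (Finset.mem_insert_of_mem hx)) (by omega)
    have hcard : ((P ∩ F a) ∪ S.image l).card < P.card := by
      have h1 := Finset.card_union_le (P ∩ F a) (S.image l)
      have h2 := hF a (Finset.mem_insert_self a S)
      have h3 : (S.image l).card ≤ S.card := Finset.card_image_le
      omega
    obtain ⟨c, hcP, hc⟩ := Finset.exists_mem_notMem_of_card_lt_card hcard
    rw [Finset.mem_union, not_or] at hc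
    have hcF : c ∉ F a := fun h' => hc.1 (Finset.mem_inter.2 ⟨hcP, h'⟩)
    have hcS : ∀ x ∈ S, l x ≠ c := fun x hx h' => hc.2 (Finset.mem_image.2 ⟨x, hx, h'⟩)
    have hne : ∀ x ∈ S, x ≠ a := fun x hx h' => ha (h' ▸ hx)
    refine ⟨Function.update l a c, ?_, ?_⟩
    · intro x hx
      rcases Finset.mem_insert.1 hx with rfl | hx
      · rw [Function.update_self]
        exact ⟨hcP, hcF⟩
      · rw [Function.update_of_ne (hne x hx)]
        exact hl x hx
    · intro x hx y hy hxy
      rw [Finset.mem_coe, Finset.mem_insert] at hx hy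
      rcases hx with rfl | hx <;> rcases hy with rfl | hy
      · rfl
      · rw [Function.update_self, Function.update_of_ne (hne y hy)] at hxy
        exact absurd hxy.symm (hcS y hy)
      · rw [Function.update_self, Function.update_of_ne (hne x hx)] at hxy
        exact absurd hxy (hcS x hx)
      · rw [Function.update_of_ne (hne x hx), Function.update_of_ne (hne y hy)] at hxy
        exact hinj (Finset.mem_coe.2 hx) (Finset.mem_coe.2 hy) hxy

open Classical in
theorem labels {V C : Type} [Fintype V] [DecidableEq V] [DecidableEq C] (G : SimpleGraph V)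
    (D E Hx : Finset V) (P : Finset C) (bad : V → C → Prop) (b₁ b₂ b₃ : ℕ)
    (hDE : Disjoint D E) (hDH : Disjoint D Hx) (hEH : Disjoint E Hx)
    (h1 : ∀ x ∈ D ∪ E ∪ Hx, (P.filter (fun c => bad x c)).card ≤ b₁)
    (h2 : ∀ c ∈ P, (D.filter (fun x => bad x c)).card ≤ b₂)
    (h3 : D.card + E.card + b₁ ≤ P.card) (h4 : b₁ + b₂ ≤ P.card)
    (h5 : ∀ h ∈ Hx, (nbr G h ∩ D).card ≤ b₃) (h6 : b₃ + E.card + Hx.card + b₁ < P.card) :
    ∃ l : V → C, (∀ x ∈ D ∪ E ∪ Hx, l x ∈ P ∧ ¬ bad x (l x)) ∧
      Set.InjOn l ((D ∪ E : Finset V) : Set V) ∧ Set.InjOn l (Hx : Set V) ∧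
      ∀ x ∈ D ∪ E ∪ Hx, ∀ y ∈ D ∪ E ∪ Hx, G.Adj x y → l x ≠ l y := by
  have hne : P.Nonempty := Finset.card_pos.1 (by omega)
  have : Nonempty C := ⟨hne.choose⟩
  obtain ⟨l₁, hl₁, hi₁⟩ := greedy_labels P (fun x => P.filter (fun c => bad x c)) b₁ (D ∪ E)
    (fun x hx => (Finset.card_le_card Finset.inter_subset_right).trans
      (h1 x (Finset.mem_union_left _ hx)))
    ((Nat.add_le_add_right (Finset.card_union_le D E) b₁).trans h3)
  obtain ⟨l₂, hl₂, hi₂⟩ := greedy_labels P
    (fun x => P.filter (fun c => bad x c) ∪ (E.image l₁ ∪ (nbr G x ∩ D).image l₁))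
    (b₁ + (E.card + b₃)) Hx
    (fun x hx => (Finset.card_le_card Finset.inter_subset_right).trans
        ((Finset.card_union_le _ _).trans (Nat.add_le_add (h1 x (Finset.mem_union_right _ hx))
          ((Finset.card_union_le _ _).trans (Nat.add_le_add Finset.card_image_le
            (Finset.card_image_le.trans (h5 x hx)))))))
    (by omega)
  have hH : ∀ x, x ∈ D ∪ E → x ∉ Hx := by
    intro x hx hx'
    rcases Finset.mem_union.1 hx with hx | hx
    · exact Finset.disjoint_left.1 hDH hx hx'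
    · exact Finset.disjoint_left.1 hEH hx hx'
  let l : V → C := fun x => if x ∈ Hx then l₂ x else l₁ x
  have hlH : ∀ x ∈ Hx, l x = l₂ x := fun x hx => if_pos hx
  have hlD : ∀ x ∈ D ∪ E, l x = l₁ x := fun x hx => if_neg (hH x hx)
  have key : ∀ x ∈ Hx, ∀ y ∈ D ∪ E, G.Adj x y → l x ≠ l y := by
    intro x hx y hy hxy h
    rw [hlH x hx, hlD y hy] at h
    apply (hl₂ x hx).2
    rw [Finset.mem_union, Finset.mem_union]
    right
    rcases Finset.mem_union.1 hy with hy | hy
    · right
      exact Finset.mem_image.2 ⟨y, Finset.mem_inter.2 ⟨mem_nbr.2 hxy, hy⟩, h.symm⟩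
    · left
      exact Finset.mem_image.2 ⟨y, hy, h.symm⟩
  refine ⟨l, ?_, ?_, ?_, ?_⟩
  · intro x hx
    rcases Finset.mem_union.1 hx with hx | hx
    · rw [hlD x hx]
      have h := hl₁ x hx
      exact ⟨h.1, fun h' => h.2 (Finset.mem_filter.2 ⟨h.1, h'⟩)⟩
    · rw [hlH x hx]
      have h := hl₂ x hx
      exact ⟨h.1, fun h' => h.2 (Finset.mem_union_left _ (Finset.mem_filter.2 ⟨h.1, h'⟩))⟩
  · intro x hx y hy hxy
    rw [hlD x (Finset.mem_coe.1 hx), hlD y (Finset.mem_coe.1 hy)] at hxy
    exact hi₁ (by simpa using hx) (by simpa using hy) hxy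
  · intro x hx y hy hxy
    rw [hlH x (Finset.mem_coe.1 hx), hlH y (Finset.mem_coe.1 hy)] at hxy
    exact hi₂ hx hy hxy
  · intro x hx y hy hxy
    rcases Finset.mem_union.1 hx with hx' | hx' <;> rcases Finset.mem_union.1 hy with hy' | hy'
    · rw [hlD x hx', hlD y hy']
      intro h
      exact G.ne_of_adj hxy (hi₁ (by simpa using hx') (by simpa using hy') h)
    · exact (key y hy' x hx' hxy.symm).symm
    · exact key x hx' y hy' hxy
    · rw [hlH x hx', hlH y hy']
      intro h
      exact G.ne_of_adj hxy (hi₂ (Finset.mem_coe.2 hx') (Finset.mem_coe.2 hy') h)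

end Pool.Agent.Helper95.BC
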