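import Pool.Agent.Helper95.BC.B
import Pool.Agent.Helper95.BC.C2
import Pool.Agent.Helper95.BC.L
import Pool.Agent.Helper95.BC.G1
import Pool.Agent.Helper95.BC.G2
import Pool.Agent.Helper95.BC.G3
import Pool.Agent.Helper95.BC.G4
import Pool.Agent.Helper95.BC.G5
import Pool.Agent.Helper95.BC.H

/-!
# Assembly: the asymptotic theorem
-/

set_option autoImplicit false
set_option linter.unusedSectionVars false

namespace Pool.Agent.Helper95.BC

/-- restriction to fewer rows -/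
theorem RowSys.mono' {V : Type} [Fintype V] {G : SimpleGraph V} {m T : ℕ} {δ : ℝ}
    {I J : Finset V} {W : V → Finset V} (h : RowSys G m T δ I W) (hJ : J ⊆ I) :
    RowSys G m T δ J W := by
  classical
  refine ⟨h.c4, fun i hi => h.sub i (hJ hi), fun i hi => h.le i (hJ hi),
    fun i hi => h.ge i (hJ hi), fun i hi => ?_, fun i hi => h.deg i (hJ hi), fun i hi v hv => ?_⟩
  · exact Finset.disjoint_of_subset_right hJ (h.disj i (hJ hi))
  · refine le_trans (Finset.card_le_card ?_) (h.rk i (hJ hi) v hv)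
    exact Finset.filter_subset_filter _ hJ

theorem items_mono' {V : Type} [Fintype V] {I J : Finset V} {W : V → Finset V} (hJ : J ⊆ I) :
    items J W ⊆ items I W := by
  intro v hv
  obtain ⟨i, hi, hv⟩ := g1_mem_items.1 hv
  exact g1_mem_items.2 ⟨i, hJ hi, hv⟩

theorem RowCol.mono' {V C : Type} [Fintype V] {G : SimpleGraph V} {I J : Finset V}
    {W : V → Finset V} {φ : V → C} (h : RowCol G I W φ) (hJ : J ⊆ I) : RowCol G J W φ :=
  ⟨fun i hi => h.inj i (hJ hi),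
    fun v hv w hw => h.proper v (items_mono' hJ hv) w (items_mono' hJ hw)⟩

open Classical in
/-- labels, kept rows, and the counts for the missing pairs -/
theorem g6_tail {ε β δ δ' η : ℝ} {T t₀ b₁ b₂ m : ℕ} (hε0 : 0 < ε) (hε1 : ε ≤ 1 / 4)
    (hβ0 : 0 < β) (hβε : β ≤ ε / 1000) (hδdef : δ = β / 32) (hδ'def : δ' = δ / 32)
    (hη0 : 0 < η) (hηT : T * η ≤ ε * β / 100) (hb₁ : b₁ = ⌊2 / η⌋₊) (hb₂ : b₂ = ⌊T / η⌋₊)
    (hm1 : 1 ≤ m) (hbig : 100 * ((t₀ : ℝ) + b₁ + b₂ + 2) ≤ δ * m)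
    {V C : Type} [Fintype V] [Fintype C] {G : SimpleGraph V} {D E Hx I : Finset V}
    {W : V → Finset V} {φ : V → C} {P Bad : Finset C}
    (hN : (Fintype.card C : ℝ) < (1 + δ) * m + 1)
    (hDcard : (D.card : ℝ) ≤ (1 - ε) * m) (hDcard' : (1 - ε) * m - 1 ≤ (D.card : ℝ))
    (hE : E.card ≤ t₀) (hHx : Hx.card + D.card ≤ m)
    (hDE : Disjoint D E) (hDH : Disjoint D Hx) (hEH : Disjoint E Hx)
    (hdegQ : ∀ y, y ∉ D ∪ E ∪ Hx → (nbr G y).card ≤ m)
    (hQ : ∀ y, y ∉ D ∪ E ∪ Hx → ((nbr G y ∩ (D ∪ E ∪ Hx)).card : ℝ) ≤ δ' * m)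
    (hHD : ∀ h ∈ Hx, ((nbr G h ∩ D).card : ℝ) ≤ δ' * m)
    (hDitems : ∀ v ∈ items I W, (nbr G v ∩ D).card ≤ T)
    (hIm : I.card ≤ m) (hR : RowSys G m T δ I W) (hφ : RowCol G I W φ)
    (hcolφ : ∀ c, c ∉ Bad → ((I.filter (fun i => c ∉ (W i).image φ)).card : ℝ) ≤ β / 2 * m)
    (hPB : Disjoint P Bad) (hPcard : (1 - ε) * m + δ * m / 2 ≤ P.card)
    (hPy : ∀ y, (nbr G y).card ≤ m →
      ((((nbr G y ∩ items I W).image φ) ∩ P).card : ℝ) + δ * m / 2 ≤ P.card)
    (hPcand : ∀ i ∈ I, ∀ c, ε ^ 2 * m / 4 ≤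
      (((W i).filter (fun v => φ v ∉ P ∧ ∀ w ∈ items I W, G.Adj v w → φ w ≠ c)).card : ℝ)) :
    ∃ (I' : Finset V) (l : V → C), I' ⊆ I ∧ (I.card : ℝ) ≤ I'.card + ε * m / 8 ∧
      Lab G D E Hx P l ∧ (P.card : ℝ) ≤ 2 * m ∧
      (∀ i ∈ I', ((P.filter (fun c => ¬ ∃ v ∈ W i, φ v = c ∧
        ¬ Lost G (D ∪ E ∪ Hx) φ l v)).card : ℝ) ≤ β * m) ∧
      (∀ c ∈ P, ((I'.filter (fun i => ¬ ∃ v ∈ W i, φ v = c ∧
        ¬ Lost G (D ∪ E ∪ Hx) φ l v)).card : ℝ) ≤ β * m) ∧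
      (∀ i ∈ I', ∀ c, ε ^ 2 * m / 4 ≤
        (((W i).filter (fun v => φ v ∉ P ∧ ∀ w ∈ items I' W, G.Adj v w → φ w ≠ c)).card : ℝ)) ∧
      (∀ y, y ∉ D ∪ E ∪ Hx →
        δ * m / 4 ≤ ((P \ seen G I' W P (D ∪ E ∪ Hx) φ l y).card : ℝ)) := by
  have hm1' : (1 : ℝ) ≤ m := by exact_mod_cast hm1
  have hδ0 : 0 < δ := by rw [hδdef]; positivity
  have hδ'0 : 0 < δ' := by rw [hδ'def]; positivity
  have ht0 : (0 : ℝ) ≤ t₀ := Nat.cast_nonneg _
  have hb10 : (0 : ℝ) ≤ b₁ := Nat.cast_nonneg _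
  have hb20 : (0 : ℝ) ≤ b₂ := Nat.cast_nonneg _
  have hεm : 0 < ε * m := by positivity
  have hδm : 0 < δ * m := by positivity
  have hβm : 0 < β * m := by positivity
  have hδβm : δ * m = β * m / 32 := by rw [hδdef]; ring
  have hδ'm : δ' * m = δ * m / 32 := by rw [hδ'def]; ring
  have hβεm : β * m ≤ ε * m / 1000 := by nlinarith
  have hεm4 : ε * m ≤ m / 4 := by nlinarith
  have hP2 : (P.card : ℝ) ≤ 2 * m := by
    have h2 : (P.card : ℝ) ≤ Fintype.card C := by exact_mod_cast Finset.card_le_univ P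
    nlinarith
  obtain ⟨bad, hbad⟩ : ∃ bad : V → C → Prop, bad = fun x c => η * m <
      (((items I W).filter (fun v => G.Adj x v ∧ φ v = c)).card : ℝ) := ⟨_, rfl⟩
  have hHx' : (Hx.card : ℝ) + D.card ≤ m := by exact_mod_cast hHx
  have hE' : (E.card : ℝ) ≤ t₀ := by exact_mod_cast hE
  obtain ⟨l, hl1, hl2, hl3, hl4⟩ := labels G D E Hx P bad b₁ b₂ ⌊δ' * m⌋₊ hDE hDH hEH
    (by
      intro x _
      rw [hb₁]
      apply Nat.le_floor
      refine le_trans (le_of_eq ?_) (bad_row G hR hIm hm1 φ η hη0 P x)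
      congr 2
      apply Finset.filter_congr
      intro c _
      rw [hbad])
    (by
      intro c _
      rw [hb₂]
      apply Nat.le_floor
      refine le_trans (le_of_eq ?_) (bad_col G hR hIm hm1 φ hφ η hη0 D hDitems c)
      congr 2
      apply Finset.filter_congr
      intro x _
      rw [hbad])
    (by
      have h1 : ((D.card + E.card + b₁ : ℕ) : ℝ) ≤ P.card := by
        push_cast
        linarith
      exact_mod_cast h1)
    (by
      have h1 : ((b₁ + b₂ : ℕ) : ℝ) ≤ P.card := by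
        push_cast
        linarith
      exact_mod_cast h1)
    (by
      intro h hh
      apply Nat.le_floor
      exact hHD h hh)
    (by
      have h0 : (⌊δ' * (m : ℝ)⌋₊ : ℝ) ≤ δ' * m := Nat.floor_le (by positivity)
      have h1 : ((⌊δ' * (m : ℝ)⌋₊ + E.card + Hx.card + b₁ : ℕ) : ℝ) < P.card := by
        push_cast
        linarith
      exact_mod_cast h1)
  have hL : Lab G D E Hx P l := ⟨fun x hx => (hl1 x hx).1, hl2, hl3, hl4⟩
  have hlη : ∀ x ∈ D ∪ E ∪ Hx,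
      (((items I W).filter (fun v => G.Adj x v ∧ φ v = l x)).card : ℝ) ≤ η * m := by
    intro x hx
    have := (hl1 x hx).2
    rw [hbad] at this
    exact not_lt.1 this
  have hQcard : (D ∪ E ∪ Hx).card ≤ 2 * m := by
    have h1 : (D ∪ E ∪ Hx).card ≤ D.card + E.card + Hx.card :=
      (Finset.card_union_le _ _).trans (Nat.add_le_add_right (Finset.card_union_le _ _) _)
    have h2 : ((D ∪ E ∪ Hx).card : ℝ) ≤ D.card + E.card + Hx.card := by exact_mod_cast h1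
    have h3 : ((D ∪ E ∪ Hx).card : ℝ) ≤ 2 * m := by linarith
    exact_mod_cast h3
  -- the rows that are kept
  obtain ⟨I', hI'⟩ : ∃ I' : Finset V, I' = I.filter (fun i => ¬ β / 4 * m <
    (((W i).filter (fun v => Lost G (D ∪ E ∪ Hx) φ l v)).card : ℝ)) := ⟨_, rfl⟩
  have hI'I : I' ⊆ I := by
    rw [hI']
    exact Finset.filter_subset _ _
  refine ⟨I', l, hI'I, ?_, hL, hP2, ?_, ?_, ?_, ?_⟩
  · have h1 := loss_row G hR φ l (D ∪ E ∪ Hx) η (β / 4) hη0.le (by positivity) hm1 hQcard hlη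
    have h2 := Finset.card_filter_add_card_filter_not (s := I) (fun i => β / 4 * m <
      (((W i).filter (fun v => Lost G (D ∪ E ∪ Hx) φ l v)).card : ℝ))
    rw [← hI'] at h2
    have h3 : 2 * T * η / (β / 4) * m ≤ ε * m / 8 := by
      have h4 : 2 * T * η / (β / 4) ≤ ε / 8 := by
        rw [div_le_iff₀ (by positivity)]
        have : 0 < ε * β := by positivity
        nlinarith
      calc 2 * T * η / (β / 4) * m ≤ ε / 8 * m := mul_le_mul_of_nonneg_right h4 (by linarith)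
        _ = ε * m / 8 := by ring
    have h5 : ((I.filter (fun i => β / 4 * m <
      (((W i).filter (fun v => Lost G (D ∪ E ∪ Hx) φ l v)).card : ℝ))).card : ℝ) + I'.card =
      I.card := by exact_mod_cast h2
    linarith
  · intro i hi
    have hiI := hI'I hi
    have hlost : (((W i).filter (fun v => Lost G (D ∪ E ∪ Hx) φ l v)).card : ℝ) ≤ β / 4 * m := by
      rw [hI', Finset.mem_filter] at hi
      exact not_lt.1 hi.2
    have hsub : P.filter (fun c => ¬ ∃ v ∈ W i, φ v = c ∧ ¬ Lost G (D ∪ E ∪ Hx) φ l v) ⊆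
        (Finset.univ \ (W i).image φ) ∪
          ((W i).filter (fun v => Lost G (D ∪ E ∪ Hx) φ l v)).image φ := by
      intro c hc
      obtain ⟨_, hc⟩ := Finset.mem_filter.1 hc
      by_cases hci : c ∈ (W i).image φ
      · obtain ⟨v, hv, hvc⟩ := Finset.mem_image.1 hci
        apply Finset.mem_union_right
        refine Finset.mem_image.2 ⟨v, Finset.mem_filter.2 ⟨hv, ?_⟩, hvc⟩
        by_contra hcon
        exact hc ⟨v, hv, hvc, hcon⟩
      · exact Finset.mem_union_left _ (Finset.mem_sdiff.2 ⟨Finset.mem_univ _, hci⟩)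
    have h1 : (P.filter (fun c => ¬ ∃ v ∈ W i, φ v = c ∧
        ¬ Lost G (D ∪ E ∪ Hx) φ l v)).card ≤ (Finset.univ \ (W i).image φ).card +
          ((W i).filter (fun v => Lost G (D ∪ E ∪ Hx) φ l v)).card :=
      (Finset.card_le_card hsub).trans ((Finset.card_union_le _ _).trans
        (Nat.add_le_add_left Finset.card_image_le _))
    have h2 : ((Finset.univ \ (W i).image φ).card : ℝ) + (W i).card = Fintype.card C := by
      have h3 := Finset.card_sdiff_add_card_eq_card (Finset.subset_univ ((W i).image φ))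
      rw [Finset.card_image_of_injOn (hφ.inj i hiI), Finset.card_univ] at h3
      exact_mod_cast h3
    have h3 : ((P.filter (fun c => ¬ ∃ v ∈ W i, φ v = c ∧
        ¬ Lost G (D ∪ E ∪ Hx) φ l v)).card : ℝ) ≤ ((Finset.univ \ (W i).image φ).card : ℝ) +
          (((W i).filter (fun v => Lost G (D ∪ E ∪ Hx) φ l v)).card : ℝ) := by exact_mod_cast h1
    have h4 := hR.ge i hiI
    nlinarith
  · intro c hc
    have h1 := hcolφ c (fun h => Finset.disjoint_left.1 hPB hc h)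
    have h2 := loss_col G hR φ l D E Hx P hL η hη0.le hlη c
    have hsub : I'.filter (fun i => ¬ ∃ v ∈ W i, φ v = c ∧ ¬ Lost G (D ∪ E ∪ Hx) φ l v) ⊆
        (I.filter (fun i => c ∉ (W i).image φ)) ∪
          (I.filter (fun i => ∃ v ∈ W i, φ v = c ∧ Lost G (D ∪ E ∪ Hx) φ l v)) := by
      intro i hi
      obtain ⟨hi, hic⟩ := Finset.mem_filter.1 hi
      by_cases hci : c ∈ (W i).image φ
      · obtain ⟨v, hv, hvc⟩ := Finset.mem_image.1 hci
        refine Finset.mem_union_right _ (Finset.mem_filter.2 ⟨hI'I hi, v, hv, hvc, ?_⟩)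
        by_contra hcon
        exact hic ⟨v, hv, hvc, hcon⟩
      · exact Finset.mem_union_left _ (Finset.mem_filter.2 ⟨hI'I hi, hci⟩)
    have h3 : ((I'.filter (fun i => ¬ ∃ v ∈ W i, φ v = c ∧
        ¬ Lost G (D ∪ E ∪ Hx) φ l v)).card : ℝ) ≤
        ((I.filter (fun i => c ∉ (W i).image φ)).card : ℝ) +
          ((I.filter (fun i => ∃ v ∈ W i, φ v = c ∧ Lost G (D ∪ E ∪ Hx) φ l v)).card : ℝ) := by
      exact_mod_cast (Finset.card_le_card hsub).trans (Finset.card_union_le _ _)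
    have h4 : 2 * T * η * m ≤ β / 2 * m := by
      apply mul_le_mul_of_nonneg_right _ (by linarith)
      nlinarith
    have h5 : β / 2 * m + β / 2 * m = β * m := by ring
    linarith
  · intro i hi c
    refine (hPcand i (hI'I hi) c).trans ?_
    have hsub : (W i).filter (fun v => φ v ∉ P ∧ ∀ w ∈ items I W, G.Adj v w → φ w ≠ c) ⊆
        (W i).filter (fun v => φ v ∉ P ∧ ∀ w ∈ items I' W, G.Adj v w → φ w ≠ c) := by
      intro v hv
      rw [Finset.mem_filter] at hv ⊢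
      exact ⟨hv.1, hv.2.1, fun w hw => hv.2.2 w (items_mono' hI'I hw)⟩
    exact_mod_cast Finset.card_le_card hsub
  · intro y hy
    have h1 := hPy y (hdegQ y hy)
    have h2 := hQ y hy
    have hsub : P ⊆ (P \ seen G I' W P (D ∪ E ∪ Hx) φ l y) ∪
        ((nbr G y ∩ (D ∪ E ∪ Hx)).image l ∪ (((nbr G y ∩ items I W).image φ) ∩ P)) := by
      intro c hc
      by_cases hcs : c ∈ seen G I' W P (D ∪ E ∪ Hx) φ l y
      · apply Finset.mem_union_right
        unfold seen at hcs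
        rcases Finset.mem_union.1 hcs with h | h
        · exact Finset.mem_union_left _ h
        · apply Finset.mem_union_right
          obtain ⟨v, hv, hvc⟩ := Finset.mem_image.1 h
          rw [Finset.mem_filter, Finset.mem_inter] at hv
          exact Finset.mem_inter.2 ⟨Finset.mem_image.2 ⟨v, Finset.mem_inter.2
            ⟨hv.1.1, items_mono' hI'I hv.1.2⟩, hvc⟩, hc⟩
      · exact Finset.mem_union_left _ (Finset.mem_sdiff.2 ⟨hc, hcs⟩)
    have h3 : P.card ≤ (P \ seen G I' W P (D ∪ E ∪ Hx) φ l y).card +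
        ((nbr G y ∩ (D ∪ E ∪ Hx)).card + (((nbr G y ∩ items I W).image φ) ∩ P).card) :=
      (Finset.card_le_card hsub).trans ((Finset.card_union_le _ _).trans
        (Nat.add_le_add_left ((Finset.card_union_le _ _).trans
          (Nat.add_le_add_right Finset.card_image_le _)) _))
    have h4 : (P.card : ℝ) ≤ ((P \ seen G I' W P (D ∪ E ∪ Hx) φ l y).card : ℝ) +
        (((nbr G y ∩ (D ∪ E ∪ Hx)).card : ℝ) +
          ((((nbr G y ∩ items I W).image φ) ∩ P).card : ℝ)) := by exact_mod_cast h3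
    linarith

open Classical in
theorem main_step (ε : ℝ) (hε0 : 0 < ε) (hε1 : ε ≤ 1 / 4) :
    ∃ m₀ : ℕ, ∀ m : ℕ, m₀ ≤ m → ∀ (V : Type) [Fintype V]
      (G : SimpleGraph V), C4Free G →
      m ≤ (Finset.univ.filter (fun v => m - 1 ≤ (nbr G v).card)).card →
      (Finset.univ.filter (fun v => m ≤ (nbr G v).card)).card ≤ m →
      (1 - 2 * ε) * m ≤ bChrom G := by
  -- constants
  obtain ⟨β, hβdef⟩ : ∃ β : ℝ, β = ε ^ 4 / 10 ^ 5 := ⟨_, rfl⟩
  have hβ0 : 0 < β := by rw [hβdef]; positivity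
  have hβε : β ≤ ε / 1000 := by
    rw [hβdef]
    have : ε ^ 4 ≤ ε * 1 := by
      have h1 : ε ^ 3 ≤ 1 := pow_le_one₀ hε0.le (by linarith)
      calc ε ^ 4 = ε * ε ^ 3 := by ring
        _ ≤ ε * 1 := mul_le_mul_of_nonneg_left h1 hε0.le
    rw [div_le_div_iff₀ (by norm_num) (by norm_num)]
    nlinarith
  obtain ⟨δ, hδdef⟩ : ∃ δ : ℝ, δ = β / 32 := ⟨_, rfl⟩
  have hδ0 : 0 < δ := by rw [hδdef]; positivity
  obtain ⟨δ', hδ'def⟩ : ∃ δ' : ℝ, δ' = δ / 32 := ⟨_, rfl⟩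
  have hδ'0 : 0 < δ' := by rw [hδ'def]; positivity
  obtain ⟨T, t₀, m₁, hset⟩ := setup ε δ' hε0 hε1 hδ'0 (by linarith)
  obtain ⟨η, hηdef⟩ : ∃ η : ℝ, η = ε * β / (100 * (T + 1)) := ⟨_, rfl⟩
  have hT0 : (0 : ℝ) ≤ T := Nat.cast_nonneg T
  have hη0 : 0 < η := by rw [hηdef]; positivity
  have hηT : T * η ≤ ε * β / 100 := by
    have h1 : (T + 1) * η = ε * β / 100 := by
      rw [hηdef]
      field_simp
    have h2 : T * η ≤ (T + 1) * η := by nlinarith
    linarith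
  obtain ⟨m₂, hrows⟩ := rows_of core' β δ hβ0 (by linarith) hδ0 (by linarith) T
  obtain ⟨m₃, hpal⟩ := palette ε δ hε0 hε1 hδ0 (by linarith) T
  obtain ⟨m₄, hcomp⟩ := complete ε β δ hε0 hε1 hβ0 (by rw [hβdef]) hδ0 (by rw [hδdef]) T
  obtain ⟨m₅, hfin⟩ := finish core' δ hδ0
  obtain ⟨b₁, hb₁⟩ : ∃ b₁ : ℕ, b₁ = ⌊2 / η⌋₊ := ⟨_, rfl⟩
  obtain ⟨b₂, hb₂⟩ : ∃ b₂ : ℕ, b₂ = ⌊T / η⌋₊ := ⟨_, rfl⟩
  -- the bound for m
  obtain ⟨m₆, hm₆⟩ := exists_nat_ge (100 * ((t₀ : ℝ) + b₁ + b₂ + 2) / δ)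
  refine ⟨max (max (max m₁ m₂) (max m₃ m₄)) (max m₅ (m₆ + 1)), ?_⟩
  intro m hm V _ G hC4 hA hH
  have hmm₁ : m₁ ≤ m := ((le_max_left _ _).trans (le_max_left _ _)).trans
    ((le_max_left _ _).trans hm)
  have hmm₂ : m₂ ≤ m := ((le_max_right _ _).trans (le_max_left _ _)).trans
    ((le_max_left _ _).trans hm)
  have hmm₃ : m₃ ≤ m := ((le_max_left _ _).trans (le_max_right _ _)).trans
    ((le_max_left _ _).trans hm)
  have hmm₄ : m₄ ≤ m := ((le_max_right _ _).trans (le_max_right _ _)).trans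
    ((le_max_left _ _).trans hm)
  have hmm₅ : m₅ ≤ m := (le_max_left _ _).trans ((le_max_right _ _).trans hm)
  have hmm₆ : m₆ + 1 ≤ m := (le_max_right _ _).trans ((le_max_right _ _).trans hm)
  have hm1 : 1 ≤ m := by omega
  have hm1' : (1 : ℝ) ≤ m := by exact_mod_cast hm1
  have hbig : 100 * ((t₀ : ℝ) + b₁ + b₂ + 2) ≤ δ * m := by
    have h1 : ((m₆ + 1 : ℕ) : ℝ) ≤ m := by exact_mod_cast hmm₆
    push_cast at h1
    have h2 : 100 * ((t₀ : ℝ) + b₁ + b₂ + 2) / δ ≤ m := by linarith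
    rwa [div_le_iff₀' hδ0] at h2
  have ht0 : (0 : ℝ) ≤ t₀ := Nat.cast_nonneg _
  have hb10 : (0 : ℝ) ≤ b₁ := Nat.cast_nonneg _
  have hb20 : (0 : ℝ) ≤ b₂ := Nat.cast_nonneg _
  have hεm : 0 < ε * m := by positivity
  have hδm : 0 < δ * m := by positivity
  have hβm : 0 < β * m := by positivity
  have hδβm : δ * m = β * m / 32 := by rw [hδdef]; ring
  have hβεm : β * m ≤ ε * m / 1000 := by nlinarith
  -- the rows
  obtain ⟨D, E, Hx, I, W, hD, hE, hHx, hDE, hDH, hEH, hdeg, hQ, hHD, hID, hDI, hW⟩ :=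
    hset m hmm₁ V G hC4 hA hH
  have hDcard : (D.card : ℝ) ≤ (1 - ε) * m := by
    rw [hD]
    exact Nat.floor_le (by nlinarith)
  have hDcard' : (1 - ε) * m - 1 ≤ (D.card : ℝ) := by
    rw [hD]
    have := Nat.lt_floor_add_one ((1 - ε) * (m : ℝ))
    linarith
  have hIm : I.card ≤ m := by
    have h1 : (I.card : ℝ) ≤ D.card := by exact_mod_cast Finset.card_le_card hID
    have h2 : (I.card : ℝ) ≤ m := by linarith
    exact_mod_cast h2
  have hWle : ∀ i ∈ I, (W i).card ≤ m := by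
    intro i hi
    rw [(hW i hi).2.1]
    apply Nat.ceil_le.2
    nlinarith
  have hWge : ∀ i ∈ I, (1 - δ) * m ≤ ((W i).card : ℝ) := by
    intro i hi
    have h1 : (1 - δ') * m ≤ ((W i).card : ℝ) := by
      rw [(hW i hi).2.1]
      exact Nat.le_ceil _
    have h2 : δ' * m ≤ δ * m := mul_le_mul_of_nonneg_right (by linarith) (by linarith)
    nlinarith
  have hWI : ∀ i ∈ I, Disjoint (W i) I := by
    intro i hi
    refine Finset.disjoint_of_subset_right ?_ (hW i hi).2.2.1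
    exact hID.trans (Finset.subset_union_left.trans Finset.subset_union_left)
  have hWdeg : ∀ i ∈ I, ∀ v ∈ W i, (nbr G v).card ≤ m := by
    intro i hi v hv
    by_contra hcon
    exact Finset.disjoint_left.1 (hW i hi).2.2.1 hv (hdeg v (by omega))
  have hWrk : ∀ i ∈ I, ∀ v ∈ W i, (I.filter (fun j => v ∈ W j)).card ≤ T := by
    intro i hi v hv
    refine le_trans (Finset.card_le_card ?_) ((hW i hi).2.2.2 v hv)
    intro j hj
    rw [Finset.mem_filter] at hj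
    rw [Finset.mem_inter, mem_nbr]
    exact ⟨(mem_nbr.1 ((hW j hj.1).1 hj.2)).symm, hID hj.1⟩
  have hR : RowSys G m T δ I W :=
    ⟨hC4, fun i hi => (hW i hi).1, hWle, hWge, hWI, hWdeg, hWrk⟩
  obtain ⟨φ, Bad, hBad, hinj, hprop, hcolφ⟩ := hrows m hmm₂ V G I W hC4 hIm
    (fun i hi => ⟨(hW i hi).1, hWle i hi, hWge i hi, hWI i hi⟩)
    (fun i hi v hv => ⟨hWdeg i hi v hv, hWrk i hi v hv⟩)
  have hφ : RowCol G I W φ := by
    refine ⟨hinj, fun v hv w hw => ?_⟩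
    obtain ⟨i, hi, hv⟩ := g1_mem_items.1 hv
    obtain ⟨j, hj, hw⟩ := g1_mem_items.1 hw
    exact hprop i hi j hj v hv w hw
  obtain ⟨P, hPB, hPcard, hPy, hPcand⟩ := hpal m hmm₃ V G I W φ Bad hR (by
    have h1 : (I.card : ℝ) ≤ D.card := by exact_mod_cast Finset.card_le_card hID
    linarith) hφ hBad
  have hNlt : (Fintype.card (Fin ⌈(1 + δ) * (m : ℝ)⌉₊) : ℝ) < (1 + δ) * m + 1 := by
    rw [Fintype.card_fin]
    exact Nat.ceil_lt_add_one (by positivity)
  have hDitems : ∀ v ∈ items I W, (nbr G v ∩ D).card ≤ T := by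
    intro v hv
    obtain ⟨i, hi, hv⟩ := g1_mem_items.1 hv
    exact (hW i hi).2.2.2 v hv
  have hdegQ : ∀ y, y ∉ D ∪ E ∪ Hx → (nbr G y).card ≤ m := by
    intro y hy
    by_contra hcon
    exact hy (hdeg y (by omega))
  obtain ⟨I', l, hI'I, hI'card, hL, hP2, hrow, hcol, hcand, hmiss⟩ := g6_tail (T := T)
    (t₀ := t₀) (b₁ := b₁) (b₂ := b₂) (m := m) (D := D) (E := E) (Hx := Hx) (Bad := Bad) (P := P)
    hε0 hε1 hβ0 hβε hδdef hδ'def hη0 hηT hb₁ hb₂ hm1 hbig hNlt hDcard hDcard' hE hHx hDE hDH hEH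
    hdegQ hQ hHD hDitems hIm hR hφ
    (fun c hc => by
      refine le_trans (le_of_eq (congrArg (fun s : Finset V => (s.card : ℝ)) ?_)) (hcolφ c hc)
      ext x
      simp only [Finset.mem_filter, Finset.mem_image]) hPB hPcard
    (fun y hy => by
      refine le_trans (le_of_eq ?_) (hPy y hy)
      refine congrArg (fun s : Finset (Fin ⌈(1 + δ) * (m : ℝ)⌉₊) => (s.card : ℝ) + δ * m / 2) ?_
      ext x
      simp only [Finset.mem_inter, Finset.mem_image])
    (fun i hi c => by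
      refine le_trans (hPcand i hi c)
        (le_of_eq (congrArg (fun s : Finset V => (s.card : ℝ)) ?_))
      ext x
      simp only [Finset.mem_filter])
  have hdis' : ∀ i ∈ I', Disjoint (W i) (D ∪ E ∪ Hx) := fun i hi => (hW i (hI'I hi)).2.2.1
  obtain ⟨u, hu1, hu2⟩ := hcomp m hmm₄ V _ G D E Hx I' W φ l P (hR.mono' hI'I) (hI'I.trans hID)
    ((Finset.card_le_card hI'I).trans hIm) hdis' (hφ.mono' hI'I) hL hP2 hrow hcol hcand hmiss
  have hend := hfin m hmm₅ V _ G D E Hx I' W φ l P u hC4 (hI'I.trans hID)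
    (fun i hi => ⟨(hW i (hI'I hi)).1, hdis' i hi⟩) (hφ.mono' hI'I) hL hP2 hdegQ hu1 hu2
  have hend' : (I'.card : ℝ) ≤ bChrom G := by exact_mod_cast hend
  refine le_trans ?_ hend'
  have h1 : (D.card : ℝ) ≤ I.card + t₀ := by exact_mod_cast hDI
  linarith

theorem asymptotic (ε : ℝ) (hε : 0 < ε) :
    ∃ m₀ : ℕ, ∀ (V : Type) [Fintype V] (G : SimpleGraph V), C4Free G → m₀ ≤ mDegree G →
      (1 - ε) * mDegree G ≤ bChrom G :=
  asymptotic_of main_step ε hε

end Pool.Agent.Helper95.BC
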