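import Pool.Agent.Helper95.BC.Defs

/-!
# Graphs of girth at least 5 have no 4-cycles
-/

set_option autoImplicit false

namespace Pool.Agent.Helper95.BC

open SimpleGraph

theorem c4Free_of_egirth {V : Type} (G : SimpleGraph V) (h : 5 ≤ G.egirth) : C4Free G := by
  intro x y a b hxy hab hxa hay hyb hbx
  have h1 := hxa.ne
  have h2 := hay.ne
  have h3 := hyb.ne
  have h4 := hbx.ne
  have hcyc : (Walk.cons hxa (Walk.cons hay (Walk.cons hyb (Walk.cons hbx Walk.nil)))).IsCycle := by
    simp [Walk.cons_isCycle_iff, Walk.cons_isPath_iff, h1, h2, h3, h4, hxy, hab, h1.symm, h4.symm,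
      hxy.symm]
  have := egirth_le_length hcyc
  simp only [Walk.length_cons, Walk.length_nil] at this
  have h5 := h.trans this
  norm_num at h5

end Pool.Agent.Helper95.BC
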