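import Pool.Agent.Helper95.BC.B

/-!
# The rows for Theorem B
-/

set_option autoImplicit false

namespace Pool.Agent.Helper95.BC

open Finset

open Classical in
theorem slack_setup (δ : ℝ) (hδ0 : 0 < δ) (hδ1 : δ ≤ 1 / 4) :
    ∃ T t n₀ : ℕ, ∀ n : ℕ, n₀ ≤ n → ∀ (V : Type) [Fintype V] (G : SimpleGraph V) (B D : Finset V),
      C4Free G → D ⊆ B → B.card ≤ n → (∀ i ∈ D, n ≤ (nbr G i).card) →
      ∃ (J I : Finset V) (W : V → Finset V), J ∪ I = D ∧ Disjoint J I ∧ J.card ≤ t ∧
        ∀ i ∈ I, W i ⊆ nbr G i ∧ (W i).card = ⌈(1 - δ) * n⌉₊ ∧ Disjoint (W i) B ∧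
          (∀ j ∈ J, Disjoint (W i) (nbr G j)) ∧ ∀ v ∈ W i, (nbr G v ∩ B).card ≤ T := by
  obtain ⟨t, ht⟩ := exists_nat_ge (8 / δ)
  have ht8 : 8 ≤ δ * t := by rwa [div_le_iff₀' hδ0] at ht
  obtain ⟨n₁, hn₁⟩ := exists_nat_ge (8 * (t + 1) / δ)
  refine ⟨t, t, max n₁ (t ^ 2 + 1), fun n hn V _ G B D hC4 hDB hB hdeg => ?_⟩
  have hn1 : n₁ ≤ n := (le_max_left _ _).trans hn
  have htn : t ^ 2 < n := (Nat.lt_succ_self _).trans_le ((le_max_right _ _).trans hn)
  have hnδ : 8 * ((t : ℝ) + 1) ≤ δ * n := by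
    have h1 : 8 * ((t : ℝ) + 1) / δ ≤ n := hn₁.trans (by exact_mod_cast hn1)
    rwa [div_le_iff₀' hδ0] at h1
  have hn0 : (0 : ℝ) ≤ n := by positivity
  have ht0 : (0 : ℝ) ≤ t := by positivity
  set J : Finset V := D.filter (fun x => δ * n / 4 < ((nbr G x ∩ B).card : ℝ)) with hJ
  have hJt : J.card ≤ t :=
    (Finset.card_le_card (Finset.filter_subset_filter _ (Finset.subset_univ _))).trans
      (card_big hC4 B n t δ hB ht8 htn)
  set Gd : V → Finset V := fun i =>
    ((nbr G i \ B).filter (fun v => (nbr G v ∩ B).card ≤ t)) \ J.biUnion (fun j => nbr G j)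
    with hGd
  have hrow : ∀ i ∈ D \ J, ⌈(1 - δ) * n⌉₊ ≤ (Gd i).card := by
    intro i hi
    rw [Finset.mem_sdiff] at hi
    have hdeg' : (n : ℝ) ≤ (nbr G i).card := by exact_mod_cast hdeg i hi.1
    have h0 : ((nbr G i ∩ B).card : ℝ) ≤ δ * n / 4 := by
      by_contra h
      exact hi.2 (Finset.mem_filter.2 ⟨hi.1, not_le.1 h⟩)
    have h2 : (((nbr G i).filter (fun v => t < (nbr G v ∩ B).card)).card : ℝ) * t ≤ n := by
      have h3 := (card_heavy hC4 B t i).trans hB
      exact_mod_cast h3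
    have h3 : (((nbr G i).filter (fun v => t < (nbr G v ∩ B).card)).card : ℝ) ≤ δ * n / 8 := by
      have h4 : (0 : ℝ) < t := by
        by_contra h
        have : (t : ℝ) = 0 := le_antisymm (not_lt.1 h) ht0
        rw [this] at ht8
        linarith
      have h5 : (((nbr G i).filter (fun v => t < (nbr G v ∩ B).card)).card : ℝ) * t ≤
          δ * n / 8 * t := by
        refine h2.trans ?_
        nlinarith
      exact le_of_mul_le_mul_right h5 h4
    have h4 : (J.biUnion (fun j => nbr G i ∩ nbr G j)).card ≤ t := by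
      refine Finset.card_biUnion_le.trans ?_
      refine (Finset.sum_le_card_nsmul J _ 1 fun j hj => ?_).trans (by simpa using hJt)
      refine hC4.card_le_one ?_
      rintro rfl
      exact hi.2 hj
    have h5 : nbr G i ⊆ ((nbr G i ∩ B) ∪
        ((nbr G i).filter (fun v => t < (nbr G v ∩ B).card))) ∪
        (J.biUnion (fun j => nbr G i ∩ nbr G j) ∪ Gd i) := by
      intro v hv
      simp only [hGd, Finset.mem_union, Finset.mem_inter, Finset.mem_filter, Finset.mem_sdiff,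
        Finset.mem_biUnion]
      by_cases h6 : v ∈ B
      · exact Or.inl (Or.inl ⟨hv, h6⟩)
      by_cases h7 : (nbr G v ∩ B).card ≤ t
      · by_cases h8 : ∃ j ∈ J, v ∈ nbr G j
        · obtain ⟨j, hj, hvj⟩ := h8
          exact Or.inr (Or.inl ⟨j, hj, hv, hvj⟩)
        · exact Or.inr (Or.inr ⟨⟨⟨hv, h6⟩, h7⟩, h8⟩)
      · exact Or.inl (Or.inr ⟨hv, not_le.1 h7⟩)
    have h6 : ((nbr G i).card : ℝ) ≤ ((nbr G i ∩ B).card +
        ((nbr G i).filter (fun v => t < (nbr G v ∩ B).card)).card) + (t + (Gd i).card) := by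
      have h7 := (Finset.card_le_card h5).trans (Finset.card_union_le _ _)
      have h8 := Finset.card_union_le (nbr G i ∩ B)
        ((nbr G i).filter (fun v => t < (nbr G v ∩ B).card))
      have h9 := Finset.card_union_le (J.biUnion (fun j => nbr G i ∩ nbr G j)) (Gd i)
      have h10 : (nbr G i).card ≤ ((nbr G i ∩ B).card +
        ((nbr G i).filter (fun v => t < (nbr G v ∩ B).card)).card) + (t + (Gd i).card) := by
        omega
      exact_mod_cast h10
    refine Nat.ceil_le.2 ?_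
    linarith
  have hch : ∀ i, ∃ w : Finset V, i ∈ D \ J → w ⊆ Gd i ∧ w.card = ⌈(1 - δ) * n⌉₊ := by
    intro i
    by_cases hi : i ∈ D \ J
    · obtain ⟨w, hw1, hw2⟩ := Finset.exists_subset_card_eq (hrow i hi)
      exact ⟨w, fun _ => ⟨hw1, hw2⟩⟩
    · exact ⟨∅, fun h => absurd h hi⟩
  choose W hW using hch
  refine ⟨J, D \ J, W, ?_, Finset.disjoint_sdiff, hJt, ?_⟩
  · exact Finset.union_sdiff_of_subset (Finset.filter_subset _ _)
  · intro i hi
    obtain ⟨h1, h2⟩ := hW i hi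
    refine ⟨fun v hv => ?_, h2, ?_, fun j hj => ?_, fun v hv => ?_⟩
    · have h3 := h1 hv
      simp only [hGd, Finset.mem_filter, Finset.mem_sdiff] at h3
      exact h3.1.1.1
    · rw [Finset.disjoint_left]
      intro v hv hv'
      have h3 := h1 hv
      simp only [hGd, Finset.mem_filter, Finset.mem_sdiff] at h3
      exact h3.1.1.2 hv'
    · rw [Finset.disjoint_left]
      intro v hv hv'
      have h3 := h1 hv
      simp only [hGd, Finset.mem_filter, Finset.mem_sdiff, Finset.mem_biUnion] at h3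
      exact h3.2 ⟨j, hj, hv'⟩
    · have h3 := h1 hv
      simp only [hGd, Finset.mem_filter, Finset.mem_sdiff] at h3
      exact h3.1.2

end Pool.Agent.Helper95.BC
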