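import Mathlib

/-!
# Greedy choice with a potential
-/

set_option autoImplicit false

namespace Pool.Agent.Helper95.BC

open Finset

open Classical in
theorem greedy_potential {R Tk O : Type} [Inhabited O] (rows : Finset R) (tasks : Finset Tk)
    (hit : R → Tk → O → Prop) (ok : Finset Tk → (Tk → O) → Prop) (s : ℕ) (hs : 1 ≤ s)
    (h0 : ∃ f, ok ∅ f)
    (hstep : ∀ F ⊆ tasks, ∀ f, ok F f → ∀ τ ∈ tasks, τ ∉ F → ∃ A : Finset O, s ≤ A.card ∧
      (∀ j ∈ rows, (A.filter (fun o => hit j τ o)).card ≤ 1) ∧
      ∀ o ∈ A, ok (insert τ F) (Function.update f τ o)) :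
    ∃ f, ok tasks f ∧ ∀ j ∈ rows, (2 : ℝ) ^ (tasks.filter (fun τ => hit j τ (f τ))).card ≤
      rows.card * (1 + 1 / (s : ℝ)) ^ tasks.card := by
  have hs0 : (0 : ℝ) < s := by exact_mod_cast hs
  have key : ∀ F : Finset Tk, F ⊆ tasks → ∃ f, ok F f ∧
      ∑ j ∈ rows, (2 : ℝ) ^ (F.filter (fun τ => hit j τ (f τ))).card ≤
        rows.card * (1 + 1 / (s : ℝ)) ^ F.card := by
    intro F
    induction F using Finset.induction_on with
    | empty =>
      intro _
      obtain ⟨f, hf⟩ := h0
      exact ⟨f, hf, by simp⟩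
    | insert τ F hτ ih =>
      intro hF
      have hF' : F ⊆ tasks := (Finset.subset_insert τ F).trans hF
      obtain ⟨f, hf, hsum⟩ := ih hF'
      obtain ⟨A, hA, hA1, hA2⟩ := hstep F hF' f hf τ (hF (Finset.mem_insert_self τ F)) hτ
      set n : R → ℕ := fun j => (F.filter (fun τ => hit j τ (f τ))).card with hn
      set Φ : ℝ := ∑ j ∈ rows, (2 : ℝ) ^ n j with hΦ
      have hΦ0 : 0 ≤ Φ := by positivity
      have hAp : (0 : ℝ) < A.card := by
        have : (s : ℝ) ≤ A.card := by exact_mod_cast hA
        linarith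
      have hAne : A.Nonempty := Finset.card_pos.1 (by exact_mod_cast hAp)
      -- the average over the options
      have h1 : ∑ o ∈ A, ∑ j ∈ rows, (if hit j τ o then (2 : ℝ) ^ n j else 0) ≤
          ∑ _o ∈ A, Φ / A.card := by
        rw [Finset.sum_const, nsmul_eq_mul, mul_div_cancel₀ _ hAp.ne', Finset.sum_comm]
        refine Finset.sum_le_sum fun j hj => ?_
        rw [← Finset.sum_filter, Finset.sum_const, nsmul_eq_mul]
        have h2 : (((A.filter (fun o => hit j τ o)).card : ℕ) : ℝ) ≤ 1 := by
          exact_mod_cast hA1 j hj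
        have h3 : (0 : ℝ) ≤ 2 ^ n j := by positivity
        nlinarith
      obtain ⟨o, ho, ho1⟩ := Finset.exists_le_of_sum_le hAne h1
      refine ⟨Function.update f τ o, hA2 o ho, ?_⟩
      have h4 : ∀ j, (2 : ℝ) ^ ((insert τ F).filter
          (fun τ' => hit j τ' (Function.update f τ o τ'))).card =
          (2 : ℝ) ^ n j + (if hit j τ o then (2 : ℝ) ^ n j else 0) := by
        intro j
        have h5 : F.filter (fun τ' => hit j τ' (Function.update f τ o τ')) =
            F.filter (fun τ' => hit j τ' (f τ')) := by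
          refine Finset.filter_congr fun τ' hτ' => ?_
          have h6 : τ' ≠ τ := by
            rintro rfl
            exact hτ hτ'
          rw [Function.update_of_ne h6]
        rw [Finset.filter_insert, Function.update_self, h5]
        split_ifs with h6
        · rw [Finset.card_insert_of_notMem (fun h => hτ (Finset.mem_filter.1 h).1), pow_succ]
          ring
        · rw [add_zero]
      simp_rw [h4]
      rw [Finset.sum_add_distrib, Finset.card_insert_of_notMem hτ, ← hΦ]
      have h7 : Φ / A.card ≤ Φ / s := by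
        refine div_le_div_of_nonneg_left hΦ0 hs0 ?_
        exact_mod_cast hA
      calc Φ + ∑ j ∈ rows, (if hit j τ o then (2 : ℝ) ^ n j else 0) ≤ Φ + Φ / s := by
            linarith
        _ = Φ * (1 + 1 / (s : ℝ)) := by ring
        _ ≤ rows.card * (1 + 1 / (s : ℝ)) ^ F.card * (1 + 1 / (s : ℝ)) :=
            mul_le_mul_of_nonneg_right hsum (by positivity)
        _ = rows.card * (1 + 1 / (s : ℝ)) ^ (F.card + 1) := by ring
  obtain ⟨f, hf, hsum⟩ := key tasks (Finset.Subset.refl _)
  refine ⟨f, hf, fun j hj => ?_⟩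
  refine le_trans ?_ hsum
  exact Finset.single_le_sum
    (f := fun j => (2 : ℝ) ^ (tasks.filter (fun τ => hit j τ (f τ))).card)
    (fun j _ => by positivity) hj

end Pool.Agent.Helper95.BC
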