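import Pool.Agent.Helper95.BC.Sys
import Pool.Agent.Helper95.BC.P2a

/-!
# The labels of the vertices in `B`
-/

set_option autoImplicit false

namespace Pool.Agent.Helper95.BC

theorem p2b_mem {α : Type} {p : α → Prop} {i : DecidablePred p} {s : Finset α} {a : α}
    (h : a ∈ @Finset.filter α p i s) : p a :=
  (Finset.mem_filter.1 h).2

theorem p2b_filter {α : Type} (p : α → Prop) (i₁ i₂ : DecidablePred p) (s : Finset α) :
    (@Finset.filter α p i₁ s).card = (@Finset.filter α p i₂ s).card := by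
  apply le_antisymm
  · apply Finset.card_le_card
    intro x hx
    exact (@Finset.mem_filter α p i₂ s x).2 ((@Finset.mem_filter α p i₁ s x).1 hx)
  · apply Finset.card_le_card
    intro x hx
    exact (@Finset.mem_filter α p i₁ s x).2 ((@Finset.mem_filter α p i₂ s x).1 hx)

open Classical in
theorem p2b_row {V C : Type} [Fintype V] (G : SimpleGraph V) {n T : ℕ} {δ : ℝ}
    {I : Finset V} {W : V → Finset V} (hR : RowSys G n T δ I W) (φ : V → C)
    {j : V} (hj : j ∈ I) {x : V} {c c' : C}
    (h : x ≠ j ∧ ∃ v ∈ W j, G.Adj v x ∧ φ v = c)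
    (h' : x ≠ j ∧ ∃ v ∈ W j, G.Adj v x ∧ φ v = c') : c = c' := by
  obtain ⟨hxj, v, hv, hvx, hc⟩ := h
  obtain ⟨_, w, hw, hwx, hc'⟩ := h'
  have h1 : v ∈ nbr G j ∩ nbr G x :=
    Finset.mem_inter.2 ⟨hR.sub j hj hv, mem_nbr.2 (SimpleGraph.Adj.symm hvx)⟩
  have h2 : w ∈ nbr G j ∩ nbr G x :=
    Finset.mem_inter.2 ⟨hR.sub j hj hw, mem_nbr.2 (SimpleGraph.Adj.symm hwx)⟩
  have h3 : v = w := Finset.card_le_one.1 (hR.c4.card_le_one (Ne.symm hxj)) v h1 w h2
  rw [← hc, ← hc', h3]

open Classical in
theorem p2b_card {V C : Type} {F B : Finset V} (hF : F ⊆ B) (P : Finset C) (p : C → Prop)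
    (f : V → C) (s b₁ : ℕ) (hb : (P.filter (fun c => p c)).card ≤ b₁)
    (h1 : B.card + b₁ + s ≤ P.card) :
    s ≤ (P.filter (fun c => ¬ (p c ∨ c ∈ F.image f))).card := by
  have h2 : P ⊆ P.filter (fun c => ¬ (p c ∨ c ∈ F.image f)) ∪
      (P.filter (fun c => p c) ∪ F.image f) := by
    intro c hc
    by_cases h : p c ∨ c ∈ F.image f
    · rcases h with h | h
      · exact Finset.mem_union_right _ (Finset.mem_union_left _ (Finset.mem_filter.2 ⟨hc, h⟩))
      · exact Finset.mem_union_right _ (Finset.mem_union_right _ h)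
    · exact Finset.mem_union_left _ (Finset.mem_filter.2 ⟨hc, h⟩)
  have h3 := Finset.card_le_card h2
  have h4 := Finset.card_union_le (P.filter (fun c => ¬ (p c ∨ c ∈ F.image f)))
    (P.filter (fun c => p c) ∪ F.image f)
  have h5 := Finset.card_union_le (P.filter (fun c => p c)) (F.image f)
  have h6 : (F.image f).card ≤ F.card := Finset.card_image_le
  have h7 := Finset.card_le_card hF
  omega

open Classical in
theorem labels_B {V C : Type} [Fintype V] [Inhabited C] (G : SimpleGraph V) {n T : ℕ} {δ : ℝ}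
    {I : Finset V} {W : V → Finset V} (hR : RowSys G n T δ I W) (φ : V → C)
    (B : Finset V) (P : Finset C) (bad : V → C → Prop) (s b₁ : ℕ) (hs : 1 ≤ s)
    (hbad : ∀ x ∈ B, (P.filter (fun c => bad x c)).card ≤ b₁)
    (h1 : B.card + b₁ + s ≤ P.card) :
    ∃ l : V → C, (∀ x ∈ B, l x ∈ P ∧ ¬ bad x (l x)) ∧ Set.InjOn l (B : Set V) ∧
      ∀ j ∈ I, (2 : ℝ) ^ (B.filter (fun x => x ≠ j ∧ ∃ v ∈ W j, G.Adj v x ∧ φ v = l x)).card ≤
        I.card * (1 + 1 / (s : ℝ)) ^ B.card := by
  obtain ⟨l, ⟨hl1, hl2⟩, hl3⟩ := greedy_potential I B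
    (fun (j x : V) (c : C) => x ≠ j ∧ ∃ v ∈ W j, G.Adj v x ∧ φ v = c)
    (fun (F : Finset V) (f : V → C) =>
      (∀ x ∈ F, f x ∈ P ∧ ¬ bad x (f x)) ∧ Set.InjOn f (F : Set V)) s hs
    ⟨fun _ => default, by
      refine ⟨fun x hx => absurd hx (Finset.notMem_empty x), ?_⟩
      intro x hx
      exact absurd hx (Finset.notMem_empty x)⟩
    (by
      intro F hF f hf x hxB hxF
      refine ⟨P.filter (fun c => ¬ (bad x c ∨ c ∈ F.image f)),
        p2b_card hF P (fun c => bad x c) f s b₁ (hbad x hxB) h1, ?_, ?_⟩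
      · intro j hj
        rw [Finset.card_le_one]
        intro c hc c' hc'
        have e1 := p2b_mem hc
        have e2 := p2b_mem hc'
        exact p2b_row G hR φ hj e1 e2
      · intro c hc
        obtain ⟨hcP, hc1⟩ := Finset.mem_filter.1 hc
        have hc2 : ¬ bad x c := fun h => hc1 (Or.inl h)
        have hc3 : c ∉ F.image f := fun h => hc1 (Or.inr h)
        have hne : ∀ y ∈ F, y ≠ x := fun y hy h => hxF (h ▸ hy)
        have hup : ∀ y ∈ F, Function.update f x c y = f y := fun y hy =>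
          Function.update_of_ne (hne y hy) c f
        have hux : Function.update f x c x = c := Function.update_self x c f
        refine ⟨?_, ?_⟩
        · intro y hy
          rcases Finset.mem_insert.1 hy with hy | hy
          · rw [hy, hux]
            exact ⟨hcP, hc2⟩
          · rw [hup y hy]
            exact hf.1 y hy
        · intro y hy z hz hyz
          rcases Finset.mem_insert.1 (Finset.mem_coe.1 hy) with hy | hy
          · rcases Finset.mem_insert.1 (Finset.mem_coe.1 hz) with hz | hz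
            · rw [hy, hz]
            · exfalso
              rw [hy, hux, hup z hz] at hyz
              exact hc3 (Finset.mem_image.2 ⟨z, hz, hyz.symm⟩)
          · rcases Finset.mem_insert.1 (Finset.mem_coe.1 hz) with hz | hz
            · exfalso
              rw [hz, hux, hup y hy] at hyz
              exact hc3 (Finset.mem_image.2 ⟨y, hy, hyz⟩)
            · rw [hup y hy, hup z hz] at hyz
              exact hf.2 (Finset.mem_coe.2 hy) (Finset.mem_coe.2 hz) hyz)
  refine ⟨l, hl1, hl2, ?_⟩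
  intro j hj
  have h := hl3 j hj
  rw [p2b_filter (fun x => x ≠ j ∧ ∃ v ∈ W j, G.Adj v x ∧ φ v = l x) _
    (fun a => Classical.propDecidable _) B]
  exact h

end Pool.Agent.Helper95.BC
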