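import Pool.Agent.Helper95.BC.Sys
import Pool.Agent.Helper95.BC.P2a

/-!
# Piece P2c: the colours on the neighbours of the special vertices
-/

set_option autoImplicit false

namespace Pool.Agent.Helper95.BC

open Classical in
/-- greedy_potential without the choice of instances -/
theorem p2c_greedy {R Tk O : Type} [Inhabited O] (rows : Finset R) (tasks : Finset Tk)
    (hit : R → Tk → O → Prop) (ok : Finset Tk → (Tk → O) → Prop) (s : ℕ) (hs : 1 ≤ s)
    (h0 : ∃ f, ok ∅ f)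
    (hstep : ∀ F ⊆ tasks, ∀ f, ok F f → ∀ τ ∈ tasks, τ ∉ F → ∃ A : Finset O, s ≤ A.card ∧
      (∀ j ∈ rows, ∀ w ∈ A, ∀ w' ∈ A, hit j τ w → hit j τ w' → w = w') ∧
      ∀ o ∈ A, ∀ (F' : Finset Tk) (f' : Tk → O), (∀ b ∈ F', b = τ ∨ b ∈ F) → f' τ = o →
        (∀ b ∈ F, f' b = f b) → ok F' f') :
    ∃ f, ok tasks f ∧ ∀ j ∈ rows, ∀ Z : Finset Tk, (∀ τ ∈ Z, τ ∈ tasks ∧ hit j τ (f τ)) →
      (2 : ℝ) ^ Z.card ≤ rows.card * (1 + 1 / (s : ℝ)) ^ tasks.card := by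
  have key := greedy_potential rows tasks hit ok s hs h0 (by
    intro F hF f hf τ hτ hτF
    obtain ⟨A, hA1, hA2, hA3⟩ := hstep F hF f hf τ hτ hτF
    refine ⟨A, hA1, ?_, ?_⟩
    · intro j hj
      rw [Finset.card_le_one]
      intro w hw w' hw'
      obtain ⟨w1, w2⟩ := Finset.mem_filter.1 hw
      obtain ⟨w1', w2'⟩ := Finset.mem_filter.1 hw'
      exact hA2 j hj w w1 w' w1' w2 w2'
    · intro o ho
      refine hA3 o ho _ _ (fun b hb => Finset.mem_insert.1 hb) (Function.update_self _ _ _) ?_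
      intro b hb
      apply Function.update_of_ne
      intro h
      apply hτF
      rw [← h]
      exact hb)
  obtain ⟨f, hf, hpot⟩ := key
  refine ⟨f, hf, ?_⟩
  intro j hj Z hZ
  refine le_trans (pow_le_pow_right₀ (by norm_num) (Finset.card_le_card ?_)) (hpot j hj)
  intro τ hτ
  exact Finset.mem_filter.2 (hZ τ hτ)

/-- the choices `f` for the tasks in `F` are fine -/
def P2cOk {V C : Type} (G : SimpleGraph V) (B : Finset V) (bad : V → C → Prop) (l : V → C)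
    (F : Finset (V × C)) (f : V × C → V) : Prop :=
  ∀ a ∈ F, G.Adj a.1 (f a) ∧ f a ∉ B ∧ ¬ bad (f a) a.2 ∧
    (∀ x ∈ B, G.Adj (f a) x → l x ≠ a.2) ∧
    ∀ b ∈ F, (f a = f b → a = b) ∧ (a.2 = b.2 → ¬ G.Adj (f a) (f b))

open Classical in
/-- the neighbours of `i` in `B` and the vertices already used for `i` -/
theorem p2c_own {V C : Type} [Fintype V] (G : SimpleGraph V) (B : Finset V)
    (P : Finset C) (l : V → C) (hl : Set.InjOn l (B : Set V)) (hlP : ∀ x ∈ B, l x ∈ P)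
    (F : Finset (V × C))
    (hF : ∀ a ∈ F, a.2 ∈ P ∧ ¬ ∃ x ∈ B, G.Adj a.1 x ∧ l x = a.2) (f : V × C → V) (i : V) :
    ((nbr G i ∩ B) ∪ (F.filter (fun a => a.1 = i)).image f).card ≤ P.card := by
  have h1 : (nbr G i ∩ B).card = ((nbr G i ∩ B).image l).card := by
    rw [Finset.card_image_of_injOn]
    intro x hx y hy hxy
    exact hl (Finset.mem_coe.2 (Finset.mem_inter.1 (Finset.mem_coe.1 hx)).2)
      (Finset.mem_coe.2 (Finset.mem_inter.1 (Finset.mem_coe.1 hy)).2) hxy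
  have h2 : (F.filter (fun a => a.1 = i)).card =
      ((F.filter (fun a => a.1 = i)).image Prod.snd).card := by
    rw [Finset.card_image_of_injOn]
    intro a ha b hb hab
    have ha' := (Finset.mem_filter.1 (Finset.mem_coe.1 ha)).2
    have hb' := (Finset.mem_filter.1 (Finset.mem_coe.1 hb)).2
    exact Prod.ext (ha'.trans hb'.symm) hab
  have h3 : Disjoint ((nbr G i ∩ B).image l) ((F.filter (fun a => a.1 = i)).image Prod.snd) := by
    rw [Finset.disjoint_left]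
    intro c hc hc'
    obtain ⟨x, hx, hxc⟩ := Finset.mem_image.1 hc
    obtain ⟨a, ha, hac⟩ := Finset.mem_image.1 hc'
    obtain ⟨ha1, ha2⟩ := Finset.mem_filter.1 ha
    obtain ⟨hx1, hx2⟩ := Finset.mem_inter.1 hx
    refine (hF a ha1).2 ⟨x, hx2, ?_, hxc.trans hac.symm⟩
    rw [ha2]
    exact mem_nbr.1 hx1
  have h4 : ((nbr G i ∩ B).image l) ∪ ((F.filter (fun a => a.1 = i)).image Prod.snd) ⊆ P := by
    refine Finset.union_subset ?_ ?_
    · intro c hc
      obtain ⟨x, hx, hxc⟩ := Finset.mem_image.1 hc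
      rw [← hxc]
      exact hlP x (Finset.mem_inter.1 hx).2
    · intro c hc
      obtain ⟨a, ha, hac⟩ := Finset.mem_image.1 hc
      rw [← hac]
      exact (hF a (Finset.mem_filter.1 ha).1).1
  have h5 := Finset.card_le_card h4
  rw [Finset.card_union_of_disjoint h3, ← h1, ← h2] at h5
  have h6 := Finset.card_union_le (nbr G i ∩ B) ((F.filter (fun a => a.1 = i)).image f)
  have h7 : ((F.filter (fun a => a.1 = i)).image f).card ≤ (F.filter (fun a => a.1 = i)).card :=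
    Finset.card_image_le
  omega

open Classical in
/-- the vertices used for the other special vertices -/
theorem p2c_other {V C : Type} [Fintype V] (G : SimpleGraph V) (hC4 : C4Free G) (J : Finset V)
    (F : Finset (V × C)) (f : V × C → V)
    (hF : ∀ a ∈ F, a.1 ∈ J ∧ G.Adj a.1 (f a)) (i : V) :
    (nbr G i ∩ (F.filter (fun a => a.1 ≠ i)).image f).card ≤ J.card := by
  have h1 : nbr G i ∩ (F.filter (fun a => a.1 ≠ i)).image f ⊆
      (J.filter (fun i' => i' ≠ i)).biUnion (fun i' => nbr G i ∩ nbr G i') := by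
    intro w hw
    obtain ⟨hw1, hw2⟩ := Finset.mem_inter.1 hw
    obtain ⟨a, ha, haw⟩ := Finset.mem_image.1 hw2
    obtain ⟨ha1, ha2⟩ := Finset.mem_filter.1 ha
    refine Finset.mem_biUnion.2 ⟨a.1, Finset.mem_filter.2 ⟨(hF a ha1).1, ha2⟩,
      Finset.mem_inter.2 ⟨hw1, ?_⟩⟩
    rw [← haw]
    exact mem_nbr.2 (hF a ha1).2
  refine (Finset.card_le_card h1).trans (Finset.card_biUnion_le.trans ?_)
  have h2 : ∑ i' ∈ J.filter (fun i' => i' ≠ i), (nbr G i ∩ nbr G i').card ≤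
      ∑ i' ∈ J.filter (fun i' => i' ≠ i), 1 :=
    Finset.sum_le_sum fun i' hi' =>
      hC4.card_le_one (Ne.symm (Finset.mem_filter.1 hi').2)
  refine h2.trans ?_
  rw [Finset.sum_const, smul_eq_mul, mul_one]
  exact Finset.card_filter_le _ _

open Classical in
/-- the vertices adjacent to one used with the same colour -/
theorem p2c_same {V C : Type} [Fintype V] (G : SimpleGraph V) (hC4 : C4Free G) (B J : Finset V)
    (F : Finset (V × C)) (f : V × C → V)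
    (hF : ∀ a ∈ F, a.1 ∈ J ∧ f a ∉ B) (i : V) (hi : i ∈ B) (c : C) :
    ((nbr G i).filter (fun w => ∃ b ∈ F, b.2 = c ∧ G.Adj w (f b))).card ≤ J.card := by
  have h1 : (nbr G i).filter (fun w => ∃ b ∈ F, b.2 = c ∧ G.Adj w (f b)) ⊆
      (J.filter (fun i' => (i', c) ∈ F)).biUnion (fun i' => nbr G i ∩ nbr G (f (i', c))) := by
    intro w hw
    obtain ⟨hw1, b, hb, hbc, hwb⟩ := Finset.mem_filter.1 hw
    have hb' : (b.1, c) = b := Prod.ext rfl hbc.symm
    refine Finset.mem_biUnion.2 ⟨b.1, Finset.mem_filter.2 ⟨(hF b hb).1, ?_⟩,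
      Finset.mem_inter.2 ⟨hw1, ?_⟩⟩
    · rw [hb']
      exact hb
    · rw [hb']
      exact mem_nbr.2 hwb.symm
  refine (Finset.card_le_card h1).trans (Finset.card_biUnion_le.trans ?_)
  have h2 : ∑ i' ∈ J.filter (fun i' => (i', c) ∈ F), (nbr G i ∩ nbr G (f (i', c))).card ≤
      ∑ i' ∈ J.filter (fun i' => (i', c) ∈ F), 1 :=
    Finset.sum_le_sum fun i' hi' => hC4.card_le_one (by
      intro h
      refine (hF _ (Finset.mem_filter.1 hi').2).2 ?_
      rw [← h]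
      exact hi)
  refine h2.trans ?_
  rw [Finset.sum_const, smul_eq_mul, mul_one]
  exact Finset.card_filter_le _ _

open Classical in
/-- the vertices adjacent to the vertex of `B` labelled `c` -/
theorem p2c_label {V C : Type} [Fintype V] (G : SimpleGraph V) (hC4 : C4Free G) (B : Finset V)
    (l : V → C) (hl : Set.InjOn l (B : Set V)) (i : V) (c : C) (hc : c ≠ l i) :
    ((nbr G i).filter (fun w => ∃ x ∈ B, G.Adj w x ∧ l x = c)).card ≤ 1 := by
  by_cases hx : ∃ x ∈ B, l x = c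
  · obtain ⟨x, hxB, hxc⟩ := hx
    have hxi : i ≠ x := by
      intro h
      apply hc
      rw [h, hxc]
    refine le_trans (Finset.card_le_card ?_) (hC4.card_le_one hxi)
    intro w hw
    obtain ⟨hw1, y, hy, hwy, hyc⟩ := Finset.mem_filter.1 hw
    have hyx : y = x := hl (Finset.mem_coe.2 hy) (Finset.mem_coe.2 hxB) (hyc.trans hxc.symm)
    rw [hyx] at hwy
    exact Finset.mem_inter.2 ⟨hw1, mem_nbr.2 hwy.symm⟩
  · have h0 : (nbr G i).filter (fun w => ∃ x ∈ B, G.Adj w x ∧ l x = c) = ∅ := by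
      rw [Finset.filter_eq_empty_iff]
      rintro w _ ⟨x, hxB, _, hxc⟩
      exact hx ⟨x, hxB, hxc⟩
    rw [h0]
    simp

open Classical in
/-- many options are left for the task `(i, c)` -/
theorem p2c_options {V C : Type} [Fintype V] (G : SimpleGraph V) (hC4 : C4Free G)
    (B J : Finset V) (P : Finset C) (bad : V → C → Prop) (l : V → C)
    (t s b₂ : ℕ) (hJB : J ⊆ B) (hJ : J.card ≤ t)
    (hl : Set.InjOn l (B : Set V)) (hlP : ∀ x ∈ B, l x ∈ P)
    (F : Finset (V × C))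
    (hF : ∀ a ∈ F, a.1 ∈ J ∧ a.2 ∈ P ∧ ¬ ∃ x ∈ B, G.Adj a.1 x ∧ l x = a.2)
    (f : V × C → V) (hf : P2cOk G B bad l F f) (i : V) (hi : i ∈ J) (c : C) (hcl : c ≠ l i)
    (hbad : ((nbr G i).filter (fun w => bad w c)).card ≤ b₂)
    (h2 : P.card + 2 * t + 1 + b₂ + s ≤ (nbr G i).card) :
    s ≤ ((nbr G i).filter (fun w => w ∉ B ∧ ¬ bad w c ∧ (∀ x ∈ B, G.Adj w x → l x ≠ c) ∧
      ∀ b ∈ F, w ≠ f b ∧ (b.2 = c → ¬ G.Adj w (f b)))).card := by
  set A := (nbr G i).filter (fun w => w ∉ B ∧ ¬ bad w c ∧ (∀ x ∈ B, G.Adj w x → l x ≠ c) ∧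
      ∀ b ∈ F, w ≠ f b ∧ (b.2 = c → ¬ G.Adj w (f b))) with hA
  set X1 := (nbr G i ∩ B) ∪ (F.filter (fun a => a.1 = i)).image f with hX1
  set X2 := nbr G i ∩ (F.filter (fun a => a.1 ≠ i)).image f with hX2
  set X3 := (nbr G i).filter (fun w => bad w c) with hX3
  set X4 := (nbr G i).filter (fun w => ∃ x ∈ B, G.Adj w x ∧ l x = c) with hX4
  set X5 := (nbr G i).filter (fun w => ∃ b ∈ F, b.2 = c ∧ G.Adj w (f b)) with hX5
  have h1 : X1.card ≤ P.card := p2c_own G B P l hl hlP F (fun a ha => (hF a ha).2) f i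
  have h2' : X2.card ≤ J.card :=
    p2c_other G hC4 J F f (fun a ha => ⟨(hF a ha).1, (hf a ha).1⟩) i
  have h4 : X4.card ≤ 1 := p2c_label G hC4 B l hl i c hcl
  have h5 : X5.card ≤ J.card :=
    p2c_same G hC4 B J F f (fun a ha => ⟨(hF a ha).1, (hf a ha).2.1⟩) i (hJB hi) c
  have h6 : nbr G i ⊆ A ∪ (X1 ∪ (X2 ∪ (X3 ∪ (X4 ∪ X5)))) := by
    intro w hw
    by_cases hwA : w ∈ A
    · exact Finset.mem_union_left _ hwA
    refine Finset.mem_union_right _ ?_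
    by_contra hn
    apply hwA
    simp only [Finset.mem_union, not_or] at hn
    obtain ⟨n1, n2, n3, n4, n5⟩ := hn
    have hwB : w ∉ B := fun h => n1 (Finset.mem_union_left _ (Finset.mem_inter.2 ⟨hw, h⟩))
    refine Finset.mem_filter.2 ⟨hw, hwB, fun h => n3 (Finset.mem_filter.2 ⟨hw, h⟩),
      fun x hx hwx hxc => n4 (Finset.mem_filter.2 ⟨hw, x, hx, hwx, hxc⟩),
      fun b hb => ⟨fun hwb => ?_, fun hbc hwb =>
        n5 (Finset.mem_filter.2 ⟨hw, b, hb, hbc, hwb⟩)⟩⟩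
    by_cases hbi : b.1 = i
    · exact n1 (Finset.mem_union_right _
        (Finset.mem_image.2 ⟨b, Finset.mem_filter.2 ⟨hb, hbi⟩, hwb.symm⟩))
    · exact n2 (Finset.mem_inter.2 ⟨hw,
        Finset.mem_image.2 ⟨b, Finset.mem_filter.2 ⟨hb, hbi⟩, hwb.symm⟩⟩)
  have h7 := Finset.card_le_card h6
  have u1 := Finset.card_union_le A (X1 ∪ (X2 ∪ (X3 ∪ (X4 ∪ X5))))
  have u2 := Finset.card_union_le X1 (X2 ∪ (X3 ∪ (X4 ∪ X5)))
  have u3 := Finset.card_union_le X2 (X3 ∪ (X4 ∪ X5))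
  have u4 := Finset.card_union_le X3 (X4 ∪ X5)
  have u5 := Finset.card_union_le X4 X5
  omega

/-- a row is hit by at most one option -/
theorem p2c_hit {V C : Type} [Fintype V] (G : SimpleGraph V) (hC4 : C4Free G) (Wj : Finset V)
    (φ : V → C) (hφ : Set.InjOn φ (Wj : Set V)) (i : V) (hi : i ∉ Wj) (c : C) (w w' : V)
    (hw : w ∈ nbr G i) (hw' : w' ∈ nbr G i)
    (h : ∃ v ∈ Wj, G.Adj v w ∧ φ v = c) (h' : ∃ v ∈ Wj, G.Adj v w' ∧ φ v = c) : w = w' := by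
  obtain ⟨v, hv, hvw, hvc⟩ := h
  obtain ⟨v', hv', hvw', hvc'⟩ := h'
  have hvv : v' = v := hφ (Finset.mem_coe.2 hv') (Finset.mem_coe.2 hv) (hvc'.trans hvc.symm)
  rw [hvv] at hvw'
  by_contra hne
  have hvi : i ≠ v := by
    intro h
    apply hi
    rw [h]
    exact hv
  exact hC4 i v w w' hvi hne (mem_nbr.1 hw) hvw.symm hvw' (mem_nbr.1 hw').symm

/-- one more task -/
theorem p2c_insert {V C : Type} (G : SimpleGraph V) (B : Finset V) (bad : V → C → Prop)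
    (l : V → C) (F F' : Finset (V × C)) (f f' : V × C → V) (hf : P2cOk G B bad l F f)
    (a : V × C) (w : V) (hF' : ∀ b ∈ F', b = a ∨ b ∈ F) (hself : f' a = w)
    (hup : ∀ b ∈ F, f' b = f b) (hiw : G.Adj a.1 w) (hwB : w ∉ B) (hwb : ¬ bad w a.2)
    (hwx : ∀ x ∈ B, G.Adj w x → l x ≠ a.2)
    (hwF : ∀ b ∈ F, w ≠ f b ∧ (b.2 = a.2 → ¬ G.Adj w (f b))) :
    P2cOk G B bad l F' f' := by
  intro d hd
  rcases hF' d hd with hd | hd
  · subst hd
    rw [hself]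
    refine ⟨hiw, hwB, hwb, hwx, ?_⟩
    intro b hb
    rcases hF' b hb with hb | hb
    · subst hb
      rw [hself]
      exact ⟨fun _ => rfl, fun _ => G.irrefl⟩
    · rw [hup b hb]
      exact ⟨fun h => absurd h (hwF b hb).1, fun h => (hwF b hb).2 h.symm⟩
  · rw [hup d hd]
    obtain ⟨a1, a2, a3, a4, a5⟩ := hf d hd
    refine ⟨a1, a2, a3, a4, ?_⟩
    intro b hb
    rcases hF' b hb with hb | hb
    · subst hb
      rw [hself]
      exact ⟨fun h => absurd h.symm (hwF d hd).1,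
        fun h h' => (hwF d hd).2 h h'.symm⟩
    · rw [hup b hb]
      exact a5 b hb

open Classical in
theorem labels_S {V C : Type} [Fintype V] [Inhabited V] (G : SimpleGraph V) {n T : ℕ} {δ : ℝ}
    {I : Finset V} {W : V → Finset V} (hR : RowSys G n T δ I W) (φ : V → C)
    (hφ : RowCol G I W φ) (B J : Finset V) (P : Finset C) (bad : V → C → Prop) (l : V → C)
    (t s b₂ : ℕ) (hs : 1 ≤ s) (hJB : J ⊆ B) (hJ : J.card ≤ t)
    (hWB : ∀ j ∈ I, Disjoint (W j) B) (hl : Set.InjOn l (B : Set V)) (hlP : ∀ x ∈ B, l x ∈ P)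
    (hbad : ∀ i ∈ J, ∀ c ∈ P, ((nbr G i).filter (fun w => bad w c)).card ≤ b₂)
    (h2 : ∀ i ∈ J, P.card + 2 * t + 1 + b₂ + s ≤ (nbr G i).card) :
    ∃ f : V × C → V,
      (∀ i ∈ J, ∀ c ∈ P, c ≠ l i → (¬ ∃ x ∈ B, G.Adj i x ∧ l x = c) →
        G.Adj i (f (i, c)) ∧ f (i, c) ∉ B ∧ ¬ bad (f (i, c)) c ∧
        (∀ x ∈ B, G.Adj (f (i, c)) x → l x ≠ c) ∧
        ∀ i' ∈ J, ∀ c' ∈ P, c' ≠ l i' → (¬ ∃ x ∈ B, G.Adj i' x ∧ l x = c') →
          (f (i, c) = f (i', c') → i = i' ∧ c = c') ∧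
          (c = c' → ¬ G.Adj (f (i, c)) (f (i', c')))) ∧
      ∀ j ∈ I, (2 : ℝ) ^ ((J ×ˢ P).filter (fun a => (a.2 ≠ l a.1 ∧
          ¬ ∃ x ∈ B, G.Adj a.1 x ∧ l x = a.2) ∧
          ∃ v ∈ W j, G.Adj v (f a) ∧ φ v = a.2)).card ≤
        I.card * (1 + 1 / (s : ℝ)) ^ (t * P.card) := by
  set tasks : Finset (V × C) := (J ×ˢ P).filter (fun a => a.2 ≠ l a.1 ∧
          ¬ ∃ x ∈ B, G.Adj a.1 x ∧ l x = a.2) with htasks
  have hmem : ∀ a, a ∈ tasks ↔ (a.1 ∈ J ∧ a.2 ∈ P) ∧ a.2 ≠ l a.1 ∧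
      ¬ ∃ x ∈ B, G.Adj a.1 x ∧ l x = a.2 := by
    intro a
    rw [htasks, Finset.mem_filter, Finset.mem_product]
  have key := p2c_greedy I tasks
    (fun (j : V) (a : V × C) (w : V) => ∃ v ∈ W j, G.Adj v w ∧ φ v = a.2)
    (fun F f => P2cOk G B bad l F f) s hs
    ⟨fun _ => default, fun a ha => absurd ha (Finset.notMem_empty a)⟩
    (by
      intro F hFt f hf a ha haF
      obtain ⟨⟨ha1, ha2⟩, ha3, ha4⟩ := (hmem a).1 ha
      refine ⟨_, p2c_options G hR.c4 B J P bad l t s b₂ hJB hJ hl hlP F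
        (fun b hb => ⟨((hmem b).1 (hFt hb)).1.1, ((hmem b).1 (hFt hb)).1.2,
          ((hmem b).1 (hFt hb)).2.2⟩) f hf a.1 ha1 a.2 ha3 (hbad a.1 ha1 a.2 ha2)
          (h2 a.1 ha1), ?_, ?_⟩
      · intro j hj w hw w' hw' hh hh'
        exact p2c_hit G hR.c4 (W j) φ (hφ.inj j hj) a.1
          (fun h => (Finset.disjoint_left.1 (hWB j hj) h) (hJB ha1)) a.2 w w'
          (Finset.mem_filter.1 hw).1 (Finset.mem_filter.1 hw').1 hh hh'
      · intro w hw F' f' hF' hself hup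
        obtain ⟨w1, w2, w3, w4, w5⟩ := Finset.mem_filter.1 hw
        exact p2c_insert G B bad l F F' f f' hf a w hF' hself hup (mem_nbr.1 w1) w2 w3 w4 w5)
  obtain ⟨f, hf, hpot⟩ := key
  refine ⟨f, ?_, ?_⟩
  · intro i hi c hc hcl hcx
    obtain ⟨f1, f2, f3, f4, f5⟩ := hf (i, c) ((hmem (i, c)).2 ⟨⟨hi, hc⟩, hcl, hcx⟩)
    refine ⟨f1, f2, f3, f4, ?_⟩
    intro i' hi' c' hc' hcl' hcx'
    obtain ⟨g1, g2⟩ := f5 (i', c') ((hmem (i', c')).2 ⟨⟨hi', hc'⟩, hcl', hcx'⟩)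
    exact ⟨fun h => ⟨congrArg Prod.fst (g1 h), congrArg Prod.snd (g1 h)⟩, g2⟩
  · intro j hj
    refine (hpot j hj _ ?_).trans ?_
    · intro a ha
      obtain ⟨a1, a2, a3⟩ := Finset.mem_filter.1 ha
      exact ⟨(hmem a).2 ⟨Finset.mem_product.1 a1, a2⟩, a3⟩
    refine mul_le_mul_of_nonneg_left ?_ (Nat.cast_nonneg _)
    refine pow_le_pow_right₀ ?_ ?_
    · have : (0 : ℝ) ≤ 1 / (s : ℝ) := by positivity
      linarith
    · refine (Finset.card_filter_le _ _).trans ?_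
      rw [Finset.card_product]
      exact Nat.mul_le_mul_right _ hJ

end Pool.Agent.Helper95.BC
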