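import Pool.Agent.Helper95.BC.P2g
import Pool.Agent.Helper95.BC.P2b
import Pool.Agent.Helper95.BC.P2c

/-!
# Labels with slack
-/

set_option autoImplicit false

namespace Pool.Agent.Helper95.BC

open Classical in
/-- the labels of `B` and of the chosen neighbours of the special vertices -/
theorem slack_labels {V C : Type} [Fintype V] (G : SimpleGraph V) {n T : ℕ} {δ : ℝ}
    {I : Finset V} {W : V → Finset V} (hR : RowSys G n T δ I W) (φ : V → C)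
    (hφ : RowCol G I W φ) (B J : Finset V) (P : Finset C) (bad : V → C → Prop)
    (t s b₁ b₂ : ℕ) (hs : 1 ≤ s) (hIB : I ⊆ B) (hJB : J ⊆ B) (hJ : J.card ≤ t)
    (hWB : ∀ j ∈ I, Disjoint (W j) B)
    (hbad1 : ∀ x ∈ B, (P.filter (fun c => bad x c)).card ≤ b₁)
    (hbad2 : ∀ i ∈ J, ∀ c ∈ P, ((nbr G i).filter (fun w => bad w c)).card ≤ b₂)
    (h1 : B.card + b₁ + s ≤ P.card)
    (h2 : ∀ i ∈ J, P.card + 2 * t + 1 + b₂ + s ≤ (nbr G i).card) :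
    ∃ (Q : Finset V) (l : V → C), B ⊆ Q ∧ (∀ w ∈ Q, w ∈ B ∨ ∃ i ∈ J, G.Adj i w) ∧
      (∀ x ∈ Q, l x ∈ P ∧ ¬ bad x (l x)) ∧ Set.InjOn l (B : Set V) ∧
      (∀ c, (Q.filter (fun x => l x = c)).card ≤ t + 1) ∧
      (∀ x ∈ Q, ∀ y ∈ Q, G.Adj x y → l x ≠ l y) ∧
      (∀ i ∈ J, ∀ c ∈ P, c ≠ l i → ∃ x ∈ Q, G.Adj i x ∧ l x = c) ∧
      ∀ j ∈ I, ∃ a b : ℕ, ((W j).filter (fun v => Lost G Q φ l v)).card ≤ a + b + 1 ∧
        (2 : ℝ) ^ a ≤ I.card * (1 + 1 / (s : ℝ)) ^ B.card ∧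
        (2 : ℝ) ^ b ≤ I.card * (1 + 1 / (s : ℝ)) ^ (t * P.card) := by
  by_cases hV : Nonempty V
  · obtain ⟨v₀⟩ := hV
    let _ : Inhabited V := ⟨v₀⟩
    let _ : Inhabited C := ⟨φ v₀⟩
    obtain ⟨l₁, k1, k2, k3⟩ := labels_B G hR φ B P bad s b₁ hs hbad1 h1
    obtain ⟨f, k4, k5⟩ := labels_S G hR φ hφ B J P bad l₁ t s b₂ hs hJB hJ hWB k2
      (fun x hx => (k1 x hx).1) hbad2 h2
    obtain ⟨Q, l, q1, q2, q3, q4, q5, q6, q7, q8⟩ := p2d_glue G φ hφ B J P bad t hJB hJ l₁ k1 k2 f k4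
    exact ⟨Q, l, q1, q2, q3, q4, q5, q6, q7, fun j hj => ⟨_, _, q8 j hj, k3 j hj, k5 j hj⟩⟩
  · have hI : ∀ x : V, False := fun x => hV ⟨x⟩
    refine ⟨∅, φ, fun x _ => (hI x).elim, fun x _ => (hI x).elim, fun x _ => (hI x).elim,
      fun x _ => (hI x).elim, fun c => ?_, fun x _ => (hI x).elim, fun x _ => (hI x).elim,
      fun x _ => (hI x).elim⟩
    rw [Finset.filter_empty, Finset.card_empty]
    exact Nat.zero_le _

end Pool.Agent.Helper95.BC
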