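import Pool.Agent.Helper95.BC.Sys

/-!
# Gluing the labels of `B` and the labels of the chosen neighbours of the special vertices
-/

set_option autoImplicit false

namespace Pool.Agent.Helper95.BC

open Classical in
theorem p2d_glue {V C : Type} [Fintype V] (G : SimpleGraph V)
    {I : Finset V} {W : V → Finset V} (φ : V → C)
    (hφ : RowCol G I W φ) (B J : Finset V) (P : Finset C) (bad : V → C → Prop)
    (t : ℕ) (hJB : J ⊆ B) (hJ : J.card ≤ t) (l₁ : V → C)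
    (h1 : ∀ x ∈ B, l₁ x ∈ P ∧ ¬ bad x (l₁ x)) (h2 : Set.InjOn l₁ (B : Set V))
    (f : V × C → V)
    (h3 : ∀ i ∈ J, ∀ c ∈ P, c ≠ l₁ i → (¬ ∃ x ∈ B, G.Adj i x ∧ l₁ x = c) →
        G.Adj i (f (i, c)) ∧ f (i, c) ∉ B ∧ ¬ bad (f (i, c)) c ∧
        (∀ x ∈ B, G.Adj (f (i, c)) x → l₁ x ≠ c) ∧
        ∀ i' ∈ J, ∀ c' ∈ P, c' ≠ l₁ i' → (¬ ∃ x ∈ B, G.Adj i' x ∧ l₁ x = c') →
          (f (i, c) = f (i', c') → i = i' ∧ c = c') ∧
          (c = c' → ¬ G.Adj (f (i, c)) (f (i', c')))) :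
    ∃ (Q : Finset V) (l : V → C), B ⊆ Q ∧ (∀ w ∈ Q, w ∈ B ∨ ∃ i ∈ J, G.Adj i w) ∧
      (∀ x ∈ Q, l x ∈ P ∧ ¬ bad x (l x)) ∧ Set.InjOn l (B : Set V) ∧
      (∀ c, (Q.filter (fun x => l x = c)).card ≤ t + 1) ∧
      (∀ x ∈ Q, ∀ y ∈ Q, G.Adj x y → l x ≠ l y) ∧
      (∀ i ∈ J, ∀ c ∈ P, c ≠ l i → ∃ x ∈ Q, G.Adj i x ∧ l x = c) ∧
      ∀ j ∈ I, ((W j).filter (fun v => Lost G Q φ l v)).card ≤
        (B.filter (fun x => x ≠ j ∧ ∃ v ∈ W j, G.Adj v x ∧ φ v = l₁ x)).card +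
        ((J ×ˢ P).filter (fun a => (a.2 ≠ l₁ a.1 ∧
          ¬ ∃ x ∈ B, G.Adj a.1 x ∧ l₁ x = a.2) ∧
          ∃ v ∈ W j, G.Adj v (f a) ∧ φ v = a.2)).card + 1 := by
  -- the active pairs
  obtain ⟨K, hK⟩ : ∃ K : Finset (V × C), ∀ a, a ∈ K ↔ a.1 ∈ J ∧ a.2 ∈ P ∧ a.2 ≠ l₁ a.1 ∧
      ¬ ∃ x ∈ B, G.Adj a.1 x ∧ l₁ x = a.2 := by
    refine ⟨(J ×ˢ P).filter (fun a => a.2 ≠ l₁ a.1 ∧ ¬ ∃ x ∈ B, G.Adj a.1 x ∧ l₁ x = a.2),
      fun a => ?_⟩
    rw [Finset.mem_filter, Finset.mem_product]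
    constructor
    · rintro ⟨⟨h4, h5⟩, h6, h7⟩
      exact ⟨h4, h5, h6, h7⟩
    · rintro ⟨h4, h5, h6, h7⟩
      exact ⟨⟨h4, h5⟩, h6, h7⟩
  have h3' : ∀ a ∈ K, G.Adj a.1 (f a) ∧ f a ∉ B ∧ ¬ bad (f a) a.2 ∧
      (∀ x ∈ B, G.Adj (f a) x → l₁ x ≠ a.2) ∧ ∀ a' ∈ K,
        (f a = f a' → a = a') ∧ (a.2 = a'.2 → ¬ G.Adj (f a) (f a')) := by
    rintro ⟨i, c⟩ ha
    obtain ⟨h4, h5, h6, h7⟩ := (hK _).1 ha
    obtain ⟨g1, g2, g3, g4, g5⟩ := h3 i h4 c h5 h6 h7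
    refine ⟨g1, g2, g3, g4, ?_⟩
    rintro ⟨i', c'⟩ ha'
    obtain ⟨h4', h5', h6', h7'⟩ := (hK _).1 ha'
    obtain ⟨g6, g7⟩ := g5 i' h4' c' h5' h6' h7'
    refine ⟨fun h => ?_, g7⟩
    obtain ⟨g8, g9⟩ := g6 h
    rw [g8, g9]
  -- the labels
  obtain ⟨l, hl1, hl2⟩ : ∃ l : V → C, (∀ x, (¬ ∃ a ∈ K, f a = x) → l x = l₁ x) ∧
      ∀ a ∈ K, l (f a) = a.2 := by
    refine ⟨fun x => if h : ∃ a ∈ K, f a = x then (Classical.choose h).2 else l₁ x, ?_, ?_⟩
    · intro x hx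
      exact dif_neg hx
    · intro a ha
      have h : ∃ a' ∈ K, f a' = f a := ⟨a, ha, rfl⟩
      have h4 : (if h : ∃ a' ∈ K, f a' = f a then (Classical.choose h).2 else l₁ (f a)) =
          (Classical.choose h).2 := dif_pos h
      obtain ⟨h5, h6⟩ := Classical.choose_spec h
      have h7 : Classical.choose h = a := ((h3' _ h5).2.2.2.2 a ha).1 h6
      rw [h7] at h4
      exact h4
  have hlB : ∀ x ∈ B, l x = l₁ x := by
    intro x hx
    apply hl1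
    rintro ⟨a, ha, hax⟩
    exact (h3' a ha).2.1 (by rw [hax]; exact hx)
  have hQ : ∀ x, x ∈ B ∪ K.image f ↔ x ∈ B ∨ ∃ a ∈ K, f a = x := by
    intro x
    rw [Finset.mem_union, Finset.mem_image]
  refine ⟨B ∪ K.image f, l, Finset.subset_union_left, ?_, ?_, ?_, ?_, ?_, ?_, ?_⟩
  · intro w hw
    rcases (hQ w).1 hw with h | ⟨a, ha, hax⟩
    · exact Or.inl h
    · right
      refine ⟨a.1, ((hK a).1 ha).1, ?_⟩
      rw [← hax]
      exact (h3' a ha).1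
  · intro x hx
    rcases (hQ x).1 hx with h | ⟨a, ha, hax⟩
    · rw [hlB x h]
      exact h1 x h
    · rw [← hax, hl2 a ha]
      exact ⟨((hK a).1 ha).2.1, (h3' a ha).2.2.1⟩
  · intro x hx y hy hxy
    rw [hlB x hx, hlB y hy] at hxy
    exact h2 hx hy hxy
  · intro c
    have h4 : (B ∪ K.image f).filter (fun x => l x = c) ⊆
        B.filter (fun x => l₁ x = c) ∪ J.image (fun i => f (i, c)) := by
      intro x hx
      obtain ⟨h5, h6⟩ := Finset.mem_filter.1 hx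
      rw [Finset.mem_union]
      rcases (hQ x).1 h5 with h | ⟨a, ha, hax⟩
      · left
        rw [Finset.mem_filter]
        rw [hlB x h] at h6
        exact ⟨h, h6⟩
      · right
        rw [Finset.mem_image]
        rw [← hax, hl2 a ha] at h6
        refine ⟨a.1, ((hK a).1 ha).1, ?_⟩
        rw [← h6, ← hax]
    have h5 : (B.filter (fun x => l₁ x = c)).card ≤ 1 := by
      rw [Finset.card_le_one]
      intro x hx y hy
      rw [Finset.mem_filter] at hx hy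
      exact h2 hx.1 hy.1 (by rw [hx.2, hy.2])
    have h6 : (J.image (fun i => f (i, c))).card ≤ t := Finset.card_image_le.trans hJ
    have h7 := Finset.card_le_card h4
    have h8 := Finset.card_union_le (B.filter (fun x => l₁ x = c)) (J.image (fun i => f (i, c)))
    omega
  · intro x hx y hy hxy
    rcases (hQ x).1 hx with h | ⟨a, ha, hax⟩
    · rcases (hQ y).1 hy with h' | ⟨a', ha', hax'⟩
      · rw [hlB x h, hlB y h']
        intro he
        exact hxy.ne (h2 h h' he)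
      · rw [hlB x h, ← hax', hl2 a' ha']
        refine (h3' a' ha').2.2.2.1 x h ?_
        rw [hax']
        exact hxy.symm
    · rcases (hQ y).1 hy with h' | ⟨a', ha', hax'⟩
      · rw [hlB y h', ← hax, hl2 a ha]
        refine ((h3' a ha).2.2.2.1 y h' ?_).symm
        rw [hax]
        exact hxy
      · rw [← hax, ← hax', hl2 a ha, hl2 a' ha']
        intro he
        refine ((h3' a ha).2.2.2.2 a' ha').2 he ?_
        rw [hax, hax']
        exact hxy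
  · intro i hi c hc hci
    rw [hlB i (hJB hi)] at hci
    by_cases h : ∃ x ∈ B, G.Adj i x ∧ l₁ x = c
    · obtain ⟨x, hx, hx1, hx2⟩ := h
      refine ⟨x, Finset.mem_union_left _ hx, hx1, ?_⟩
      rw [hlB x hx, hx2]
    · have ha : (i, c) ∈ K := (hK _).2 ⟨hi, hc, hci, h⟩
      exact ⟨f (i, c), (hQ _).2 (Or.inr ⟨_, ha, rfl⟩), (h3' _ ha).1, hl2 _ ha⟩
  · intro j hj
    obtain ⟨A₁, hA₁⟩ : ∃ A₁ : Finset V, A₁ =
      B.filter (fun x => x ≠ j ∧ ∃ v ∈ W j, G.Adj v x ∧ φ v = l₁ x) := ⟨_, rfl⟩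
    obtain ⟨A₂, hA₂⟩ : ∃ A₂ : Finset (V × C), A₂ = (J ×ˢ P).filter (fun a => (a.2 ≠ l₁ a.1 ∧
          ¬ ∃ x ∈ B, G.Adj a.1 x ∧ l₁ x = a.2) ∧
          ∃ v ∈ W j, G.Adj v (f a) ∧ φ v = a.2) := ⟨_, rfl⟩
    rw [← hA₁, ← hA₂]
    have h4 : ((W j).filter (fun v => Lost G (B ∪ K.image f) φ l v)).image φ ⊆
        A₁.image l₁ ∪ A₂.image Prod.snd ∪ {l₁ j} := by
      intro c hc
      obtain ⟨v, hv, hvc⟩ := Finset.mem_image.1 hc
      obtain ⟨hvW, x, hx, hvx, hlx⟩ := Finset.mem_filter.1 hv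
      rw [Finset.mem_union, Finset.mem_union]
      rcases (hQ x).1 hx with h | ⟨a, ha, hax⟩
      · rw [hlB x h] at hlx
        by_cases hxj : x = j
        · right
          rw [Finset.mem_singleton, ← hvc, ← hlx, hxj]
        · left
          left
          rw [Finset.mem_image]
          refine ⟨x, ?_, by rw [hlx, hvc]⟩
          rw [hA₁, Finset.mem_filter]
          exact ⟨h, hxj, v, hvW, hvx, hlx.symm⟩
      · left
        right
        rw [← hax, hl2 a ha] at hlx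
        rw [Finset.mem_image]
        refine ⟨a, ?_, by rw [hlx, hvc]⟩
        obtain ⟨h5, h6, h7, h8⟩ := (hK a).1 ha
        rw [hA₂, Finset.mem_filter]
        refine ⟨Finset.mem_product.2 ⟨h5, h6⟩, ⟨h7, h8⟩, v, hvW, ?_, hlx.symm⟩
        rw [hax]
        exact hvx
    have h5 : (((W j).filter (fun v => Lost G (B ∪ K.image f) φ l v)).image φ).card =
        ((W j).filter (fun v => Lost G (B ∪ K.image f) φ l v)).card := by
      refine Finset.card_image_of_injOn ?_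
      intro v hv w hw hvw
      exact hφ.inj j hj (Finset.mem_filter.1 hv).1 (Finset.mem_filter.1 hw).1 hvw
    rw [← h5]
    refine (Finset.card_le_card h4).trans ?_
    refine (Finset.card_union_le _ _).trans ?_
    rw [Finset.card_singleton]
    refine Nat.add_le_add_right ?_ 1
    refine (Finset.card_union_le _ _).trans ?_
    exact Nat.add_le_add Finset.card_image_le Finset.card_image_le

end Pool.Agent.Helper95.BC
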