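import Pool.Agent.Helper95.BC.G3

/-!
# Piece P3: losses in a column, labels with multiplicity
-/

set_option autoImplicit false

namespace Pool.Agent.Helper95.BC

open Classical in
theorem loss_colM {V C : Type} [Fintype V] (G : SimpleGraph V) {m T : ℕ} {δ : ℝ}
    {I : Finset V} {W : V → Finset V} (hR : RowSys G m T δ I W)
    (φ l : V → C) (Q : Finset V) (μ : ℕ) (c : C)
    (hμ : (Q.filter (fun x => l x = c)).card ≤ μ) (η : ℝ) (hη : 0 ≤ η)
    (hl : ∀ x ∈ Q,
      (((items I W).filter (fun v => G.Adj x v ∧ φ v = l x)).card : ℝ) ≤ η * m) :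
    ((I.filter (fun i => ∃ v ∈ W i, φ v = c ∧ Lost G Q φ l v)).card : ℝ) ≤ μ * T * η * m := by
  have hm' : (0 : ℝ) ≤ m := Nat.cast_nonneg m
  obtain ⟨p, hp⟩ : ∃ p : V → Prop, ∀ v, p v ↔ (φ v = c ∧ Lost G Q φ l v) := ⟨_, fun _ => Iff.rfl⟩
  have h0 : (I.filter (fun i => ∃ v ∈ W i, φ v = c ∧ Lost G Q φ l v)).card ≤
      ∑ i ∈ I, ((W i).filter p).card := by
    rw [Finset.card_filter]
    refine Finset.sum_le_sum fun i _ => ?_
    split_ifs with h
    · obtain ⟨v, hv, hv'⟩ := h
      exact Finset.card_pos.2 ⟨v, Finset.mem_filter.2 ⟨hv, (hp v).2 hv'⟩⟩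
    · exact Nat.zero_le _
  have h1 := h0.trans (rows_count G hR p)
  have h2 : (((items I W).filter p).card : ℝ) ≤ μ * (η * m) := by
    have h4 : (items I W).filter p ⊆
        (Q.filter (fun x => l x = c)).biUnion
          (fun x => (items I W).filter (fun v => G.Adj x v ∧ φ v = l x)) := by
      intro v hv
      rw [Finset.mem_filter] at hv
      obtain ⟨hv1, x, hx, hvx, hlx⟩ := (hp v).1 hv.2
      exact Finset.mem_biUnion.2 ⟨x, Finset.mem_filter.2 ⟨hx, hlx.trans hv1⟩,
        Finset.mem_filter.2 ⟨hv.1, hvx.symm, hlx.symm⟩⟩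
    have h5 : (((items I W).filter p).card : ℝ) ≤
        ∑ x ∈ Q.filter (fun x => l x = c),
          (((items I W).filter (fun v => G.Adj x v ∧ φ v = l x)).card : ℝ) := by
      exact_mod_cast (Finset.card_le_card h4).trans Finset.card_biUnion_le
    refine h5.trans ((Finset.sum_le_card_nsmul _ _ _
      (fun x hx => hl x (Finset.mem_filter.1 hx).1)).trans ?_)
    rw [nsmul_eq_mul]
    refine mul_le_mul_of_nonneg_right ?_ (mul_nonneg hη hm')
    exact_mod_cast hμ
  have h3 : ((I.filter (fun i => ∃ v ∈ W i, φ v = c ∧ Lost G Q φ l v)).card : ℝ) ≤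
      (((items I W).filter p).card : ℝ) * T := by
    exact_mod_cast h1
  refine h3.trans ((mul_le_mul_of_nonneg_right h2 (Nat.cast_nonneg T)).trans_eq ?_)
  ring

end Pool.Agent.Helper95.BC
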