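import Pool.Agent.Helper95.BC.Sys

/-!
# Numeric lemmas for Theorem B
-/

set_option autoImplicit false

namespace Pool.Agent.Helper95.BC

open Finset

theorem p6_sq_le (a : ℕ) : a ^ 2 ≤ 2 ^ (a + 1) := by
  induction a with
  | zero => norm_num
  | succ a ih =>
    rcases lt_or_ge a 3 with h | h
    · interval_cases a <;> norm_num
    · have h1 : (a + 1) ^ 2 ≤ 2 * a ^ 2 := by nlinarith
      calc (a + 1) ^ 2 ≤ 2 * a ^ 2 := h1
        _ ≤ 2 * 2 ^ (a + 1) := by omega
        _ = 2 ^ (a + 1 + 1) := by ring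

theorem p6_log (K₀ σ θ : ℝ) (hσ : 0 < σ) (hθ : 0 < θ) (hK : 0 ≤ K₀) :
    ∃ n₀ : ℕ, ∀ n : ℕ, n₀ ≤ n → ∀ (a s r N : ℕ), 1 ≤ s → σ * n ≤ s → (r : ℝ) ≤ K₀ * n →
      N ≤ n → (2 : ℝ) ^ a ≤ N * (1 + 1 / (s : ℝ)) ^ r → (a : ℝ) ≤ θ * n := by
  set K : ℝ := Real.exp (K₀ / σ) with hKdef
  have hK0 : 0 < K := Real.exp_pos _
  obtain ⟨n₁, hn₁⟩ := exists_nat_ge (2 * K / θ ^ 2)
  refine ⟨max n₁ 1, fun n hn a s r N hs hsn hr hN h => ?_⟩
  have hn1 : n₁ ≤ n := (le_max_left _ _).trans hn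
  have hn0 : 1 ≤ n := (le_max_right _ _).trans hn
  have hnp : (0 : ℝ) < n := by exact_mod_cast hn0
  have hsp : (0 : ℝ) < s := by exact_mod_cast hs
  have h1 : 2 * K ≤ θ ^ 2 * n := by
    have h2 : 2 * K / θ ^ 2 ≤ n := hn₁.trans (by exact_mod_cast hn1)
    rwa [div_le_iff₀' (by positivity)] at h2
  have h2 : (1 + 1 / (s : ℝ)) ^ r ≤ K := by
    have h3 : 1 + 1 / (s : ℝ) ≤ Real.exp (1 / s) := by
      have := Real.add_one_le_exp (1 / (s : ℝ))
      linarith
    calc (1 + 1 / (s : ℝ)) ^ r ≤ Real.exp (1 / s) ^ r :=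
          pow_le_pow_left₀ (by positivity) h3 r
      _ = Real.exp (r * (1 / s)) := (Real.exp_nat_mul _ _).symm
      _ ≤ K := by
        rw [hKdef]
        refine Real.exp_le_exp.2 ?_
        rw [mul_one_div, div_le_div_iff₀ hsp hσ]
        nlinarith
  have h3 : (2 : ℝ) ^ a ≤ n * K := by
    refine h.trans (mul_le_mul ?_ h2 (by positivity) hnp.le)
    exact_mod_cast hN
  have h4 : ((a : ℝ)) ^ 2 ≤ 2 * 2 ^ a := by
    have h5 : a ^ 2 ≤ 2 * 2 ^ a := by
      have h6 := p6_sq_le a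
      have h7 : 2 ^ (a + 1) = 2 * 2 ^ a := pow_succ' 2 a
      omega
    exact_mod_cast h5
  have h5 : (a : ℝ) ^ 2 ≤ (θ * n) ^ 2 := by
    have h6 : (2 * K) * n ≤ (θ ^ 2 * n) * n := mul_le_mul_of_nonneg_right h1 hnp.le
    nlinarith
  exact (pow_le_pow_iff_left₀ (Nat.cast_nonneg a) (by positivity) two_ne_zero).1 h5

open Classical in
theorem p6_seen {V C : Type} [Fintype V] (G : SimpleGraph V) (I : Finset V) (W : V → Finset V)
    (P : Finset C) (Q : Finset V) (φ l : V → C) (hitQ : ∀ i ∈ I, Disjoint (W i) Q) (y : V) :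
    P.card ≤ (P \ seen G I W P Q φ l y).card + (nbr G y).card := by
  have h1 : (seen G I W P Q φ l y).card ≤ (nbr G y).card := by
    have h2 : Disjoint (nbr G y ∩ Q) (nbr G y ∩ items I W) := by
      rw [Finset.disjoint_left]
      intro v hv hv'
      have h3 := (Finset.mem_inter.1 hv').2
      rw [items, Finset.mem_biUnion] at h3
      obtain ⟨i, hi, hvi⟩ := h3
      exact Finset.disjoint_left.1 (hitQ i hi) hvi (Finset.mem_inter.1 hv).2
    have h3 : (nbr G y ∩ Q).card + (nbr G y ∩ items I W).card ≤ (nbr G y).card := by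
      rw [← Finset.card_union_of_disjoint h2]
      refine Finset.card_le_card ?_
      intro v hv
      rcases Finset.mem_union.1 hv with h | h
      · exact (Finset.mem_inter.1 h).1
      · exact (Finset.mem_inter.1 h).1
    have h4 := Finset.card_union_le ((nbr G y ∩ Q).image l)
      (((nbr G y ∩ (items I W)).filter (fun v => φ v ∈ P ∧ ¬ Lost G Q φ l v)).image φ)
    have h5 : ((nbr G y ∩ Q).image l).card ≤ (nbr G y ∩ Q).card := Finset.card_image_le
    have h6 : (((nbr G y ∩ (items I W)).filter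
        (fun v => φ v ∈ P ∧ ¬ Lost G Q φ l v)).image φ).card ≤ (nbr G y ∩ items I W).card :=
      Finset.card_image_le.trans (Finset.card_filter_le _ _)
    rw [seen]
    omega
  have h2 : P ⊆ (P \ seen G I W P Q φ l y) ∪ seen G I W P Q φ l y := by
    intro c hc
    rw [Finset.mem_union, Finset.mem_sdiff]
    by_cases h : c ∈ seen G I W P Q φ l y
    · exact Or.inr h
    · exact Or.inl ⟨hc, h⟩
  have h3 := (Finset.card_le_card h2).trans (Finset.card_union_le _ _)
  omega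

end Pool.Agent.Helper95.BC
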