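import Pool.Agent.Helper95.BC.P1
import Pool.Agent.Helper95.BC.P2d
import Pool.Agent.Helper95.BC.P3
import Pool.Agent.Helper95.BC.P4
import Pool.Agent.Helper95.BC.P5
import Pool.Agent.Helper95.BC.P6a
import Pool.Agent.Helper95.BC.G

/-!
# Assembly of the theorem on graphs with many vertices of large degree
-/

set_option autoImplicit false
set_option linter.unusedSectionVars false

namespace Pool.Agent.Helper95.BC

open Classical in
theorem p6_mDegree {V : Type} [Fintype V] (G : SimpleGraph V) (M : ℕ)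
    (h : M ≤ (Finset.univ.filter (fun v => M - 1 ≤ (nbr G v).card)).card) : M ≤ mDegree G := by
  have hb : BddAbove {m | m ≤ (Finset.univ.filter (fun v => m - 1 ≤ (nbr G v).card)).card} := by
    refine ⟨Fintype.card V, ?_⟩
    intro m hm
    exact le_trans hm (Finset.card_filter_le _ _)
  exact le_csSup hb h

open Classical in
/-- the missing colours of a row -/
theorem p6_row {V C : Type} [Fintype V] [Fintype C] {G : SimpleGraph V} {m : ℕ} {δ β : ℝ}
    {Q I : Finset V} {W : V → Finset V} {φ l : V → C} {P : Finset C} (hφ : RowCol G I W φ)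
    {i : V} (hi : i ∈ I) (hN : (Fintype.card C : ℝ) < (1 + δ) * m + 1)
    (hge : (1 - δ) * m ≤ (W i).card)
    (hlost : (((W i).filter (fun v => Lost G Q φ l v)).card : ℝ) ≤ β / 4 * m)
    (hnum : 2 * δ * m + 1 + β / 4 * m ≤ β * m) :
    ((P.filter (fun c => ¬ ∃ v ∈ W i, φ v = c ∧ ¬ Lost G Q φ l v)).card : ℝ) ≤ β * m := by
  have hsub : P.filter (fun c => ¬ ∃ v ∈ W i, φ v = c ∧ ¬ Lost G Q φ l v) ⊆
      (Finset.univ \ (W i).image φ) ∪
        ((W i).filter (fun v => Lost G Q φ l v)).image φ := by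
    intro c hc
    obtain ⟨_, hc⟩ := Finset.mem_filter.1 hc
    by_cases hci : c ∈ (W i).image φ
    · obtain ⟨v, hv, hvc⟩ := Finset.mem_image.1 hci
      apply Finset.mem_union_right
      refine Finset.mem_image.2 ⟨v, Finset.mem_filter.2 ⟨hv, ?_⟩, hvc⟩
      by_contra hcon
      exact hc ⟨v, hv, hvc, hcon⟩
    · exact Finset.mem_union_left _ (Finset.mem_sdiff.2 ⟨Finset.mem_univ _, hci⟩)
  have h1 : (P.filter (fun c => ¬ ∃ v ∈ W i, φ v = c ∧ ¬ Lost G Q φ l v)).card ≤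
      (Finset.univ \ (W i).image φ).card + ((W i).filter (fun v => Lost G Q φ l v)).card :=
    (Finset.card_le_card hsub).trans ((Finset.card_union_le _ _).trans
      (Nat.add_le_add_left Finset.card_image_le _))
  have h2 : ((Finset.univ \ (W i).image φ).card : ℝ) + (W i).card = Fintype.card C := by
    have h3 := Finset.card_sdiff_add_card_eq_card (Finset.subset_univ ((W i).image φ))
    rw [Finset.card_image_of_injOn (hφ.inj i hi), Finset.card_univ] at h3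
    exact_mod_cast h3
  have h3 : ((P.filter (fun c => ¬ ∃ v ∈ W i, φ v = c ∧ ¬ Lost G Q φ l v)).card : ℝ) ≤
      ((Finset.univ \ (W i).image φ).card : ℝ) +
        (((W i).filter (fun v => Lost G Q φ l v)).card : ℝ) := by exact_mod_cast h1
  linarith

open Classical in
/-- the rows that miss a colour -/
theorem p6_col {V C : Type} [Fintype V] {G : SimpleGraph V} {m : ℕ} {β : ℝ}
    {Q I : Finset V} {W : V → Finset V} {φ l : V → C} {c : C}
    (h1 : ((I.filter (fun i => c ∉ (W i).image φ)).card : ℝ) ≤ β / 2 * m)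
    (h2 : ((I.filter (fun i => ∃ v ∈ W i, φ v = c ∧ Lost G Q φ l v)).card : ℝ) ≤ β / 2 * m) :
    ((I.filter (fun i => ¬ ∃ v ∈ W i, φ v = c ∧ ¬ Lost G Q φ l v)).card : ℝ) ≤ β * m := by
  have hsub : I.filter (fun i => ¬ ∃ v ∈ W i, φ v = c ∧ ¬ Lost G Q φ l v) ⊆
      (I.filter (fun i => c ∉ (W i).image φ)) ∪
        (I.filter (fun i => ∃ v ∈ W i, φ v = c ∧ Lost G Q φ l v)) := by
    intro i hi
    obtain ⟨hi, hic⟩ := Finset.mem_filter.1 hi
    by_cases hci : c ∈ (W i).image φ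
    · obtain ⟨v, hv, hvc⟩ := Finset.mem_image.1 hci
      refine Finset.mem_union_right _ (Finset.mem_filter.2 ⟨hi, v, hv, hvc, ?_⟩)
      by_contra hcon
      exact hic ⟨v, hv, hvc, hcon⟩
    · exact Finset.mem_union_left _ (Finset.mem_filter.2 ⟨hi, hci⟩)
  have h3 : ((I.filter (fun i => ¬ ∃ v ∈ W i, φ v = c ∧ ¬ Lost G Q φ l v)).card : ℝ) ≤
      ((I.filter (fun i => c ∉ (W i).image φ)).card : ℝ) +
        ((I.filter (fun i => ∃ v ∈ W i, φ v = c ∧ Lost G Q φ l v)).card : ℝ) := by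
    exact_mod_cast (Finset.card_le_card hsub).trans (Finset.card_union_le _ _)
  have h5 : β / 2 * m + β / 2 * m = β * m := by ring
  linarith

open Classical in
/-- from the rows, the colouring and the palette to the labels and the counts -/
theorem p6_tail {V C : Type} [Fintype V] [Fintype C] {G : SimpleGraph V}
    {n T t s b₁ b₂ : ℕ} {β δ η : ℝ} {B J I : Finset V} {W : V → Finset V} {φ : V → C}
    {P Bad : Finset C}
    (hR : RowSys G n T δ I W) (hφ : RowCol G I W φ) (hIn : I.card ≤ n) (hn1 : 1 ≤ n) (hT1 : 1 ≤ T)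
    (hβ0 : 0 < β) (hδ0 : 0 < δ) (hη0 : 0 < η) (hη : ((t + 1 : ℕ) : ℝ) * T * η ≤ β / 2)
    (hb₁ : b₁ = ⌊2 / η⌋₊) (hb₂ : b₂ = ⌊T / η⌋₊) (hs : 1 ≤ s)
    (hIB : I ⊆ B) (hJB : J ⊆ B) (hJ : J.card ≤ t) (hWB : ∀ i ∈ I, Disjoint (W i) B)
    (hWJ : ∀ i ∈ I, ∀ j ∈ J, Disjoint (W i) (nbr G j))
    (hN : (Fintype.card C : ℝ) < (1 + δ) * n + 1)
    (hcolφ : ∀ c, c ∉ Bad → ((I.filter (fun i => c ∉ (W i).image φ)).card : ℝ) ≤ β / 2 * n)
    (hPB : Disjoint P Bad)
    (h1 : B.card + b₁ + s ≤ P.card)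
    (h2 : ∀ i ∈ J, P.card + 2 * t + 1 + b₂ + s ≤ (nbr G i).card)
    (hlog : ∀ a b : ℕ, (2 : ℝ) ^ a ≤ I.card * (1 + 1 / (s : ℝ)) ^ B.card →
      (2 : ℝ) ^ b ≤ I.card * (1 + 1 / (s : ℝ)) ^ (t * P.card) →
      (a : ℝ) + b + 1 ≤ β / 4 * n)
    (hnum : 2 * δ * n + 1 + β / 4 * n ≤ β * n)
    (hdeg : ∀ y, y ∉ B → ((nbr G y).card : ℝ) + δ * n / 4 ≤ P.card) :
    ∃ (Q : Finset V) (l : V → C), B ⊆ Q ∧ (∀ i ∈ I, Disjoint (W i) Q) ∧
      (∀ x ∈ Q, l x ∈ P) ∧ Set.InjOn l (B : Set V) ∧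
      (∀ c, (Q.filter (fun x => l x = c)).card ≤ t + 1) ∧
      (∀ x ∈ Q, ∀ y ∈ Q, G.Adj x y → l x ≠ l y) ∧
      (∀ i ∈ J, ∀ c ∈ P, c ≠ l i → ∃ x ∈ Q, G.Adj i x ∧ l x = c) ∧
      (∀ i ∈ I, ((P.filter (fun c => ¬ ∃ v ∈ W i, φ v = c ∧ ¬ Lost G Q φ l v)).card
        : ℝ) ≤ β * n) ∧
      (∀ c ∈ P, ((I.filter (fun i => ¬ ∃ v ∈ W i, φ v = c ∧ ¬ Lost G Q φ l v)).card
        : ℝ) ≤ β * n) ∧
      ∀ y, y ∉ Q → δ * n / 4 ≤ ((P \ seen G I W P Q φ l y).card : ℝ) := by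
  obtain ⟨bad, hbad⟩ : ∃ bad : V → C → Prop, bad = fun x c => η * n <
      (((items I W).filter (fun v => G.Adj x v ∧ φ v = c)).card : ℝ) := ⟨_, rfl⟩
  obtain ⟨Q, l, hBQ, hQ, hl1, hl2, hl3, hl4, hl5, hl6⟩ := slack_labels G hR φ hφ B J P bad t s b₁ b₂
    hs hIB hJB hJ hWB
    (by
      intro x _
      rw [hb₁]
      apply Nat.le_floor
      refine le_trans (le_of_eq ?_) (bad_row G hR hIn hn1 φ η hη0 P x)
      congr 2
      apply Finset.filter_congr
      intro c _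
      rw [hbad])
    (by
      intro i hi c _
      rw [hb₂]
      apply Nat.le_floor
      refine le_trans (le_of_eq ?_) (bad_col G hR hIn hn1 φ hφ η hη0 (nbr G i) (by
        intro v hv
        obtain ⟨j, hj, hv⟩ := g1_mem_items.1 hv
        have hvi : v ≠ i := by
          rintro rfl
          exact Finset.disjoint_left.1 (hWB j hj) hv (hJB hi)
        exact (hR.c4.card_le_one hvi).trans hT1) c)
      congr 2
      apply Finset.filter_congr
      intro x _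
      rw [hbad])
    h1 h2
  have hlη : ∀ x ∈ Q,
      (((items I W).filter (fun v => G.Adj x v ∧ φ v = l x)).card : ℝ) ≤ η * n := by
    intro x hx
    have := (hl1 x hx).2
    rw [hbad] at this
    exact not_lt.1 this
  have hWQ : ∀ i ∈ I, Disjoint (W i) Q := by
    intro i hi
    rw [Finset.disjoint_left]
    intro v hv hvQ
    rcases hQ v hvQ with h | ⟨j, hj, h⟩
    · exact Finset.disjoint_left.1 (hWB i hi) hv h
    · exact Finset.disjoint_left.1 (hWJ i hi j hj) hv (mem_nbr.2 h)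
  refine ⟨Q, l, hBQ, hWQ, fun x hx => (hl1 x hx).1, hl2, hl3, hl4, hl5, ?_, ?_, ?_⟩
  · intro i hi
    refine p6_row hφ hi hN (hR.ge i hi) ?_ hnum
    obtain ⟨a, b, hab, ha, hb⟩ := hl6 i hi
    have h3 := hlog a b ha hb
    have h4 : (((W i).filter (fun v => Lost G Q φ l v)).card : ℝ) ≤ a + b + 1 := by
      exact_mod_cast hab
    exact h4.trans h3
  · intro c hc
    refine p6_col (hcolφ c (fun h => Finset.disjoint_left.1 hPB hc h)) ?_
    refine (loss_colM G hR φ l Q (t + 1) c (hl3 c) η hη0.le hlη).trans ?_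
    exact mul_le_mul_of_nonneg_right hη (Nat.cast_nonneg _)
  · intro y hy
    have h3 := p6_seen G I W P Q φ l hWQ y
    have h4 : (P.card : ℝ) ≤ ((P \ seen G I W P Q φ l y).card : ℝ) + (nbr G y).card := by
      exact_mod_cast h3
    have h5 := hdeg y (fun h => hy (hBQ h))
    linarith

open Classical in
theorem slack_main (ε : ℝ) (hε0 : 0 < ε) (hε1 : ε ≤ 1 / 4) :
    ∃ k₀ : ℕ, ∀ k : ℕ, k₀ ≤ k → ∀ (V : Type) [Fintype V] (G : SimpleGraph V), C4Free G →
      k ≤ (Finset.univ.filter (fun v => (1 + ε) * k ≤ ((nbr G v).card : ℝ))).card →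
      k ≤ bChrom G := by
  -- constants
  obtain ⟨m₀, hasym⟩ := asymptotic (ε / 16) (by positivity)
  obtain ⟨ε', hε'def⟩ : ∃ ε' : ℝ, ε' = ε / 4 := ⟨_, rfl⟩
  have hε'0 : 0 < ε' := by rw [hε'def]; positivity
  have hε'1 : ε' ≤ 1 / 4 := by rw [hε'def]; linarith
  obtain ⟨β, hβdef⟩ : ∃ β : ℝ, β = ε' ^ 4 / 10 ^ 5 := ⟨_, rfl⟩
  have hβ0 : 0 < β := by rw [hβdef]; positivity
  have hβε : β ≤ ε' / 1000 := by
    rw [hβdef]
    have : ε' ^ 4 ≤ ε' * 1 := by
      have h1 : ε' ^ 3 ≤ 1 := pow_le_one₀ hε'0.le (by linarith)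
      calc ε' ^ 4 = ε' * ε' ^ 3 := by ring
        _ ≤ ε' * 1 := mul_le_mul_of_nonneg_left h1 hε'0.le
    rw [div_le_div_iff₀ (by norm_num) (by norm_num)]
    nlinarith
  obtain ⟨δ, hδdef⟩ : ∃ δ : ℝ, δ = β / 32 := ⟨_, rfl⟩
  have hδ0 : 0 < δ := by rw [hδdef]; positivity
  obtain ⟨T₀, t, n₁, hset⟩ := slack_setup δ hδ0 (by linarith)
  obtain ⟨T, hTdef⟩ : ∃ T : ℕ, T = T₀ + 1 := ⟨_, rfl⟩
  have hT1 : 1 ≤ T := by omega
  have hT0 : (1 : ℝ) ≤ T := by exact_mod_cast hT1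
  have ht0 : (0 : ℝ) ≤ t := Nat.cast_nonneg t
  obtain ⟨η, hηdef⟩ : ∃ η : ℝ, η = β / (2 * (t + 1) * T) := ⟨_, rfl⟩
  have hη0 : 0 < η := by rw [hηdef]; positivity
  have hηT : ((t + 1 : ℕ) : ℝ) * T * η ≤ β / 2 := by
    rw [hηdef]
    push_cast
    apply le_of_eq
    field_simp
  obtain ⟨m₂, hrows⟩ := rows_of core' β δ hβ0 (by linarith) hδ0 (by linarith) T
  obtain ⟨m₃, hpal⟩ := palette ε' δ hε'0 hε'1 hδ0 (by linarith) T
  obtain ⟨m₄, hcomp⟩ := completeM ε' β δ hε'0 hε'1 hβ0 (by rw [hβdef]) hδ0 (by rw [hδdef]) T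
    (t + 1)
  obtain ⟨m₅, hfin⟩ := finishM core' δ hδ0
  obtain ⟨m₆, hlog⟩ := p6_log (2 * t + 1) (ε / 32) (β / 16) (by positivity) (by positivity)
    (by positivity)
  obtain ⟨b₁, hb₁⟩ : ∃ b₁ : ℕ, b₁ = ⌊2 / η⌋₊ := ⟨_, rfl⟩
  obtain ⟨b₂, hb₂⟩ : ∃ b₂ : ℕ, b₂ = ⌊T / η⌋₊ := ⟨_, rfl⟩
  have hb10 : (0 : ℝ) ≤ b₁ := Nat.cast_nonneg _
  have hb20 : (0 : ℝ) ≤ b₂ := Nat.cast_nonneg _
  obtain ⟨m₇, hm₇⟩ := exists_nat_ge (1000 * ((t : ℝ) + b₁ + b₂ + 2) / (ε * β))
  refine ⟨max (max (max m₀ n₁) (max m₂ m₃)) (max (max m₄ m₅) (max m₆ m₇)), ?_⟩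
  intro k hk V _ G hC4 hA
  have hk₀ : m₀ ≤ k := by omega
  have hk₁ : n₁ ≤ k := by omega
  have hk₂ : m₂ ≤ k := by omega
  have hk₃ : m₃ ≤ k := by omega
  have hk₄ : m₄ ≤ k := by omega
  have hk₅ : m₅ ≤ k := by omega
  have hk₆ : m₆ ≤ k := by omega
  have hk₇ : m₇ ≤ k := by omega
  have hbig : 1000 * ((t : ℝ) + b₁ + b₂ + 2) ≤ ε * β * k := by
    have h1 : (m₇ : ℝ) ≤ k := by exact_mod_cast hk₇
    have h2 := hm₇.trans h1
    rwa [div_le_iff₀' (by positivity)] at h2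
  have hk0 : (0 : ℝ) ≤ k := Nat.cast_nonneg _
  have hεk : 1000 * ((t : ℝ) + b₁ + b₂ + 2) ≤ ε * k := by
    have : ε * β * k ≤ ε * 1 * k := by
      apply mul_le_mul_of_nonneg_right _ hk0
      apply mul_le_mul_of_nonneg_left _ hε0.le
      linarith
    linarith
  have hβk : 1000 * ((t : ℝ) + b₁ + b₂ + 2) ≤ β * k := by
    have : ε * β * k ≤ 1 * β * k := by
      apply mul_le_mul_of_nonneg_right _ hk0
      apply mul_le_mul_of_nonneg_right _ hβ0.le
      linarith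
    linarith
  have hk1 : (1 : ℝ) ≤ k := by
    have h1 : β * k ≤ 1 * k := mul_le_mul_of_nonneg_right (by linarith) hk0
    linarith
  have hεk0 : 0 < ε * k := by positivity
  have hεk4 : ε * k ≤ 1 / 4 * k := mul_le_mul_of_nonneg_right hε1 hk0
  have hεεk : ε * (ε * k) ≤ 1 / 4 * (ε * k) := mul_le_mul_of_nonneg_right hε1 hεk0.le
  -- the case of a large m-degree
  by_cases hm : (1 + ε / 8) * k ≤ mDegree G
  · have h1 : (k : ℝ) ≤ mDegree G := by linarith
    have h2 : k ≤ mDegree G := by exact_mod_cast h1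
    have h3 := hasym V G hC4 (hk₀.trans h2)
    have h4 : (k : ℝ) ≤ (1 - ε / 16) * ((1 + ε / 8) * k) := by
      have h7 : (1 - ε / 16) * ((1 + ε / 8) * k) = k + ε * k / 16 - ε * (ε * k) / 128 := by ring
      rw [h7]
      linarith
    have h5 : (1 - ε / 16) * ((1 + ε / 8) * k) ≤ (1 - ε / 16) * mDegree G :=
      mul_le_mul_of_nonneg_left hm (by linarith)
    have h6 : (k : ℝ) ≤ bChrom G := by linarith
    exact_mod_cast h6
  rw [not_le] at hm
  obtain ⟨M, hMdef⟩ : ∃ M : ℕ, M = ⌈(1 + ε / 8) * (k : ℝ)⌉₊ := ⟨_, rfl⟩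
  have hM1 : (1 + ε / 8) * (k : ℝ) ≤ M := by rw [hMdef]; exact Nat.le_ceil _
  have hM2 : (M : ℝ) < (1 + ε / 8) * k + 1 := by
    rw [hMdef]
    exact Nat.ceil_lt_add_one (by positivity)
  obtain ⟨B, hBdef⟩ : ∃ B : Finset V, B = Finset.univ.filter (fun v => M - 1 ≤ (nbr G v).card) :=
    ⟨_, rfl⟩
  have hBM : B.card + 1 ≤ M := by
    by_contra hcon
    rw [not_le] at hcon
    have h1 := p6_mDegree G M (by rw [← hBdef]; omega)
    have h2 : (M : ℝ) ≤ mDegree G := by exact_mod_cast h1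
    linarith
  have hBk : (B.card : ℝ) ≤ (1 + ε / 8) * k := by
    have h1 : ((B.card + 1 : ℕ) : ℝ) ≤ M := by exact_mod_cast hBM
    push_cast at h1
    linarith
  have hM3 : 1 ≤ M := by omega
  have hoff : ∀ y, y ∉ B → ((nbr G y).card : ℝ) ≤ (1 + ε / 8) * k := by
    intro y hy
    rw [hBdef, Finset.mem_filter] at hy
    have h1 : (nbr G y).card + 1 ≤ M := by
      by_contra hcon
      exact hy ⟨Finset.mem_univ _, by omega⟩
    have h2 : (((nbr G y).card + 1 : ℕ) : ℝ) ≤ M := by exact_mod_cast h1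
    push_cast at h2
    linarith
  obtain ⟨D, hDA, hDk⟩ := Finset.exists_subset_card_eq hA
  have hDdeg : ∀ i ∈ D, (1 + ε) * k ≤ ((nbr G i).card : ℝ) := fun i hi =>
    (Finset.mem_filter.1 (hDA hi)).2
  have hDB : D ⊆ B := by
    intro i hi
    by_contra hiB
    have h1 := hoff i hiB
    have h2 := hDdeg i hi
    linarith
  obtain ⟨n, hndef⟩ : ∃ n : ℕ, n = ⌊(1 + ε) * (k : ℝ)⌋₊ := ⟨_, rfl⟩
  have hn1 : (n : ℝ) ≤ (1 + ε) * k := by rw [hndef]; exact Nat.floor_le (by positivity)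
  have hn2 : (1 + ε) * (k : ℝ) < n + 1 := by rw [hndef]; exact Nat.lt_floor_add_one _
  have hkn : k ≤ n := by
    rw [hndef]
    apply Nat.le_floor
    linarith
  have hkn' : (k : ℝ) ≤ n := by exact_mod_cast hkn
  have hn1' : 1 ≤ n := by
    have : (1 : ℝ) ≤ n := hk1.trans hkn'
    exact_mod_cast this
  have hBn : B.card ≤ n := by
    have h1 : (B.card : ℝ) ≤ n := by linarith
    exact_mod_cast h1
  obtain ⟨J, I, W, hJI, hdJI, hJt, hW⟩ := hset n (hk₁.trans hkn) V G B D hC4 hDB hBn (by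
    intro i hi
    have h1 := hDdeg i hi
    have h2 : (n : ℝ) ≤ (nbr G i).card := by linarith
    exact_mod_cast h2)
  have hID : I ⊆ D := by rw [← hJI]; exact Finset.subset_union_right
  have hJD : J ⊆ D := by rw [← hJI]; exact Finset.subset_union_left
  have hIk : I.card ≤ k := by rw [← hDk]; exact Finset.card_le_card hID
  have hIn : I.card ≤ n := hIk.trans hkn
  have hWle : ∀ i ∈ I, (W i).card ≤ n := by
    intro i hi
    rw [(hW i hi).2.1]
    apply Nat.ceil_le.2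
    have h1 : 0 ≤ δ * (n : ℝ) := by positivity
    linarith
  have hWge : ∀ i ∈ I, (1 - δ) * n ≤ ((W i).card : ℝ) := by
    intro i hi
    rw [(hW i hi).2.1]
    exact Nat.le_ceil _
  have hWI : ∀ i ∈ I, Disjoint (W i) I := by
    intro i hi
    exact Finset.disjoint_of_subset_right (hID.trans hDB) (hW i hi).2.2.1
  have hWdeg : ∀ i ∈ I, ∀ v ∈ W i, (nbr G v).card ≤ n := by
    intro i hi v hv
    have h1 := hoff v (fun h => Finset.disjoint_left.1 (hW i hi).2.2.1 hv h)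
    have h2 : ((nbr G v).card : ℝ) ≤ n := by linarith
    exact_mod_cast h2
  have hWrk : ∀ i ∈ I, ∀ v ∈ W i, (I.filter (fun j => v ∈ W j)).card ≤ T := by
    intro i hi v hv
    refine le_trans (Finset.card_le_card ?_) (((hW i hi).2.2.2.2 v hv).trans (by omega))
    intro j hj
    rw [Finset.mem_filter] at hj
    rw [Finset.mem_inter, mem_nbr]
    exact ⟨(mem_nbr.1 ((hW j hj.1).1 hj.2)).symm, hDB (hID hj.1)⟩
  have hR : RowSys G n T δ I W :=
    ⟨hC4, fun i hi => (hW i hi).1, hWle, hWge, hWI, hWdeg, hWrk⟩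
  obtain ⟨φ, Bad, hBad, hinj, hprop, hcolφ⟩ := hrows n (hk₂.trans hkn) V G I W hC4 hIn
    (fun i hi => ⟨(hW i hi).1, hWle i hi, hWge i hi, hWI i hi⟩)
    (fun i hi v hv => ⟨hWdeg i hi v hv, hWrk i hi v hv⟩)
  have hφ : RowCol G I W φ := by
    refine ⟨hinj, fun v hv w hw => ?_⟩
    obtain ⟨i, hi, hv⟩ := g1_mem_items.1 hv
    obtain ⟨j, hj, hw⟩ := g1_mem_items.1 hw
    exact hprop i hi j hj v hv w hw
  have hεn : (1 + ε / 2) * k ≤ (1 - ε') * n := by
    rw [hε'def]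
    have h1 : 0 ≤ (1 - ε / 4) * (n - ((1 + ε) * k - 1)) :=
      mul_nonneg (by linarith) (by linarith)
    have h2 : (1 - ε / 4) * (n - ((1 + ε) * k - 1)) = (1 - ε / 4) * n - k - 3 / 4 * (ε * k) +
      ε * (ε * k) / 4 + 1 - ε / 4 := by ring
    linarith
  obtain ⟨P₁, hPB₁, hPcard₁, _, hPcand₁⟩ := hpal n (hk₃.trans hkn) V G I W φ Bad hR (by
    have h1 : (I.card : ℝ) ≤ k := by exact_mod_cast hIk
    linarith) hφ hBad
  obtain ⟨p, hpdef⟩ : ∃ p : ℕ, p = ⌊(1 + ε / 2) * (k : ℝ)⌋₊ := ⟨_, rfl⟩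
  have hp1 : (p : ℝ) ≤ (1 + ε / 2) * k := by rw [hpdef]; exact Nat.floor_le (by positivity)
  have hp2 : (1 + ε / 2) * (k : ℝ) < p + 1 := by rw [hpdef]; exact Nat.lt_floor_add_one _
  have hpP : p ≤ P₁.card := by
    have h1 : (p : ℝ) ≤ P₁.card := by
      have : 0 ≤ δ * (n : ℝ) / 2 := by positivity
      linarith
    exact_mod_cast h1
  obtain ⟨P, hPP₁, hPp⟩ := Finset.exists_subset_card_eq hpP
  obtain ⟨s, hsdef⟩ : ∃ s : ℕ, s = ⌊ε * (k : ℝ) / 8⌋₊ := ⟨_, rfl⟩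
  have hs1 : (s : ℝ) ≤ ε * k / 8 := by rw [hsdef]; exact Nat.floor_le (by positivity)
  have hs2 : ε * (k : ℝ) / 8 < s + 1 := by rw [hsdef]; exact Nat.lt_floor_add_one _
  have hs3 : 1 ≤ s := by
    have h1 : (1 : ℝ) ≤ s := by linarith
    exact_mod_cast h1
  have hNlt : (Fintype.card (Fin ⌈(1 + δ) * (n : ℝ)⌉₊) : ℝ) < (1 + δ) * n + 1 := by
    rw [Fintype.card_fin]
    exact Nat.ceil_lt_add_one (by positivity)
  have hβn : β * k ≤ β * n := mul_le_mul_of_nonneg_left hkn' hβ0.le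
  have hδβn : δ * n = β * n / 32 := by rw [hδdef]; ring
  have hn2k : (n : ℝ) ≤ 2 * k := by linarith
  have htn : 0 ≤ (t : ℝ) * n := by positivity
  have hp2n : (p : ℝ) ≤ 2 * n := by linarith
  obtain ⟨Q, l, hBQ, hWQ, hlP, hlB, hmult, hlprop, hJsee, hrow, hcol, hmiss⟩ :=
    p6_tail (T := T) (t := t) (s := s) (b₁ := b₁) (b₂ := b₂) (B := B) (J := J) (Bad := Bad)
      (P := P) hR hφ hIn hn1' hT1 hβ0 hδ0 hη0 hηT hb₁ hb₂ hs3 (hID.trans hDB) (hJD.trans hDB) hJt
      (fun i hi => (hW i hi).2.2.1) (fun i hi => (hW i hi).2.2.2.1) hNlt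
      (fun c hc => by
        refine le_trans (le_of_eq (congrArg (fun s : Finset V => (s.card : ℝ)) ?_)) (hcolφ c hc)
        ext i
        simp only [Finset.mem_filter, Finset.mem_image])
      (Finset.disjoint_of_subset_left hPP₁ hPB₁)
      (by
        have h1 : ((B.card + b₁ + s : ℕ) : ℝ) ≤ P.card := by
          rw [hPp]
          push_cast
          linarith
        exact_mod_cast h1)
      (by
        intro i hi
        have h0 := hDdeg i (hJD hi)
        have h1 : ((P.card + 2 * t + 1 + b₂ + s : ℕ) : ℝ) ≤ (nbr G i).card := by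
          rw [hPp]
          push_cast
          linarith
        exact_mod_cast h1)
      (by
        intro a b ha hb
        have hσ : ε / 32 * n ≤ s := by
          have : ε * n ≤ ε * (2 * k) := mul_le_mul_of_nonneg_left hn2k hε0.le
          linarith
        have h1 := hlog n (hk₆.trans hkn) a s B.card I.card hs3 hσ (by
          have h2 : (B.card : ℝ) ≤ n := by exact_mod_cast hBn
          linarith) hIn ha
        have h2 := hlog n (hk₆.trans hkn) b s (t * P.card) I.card hs3 hσ (by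
          push_cast
          have h3 : (P.card : ℝ) ≤ 2 * n := by
            rw [hPp]
            exact hp2n
          have h4 : (t : ℝ) * P.card ≤ t * (2 * n) := mul_le_mul_of_nonneg_left h3 ht0
          linarith) hIn hb
        linarith)
      (by
        have h1 : 2 * δ * n = β * n / 16 := by rw [hδdef]; ring
        linarith)
      (by
        intro y hy
        have h1 := hoff y hy
        rw [hPp]
        have h2 : β * n ≤ ε / 4000 * (2 * k) := by
          refine mul_le_mul ?_ hn2k (by positivity) (by positivity)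
          rw [hε'def] at hβε
          linarith
        linarith)
  obtain ⟨u, hu1, hu2⟩ := hcomp n (hk₄.trans hkn) V _ G Q I W φ l P hR
    ((hID.trans hDB).trans hBQ) hIn hWQ hφ hmult (by rw [hPp]; exact hp2n) hrow hcol
    (by
      intro i hi c
      refine (hPcand₁ i hi c).trans ?_
      have hsub : (W i).filter (fun v => φ v ∉ P₁ ∧ ∀ w ∈ items I W, G.Adj v w → φ w ≠ c) ⊆
          (W i).filter (fun v => φ v ∉ P ∧ ∀ w ∈ items I W, G.Adj v w → φ w ≠ c) := by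
        intro v hv
        rw [Finset.mem_filter] at hv ⊢
        exact ⟨hv.1, fun h => hv.2.1 (hPP₁ h), hv.2.2⟩
      exact_mod_cast Finset.card_le_card hsub)
    hmiss
  have hend := hfin n (hk₅.trans hkn) V _ G Q I J W φ l P u hC4 ((hID.trans hDB).trans hBQ)
    ((hJD.trans hDB).trans hBQ) (fun x hx y hy hxy => by
      rw [Finset.mem_coe, hJI] at hx hy
      exact hlB (hDB hx) (hDB hy) hxy) hlP hlprop hJsee
    (fun i hi => ⟨(hW i hi).1, hWQ i hi⟩) hφ (by rw [hPp]; exact hp2n)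
    (fun y hy => by
      have h1 := hoff y (fun h => hy (hBQ h))
      have h2 : ((nbr G y).card : ℝ) ≤ n := by linarith
      exact_mod_cast h2) hu1 hu2
  rw [hJI, hDk] at hend
  exact hend

end Pool.Agent.Helper95.BC
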