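import Pool.Agent.Helper95.BC.P6
import Pool.Agent.Helper95.BC.Girth

/-!
# The final form
-/

set_option autoImplicit false

namespace Pool.Agent.Helper95.BC

open Classical in
theorem slack_all (ε : ℝ) (hε : 0 < ε) :
    ∃ k₀ : ℕ, ∀ (V : Type) [Fintype V] (G : SimpleGraph V), 5 ≤ G.egirth ∨ C4Free G →
      (∀ k : ℕ, k₀ ≤ k →
        k ≤ (Finset.univ.filter (fun v => (1 + ε) * k ≤ ((nbr G v).card : ℝ))).card →
        k ≤ bChrom G) ∧
      (k₀ ≤ mDegree G → (1 - ε) * mDegree G ≤ bChrom G) := by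
  obtain ⟨k₁, h1⟩ := slack_main (min ε (1 / 4)) (lt_min hε (by norm_num)) (min_le_right _ _)
  obtain ⟨k₂, h2⟩ := asymptotic ε hε
  refine ⟨max k₁ k₂, fun V _ G hG => ?_⟩
  have hC : C4Free G := hG.elim (c4Free_of_egirth G) id
  refine ⟨fun k hk hA => ?_, fun hm => h2 V G hC ((le_max_right _ _).trans hm)⟩
  refine h1 k ((le_max_left _ _).trans hk) V G hC (hA.trans (Finset.card_le_card ?_))
  intro v hv
  rw [Finset.mem_filter] at hv ⊢
  refine ⟨hv.1, le_trans ?_ hv.2⟩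
  have h3 : min ε (1 / 4) ≤ ε := min_le_left _ _
  exact mul_le_mul_of_nonneg_right (by linarith) (Nat.cast_nonneg _)

end Pool.Agent.Helper95.BC
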