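import Pool.Agent.Helper95.BC.Defs

/-!
# Stars: the data for the theorem on many vertices of degree at least `m - 1`

`H` = the vertices of degree at least `m` (with distinct colours `κ`), `x c`, `c ∈ Cs`, the centres:
vertices of degree `m - 1`, pairwise not adjacent, each with at most one neighbour in `H`.
-/

set_option autoImplicit false

namespace Pool.Agent.Helper95.BC

/-- `x` and `y` are different and have a common neighbour outside `H` -/
def Near {V : Type} (G : SimpleGraph V) (H : Finset V) (y x : V) : Prop :=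
  x ≠ y ∧ ∃ w, w ∉ H ∧ G.Adj y w ∧ G.Adj w x

open Classical in
/-- the centres `x c ≠ y` which have a common neighbour with `y` outside `H` -/
noncomputable def mates {V C : Type} (G : SimpleGraph V) (H : Finset V) (Cs : Finset C)
    (x : C → V) (y : V) : Finset C :=
  Cs.filter (fun c => Near G H y (x c))

theorem mem_mates {V C : Type} {G : SimpleGraph V} {H : Finset V} {Cs : Finset C}
    {x : C → V} {y : V} {c : C} : c ∈ mates G H Cs x y ↔ c ∈ Cs ∧ Near G H y (x c) := by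
  classical
  simp [mates]

open Classical in
/-- the system of centres -/
structure Stars {V C : Type} [Fintype V] [Fintype C] (G : SimpleGraph V) (m : ℕ)
    (H : Finset V) (κ : V → C) (Cs : Finset C) (x : C → V) : Prop where
  c4 : C4Free G
  cardC : Fintype.card C = m
  deg : ∀ v, v ∉ H → (nbr G v).card + 1 ≤ m
  kinj : Set.InjOn κ (H : Set V)
  xH : ∀ c ∈ Cs, x c ∉ H
  xdeg : ∀ c ∈ Cs, (nbr G (x c)).card + 1 = m
  xone : ∀ c ∈ Cs, ∀ h ∈ H, ∀ h' ∈ H, G.Adj (x c) h → G.Adj (x c) h' → h = h'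
  xk : ∀ c ∈ Cs, ∀ h ∈ H, G.Adj (x c) h → κ h ≠ c
  xadj : ∀ c ∈ Cs, ∀ c' ∈ Cs, ¬ G.Adj (x c) (x c')
  xinj : Set.InjOn x (Cs : Set C)
  xm : ∀ c ∈ Cs, 40 * (mates G H Cs x (x c)).card ≤ m
  vm : ∀ c ∈ Cs, ∀ v, v ∉ H → G.Adj (x c) v → 40 * (mates G H Cs x v).card ≤ m
  vH : ∀ c ∈ Cs, ∀ v, v ∉ H → G.Adj (x c) v → 1000 * (H.filter (fun h => G.Adj v h)).card ≤ m

/-- `z` is outside `H` and has at least two centres -/
def Shared {V C : Type} (G : SimpleGraph V) (H : Finset V) (Cs : Finset C) (x : C → V)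
    (z : V) : Prop :=
  z ∉ H ∧ ∃ c ∈ Cs, ∃ c' ∈ Cs, c ≠ c' ∧ G.Adj (x c) z ∧ G.Adj (x c') z

/-- `v` is outside `H` and `x c` is its only centre -/
def Priv {V C : Type} (G : SimpleGraph V) (H : Finset V) (Cs : Finset C) (x : C → V)
    (c : C) (v : V) : Prop :=
  v ∉ H ∧ G.Adj (x c) v ∧ ∀ c' ∈ Cs, G.Adj (x c') v → c' = c

/-- the colours of the shared vertices -/
structure SharedCol {V C : Type} (G : SimpleGraph V) (H : Finset V) (κ : V → C) (Cs : Finset C)
    (x : C → V) (f : V → C) : Prop where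
  cen : ∀ z, Shared G H Cs x z → ∀ c ∈ Cs, G.Adj (x c) z → f z ≠ c
  hn : ∀ z, Shared G H Cs x z → ∀ h ∈ H, G.Adj z h → f z ≠ κ h
  hr : ∀ z, Shared G H Cs x z → ∀ c ∈ Cs, G.Adj (x c) z → ∀ h ∈ H, G.Adj (x c) h → f z ≠ κ h
  row : ∀ z z', Shared G H Cs x z → Shared G H Cs x z' → z ≠ z' →
    (∃ c ∈ Cs, G.Adj (x c) z ∧ G.Adj (x c) z') → f z ≠ f z'
  adj : ∀ z z', Shared G H Cs x z → Shared G H Cs x z' → G.Adj z z' → f z ≠ f z'

/-- the colours `g v` of the private vertices of the row `c` -/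
structure RowOK {V C : Type} (G : SimpleGraph V) (H : Finset V) (κ : V → C) (Cs : Finset C)
    (x : C → V) (f : V → C) (c : C) (g : V → C) : Prop where
  cen : ∀ v, Priv G H Cs x c v → g v ≠ c
  hr : ∀ v, Priv G H Cs x c v → ∀ h ∈ H, G.Adj (x c) h → g v ≠ κ h
  sr : ∀ v, Priv G H Cs x c v → ∀ z, Shared G H Cs x z → G.Adj (x c) z → g v ≠ f z
  hn : ∀ v, Priv G H Cs x c v → ∀ h ∈ H, G.Adj v h → g v ≠ κ h
  sn : ∀ v, Priv G H Cs x c v → ∀ z, Shared G H Cs x z → G.Adj v z → g v ≠ f z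
  inj : ∀ v v', Priv G H Cs x c v → Priv G H Cs x c v' → v ≠ v' → g v ≠ g v'

/-- adjacent private vertices of the rows `c` and `c'` get different colours -/
def PairOK {V C : Type} (G : SimpleGraph V) (H : Finset V) (Cs : Finset C)
    (x : C → V) (g : C → V → C) (c c' : C) : Prop :=
  ∀ v v', Priv G H Cs x c v → Priv G H Cs x c' v' → G.Adj v v' → g c v ≠ g c' v'

open Classical in
/-- the number of centres of `z` -/
noncomputable def rank {V C : Type} (G : SimpleGraph V) (Cs : Finset C) (x : C → V) (z : V) : ℕ :=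
  (Cs.filter (fun c => G.Adj (x c) z)).card

open Classical in
/-- the private vertices of the row `c` -/
noncomputable def privs {V C : Type} [Fintype V] (G : SimpleGraph V) (H : Finset V)
    (Cs : Finset C) (x : C → V) (c : C) : Finset V :=
  Finset.univ.filter (fun v => Priv G H Cs x c v)

theorem mem_privs {V C : Type} [Fintype V] {G : SimpleGraph V} {H : Finset V}
    {Cs : Finset C} {x : C → V} {c : C} {v : V} : v ∈ privs G H Cs x c ↔ Priv G H Cs x c v := by
  simp [privs]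

open Classical in
/-- the colours for the private vertices of the row `c` -/
noncomputable def needs {V C : Type} [Fintype C] (G : SimpleGraph V) (H : Finset V)
    (κ : V → C) (Cs : Finset C) (x : C → V) (f : V → C) (c : C) : Finset C :=
  Finset.univ.filter (fun a => a ≠ c ∧ (∀ h ∈ H, G.Adj (x c) h → a ≠ κ h) ∧
    ∀ z, Shared G H Cs x z → G.Adj (x c) z → a ≠ f z)

theorem mem_needs {V C : Type} [Fintype C] {G : SimpleGraph V} {H : Finset V}
    {κ : V → C} {Cs : Finset C} {x : C → V} {f : V → C} {c a : C} :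
    a ∈ needs G H κ Cs x f c ↔ a ≠ c ∧ (∀ h ∈ H, G.Adj (x c) h → a ≠ κ h) ∧
      ∀ z, Shared G H Cs x z → G.Adj (x c) z → a ≠ f z := by
  simp [needs]

/-- the pairs that are forbidden in the row `c` when the rows in `S` are coloured -/
def Forb {V C : Type} (G : SimpleGraph V) (H : Finset V) (κ : V → C) (Cs : Finset C) (x : C → V)
    (f : V → C) (S : Finset C) (g : C → V → C) (v : V) (a : C) : Prop :=
  (∃ h ∈ H, G.Adj v h ∧ κ h = a) ∨ (∃ z, Shared G H Cs x z ∧ G.Adj v z ∧ f z = a) ∨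
    ∃ c' ∈ S, ∃ v', Priv G H Cs x c' v' ∧ G.Adj v v' ∧ g c' v' = a

/-- the vertex coloured `a = p.2` in the row `c` is adjacent to a private vertex of the row
`c' = p.1` -/
def Hit {V C : Type} (G : SimpleGraph V) (H : Finset V) (Cs : Finset C) (x : C → V)
    (c : C) (g : V → C) (p : C × C) : Prop :=
  ∃ v, Priv G H Cs x c v ∧ g v = p.2 ∧ ∃ v', Priv G H Cs x p.1 v' ∧ G.Adj v v'

open Classical in
/-- the number of private vertices of the row `c` with a private neighbour in the row `c'` -/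
noncomputable def cross {V C : Type} [Fintype V] (G : SimpleGraph V) (H : Finset V)
    (Cs : Finset C) (x : C → V) (c c' : C) : ℕ :=
  ((privs G H Cs x c).filter (fun v => ∃ v', Priv G H Cs x c' v' ∧ G.Adj v v')).card

section

variable {V C : Type} [Fintype V] [Fintype C] {G : SimpleGraph V} {m : ℕ}
  {H : Finset V} {κ : V → C} {Cs : Finset C} {x : C → V}

theorem Stars.not_centre (hS : Stars G m H κ Cs x)
    {c c' : C} (hc : c ∈ Cs) (hc' : c' ∈ Cs) {v : V} (hcv : G.Adj (x c) v) : x c' ≠ v := by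
  rintro rfl
  exact hS.xadj c hc c' hc' hcv

/-- two vertices `y ≠ y'` have at most one common neighbour -/
theorem Stars.unique (hS : Stars G m H κ Cs x) {y y' v v' : V} (hy : y ≠ y')
    (h1 : G.Adj y v) (h2 : G.Adj y' v) (h3 : G.Adj y v') (h4 : G.Adj y' v') : v = v' := by
  by_contra hne
  exact hS.c4 y y' v v' hy hne h1 h2.symm h4 h3.symm

theorem Stars.shared_or_priv (_hS : Stars G m H κ Cs x) {c : C} (hc : c ∈ Cs) {v : V}
    (hv : v ∉ H) (hcv : G.Adj (x c) v) : Shared G H Cs x v ∨ Priv G H Cs x c v := by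
  by_cases h : ∀ c' ∈ Cs, G.Adj (x c') v → c' = c
  · exact Or.inr ⟨hv, hcv, h⟩
  · push Not at h
    obtain ⟨c', hc', h1, h2⟩ := h
    exact Or.inl ⟨hv, c, hc, c', hc', Ne.symm h2, hcv, h1⟩

omit [Fintype V] [Fintype C] in
theorem Shared.not_priv {z : V} (hz : Shared G H Cs x z) {c : C} :
    ¬ Priv G H Cs x c z := by
  rintro ⟨_, _, h⟩
  obtain ⟨_, c1, h1, c2, h2, hne, h3, h4⟩ := hz
  exact hne ((h c1 h1 h3).trans (h c2 h2 h4).symm)

open Classical in
/-- the neighbours of `y` outside `H` that have a centre different from `y` are at most as many as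
the mates of `y` -/
theorem Stars.item_nbrs (hS : Stars G m H κ Cs x) (y : V) :
    (Finset.univ.filter (fun w => w ∉ H ∧ G.Adj y w ∧
      ∃ c ∈ Cs, x c ≠ y ∧ G.Adj (x c) w)).card ≤ (mates G H Cs x y).card := by
  by_cases hC : Nonempty C
  · obtain ⟨c0⟩ := hC
    have hch : ∀ w, ∃ c, w ∈ Finset.univ.filter (fun w => w ∉ H ∧ G.Adj y w ∧
        ∃ c ∈ Cs, x c ≠ y ∧ G.Adj (x c) w) → c ∈ Cs ∧ x c ≠ y ∧ G.Adj (x c) w := by
      intro w
      by_cases hw : w ∈ Finset.univ.filter (fun w => w ∉ H ∧ G.Adj y w ∧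
        ∃ c ∈ Cs, x c ≠ y ∧ G.Adj (x c) w)
      · obtain ⟨c, h1, h2, h3⟩ := (Finset.mem_filter.1 hw).2.2.2
        exact ⟨c, fun _ => ⟨h1, h2, h3⟩⟩
      · exact ⟨c0, fun h => absurd h hw⟩
    choose F hF using hch
    refine Finset.card_le_card_of_injOn F ?_ ?_
    · intro w hw
      have hw1 : w ∈ Finset.univ.filter (fun w => w ∉ H ∧ G.Adj y w ∧
        ∃ c ∈ Cs, x c ≠ y ∧ G.Adj (x c) w) := hw
      have hw' := (Finset.mem_filter.1 hw1).2
      obtain ⟨h1, h2, h3⟩ := hF w hw1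
      rw [Finset.mem_coe, mem_mates]
      exact ⟨h1, h2, w, hw'.1, hw'.2.1, h3.symm⟩
    · intro w hw w' hw' h
      have hw1 : w ∈ Finset.univ.filter (fun w => w ∉ H ∧ G.Adj y w ∧
        ∃ c ∈ Cs, x c ≠ y ∧ G.Adj (x c) w) := hw
      have hw1' : w' ∈ Finset.univ.filter (fun w => w ∉ H ∧ G.Adj y w ∧
        ∃ c ∈ Cs, x c ≠ y ∧ G.Adj (x c) w) := hw'
      have h1 := (Finset.mem_filter.1 hw1).2
      have h2 := (Finset.mem_filter.1 hw1').2
      obtain ⟨_, h4, h5⟩ := hF w hw1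
      obtain ⟨_, _, h8⟩ := hF w' hw1'
      rw [← h] at h8
      exact hS.unique h4 h5 h1.2.1 h8 h2.2.1
  · have : (Finset.univ.filter (fun w => w ∉ H ∧ G.Adj y w ∧
        ∃ c ∈ Cs, x c ≠ y ∧ G.Adj (x c) w)) = ∅ := by
      refine Finset.filter_eq_empty_iff.2 ?_
      rintro w - ⟨_, _, c, _⟩
      exact hC ⟨c⟩
    rw [this]
    exact Nat.zero_le _

end

end Pool.Agent.Helper95.BC
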