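import Mathlib

/-!
# Greedy choice with a potential and weights
-/

set_option autoImplicit false

namespace Pool.Agent.Helper95.BC

open Finset

open Classical in
theorem greedy_gen {ι α γ : Type} (key : ι → ℕ) (J : Finset γ) (ρ : ι → γ → ℝ)
    (hρ : ∀ i j, 0 ≤ ρ i j) (hit : ι → α → γ → Prop)
    (Good : Finset ι → (ι → α) → Prop) (h0 : ∃ f, Good ∅ f) (I : Finset ι)
    (hstep : ∀ S ⊆ I, ∀ i ∈ I, i ∉ S → (∀ i' ∈ S, key i ≤ key i') → ∀ f, Good S f →
      (∀ j ∈ J, (11 / 10 : ℝ) ^ (S.filter (fun i' => hit i' (f i') j)).card ≤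
        J.card * ∏ i' ∈ S, (1 + ρ i' j / 10)) →
      ∃ A : Finset α, A.Nonempty ∧ (∀ a ∈ A, Good (insert i S) (Function.update f i a)) ∧
        ∀ j ∈ J, ((A.filter (fun a => hit i a j)).card : ℝ) ≤ ρ i j * A.card) :
    ∃ f, Good I f ∧ ∀ j ∈ J, (11 / 10 : ℝ) ^ (I.filter (fun i' => hit i' (f i') j)).card ≤
        J.card * ∏ i' ∈ I, (1 + ρ i' j / 10) := by
  have hpos : ∀ (S : Finset ι) (j : γ), 0 < ∏ i' ∈ S, (1 + ρ i' j / 10) := fun S j =>
    Finset.prod_pos fun i' _ => by
      have := hρ i' j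
      positivity
  -- from the sum to the single terms
  have hsingle : ∀ (S : Finset ι) (f : ι → α),
      ∑ j ∈ J, (11 / 10 : ℝ) ^ (S.filter (fun i' => hit i' (f i') j)).card /
        ∏ i' ∈ S, (1 + ρ i' j / 10) ≤ J.card →
      ∀ j ∈ J, (11 / 10 : ℝ) ^ (S.filter (fun i' => hit i' (f i') j)).card ≤
        J.card * ∏ i' ∈ S, (1 + ρ i' j / 10) := by
    intro S f h j hj
    have h1 : (11 / 10 : ℝ) ^ (S.filter (fun i' => hit i' (f i') j)).card /
        ∏ i' ∈ S, (1 + ρ i' j / 10) ≤ J.card := by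
      refine le_trans ?_ h
      exact Finset.single_le_sum
        (f := fun j => (11 / 10 : ℝ) ^ (S.filter (fun i' => hit i' (f i') j)).card /
          ∏ i' ∈ S, (1 + ρ i' j / 10))
        (fun j _ => div_nonneg (by positivity) (hpos S j).le) hj
    rwa [div_le_iff₀ (hpos S j)] at h1
  have hkey : ∀ S : Finset ι, S ⊆ I → ∃ f, Good S f ∧
      ∑ j ∈ J, (11 / 10 : ℝ) ^ (S.filter (fun i' => hit i' (f i') j)).card /
        ∏ i' ∈ S, (1 + ρ i' j / 10) ≤ J.card := by
    intro S
    induction S using Finset.induction_on_min_value key with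
    | empty =>
      intro _
      obtain ⟨f, hf⟩ := h0
      exact ⟨f, hf, by simp⟩
    | insert i S hi hmin ih =>
      intro hS
      have hS' : S ⊆ I := (Finset.subset_insert i S).trans hS
      obtain ⟨f, hf, hsum⟩ := ih hS'
      obtain ⟨A, hA, hA1, hA2⟩ := hstep S hS' i (hS (Finset.mem_insert_self i S)) hi hmin f hf
        (hsingle S f hsum)
      set n : γ → ℕ := fun j => (S.filter (fun i' => hit i' (f i') j)).card with hn
      set P : γ → ℝ := fun j => ∏ i' ∈ S, (1 + ρ i' j / 10) with hP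
      have hAp : (0 : ℝ) < A.card := by exact_mod_cast Finset.card_pos.2 hA
      have hPp : ∀ j, 0 < P j := fun j => hpos S j
      -- the terms after the choice of `a`
      have h4 : ∀ a j, (11 / 10 : ℝ) ^ ((insert i S).filter
          (fun i' => hit i' (Function.update f i a i') j)).card =
          (11 / 10 : ℝ) ^ n j * (1 + (if hit i a j then 1 / 10 else 0)) := by
        intro a j
        have h5 : S.filter (fun i' => hit i' (Function.update f i a i') j) =
            S.filter (fun i' => hit i' (f i') j) := by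
          refine Finset.filter_congr fun i' hi' => ?_
          have h6 : i' ≠ i := by
            rintro rfl
            exact hi hi'
          rw [Function.update_of_ne h6]
        rw [Finset.filter_insert, Function.update_self, h5]
        split_ifs with h6
        · rw [Finset.card_insert_of_notMem (fun h => hi (Finset.mem_filter.1 h).1), pow_succ]
          ring
        · rw [add_zero, mul_one]
      have h5 : ∀ j, ∏ i' ∈ insert i S, (1 + ρ i' j / 10) = (1 + ρ i j / 10) * P j := fun j =>
        Finset.prod_insert hi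
      have h1 : ∑ a ∈ A, ∑ j ∈ J, (11 / 10 : ℝ) ^ ((insert i S).filter
          (fun i' => hit i' (Function.update f i a i') j)).card /
            ∏ i' ∈ insert i S, (1 + ρ i' j / 10) ≤ ∑ _a ∈ A, (J.card : ℝ) := by
        rw [Finset.sum_const, nsmul_eq_mul, Finset.sum_comm]
        refine le_trans ?_ (mul_le_mul_of_nonneg_left hsum hAp.le)
        rw [Finset.mul_sum]
        refine Finset.sum_le_sum fun j hj => ?_
        have hρj := hρ i j
        have h6 : 0 < 1 + ρ i j / 10 := by positivity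
        have h7 := hA2 j hj
        have h8 : 0 ≤ (11 / 10 : ℝ) ^ n j / P j := div_nonneg (by positivity) (hPp j).le
        have h9 : ∀ a ∈ A, (11 / 10 : ℝ) ^ ((insert i S).filter
            (fun i' => hit i' (Function.update f i a i') j)).card /
            ∏ i' ∈ insert i S, (1 + ρ i' j / 10) =
            ((11 / 10 : ℝ) ^ n j / P j) / (1 + ρ i j / 10) *
              (1 + (if hit i a j then 1 / 10 else 0)) := by
          intro a _
          rw [h4, h5, div_div, mul_comm (P j), mul_div_right_comm]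
        rw [Finset.sum_congr rfl h9, ← Finset.mul_sum, Finset.sum_add_distrib, Finset.sum_const,
          nsmul_eq_mul, mul_one, ← Finset.sum_filter, Finset.sum_const, nsmul_eq_mul]
        have h10 : (A.card : ℝ) + ((A.filter (fun a => hit i a j)).card : ℝ) * (1 / 10) ≤
            A.card * (1 + ρ i j / 10) := by nlinarith
        calc ((11 / 10 : ℝ) ^ n j / P j) / (1 + ρ i j / 10) *
              ((A.card : ℝ) + ((A.filter (fun a => hit i a j)).card : ℝ) * (1 / 10))
            ≤ ((11 / 10 : ℝ) ^ n j / P j) / (1 + ρ i j / 10) * (A.card * (1 + ρ i j / 10)) :=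
              mul_le_mul_of_nonneg_left h10 (div_nonneg h8 h6.le)
          _ = A.card * ((11 / 10 : ℝ) ^ n j / P j) := by
              field_simp
      obtain ⟨a, ha, ha1⟩ := Finset.exists_le_of_sum_le hA h1
      exact ⟨Function.update f i a, hA1 a ha, ha1⟩
  obtain ⟨f, hf, hsum⟩ := hkey I (Finset.Subset.refl _)
  exact ⟨f, hf, hsingle I f hsum⟩

/-- a product `∏ (1 + ρ/10)` is at most `exp ((∑ ρ)/10)` -/
theorem prod_le_exp {ι : Type} (S I : Finset ι) (hSI : S ⊆ I) (ρ : ι → ℝ) (hρ : ∀ i, 0 ≤ ρ i)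
    (r : ℝ) (hr : ∑ i ∈ I, ρ i ≤ r) : ∏ i ∈ S, (1 + ρ i / 10) ≤ Real.exp (r / 10) := by
  calc ∏ i ∈ S, (1 + ρ i / 10) ≤ ∏ i ∈ S, Real.exp (ρ i / 10) := by
        refine Finset.prod_le_prod (fun i _ => ?_) (fun i _ => ?_)
        · have := hρ i
          positivity
        · rw [add_comm]
          exact Real.add_one_le_exp _
    _ = Real.exp (∑ i ∈ S, ρ i / 10) := (Real.exp_sum _ _).symm
    _ ≤ Real.exp (r / 10) := by
        refine Real.exp_le_exp.2 ?_
        rw [← Finset.sum_div]
        have h1 : ∑ i ∈ S, ρ i ≤ ∑ i ∈ I, ρ i :=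
          Finset.sum_le_sum_of_subset_of_nonneg hSI fun i _ _ => hρ i
        linarith

theorem log_bound : (1 / 11 : ℝ) ≤ Real.log (11 / 10) := by
  have h := Real.one_sub_inv_le_log_of_pos (show (0 : ℝ) < 11 / 10 by norm_num)
  norm_num at h ⊢
  exact h

theorem load_bound (A : ℝ) (B q : ℕ) (r : ℝ) (hr : (q : ℝ) * r < 1 / 11) :
    ∃ m₀ : ℕ, ∀ m : ℕ, m₀ ≤ m → ∀ t : ℕ,
      (11 / 10 : ℝ) ^ t ≤ A * (m : ℝ) ^ B * Real.exp (r * m) → q * t ≤ m := by
  set d : ℝ := 1 / 11 - q * r with hd
  have hd0 : 0 < d := by rw [hd]; linarith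
  -- `q (log A + B log m) ≤ d m` for large `m`
  have h1 : Filter.Tendsto (fun m : ℕ => (q : ℝ) * B * (Real.log m / m) +
      (q : ℝ) * Real.log (max A 1) / m) Filter.atTop (nhds 0) := by
    have h2 : Filter.Tendsto (fun x : ℝ => Real.log x / x) Filter.atTop (nhds 0) := by
      have := Real.isLittleO_log_id_atTop.tendsto_div_nhds_zero
      simpa using this
    have h3 : Filter.Tendsto (fun m : ℕ => Real.log m / m) Filter.atTop (nhds 0) :=
      h2.comp tendsto_natCast_atTop_atTop
    have h4 : Filter.Tendsto (fun m : ℕ => (q : ℝ) * Real.log (max A 1) / m) Filter.atTop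
        (nhds 0) := tendsto_const_div_atTop_nhds_zero_nat _
    simpa using (h3.const_mul ((q : ℝ) * B)).add h4
  have h2 := (h1.eventually (gt_mem_nhds hd0)).and (Filter.eventually_gt_atTop 0)
  obtain ⟨m₀, hm₀⟩ := Filter.eventually_atTop.1 h2
  refine ⟨m₀, fun m hm t ht => ?_⟩
  obtain ⟨h3, h4⟩ := hm₀ m hm
  have hmp : (0 : ℝ) < m := by exact_mod_cast h4
  have h5 : (q : ℝ) * B * Real.log m + q * Real.log (max A 1) < d * m := by
    have h6 := mul_lt_mul_of_pos_right h3 hmp
    have h7 : ((q : ℝ) * B * (Real.log m / m) + (q : ℝ) * Real.log (max A 1) / m) * m =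
        (q : ℝ) * B * Real.log m + q * Real.log (max A 1) := by
      field_simp
    linarith
  have hA1 : (1 : ℝ) ≤ max A 1 := le_max_right _ _
  have h6 : (t : ℝ) * Real.log (11 / 10) ≤
      Real.log (max A 1) + B * Real.log m + r * m := by
    have h7 : (11 / 10 : ℝ) ^ t ≤ max A 1 * (m : ℝ) ^ B * Real.exp (r * m) := by
      refine ht.trans ?_
      have : A ≤ max A 1 := le_max_left _ _
      gcongr
    have h8 := Real.log_le_log (by positivity) h7
    rw [Real.log_pow, Real.log_mul (by positivity) (Real.exp_pos _).ne',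
      Real.log_mul (by positivity) (by positivity), Real.log_pow, Real.log_exp] at h8
    exact h8
  have h7 : (t : ℝ) * (1 / 11) ≤ Real.log (max A 1) + B * Real.log m + r * m :=
    (mul_le_mul_of_nonneg_left log_bound (Nat.cast_nonneg t)).trans h6
  have h8 : (q : ℝ) * (t * (1 / 11)) ≤
      q * (Real.log (max A 1) + B * Real.log m + r * m) :=
    mul_le_mul_of_nonneg_left h7 (Nat.cast_nonneg q)
  have h9 : ((q * t : ℕ) : ℝ) ≤ m := by
    push_cast
    have h10 : d * m = 1 / 11 * m - q * r * m := by rw [hd]; ring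
    nlinarith
  exact_mod_cast h9

end Pool.Agent.Helper95.BC
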