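import Pool.Agent.Helper95.BC.A

/-!
# The b-chromatic number is at most the m-degree
-/

set_option autoImplicit false

namespace Pool.Agent.Helper95.BC

open Classical in
theorem bChrom_le_mDegree {V : Type} [Fintype V] (G : SimpleGraph V) :
    bChrom G ≤ mDegree G := by
  have hb : BddAbove {m | m ≤ (Finset.univ.filter (fun v => m - 1 ≤ (nbr G v).card)).card} := by
    refine ⟨Fintype.card V, ?_⟩
    intro m hm
    exact le_trans hm (Finset.card_filter_le _ _)
  refine csSup_le' ?_
  rintro k ⟨ψ, _, hψ⟩
  refine le_csSup hb ?_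
  show k ≤ (Finset.univ.filter (fun v => k - 1 ≤ (nbr G v).card)).card
  choose u hu hub using hψ
  have h1 : Function.Injective u := fun c c' h => by rw [← hu c, ← hu c', h]
  have h2 : (Finset.univ.image u).card = k := by
    rw [Finset.card_image_of_injective _ h1, Finset.card_univ, Fintype.card_fin]
  rw [← h2]
  refine Finset.card_le_card ?_
  intro v hv
  obtain ⟨c, -, rfl⟩ := Finset.mem_image.1 hv
  rw [Finset.mem_filter]
  refine ⟨Finset.mem_univ _, ?_⟩
  rw [h2]
  have h3 : (Finset.univ.erase c : Finset (Fin k)) ⊆ (nbr G (u c)).image ψ := by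
    intro c' hc'
    have hne : c' ≠ ψ (u c) := by
      rw [hu c]
      exact Finset.ne_of_mem_erase hc'
    obtain ⟨w, hw, hw'⟩ := hub c c' hne
    exact Finset.mem_image.2 ⟨w, mem_nbr.2 hw, hw'⟩
  have h4 := Finset.card_le_card h3
  rw [Finset.card_erase_of_mem (Finset.mem_univ _), Finset.card_univ, Fintype.card_fin] at h4
  exact h4.trans Finset.card_image_le

end Pool.Agent.Helper95.BC
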