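import Pool.Agent.Helper95.BC.S0
import Pool.Agent.Helper95.BC.S1

/-!
# The choice of the centres
-/

set_option autoImplicit false

namespace Pool.Agent.Helper95.BC

open Classical in
/-- the closed neighbourhood of a vertex outside `H` has at most `m` elements -/
private theorem s3_card_nbhd {V : Type} [Fintype V] (G : SimpleGraph V) (m : ℕ) (v : V)
    (h : (nbr G v).card + 1 ≤ m) : (insert v (nbr G v)).card ≤ m :=
  (Finset.card_insert_le _ _).trans h

open Classical in
/-- at most `m ^ 2` vertices are near `y` -/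
private theorem s3_near {V : Type} [Fintype V] (G : SimpleGraph V) (m : ℕ) (H A : Finset V)
    (hdeg : ∀ v, v ∉ H → (nbr G v).card + 1 ≤ m) {y : V} (hy : y ∉ H) :
    (A.filter (fun a => Near G H y a)).card ≤ m * m := by
  have hsub : A.filter (fun a => Near G H y a) ⊆
      ((nbr G y).filter (fun w => w ∉ H)).biUnion (fun w => nbr G w) := by
    intro a ha
    obtain ⟨_, _, w, hw, h1, h2⟩ := Finset.mem_filter.1 ha
    exact Finset.mem_biUnion.2 ⟨w, Finset.mem_filter.2 ⟨mem_nbr.2 h1, hw⟩, mem_nbr.2 h2⟩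
  refine (Finset.card_le_card hsub).trans ?_
  refine (Finset.card_biUnion_le_card_mul _ _ m ?_).trans ?_
  · intro w hw
    have := hdeg w (Finset.mem_filter.1 hw).2
    omega
  · refine Nat.mul_le_mul_right _ ?_
    have := hdeg y hy
    have := Finset.card_filter_le (nbr G y) (fun w => w ∉ H)
    omega

open Classical in
theorem choose_centres {V C : Type} [Fintype V] [Nonempty V] [Fintype C] (G : SimpleGraph V)
    (m : ℕ) (hm : 1 ≤ m) (H X : Finset V) (κ : V → C) (Cs : Finset C)
    (hcard : Fintype.card C = m)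
    (hXH : ∀ v ∈ X, v ∉ H) (hdeg : ∀ v, v ∉ H → (nbr G v).card + 1 ≤ m)
    (hX : X.card ≤ 96 * m ^ 2)
    (hcand : ∀ c ∈ Cs, 48 * m ^ 2 ≤
      (X.filter (fun v => ∀ h ∈ H, G.Adj v h → κ h ≠ c)).card)
    (hload : ∀ t : ℕ, (11 / 10 : ℝ) ^ t ≤ 96 * (m : ℝ) ^ 3 * Real.exp ((1 / 470) * m) →
      40 * t ≤ m) :
    ∃ x : C → V, (∀ c ∈ Cs, x c ∈ X) ∧ (∀ c ∈ Cs, ∀ h ∈ H, G.Adj (x c) h → κ h ≠ c) ∧
      (∀ c ∈ Cs, ∀ c' ∈ Cs, ¬ G.Adj (x c) (x c')) ∧ Set.InjOn x (Cs : Set C) ∧
      ∀ y, y ∉ H → (y ∈ X ∨ ∃ v ∈ X, G.Adj v y) → 40 * (mates G H Cs x y).card ≤ m := by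
  -- the vertices that are watched
  set J : Finset V := Finset.univ.filter (fun y => y ∉ H ∧ (y ∈ X ∨ ∃ v ∈ X, G.Adj v y)) with hJ
  have hJcard : J.card ≤ 96 * m ^ 3 := by
    have hsub : J ⊆ X.biUnion (fun v => insert v (nbr G v)) := by
      intro y hy
      obtain ⟨_, _, h⟩ := Finset.mem_filter.1 hy
      rcases h with h | ⟨v, hv, h⟩
      · exact Finset.mem_biUnion.2 ⟨y, h, Finset.mem_insert_self _ _⟩
      · exact Finset.mem_biUnion.2 ⟨v, hv, Finset.mem_insert_of_mem (mem_nbr.2 h)⟩
    refine (Finset.card_le_card hsub).trans ?_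
    refine (Finset.card_biUnion_le_card_mul _ _ m ?_).trans ?_
    · intro v hv
      exact s3_card_nbhd G m v (hdeg v (hXH v hv))
    · calc X.card * m ≤ (96 * m ^ 2) * m := Nat.mul_le_mul_right _ hX
        _ = 96 * m ^ 3 := by ring
  have hCs : Cs.card ≤ m := hcard ▸ Finset.card_le_univ Cs
  obtain ⟨x, ⟨h1, h2, h3, h4⟩, h5⟩ := greedy_gen (ι := C) (α := V) (γ := V) (fun _ => 0) J
    (fun _ _ => (1 / 47 : ℝ)) (fun _ _ => by norm_num) (fun _ v y => Near G H y v)
    (fun S x => (∀ c ∈ S, x c ∈ X) ∧ (∀ c ∈ S, ∀ h ∈ H, G.Adj (x c) h → κ h ≠ c) ∧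
      (∀ c ∈ S, ∀ c' ∈ S, ¬ G.Adj (x c) (x c')) ∧ Set.InjOn x (S : Set C))
    ⟨fun _ => Classical.arbitrary V, by simp⟩ Cs (by
      intro S hS c hc hcS _ f hf _
      obtain ⟨f1, f2, f3, f4⟩ := hf
      -- the forbidden vertices
      set B : Finset V := S.biUnion (fun c' => insert (f c') (nbr G (f c'))) with hB
      have hBcard : B.card ≤ m * m := by
        refine (Finset.card_biUnion_le_card_mul _ _ m ?_).trans ?_
        · intro c' hc'
          exact s3_card_nbhd G m _ (hdeg _ (hXH _ (f1 c' hc')))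
        · exact Nat.mul_le_mul_right _ ((Finset.card_le_card hS).trans hCs)
      set A0 : Finset V := X.filter (fun v => ∀ h ∈ H, G.Adj v h → κ h ≠ c) with hA0
      set A : Finset V := A0 \ B with hA
      have hAcard : 47 * m ^ 2 ≤ A.card := by
        have e1 : A0.card - B.card ≤ A.card := Finset.le_card_sdiff _ _
        have e2 : 48 * m ^ 2 ≤ A0.card := hcand c hc
        have e3 : m * m = m ^ 2 := by ring
        rw [e3] at hBcard
        omega
      have hmpos : 1 ≤ m ^ 2 := Nat.one_le_pow _ _ hm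
      have hAB : ∀ a ∈ A, ∀ c' ∈ S, a ≠ f c' ∧ ¬ G.Adj (f c') a := by
        intro a ha c' hc'
        have hn : a ∉ B := (Finset.mem_sdiff.1 ha).2
        constructor
        · rintro rfl
          exact hn (Finset.mem_biUnion.2 ⟨c', hc', Finset.mem_insert_self _ _⟩)
        · intro hadj
          exact hn (Finset.mem_biUnion.2
            ⟨c', hc', Finset.mem_insert_of_mem (mem_nbr.2 hadj)⟩)
      have hupd : ∀ a : V, ∀ c' ∈ S, Function.update f c a c' = f c' := by
        intro a c' hc'
        refine Function.update_of_ne ?_ _ _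
        rintro rfl
        exact hcS hc'
      refine ⟨A, ?_, ?_, ?_⟩
      · refine Finset.card_pos.1 ?_
        omega
      · intro a ha
        have ha0 := Finset.mem_filter.1 (Finset.mem_sdiff.1 ha).1
        refine ⟨?_, ?_, ?_, ?_⟩
        · intro c' hc'
          rcases Finset.mem_insert.1 hc' with rfl | hc'
          · rw [Function.update_self]
            exact ha0.1
          · rw [hupd a c' hc']
            exact f1 c' hc'
        · intro c' hc'
          rcases Finset.mem_insert.1 hc' with rfl | hc'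
          · rw [Function.update_self]
            exact ha0.2
          · rw [hupd a c' hc']
            exact f2 c' hc'
        · intro c1 hc1 c2 hc2
          rcases Finset.mem_insert.1 hc1 with e1 | hc1'
          · rcases Finset.mem_insert.1 hc2 with e2 | hc2'
            · rw [e1, e2]
              exact G.loopless.irrefl _
            · rw [e1, Function.update_self, hupd a c2 hc2']
              exact fun h => (hAB a ha c2 hc2').2 h.symm
          · rcases Finset.mem_insert.1 hc2 with e2 | hc2'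
            · rw [e2, Function.update_self, hupd a c1 hc1']
              exact (hAB a ha c1 hc1').2
            · rw [hupd a c1 hc1', hupd a c2 hc2']
              exact f3 c1 hc1' c2 hc2'
        · intro c1 hc1 c2 hc2 h
          rw [Finset.mem_coe] at hc1 hc2
          rcases Finset.mem_insert.1 hc1 with e1 | hc1'
          · rcases Finset.mem_insert.1 hc2 with e2 | hc2'
            · rw [e1, e2]
            · rw [e1, Function.update_self, hupd a c2 hc2'] at h
              exact absurd h (hAB a ha c2 hc2').1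
          · rcases Finset.mem_insert.1 hc2 with e2 | hc2'
            · rw [e2, Function.update_self, hupd a c1 hc1'] at h
              exact absurd h.symm (hAB a ha c1 hc1').1
            · rw [hupd a c1 hc1', hupd a c2 hc2'] at h
              exact f4 hc1' hc2' h
      · intro y hy
        have hyH : y ∉ H := (Finset.mem_filter.1 hy).2.1
        have e1 : (A.filter (fun a => Near G H y a)).card ≤ m * m := s3_near G m H A hdeg hyH
        have e2 : 47 * (A.filter (fun a => Near G H y a)).card ≤ A.card := by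
          have e3 : m * m = m ^ 2 := by ring
          omega
        have e4 : (47 : ℝ) * ((A.filter (fun a => Near G H y a)).card : ℝ) ≤ (A.card : ℝ) := by
          exact_mod_cast e2
        linarith)
  refine ⟨x, h1, h2, h3, h4, ?_⟩
  intro y hyH hy
  have hyJ : y ∈ J := Finset.mem_filter.2 ⟨Finset.mem_univ _, hyH, hy⟩
  have h6 := h5 y hyJ
  have h7 : ∏ _c ∈ Cs, (1 + (1 / 47 : ℝ) / 10) ≤ Real.exp (((1 / 47 : ℝ) * m) / 10) := by
    refine prod_le_exp Cs Cs (Finset.Subset.refl _) (fun _ => (1 / 47 : ℝ))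
      (fun _ => by norm_num) _ ?_
    rw [Finset.sum_const, nsmul_eq_mul, mul_comm]
    have : (Cs.card : ℝ) ≤ (m : ℝ) := by exact_mod_cast hCs
    nlinarith
  refine hload _ ?_
  have h8 : (mates G H Cs x y) = Cs.filter (fun c => Near G H y (x c)) := rfl
  rw [h8]
  refine h6.trans ?_
  have h9 : (J.card : ℝ) ≤ 96 * (m : ℝ) ^ 3 := by exact_mod_cast hJcard
  have h10 : ((1 / 47 : ℝ) * m) / 10 = (1 / 470) * m := by ring
  rw [h10] at h7
  have h11 : (0 : ℝ) ≤ ∏ _c ∈ Cs, (1 + (1 / 47 : ℝ) / 10) :=
    Finset.prod_nonneg (fun _ _ => by norm_num)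
  exact mul_le_mul h9 h7 h11 (by positivity)

end Pool.Agent.Helper95.BC
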