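import Pool.Agent.Helper95.BC.B

/-!
# The candidates
-/

set_option autoImplicit false

namespace Pool.Agent.Helper95.BC

open Classical in
/-- the vertices with two neighbours in `H` -/
theorem card_two {V : Type} [Fintype V] {G : SimpleGraph V} (hC4 : C4Free G) (H : Finset V)
    {m : ℕ} (hH : H.card ≤ m) :
    (Finset.univ.filter (fun x => ∃ h ∈ H, ∃ h' ∈ H, G.Adj x h ∧ G.Adj x h' ∧ h ≠ h')).card ≤
      m ^ 2 := by
  by_cases hV : Nonempty V
  · obtain ⟨v0⟩ := hV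
    have hch : ∀ x : V, ∃ p : V × V, (∃ h ∈ H, ∃ h' ∈ H, G.Adj x h ∧ G.Adj x h' ∧ h ≠ h') →
        p.1 ∈ H ∧ p.2 ∈ H ∧ G.Adj x p.1 ∧ G.Adj x p.2 ∧ p.1 ≠ p.2 := by
      intro x
      by_cases hx : ∃ h ∈ H, ∃ h' ∈ H, G.Adj x h ∧ G.Adj x h' ∧ h ≠ h'
      · obtain ⟨h, h1, h', h2, h3⟩ := hx
        exact ⟨(h, h'), fun _ => ⟨h1, h2, h3⟩⟩
      · exact ⟨(v0, v0), fun h => absurd h hx⟩
    choose F hF using hch
    have h1 : (Finset.univ.filter (fun x => ∃ h ∈ H, ∃ h' ∈ H, G.Adj x h ∧ G.Adj x h' ∧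
        h ≠ h')).card ≤ (H ×ˢ H).card := by
      refine Finset.card_le_card_of_injOn F ?_ ?_
      · intro x hx
        have hx' : x ∈ Finset.univ.filter (fun x => ∃ h ∈ H, ∃ h' ∈ H, G.Adj x h ∧ G.Adj x h' ∧
          h ≠ h') := hx
        obtain ⟨h1, h2, _⟩ := hF x (Finset.mem_filter.1 hx').2
        exact Finset.mem_coe.2 (Finset.mem_product.2 ⟨h1, h2⟩)
      · intro x hx y hy h
        have hx' : x ∈ Finset.univ.filter (fun x => ∃ h ∈ H, ∃ h' ∈ H, G.Adj x h ∧ G.Adj x h' ∧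
          h ≠ h') := hx
        have hy' : y ∈ Finset.univ.filter (fun x => ∃ h ∈ H, ∃ h' ∈ H, G.Adj x h ∧ G.Adj x h' ∧
          h ≠ h') := hy
        obtain ⟨_, _, h1, h2, h3⟩ := hF x (Finset.mem_filter.1 hx').2
        obtain ⟨_, _, h4, h5, _⟩ := hF y (Finset.mem_filter.1 hy').2
        rw [← h] at h4 h5
        by_contra hne
        exact hC4 x y (F x).1 (F x).2 hne h3 h1 h4.symm h5 h2.symm
    refine h1.trans ?_
    rw [Finset.card_product, sq]
    exact Nat.mul_le_mul hH hH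
  · have : (Finset.univ.filter (fun x => ∃ h ∈ H, ∃ h' ∈ H, G.Adj x h ∧ G.Adj x h' ∧
        h ≠ h')) = ∅ := by
      refine Finset.filter_eq_empty_iff.2 ?_
      intro x
      exact absurd ⟨x⟩ hV
    rw [this]
    exact Nat.zero_le _

open Classical in
theorem candidates : ∃ m₀ : ℕ, ∀ m : ℕ, m₀ ≤ m → ∀ (V : Type) [Fintype V] (G : SimpleGraph V)
    (H D : Finset V), C4Free G → H.card ≤ m → (∀ v, v ∉ H → (nbr G v).card + 1 ≤ m) →
    ∃ X ⊆ D, D.card ≤ X.card + 2 * m ^ 2 ∧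
      (∀ x ∈ X, ∀ h ∈ H, ∀ h' ∈ H, G.Adj x h → G.Adj x h' → h = h') ∧
      ∀ x ∈ X, ∀ v, v ∉ H → G.Adj x v → 1000 * (H.filter (fun h => G.Adj v h)).card ≤ m := by
  refine ⟨4000001, fun m hm V _ G H D hC4 hH hdeg => ?_⟩
  have hm' : (4000001 : ℝ) ≤ m := by exact_mod_cast hm
  set R₁ : Finset V := Finset.univ.filter (fun x => ∃ h ∈ H, ∃ h' ∈ H, G.Adj x h ∧ G.Adj x h' ∧
    h ≠ h') with hR₁
  have h1 : R₁.card ≤ m ^ 2 := card_two hC4 H hH
  set B : Finset V := Finset.univ.filter (fun v => v ∉ H ∧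
    m < 1000 * (H.filter (fun h => G.Adj v h)).card) with hB
  have hBt : B.card ≤ 2000 := by
    have h2 := card_big hC4 H m 2000 (4 / 1000) hH (by norm_num) (by omega)
    refine (Finset.card_le_card ?_).trans h2
    intro v hv
    rw [hB, Finset.mem_filter] at hv
    rw [Finset.mem_filter]
    refine ⟨Finset.mem_univ _, ?_⟩
    have h3 : H.filter (fun h => G.Adj v h) ⊆ nbr G v ∩ H := by
      intro w hw
      rw [Finset.mem_filter] at hw
      rw [Finset.mem_inter, mem_nbr]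
      exact ⟨hw.2, hw.1⟩
    have h4 := Finset.card_le_card h3
    have h5 : m < 1000 * (nbr G v ∩ H).card := by
      have := hv.2.2
      omega
    have h6 : (m : ℝ) < 1000 * ((nbr G v ∩ H).card : ℝ) := by exact_mod_cast h5
    linarith
  set R₂ : Finset V := B.biUnion (fun v => nbr G v) with hR₂
  have h2 : R₂.card ≤ m ^ 2 := by
    have h3 : R₂.card ≤ ∑ v ∈ B, (nbr G v).card := Finset.card_biUnion_le
    have h4 : ∑ v ∈ B, (nbr G v).card ≤ ∑ _v ∈ B, m := by
      refine Finset.sum_le_sum fun v hv => ?_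
      have h5 : v ∉ H := by
        rw [hB, Finset.mem_filter] at hv
        exact hv.2.1
      have := hdeg v h5
      omega
    rw [Finset.sum_const, smul_eq_mul] at h4
    have h5 : B.card * m ≤ m * m := Nat.mul_le_mul_right m (by omega)
    rw [sq]
    omega
  refine ⟨D \ (R₁ ∪ R₂), Finset.sdiff_subset, ?_, ?_, ?_⟩
  · have h3 := Finset.card_le_card_sdiff_add_card (s := D) (t := R₁ ∪ R₂)
    have h4 := Finset.card_union_le R₁ R₂
    omega
  · intro x hx h hh h' hh' h3 h4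
    by_contra hne
    have h5 := (Finset.mem_sdiff.1 hx).2
    refine h5 (Finset.mem_union_left _ ?_)
    rw [hR₁, Finset.mem_filter]
    exact ⟨Finset.mem_univ _, h, hh, h', hh', h3, h4, hne⟩
  · intro x hx v hv hxv
    by_contra hlt
    have h5 := (Finset.mem_sdiff.1 hx).2
    refine h5 (Finset.mem_union_right _ ?_)
    rw [hR₂, Finset.mem_biUnion]
    refine ⟨v, ?_, ?_⟩
    · rw [hB, Finset.mem_filter]
      exact ⟨Finset.mem_univ _, hv, by omega⟩
    · rw [mem_nbr]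
      exact hxv.symm

end Pool.Agent.Helper95.BC
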