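import Pool.Agent.Helper95.BC.S0

/-!
# Counting shared vertices in the rows of a system of centres
-/

set_option autoImplicit false

namespace Pool.Agent.Helper95.BC

section

variable {V C : Type} [Fintype V] [Fintype C] {G : SimpleGraph V} {m : ℕ}
  {H : Finset V} {κ : V → C} {Cs : Finset C} {x : C → V}

open Classical in
/-- the centres of `z` different from `c` are mates of `x c` -/
theorem s6a_sub (hS : Stars G m H κ Cs x) {z : V} (hz : z ∉ H) {c : C} (hc : c ∈ Cs)
    (hcz : G.Adj (x c) z) :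
    (Cs.filter (fun c' => G.Adj (x c') z)).erase c ⊆ mates G H Cs x (x c) := by
  intro c' hc'
  obtain ⟨h1, h2⟩ := Finset.mem_erase.1 hc'
  obtain ⟨h3, h4⟩ := Finset.mem_filter.1 h2
  rw [mem_mates]
  refine ⟨h3, ?_, z, hz, hcz, SimpleGraph.Adj.symm h4⟩
  intro h
  exact h1 (hS.xinj (Finset.mem_coe.2 h3) (Finset.mem_coe.2 hc) h)

omit [Fintype V] [Fintype C] in
open Classical in
theorem s6a_card (z : V) {c : C} (hc : c ∈ Cs) (hcz : G.Adj (x c) z) :
    ((Cs.filter (fun c' => G.Adj (x c') z)).erase c).card = rank G Cs x z - 1 := by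
  rw [Finset.card_erase_of_mem (Finset.mem_filter.2 ⟨hc, hcz⟩)]
  rfl

/-- D6a: all centres of `z` except one are mates of that one -/
theorem Stars.rank_le (hS : Stars G m H κ Cs x) {z : V} (hz : Shared G H Cs x z) :
    40 * (rank G Cs x z - 1) ≤ m ∧ 2 ≤ rank G Cs x z := by
  classical
  obtain ⟨hzH, c, hc, c', hc', hne, h1, h2⟩ := hz
  refine ⟨?_, ?_⟩
  · have h3 := Finset.card_le_card (s6a_sub hS hzH hc h1)
    rw [s6a_card z hc h1] at h3
    have h4 := hS.xm c hc
    omega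
  · unfold rank
    have h5 : ({c, c'} : Finset C) ⊆ Cs.filter (fun c => G.Adj (x c) z) := by
      intro a ha
      rcases Finset.mem_insert.1 ha with ha | ha
      · rw [ha]
        exact Finset.mem_filter.2 ⟨hc, h1⟩
      · rw [Finset.mem_singleton.1 ha]
        exact Finset.mem_filter.2 ⟨hc', h2⟩
    have h6 := Finset.card_le_card h5
    rw [Finset.card_pair hne] at h6
    exact h6

open Classical in
/-- one row: `z'` of rank at least `r` in the row `c` use `r - 1` mates of `x c` each -/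
theorem s6a_row (hS : Stars G m H κ Cs x) (r : ℕ) (S : Finset V)
    (hSh : ∀ z' ∈ S, Shared G H Cs x z') (hrk : ∀ z' ∈ S, r ≤ rank G Cs x z')
    {c : C} (hc : c ∈ Cs) :
    40 * ((S.filter (fun z' => G.Adj (x c) z')).card * (r - 1)) ≤ m := by
  have h1 : ∀ z' ∈ S.filter (fun z' => G.Adj (x c) z'),
      r - 1 ≤ ((Cs.filter (fun c' => G.Adj (x c') z')).erase c).card := by
    intro z' hz'
    obtain ⟨h2, h3⟩ := Finset.mem_filter.1 hz'
    rw [s6a_card z' hc h3]
    have h4 := hrk z' h2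
    omega
  have h2 : (S.filter (fun z' => G.Adj (x c) z')).card * (r - 1) ≤
      ∑ z' ∈ S.filter (fun z' => G.Adj (x c) z'),
        ((Cs.filter (fun c' => G.Adj (x c') z')).erase c).card := by
    have h3 := Finset.card_nsmul_le_sum (S.filter (fun z' => G.Adj (x c) z'))
      (fun z' => ((Cs.filter (fun c' => G.Adj (x c') z')).erase c).card) (r - 1) h1
    rwa [smul_eq_mul] at h3
  have h3 : ((S.filter (fun z' => G.Adj (x c) z')).biUnion
      (fun z' => (Cs.filter (fun c' => G.Adj (x c') z')).erase c)).card =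
      ∑ z' ∈ S.filter (fun z' => G.Adj (x c) z'),
        ((Cs.filter (fun c' => G.Adj (x c') z')).erase c).card := by
    apply Finset.card_biUnion
    intro z1 hz1 z2 hz2 hne
    refine Finset.disjoint_left.2 ?_
    intro c' hc1 hc2
    obtain ⟨_, h5⟩ := Finset.mem_filter.1 (Finset.mem_coe.1 hz1)
    obtain ⟨_, h6⟩ := Finset.mem_filter.1 (Finset.mem_coe.1 hz2)
    obtain ⟨h7, h8⟩ := Finset.mem_erase.1 hc1
    obtain ⟨_, h9⟩ := Finset.mem_erase.1 hc2
    obtain ⟨h10, h11⟩ := Finset.mem_filter.1 h8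
    obtain ⟨_, h12⟩ := Finset.mem_filter.1 h9
    have h13 : x c ≠ x c' := by
      intro h
      exact h7 (hS.xinj (Finset.mem_coe.2 h10) (Finset.mem_coe.2 hc) h.symm)
    exact hne (hS.unique h13 h5 h11 h6 h12)
  have h4 : (S.filter (fun z' => G.Adj (x c) z')).biUnion
      (fun z' => (Cs.filter (fun c' => G.Adj (x c') z')).erase c) ⊆ mates G H Cs x (x c) := by
    intro c' hc'
    obtain ⟨z', hz', h5⟩ := Finset.mem_biUnion.1 hc'
    obtain ⟨h6, h7⟩ := Finset.mem_filter.1 hz'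
    exact s6a_sub hS (hSh z' h6).1 hc h7 h5
  have h5 := Finset.card_le_card h4
  have h6 := hS.xm c hc
  omega

open Classical in
/-- D6a: for each of the r centres c of z, the z' of higher rank in the row c use r - 1 or more
mates of x c each, disjoint for different z' (C4-free): at most m / (40 (r - 1)) such z' -/
theorem Stars.row_rank (hS : Stars G m H κ Cs x) {z : V} (hz : Shared G H Cs x z)
    (S : Finset V) (hSh : ∀ z' ∈ S, Shared G H Cs x z')
    (hrk : ∀ z' ∈ S, rank G Cs x z ≤ rank G Cs x z') :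
    20 * (S.filter (fun z' => z' ≠ z ∧ ∃ c ∈ Cs, G.Adj (x c) z ∧ G.Adj (x c) z')).card ≤ m := by
  obtain ⟨_, h2⟩ := hS.rank_le hz
  have h3 : S.filter (fun z' => z' ≠ z ∧ ∃ c ∈ Cs, G.Adj (x c) z ∧ G.Adj (x c) z') ⊆
      (Cs.filter (fun c => G.Adj (x c) z)).biUnion
        (fun c => S.filter (fun z' => G.Adj (x c) z')) := by
    intro z' hz'
    obtain ⟨h4, _, c, hc, h5, h6⟩ := Finset.mem_filter.1 hz'
    exact Finset.mem_biUnion.2 ⟨c, Finset.mem_filter.2 ⟨hc, h5⟩, Finset.mem_filter.2 ⟨h4, h6⟩⟩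
  have h4 := (Finset.card_le_card h3).trans Finset.card_biUnion_le
  have h5 : ∑ c ∈ Cs.filter (fun c => G.Adj (x c) z),
      40 * ((S.filter (fun z' => G.Adj (x c) z')).card * (rank G Cs x z - 1)) ≤
      (Cs.filter (fun c => G.Adj (x c) z)).card * m := by
    have h6 := Finset.sum_le_card_nsmul (Cs.filter (fun c => G.Adj (x c) z))
      (fun c => 40 * ((S.filter (fun z' => G.Adj (x c) z')).card * (rank G Cs x z - 1))) m
      (fun c hc => s6a_row hS (rank G Cs x z) S hSh hrk (Finset.mem_filter.1 hc).1)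
    rwa [smul_eq_mul] at h6
  have h6 : (Cs.filter (fun c => G.Adj (x c) z)).card = rank G Cs x z := rfl
  rw [h6, ← Finset.mul_sum, ← Finset.sum_mul] at h5
  obtain ⟨k, hk⟩ : ∃ k, rank G Cs x z = k + 1 := ⟨rank G Cs x z - 1, by omega⟩
  rw [hk] at h5 h2
  obtain ⟨σ, hσ⟩ : ∃ σ, σ = ∑ c ∈ Cs.filter (fun c => G.Adj (x c) z),
      (S.filter (fun z' => G.Adj (x c) z')).card := ⟨_, rfl⟩
  rw [← hσ] at h4 h5
  rw [Nat.add_sub_cancel] at h5
  have h7 : (2 * k) * (20 * σ) ≤ (2 * k) * m := by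
    calc (2 * k) * (20 * σ) = 40 * (σ * k) := by ring
      _ ≤ (k + 1) * m := h5
      _ ≤ (2 * k) * m := Nat.mul_le_mul_right m (by omega)
  have h8 := Nat.le_of_mul_le_mul_left h7 (by omega)
  omega

open Classical in
/-- D6b: z shared with c ∈ mates z is adjacent to one of the at most m neighbours w ∉ H of x c, and
is one of the at most m / 40 item_nbrs of w -/
theorem Stars.near_count (hS : Stars G m H κ Cs x) {c : C} (hc : c ∈ Cs) :
    40 * (Finset.univ.filter (fun z => Shared G H Cs x z ∧ c ∈ mates G H Cs x z)).card ≤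
      m * m := by
  have h1 : Finset.univ.filter (fun z => Shared G H Cs x z ∧ c ∈ mates G H Cs x z) ⊆
      ((nbr G (x c)).filter (fun w => w ∉ H)).biUnion
        (fun w => Finset.univ.filter (fun z => z ∉ H ∧ G.Adj w z ∧
          ∃ c' ∈ Cs, x c' ≠ w ∧ G.Adj (x c') z)) := by
    intro z hz
    obtain ⟨_, ⟨hzH, c1, hc1, _, _, _, h2, _⟩, h3⟩ := Finset.mem_filter.1 hz
    obtain ⟨_, _, w, hw, h4, h5⟩ := mem_mates.1 h3
    have h6 : G.Adj (x c) w := SimpleGraph.Adj.symm h5
    refine Finset.mem_biUnion.2 ⟨w, Finset.mem_filter.2 ⟨mem_nbr.2 h6, hw⟩, ?_⟩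
    exact Finset.mem_filter.2 ⟨Finset.mem_univ _, hzH, SimpleGraph.Adj.symm h4, c1, hc1,
      hS.not_centre hc hc1 h6, h2⟩
  have h2 := (Finset.card_le_card h1).trans Finset.card_biUnion_le
  have h3 : ∀ w ∈ (nbr G (x c)).filter (fun w => w ∉ H),
      40 * (Finset.univ.filter (fun z => z ∉ H ∧ G.Adj w z ∧
          ∃ c' ∈ Cs, x c' ≠ w ∧ G.Adj (x c') z)).card ≤ m := by
    intro w hw
    obtain ⟨h4, h5⟩ := Finset.mem_filter.1 hw
    have h6 := hS.item_nbrs w
    have h7 := hS.vm c hc w h5 (mem_nbr.1 h4)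
    omega
  have h4 := Finset.sum_le_card_nsmul ((nbr G (x c)).filter (fun w => w ∉ H)) _ m h3
  rw [smul_eq_mul, ← Finset.mul_sum] at h4
  have h5 : ((nbr G (x c)).filter (fun w => w ∉ H)).card ≤ m := by
    have h6 : ((nbr G (x c)).filter (fun w => w ∉ H)).card ≤ (nbr G (x c)).card :=
      Finset.card_filter_le _ _
    have h7 := hS.xdeg c hc
    omega
  calc 40 * (Finset.univ.filter (fun z => Shared G H Cs x z ∧ c ∈ mates G H Cs x z)).card
      ≤ 40 * ∑ w ∈ (nbr G (x c)).filter (fun w => w ∉ H),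
        (Finset.univ.filter (fun z => z ∉ H ∧ G.Adj w z ∧
          ∃ c' ∈ Cs, x c' ≠ w ∧ G.Adj (x c') z)).card := Nat.mul_le_mul_left 40 h2
    _ ≤ ((nbr G (x c)).filter (fun w => w ∉ H)).card * m := h4
    _ ≤ m * m := Nat.mul_le_mul_right m h5

end

end Pool.Agent.Helper95.BC
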