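import Pool.Agent.Helper95.BC.S1
import Pool.Agent.Helper95.BC.S6a

/-!
# Stage one: the colours of the shared vertices
-/

set_option autoImplicit false

namespace Pool.Agent.Helper95.BC

open Classical in
/-- greedy_gen without the choice of instances -/
theorem s6_gen {ι α γ : Type} (key : ι → ℕ) (J : Finset γ) (ρ : ι → γ → ℝ)
    (hρ : ∀ i j, 0 ≤ ρ i j) (hit : ι → α → γ → Prop)
    (Good : Finset ι → (ι → α) → Prop) (h0 : ∃ f, Good ∅ f) (I : Finset ι)
    (hstep : ∀ S ⊆ I, ∀ i ∈ I, i ∉ S → (∀ i' ∈ S, key i ≤ key i') → ∀ f, Good S f →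
      ∃ A : Finset α, A.Nonempty ∧
        (∀ a ∈ A, ∀ (S' : Finset ι) (f' : ι → α), (∀ i' ∈ S', i' = i ∨ i' ∈ S) → f' i = a →
          (∀ i' ∈ S, f' i' = f i') → Good S' f') ∧
        ∀ j ∈ J, ∀ B ⊆ A, (∀ a ∈ B, hit i a j) → (B.card : ℝ) ≤ ρ i j * A.card) :
    ∃ f, Good I f ∧ ∀ j ∈ J, ∀ Z : Finset ι, (∀ i ∈ Z, i ∈ I ∧ hit i (f i) j) →
      (11 / 10 : ℝ) ^ Z.card ≤ J.card * ∏ i' ∈ I, (1 + ρ i' j / 10) := by
  have key1 := greedy_gen key J ρ hρ hit Good h0 I (by
    intro S hS i hi hiS hkey f hf _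
    obtain ⟨A, hA1, hA2, hA3⟩ := hstep S hS i hi hiS hkey f hf
    refine ⟨A, hA1, ?_, ?_⟩
    · intro a ha
      refine hA2 a ha _ _ (fun i' hi' => Finset.mem_insert.1 hi') (Function.update_self _ _ _) ?_
      intro i' hi'
      apply Function.update_of_ne
      intro h
      apply hiS
      rw [← h]
      exact hi'
    · intro j hj
      exact hA3 j hj _ (Finset.filter_subset _ _) (fun a ha => (Finset.mem_filter.1 ha).2))
  obtain ⟨f, hf, hpot⟩ := key1
  refine ⟨f, hf, ?_⟩
  intro j hj Z hZ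
  refine le_trans (pow_le_pow_right₀ (by norm_num) (Finset.card_le_card ?_)) (hpot j hj)
  intro i hi
  exact Finset.mem_filter.2 (hZ i hi)

/-- the colours `f` of the shared vertices in `S` are fine -/
structure S6Good {V C : Type} (G : SimpleGraph V) (H : Finset V) (κ : V → C) (Cs : Finset C)
    (x : C → V) (S : Finset V) (f : V → C) : Prop where
  cen : ∀ z ∈ S, ∀ c ∈ Cs, G.Adj (x c) z → f z ≠ c
  hn : ∀ z ∈ S, ∀ h ∈ H, G.Adj z h → f z ≠ κ h
  hr : ∀ z ∈ S, ∀ c ∈ Cs, G.Adj (x c) z → ∀ h ∈ H, G.Adj (x c) h → f z ≠ κ h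
  row : ∀ z ∈ S, ∀ z' ∈ S, z ≠ z' → (∃ c ∈ Cs, G.Adj (x c) z ∧ G.Adj (x c) z') → f z ≠ f z'
  adj : ∀ z ∈ S, ∀ z' ∈ S, G.Adj z z' → f z ≠ f z'

/-- the colour `a` is fine for `z` when the vertices in `S` are coloured by `f` -/
def S6ok {V C : Type} (G : SimpleGraph V) (H : Finset V) (κ : V → C) (Cs : Finset C)
    (x : C → V) (S : Finset V) (f : V → C) (z : V) (a : C) : Prop :=
  (∀ c ∈ Cs, G.Adj (x c) z → a ≠ c) ∧ (∀ h ∈ H, G.Adj z h → a ≠ κ h) ∧
  (∀ c ∈ Cs, G.Adj (x c) z → ∀ h ∈ H, G.Adj (x c) h → a ≠ κ h) ∧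
  (∀ z' ∈ S, z' ≠ z → (∃ c ∈ Cs, G.Adj (x c) z ∧ G.Adj (x c) z') → a ≠ f z') ∧
  ∀ z' ∈ S, G.Adj z z' → a ≠ f z'

theorem s6_insert {V C : Type} {G : SimpleGraph V} {H : Finset V} {κ : V → C} {Cs : Finset C}
    {x : C → V} {S S' : Finset V} {f f' : V → C} {z : V}
    (hf : S6Good G H κ Cs x S f) (ha : S6ok G H κ Cs x S f z (f' z))
    (hS' : ∀ i' ∈ S', i' = z ∨ i' ∈ S) (hup : ∀ i' ∈ S, f' i' = f i') :
    S6Good G H κ Cs x S' f' := by
  obtain ⟨a1, a2, a3, a4, a5⟩ := ha
  refine ⟨?_, ?_, ?_, ?_, ?_⟩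
  · intro y hy
    rcases hS' y hy with rfl | hy
    · exact a1
    · rw [hup y hy]
      exact hf.cen y hy
  · intro y hy
    rcases hS' y hy with rfl | hy
    · exact a2
    · rw [hup y hy]
      exact hf.hn y hy
  · intro y hy
    rcases hS' y hy with rfl | hy
    · exact a3
    · rw [hup y hy]
      exact hf.hr y hy
  · intro y hy y' hy' hne hc
    rcases hS' y hy with rfl | hy
    · rcases hS' y' hy' with rfl | hy'
      · exact absurd rfl hne
      · rw [hup y' hy']
        exact a4 y' hy' hne.symm hc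
    · rw [hup y hy]
      rcases hS' y' hy' with rfl | hy'
      · obtain ⟨c, hc, h1, h2⟩ := hc
        exact (a4 y hy hne ⟨c, hc, h2, h1⟩).symm
      · rw [hup y' hy']
        exact hf.row y hy y' hy' hne hc
  · intro y hy y' hy' hadj
    rcases hS' y hy with rfl | hy
    · rcases hS' y' hy' with rfl | hy'
      · exact absurd hadj (G.irrefl)
      · rw [hup y' hy']
        exact a5 y' hy' hadj
    · rw [hup y hy]
      rcases hS' y' hy' with rfl | hy'
      · exact (a5 y hy hadj.symm).symm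
      · rw [hup y' hy']
        exact hf.adj y hy y' hy' hadj

section
variable {V C : Type} [Fintype V] [Fintype C] {G : SimpleGraph V} {m : ℕ}
  {H : Finset V} {κ : V → C} {Cs : Finset C} {x : C → V}

open Classical in
/-- many colours are fine -/
theorem s6_count (hS : Stars G m H κ Cs x) (hm : 1000 ≤ m) (S : Finset V)
    (hSh : ∀ z' ∈ S, Shared G H Cs x z') (f : V → C) {z : V} (hz : Shared G H Cs x z)
    (hrk : ∀ z' ∈ S, rank G Cs x z ≤ rank G Cs x z') :
    17 * m ≤ 20 * (Finset.univ.filter (fun a => S6ok G H κ Cs x S f z a)).card := by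
  set B1 : Finset C := Cs.filter (fun c => G.Adj (x c) z) with hB1
  set B2 : Finset C := (H.filter (fun h => G.Adj z h)).image κ with hB2
  set B3 : Finset C := B1.biUnion (fun c => (H.filter (fun h => G.Adj (x c) h)).image κ) with hB3
  set B4 : Finset C := (S.filter (fun z' => z' ≠ z ∧
    ∃ c ∈ Cs, G.Adj (x c) z ∧ G.Adj (x c) z')).image f with hB4
  set B5 : Finset C := (S.filter (fun z' => G.Adj z z')).image f with hB5
  obtain ⟨hzH, c₀, hc₀, c₁, hc₁, hne, h0, h1⟩ := id hz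
  have hr := hS.rank_le hz
  have e1 : B1.card = rank G Cs x z := rfl
  have e2 : 1000 * B2.card ≤ m := by
    have h2 : B2.card ≤ (H.filter (fun h => G.Adj z h)).card := Finset.card_image_le
    have h3 := hS.vH c₀ hc₀ z hzH h0
    omega
  have e3 : B3.card ≤ B1.card := by
    refine Finset.card_biUnion_le.trans ?_
    have h2 : ∑ c ∈ B1, ((H.filter (fun h => G.Adj (x c) h)).image κ).card ≤ ∑ c ∈ B1, 1 := by
      refine Finset.sum_le_sum fun c hc => ?_
      refine Finset.card_image_le.trans (Finset.card_le_one.2 ?_)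
      intro h hh h' hh'
      obtain ⟨h2, h3⟩ := Finset.mem_filter.1 hh
      obtain ⟨h4, h5⟩ := Finset.mem_filter.1 hh'
      exact hS.xone c (Finset.mem_filter.1 hc).1 h h2 h' h4 h3 h5
    refine h2.trans ?_
    simp
  have e4 : 20 * B4.card ≤ m := by
    have h2 : B4.card ≤ (S.filter (fun z' => z' ≠ z ∧
      ∃ c ∈ Cs, G.Adj (x c) z ∧ G.Adj (x c) z')).card := Finset.card_image_le
    have h3 := hS.row_rank hz S hSh hrk
    omega
  have e5 : 40 * B5.card ≤ m := by
    have h2 : B5.card ≤ (S.filter (fun z' => G.Adj z z')).card := Finset.card_image_le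
    have h3 : (S.filter (fun z' => G.Adj z z')).card ≤ (Finset.univ.filter (fun w => w ∉ H ∧
        G.Adj z w ∧ ∃ c ∈ Cs, x c ≠ z ∧ G.Adj (x c) w)).card := by
      refine Finset.card_le_card ?_
      intro w hw
      obtain ⟨hwS, hzw⟩ := Finset.mem_filter.1 hw
      obtain ⟨hwH, c, hc, c', hc', hcc, h4, h5⟩ := hSh w hwS
      refine Finset.mem_filter.2 ⟨Finset.mem_univ _, hwH, hzw, c, hc, ?_, h4⟩
      exact hS.not_centre hc₀ hc h0
    have h4 := hS.item_nbrs z
    have h5 := hS.vm c₀ hc₀ z hzH h0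
    omega
  have hcov : (Finset.univ : Finset C) ⊆
      (Finset.univ.filter (fun a => S6ok G H κ Cs x S f z a)) ∪
        (B1 ∪ (B2 ∪ (B3 ∪ (B4 ∪ B5)))) := by
    intro a _
    by_cases ha : S6ok G H κ Cs x S f z a
    · exact Finset.mem_union_left _ (Finset.mem_filter.2 ⟨Finset.mem_univ _, ha⟩)
    · refine Finset.mem_union_right _ ?_
      by_contra hn
      apply ha
      simp only [Finset.mem_union, not_or] at hn
      obtain ⟨n1, n2, n3, n4, n5⟩ := hn
      refine ⟨?_, ?_, ?_, ?_, ?_⟩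
      · rintro c hc hcz rfl
        exact n1 (Finset.mem_filter.2 ⟨hc, hcz⟩)
      · rintro h hh hzh rfl
        exact n2 (Finset.mem_image.2 ⟨h, Finset.mem_filter.2 ⟨hh, hzh⟩, rfl⟩)
      · rintro c hc hcz h hh hch rfl
        exact n3 (Finset.mem_biUnion.2 ⟨c, Finset.mem_filter.2 ⟨hc, hcz⟩,
          Finset.mem_image.2 ⟨h, Finset.mem_filter.2 ⟨hh, hch⟩, rfl⟩⟩)
      · rintro z' hz' hne hc rfl
        exact n4 (Finset.mem_image.2 ⟨z', Finset.mem_filter.2 ⟨hz', hne, hc⟩, rfl⟩)
      · rintro z' hz' hadj rfl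
        exact n5 (Finset.mem_image.2 ⟨z', Finset.mem_filter.2 ⟨hz', hadj⟩, rfl⟩)
  have h7 := Finset.card_le_card hcov
  rw [Finset.card_univ, hS.cardC] at h7
  have u1 := Finset.card_union_le (Finset.univ.filter (fun a => S6ok G H κ Cs x S f z a))
    (B1 ∪ (B2 ∪ (B3 ∪ (B4 ∪ B5))))
  have u2 := Finset.card_union_le B1 (B2 ∪ (B3 ∪ (B4 ∪ B5)))
  have u3 := Finset.card_union_le B2 (B3 ∪ (B4 ∪ B5))
  have u4 := Finset.card_union_le B3 (B4 ∪ B5)
  have u5 := Finset.card_union_le B4 B5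
  omega

open Classical in
theorem stage_one (hS : Stars G m H κ Cs x) (hm : 1000 ≤ m)
    (hload : ∀ t : ℕ, (11 / 10 : ℝ) ^ t ≤ 1 * (m : ℝ) ^ 2 * Real.exp ((1 / 340) * m) →
      30 * t ≤ m) :
    ∃ f : V → C, SharedCol G H κ Cs x f ∧ ∀ c ∈ Cs, ∀ a : C,
      30 * (Finset.univ.filter
        (fun z => Shared G H Cs x z ∧ f z = a ∧ c ∈ mates G H Cs x z)).card ≤ m := by
  have hm0 : (0 : ℝ) < m := by
    have : (1000 : ℝ) ≤ m := by exact_mod_cast hm
    linarith
  have hCne : Nonempty C := by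
    rw [← Fintype.card_pos_iff, hS.cardC]
    omega
  obtain ⟨ρ, hρdef⟩ : ∃ ρ : V → C × C → ℝ, ρ = fun z j =>
    if j.1 ∈ mates G H Cs x z then 20 / (17 * (m : ℝ)) else 0 := ⟨_, rfl⟩
  have hρ0 : ∀ z j, 0 ≤ ρ z j := by
    intro z j
    rw [hρdef]
    dsimp only
    split_ifs
    · positivity
    · exact le_rfl
  set I : Finset V := Finset.univ.filter (fun z => Shared G H Cs x z) with hI
  have hIm : ∀ z, z ∈ I ↔ Shared G H Cs x z := fun z => by
    rw [hI, Finset.mem_filter]
    exact ⟨fun h => h.2, fun h => ⟨Finset.mem_univ _, h⟩⟩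
  have key1 := s6_gen (rank G Cs x) (Cs ×ˢ (Finset.univ : Finset C)) ρ hρ0
    (fun z a j => a = j.2 ∧ j.1 ∈ mates G H Cs x z) (S6Good G H κ Cs x)
    ⟨fun _ => Classical.arbitrary C,
      ⟨fun z hz => absurd hz (Finset.notMem_empty z), fun z hz => absurd hz (Finset.notMem_empty z),
        fun z hz => absurd hz (Finset.notMem_empty z), fun z hz => absurd hz (Finset.notMem_empty z),
        fun z hz => absurd hz (Finset.notMem_empty z)⟩⟩ I (by
    intro S hSI z hz _ hrk f hf
    have hcount := s6_count hS hm S (fun z' hz' => (hIm z').1 (hSI hz')) f ((hIm z).1 hz) hrk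
    refine ⟨Finset.univ.filter (fun a => S6ok G H κ Cs x S f z a), ?_, ?_, ?_⟩
    · rw [← Finset.card_pos]
      omega
    · intro a ha S' f' hS' hfa hup
      refine s6_insert hf ?_ hS' hup
      rw [hfa]
      exact (Finset.mem_filter.1 ha).2
    · rintro ⟨c, a'⟩ _ B _ hB
      have h1 : (B.card : ℝ) ≤ 1 := by
        have : B.card ≤ 1 := Finset.card_le_one.2 fun a ha b hb =>
          (hB a ha).1.trans (hB b hb).1.symm
        exact_mod_cast this
      rw [hρdef]
      dsimp only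
      split_ifs with hc
      · refine h1.trans ?_
        rw [div_mul_eq_mul_div, le_div_iff₀ (by positivity)]
        have h2 : (17 : ℝ) * m ≤
            20 * ((Finset.univ.filter (fun a => S6ok G H κ Cs x S f z a)).card : ℝ) := by
          exact_mod_cast hcount
        linarith
      · have h2 : B = ∅ := by
          rw [Finset.eq_empty_iff_forall_notMem]
          intro a ha
          exact hc (hB a ha).2
        rw [h2]
        simp)
  obtain ⟨f, hf, hpot⟩ := key1
  refine ⟨f, ⟨?_, ?_, ?_, ?_, ?_⟩, ?_⟩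
  · exact fun z hz => hf.cen z ((hIm z).2 hz)
  · exact fun z hz => hf.hn z ((hIm z).2 hz)
  · exact fun z hz => hf.hr z ((hIm z).2 hz)
  · exact fun z z' hz hz' => hf.row z ((hIm z).2 hz) z' ((hIm z').2 hz')
  · exact fun z z' hz hz' => hf.adj z ((hIm z).2 hz) z' ((hIm z').2 hz')
  · intro c hc a
    apply hload
    refine (hpot (c, a) (Finset.mem_product.2 ⟨hc, Finset.mem_univ _⟩) _ ?_).trans ?_
    · intro z hz
      obtain ⟨h1, h2, h3⟩ := (Finset.mem_filter.1 hz).2
      exact ⟨(hIm z).2 h1, h2, h3⟩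
    · have hsum : ∑ z ∈ I, ρ z (c, a) ≤ (m : ℝ) / 34 := by
        have h1 : ∑ z ∈ I, ρ z (c, a) =
            ((I.filter (fun z => c ∈ mates G H Cs x z)).card : ℝ) * (20 / (17 * (m : ℝ))) := by
          rw [hρdef]
          dsimp only
          rw [← Finset.sum_filter, Finset.sum_const, nsmul_eq_mul]
        have h2 : I.filter (fun z => c ∈ mates G H Cs x z) ⊆
            Finset.univ.filter (fun z => Shared G H Cs x z ∧ c ∈ mates G H Cs x z) := by
          intro z hz
          obtain ⟨h3, h4⟩ := Finset.mem_filter.1 hz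
          exact Finset.mem_filter.2 ⟨Finset.mem_univ _, (hIm z).1 h3, h4⟩
        have h3 := hS.near_count hc
        have h4 := Finset.card_le_card h2
        have h5 : (40 : ℝ) * ((I.filter (fun z => c ∈ mates G H Cs x z)).card : ℝ) ≤ m * m := by
          exact_mod_cast (Nat.mul_le_mul_left 40 h4).trans h3
        rw [h1, mul_div_assoc', div_le_div_iff₀ (by positivity) (by norm_num)]
        nlinarith
      have h6 := prod_le_exp I I (Finset.Subset.refl I) (fun z => ρ z (c, a))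
        (fun z => hρ0 z (c, a)) _ hsum
      have h7 : ((Cs ×ˢ (Finset.univ : Finset C)).card : ℝ) ≤ (m : ℝ) ^ 2 := by
        have h8 : (Cs ×ˢ (Finset.univ : Finset C)).card ≤ m * m := by
          rw [Finset.card_product, Finset.card_univ, hS.cardC]
          refine Nat.mul_le_mul_right _ ?_
          rw [← hS.cardC]
          exact Finset.card_le_univ _
        rw [pow_two]
        exact_mod_cast h8
      have h9 : (m : ℝ) / 34 / 10 = 1 / 340 * m := by ring
      rw [h9] at h6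
      rw [one_mul]
      exact mul_le_mul h7 h6 (Finset.prod_nonneg fun z _ => by
        have := hρ0 z (c, a)
        positivity) (by positivity)

end

end Pool.Agent.Helper95.BC
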