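import Pool.Agent.Helper95.BC.S0

/-!
# Counting in the neighbourhood of a centre
-/

set_option autoImplicit false

namespace Pool.Agent.Helper95.BC

section

variable {V C : Type} [Fintype V] [Fintype C] {G : SimpleGraph V} {m : ℕ}
  {H : Finset V} {κ : V → C} {Cs : Finset C} {x : C → V}

open Classical in
/-- the neighbours of a centre: in `H`, shared, private -/
theorem Stars.nbr_split (hS : Stars G m H κ Cs x) {c : C} (hc : c ∈ Cs) :
    (nbr G (x c)).card = ((nbr G (x c)).filter (fun h => h ∈ H)).card +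
      (Finset.univ.filter (fun z => Shared G H Cs x z ∧ G.Adj (x c) z)).card +
      (privs G H Cs x c).card := by
  have h1 : nbr G (x c) = ((nbr G (x c)).filter (fun h => h ∈ H)) ∪
      ((Finset.univ.filter (fun z => Shared G H Cs x z ∧ G.Adj (x c) z)) ∪
      (privs G H Cs x c)) := by
    apply Finset.ext
    intro v
    rw [Finset.mem_union, Finset.mem_union, Finset.mem_filter, Finset.mem_filter, mem_nbr,
      mem_privs]
    constructor
    · intro hv
      by_cases hvH : v ∈ H
      · exact Or.inl ⟨hv, hvH⟩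
      · rcases hS.shared_or_priv hc hvH hv with h | h
        · exact Or.inr (Or.inl ⟨Finset.mem_univ _, h, hv⟩)
        · exact Or.inr (Or.inr h)
    · rintro (h | h | h)
      · exact h.1
      · exact h.2.2
      · exact h.2.1
  have h2 : Disjoint (Finset.univ.filter (fun z => Shared G H Cs x z ∧ G.Adj (x c) z))
      (privs G H Cs x c) := by
    rw [Finset.disjoint_left]
    intro z hz hz'
    exact (Finset.mem_filter.1 hz).2.1.not_priv (mem_privs.1 hz')
  have h3 : Disjoint ((nbr G (x c)).filter (fun h => h ∈ H))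
      ((Finset.univ.filter (fun z => Shared G H Cs x z ∧ G.Adj (x c) z)) ∪
      (privs G H Cs x c)) := by
    rw [Finset.disjoint_left]
    intro z hz hz'
    have hzH := (Finset.mem_filter.1 hz).2
    rcases Finset.mem_union.1 hz' with h | h
    · exact (Finset.mem_filter.1 h).2.1.1 hzH
    · exact (mem_privs.1 h).1 hzH
  calc (nbr G (x c)).card = (((nbr G (x c)).filter (fun h => h ∈ H)) ∪
      ((Finset.univ.filter (fun z => Shared G H Cs x z ∧ G.Adj (x c) z)) ∪
      (privs G H Cs x c))).card := by rw [← h1]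
    _ = _ := by
      rw [Finset.card_union_of_disjoint h3, Finset.card_union_of_disjoint h2, add_assoc]

/-- D7a: counting in N(x c) -/
theorem Stars.needs_card (hS : Stars G m H κ Cs x) {f : V → C} (hf : SharedCol G H κ Cs x f)
    {c : C} (hc : c ∈ Cs) :
    (privs G H Cs x c).card = (needs G H κ Cs x f c).card := by
  classical
  have hsp := hS.nbr_split hc
  have hdeg := hS.xdeg c hc
  have hm := hS.cardC
  set Hn := (nbr G (x c)).filter (fun h => h ∈ H) with hHn
  set Sh := Finset.univ.filter (fun z => Shared G H Cs x z ∧ G.Adj (x c) z) with hSh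
  have hHn' : ∀ h, h ∈ Hn ↔ G.Adj (x c) h ∧ h ∈ H := by
    intro h
    rw [hHn, Finset.mem_filter, mem_nbr]
  have hSh' : ∀ z, z ∈ Sh ↔ Shared G H Cs x z ∧ G.Adj (x c) z := by
    intro z
    rw [hSh, Finset.mem_filter]
    exact ⟨fun h => h.2, fun h => ⟨Finset.mem_univ _, h⟩⟩
  have h1 : (Hn.image κ).card = Hn.card := by
    apply Finset.card_image_of_injOn
    intro a ha b hb hab
    exact hS.kinj ((hHn' a).1 ha).2 ((hHn' b).1 hb).2 hab
  have h2 : (Sh.image f).card = Sh.card := by
    apply Finset.card_image_of_injOn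
    intro a ha b hb hab
    by_contra hne
    exact hf.row a b ((hSh' a).1 ha).1 ((hSh' b).1 hb).1 hne
      ⟨c, hc, ((hSh' a).1 ha).2, ((hSh' b).1 hb).2⟩ hab
  have h3 : Disjoint (Hn.image κ) (Sh.image f) := by
    rw [Finset.disjoint_left]
    intro a ha hb
    obtain ⟨h, hh, rfl⟩ := Finset.mem_image.1 ha
    obtain ⟨z, hz, hzh⟩ := Finset.mem_image.1 hb
    exact hf.hr z ((hSh' z).1 hz).1 c hc ((hSh' z).1 hz).2 h ((hHn' h).1 hh).2
      ((hHn' h).1 hh).1 hzh
  have h4 : c ∉ (Hn.image κ) ∪ (Sh.image f) := by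
    intro h
    rcases Finset.mem_union.1 h with h | h
    · obtain ⟨h', hh, hk⟩ := Finset.mem_image.1 h
      exact hS.xk c hc h' ((hHn' h').1 hh).2 ((hHn' h').1 hh).1 hk
    · obtain ⟨z, hz, hk⟩ := Finset.mem_image.1 h
      exact hf.cen z ((hSh' z).1 hz).1 c hc ((hSh' z).1 hz).2 hk
  have h5 : (needs G H κ Cs x f c)ᶜ = insert c ((Hn.image κ) ∪ (Sh.image f)) := by
    apply Finset.ext
    intro a
    rw [Finset.mem_compl, mem_needs, Finset.mem_insert, Finset.mem_union, Finset.mem_image,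
      Finset.mem_image]
    constructor
    · intro h
      by_cases ha : a = c
      · exact Or.inl ha
      right
      by_contra hno
      push Not at hno
      apply h
      refine ⟨ha, ?_, ?_⟩
      · intro h' hh hadj hah
        exact hno.1 h' ((hHn' h').2 ⟨hadj, hh⟩) hah.symm
      · intro z hz hadj haz
        exact hno.2 z ((hSh' z).2 ⟨hz, hadj⟩) haz.symm
    · rintro (h | ⟨h', hh, hk⟩ | ⟨z, hz, hk⟩) hno
      · exact hno.1 h
      · exact hno.2.1 h' ((hHn' h').1 hh).2 ((hHn' h').1 hh).1 hk.symm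
      · exact hno.2.2 z ((hSh' z).1 hz).1 ((hSh' z).1 hz).2 hk.symm
  have h6 : (needs G H κ Cs x f c)ᶜ.card = 1 + Hn.card + Sh.card := by
    rw [h5, Finset.card_insert_of_notMem h4, Finset.card_union_of_disjoint h3, h1, h2]
    ring
  have h7 := Finset.card_add_card_compl (needs G H κ Cs x f c)
  rw [h6, hm] at h7
  omega

/-- D7a: at most one neighbour of x c is in H, at most m/40 are shared (other centre = a mate,
different for different z) -/
theorem Stars.privs_card (hS : Stars G m H κ Cs x) (hm : 1000 ≤ m) {c : C} (hc : c ∈ Cs) :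
    4 * m ≤ 5 * (privs G H Cs x c).card ∧ (privs G H Cs x c).card ≤ m := by
  classical
  have hsp := hS.nbr_split hc
  have hdeg := hS.xdeg c hc
  have h1 : ((nbr G (x c)).filter (fun h => h ∈ H)).card ≤ 1 := by
    rw [Finset.card_le_one]
    intro a ha b hb
    rw [Finset.mem_filter, mem_nbr] at ha hb
    exact hS.xone c hc a ha.2 b hb.2 ha.1 hb.1
  have h2 : (Finset.univ.filter (fun z => Shared G H Cs x z ∧ G.Adj (x c) z)).card ≤
      (mates G H Cs x (x c)).card := by
    refine le_trans (Finset.card_le_card ?_) (hS.item_nbrs (x c))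
    intro z hz
    have hz' := (Finset.mem_filter.1 hz).2
    obtain ⟨⟨hzH, c1, hc1, c2, hc2, hne, ha1, ha2⟩, hadj⟩ := hz'
    rw [Finset.mem_filter]
    refine ⟨Finset.mem_univ _, hzH, hadj, ?_⟩
    by_cases h : c1 = c
    · subst h
      exact ⟨c2, hc2, fun h => hne (hS.xinj hc1 hc2 h.symm), ha2⟩
    · exact ⟨c1, hc1, fun h' => h (hS.xinj hc1 hc h'), ha1⟩
  have h3 := hS.xm c hc
  omega

open Classical in
/-- D7a: at most m/1000 + m/40 + m/40: H-neighbours, shared neighbours, private neighbours of v (the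
last two are among the item_nbrs of v, whose number is at most m/40 by item_nbrs and vm) -/
theorem Stars.forb_row (hS : Stars G m H κ Cs x) (hm : 1000 ≤ m) (f : V → C) (g : C → V → C)
    (S : Finset C) (hSC : S ⊆ Cs) {c : C} (hc : c ∈ Cs) {v : V} (hv : Priv G H Cs x c v)
    (Q : Finset C) :
    (Q.filter (fun a => Forb G H κ Cs x f S g v a)).card ≤ m / 5 := by
  have hI := hS.item_nbrs v
  have h1 := hS.vm c hc v hv.1 hv.2.1
  have h2 := hS.vH c hc v hv.1 hv.2.1
  have hch : ∀ w : V, ∃ c' : C, ∀ c'' ∈ Cs, Priv G H Cs x c'' w → c' = c'' := by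
    intro w
    by_cases hw : ∃ c'' ∈ Cs, Priv G H Cs x c'' w
    · obtain ⟨c', hc', hp⟩ := hw
      exact ⟨c', fun c'' hc'' hp'' => hp''.2.2 c' hc' hp.2.1⟩
    · exact ⟨c, fun c'' hc'' hp => absurd ⟨c'', hc'', hp⟩ hw⟩
  choose cen hcen using hch
  have hsub : Q.filter (fun a => Forb G H κ Cs x f S g v a) ⊆
      ((H.filter (fun h => G.Adj v h)).image κ) ∪
      (((Finset.univ.filter (fun w => w ∉ H ∧ G.Adj v w ∧
        ∃ c ∈ Cs, x c ≠ v ∧ G.Adj (x c) w)).image f) ∪
      ((Finset.univ.filter (fun w => w ∉ H ∧ G.Adj v w ∧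
        ∃ c ∈ Cs, x c ≠ v ∧ G.Adj (x c) w)).image (fun w => g (cen w) w))) := by
    intro a ha
    have ha' := (Finset.mem_filter.1 ha).2
    rw [Finset.mem_union, Finset.mem_union]
    rcases ha' with ⟨h, hh, hadj, hk⟩ | ⟨z, hz, hadj, hk⟩ | ⟨c', hc', v', hp, hadj, hk⟩
    · exact Or.inl (Finset.mem_image.2 ⟨h, Finset.mem_filter.2 ⟨hh, hadj⟩, hk⟩)
    · right; left
      refine Finset.mem_image.2 ⟨z, Finset.mem_filter.2 ⟨Finset.mem_univ _, hz.1, hadj, ?_⟩, hk⟩
      obtain ⟨hzH, c1, hc1, c2, hc2, hne, ha1, ha2⟩ := hz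
      exact ⟨c1, hc1, hS.not_centre hc hc1 hv.2.1, ha1⟩
    · right; right
      refine Finset.mem_image.2 ⟨v', Finset.mem_filter.2 ⟨Finset.mem_univ _, hp.1, hadj, ?_⟩, ?_⟩
      · exact ⟨c', hSC hc', hS.not_centre hc (hSC hc') hv.2.1, hp.2.1⟩
      · rw [hcen v' c' (hSC hc') hp]
        exact hk
  have h3 := Finset.card_le_card hsub
  have h4 := Finset.card_union_le ((H.filter (fun h => G.Adj v h)).image κ)
      (((Finset.univ.filter (fun w => w ∉ H ∧ G.Adj v w ∧
        ∃ c ∈ Cs, x c ≠ v ∧ G.Adj (x c) w)).image f) ∪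
      ((Finset.univ.filter (fun w => w ∉ H ∧ G.Adj v w ∧
        ∃ c ∈ Cs, x c ≠ v ∧ G.Adj (x c) w)).image (fun w => g (cen w) w)))
  have h5 := Finset.card_union_le
      ((Finset.univ.filter (fun w => w ∉ H ∧ G.Adj v w ∧
        ∃ c ∈ Cs, x c ≠ v ∧ G.Adj (x c) w)).image f)
      ((Finset.univ.filter (fun w => w ∉ H ∧ G.Adj v w ∧
        ∃ c ∈ Cs, x c ≠ v ∧ G.Adj (x c) w)).image (fun w => g (cen w) w))
  have h6 : ((H.filter (fun h => G.Adj v h)).image κ).card ≤
      (H.filter (fun h => G.Adj v h)).card := Finset.card_image_le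
  have h7 : ((Finset.univ.filter (fun w => w ∉ H ∧ G.Adj v w ∧
        ∃ c ∈ Cs, x c ≠ v ∧ G.Adj (x c) w)).image f).card ≤ _ := Finset.card_image_le
  have h8 : ((Finset.univ.filter (fun w => w ∉ H ∧ G.Adj v w ∧
        ∃ c ∈ Cs, x c ≠ v ∧ G.Adj (x c) w)).image (fun w => g (cen w) w)).card ≤ _ :=
    Finset.card_image_le
  omega

end

end Pool.Agent.Helper95.BC
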