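import Pool.Agent.Helper95.BC.S0

/-!
# The final colouring
-/

set_option autoImplicit false

namespace Pool.Agent.Helper95.BC

/-- greedy extension of a partial colouring -/
theorem greedy_extend {V C : Type} [Fintype V] [Fintype C] (G : SimpleGraph V) (T : V → Prop)
    (ψ0 : V → C) (hT : ∀ u v, T u → T v → G.Adj u v → ψ0 u ≠ ψ0 v)
    (hd : ∀ v, ¬ T v → (nbr G v).card < Fintype.card C) :
    ∃ ψ : V → C, (∀ v, T v → ψ v = ψ0 v) ∧ ∀ u v, G.Adj u v → ψ u ≠ ψ v := by
  classical
  have key : ∀ S : Finset V, ∃ ψ : V → C, (∀ v, T v → ψ v = ψ0 v) ∧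
      ∀ u v, (T u ∨ u ∈ S) → (T v ∨ v ∈ S) → G.Adj u v → ψ u ≠ ψ v := by
    intro S
    induction S using Finset.induction_on with
    | empty =>
      refine ⟨ψ0, fun _ _ => rfl, fun u v hu hv huv => hT u v ?_ ?_ huv⟩
      · exact hu.resolve_right (Finset.notMem_empty u)
      · exact hv.resolve_right (Finset.notMem_empty v)
    | insert w S hw ih =>
      obtain ⟨ψ, h1, h2⟩ := ih
      by_cases hTw : T w
      · refine ⟨ψ, h1, fun u v hu hv huv => h2 u v ?_ ?_ huv⟩
        · rcases hu with hu | hu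
          · exact Or.inl hu
          · rcases Finset.mem_insert.1 hu with rfl | hu
            · exact Or.inl hTw
            · exact Or.inr hu
        · rcases hv with hv | hv
          · exact Or.inl hv
          · rcases Finset.mem_insert.1 hv with rfl | hv
            · exact Or.inl hTw
            · exact Or.inr hv
      · have h3 : ((nbr G w).image ψ).card < (Finset.univ : Finset C).card :=
          Finset.card_image_le.trans_lt (hd w hTw)
        obtain ⟨a, -, ha⟩ := Finset.exists_mem_notMem_of_card_lt_card h3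
        have ha' : ∀ v, G.Adj w v → ψ v ≠ a := by
          intro v hv h
          exact ha (Finset.mem_image.2 ⟨v, mem_nbr.2 hv, h⟩)
        refine ⟨Function.update ψ w a, ?_, ?_⟩
        · intro v hv
          have hne : v ≠ w := by
            rintro rfl
            exact hTw hv
          rw [Function.update_of_ne hne]
          exact h1 v hv
        · intro u v hu hv huv
          by_cases huw : u = w
          · subst huw
            have hne : v ≠ u := huv.ne'
            rw [Function.update_self, Function.update_of_ne hne]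
            exact (ha' v huv).symm
          · by_cases hvw : v = w
            · subst hvw
              rw [Function.update_self, Function.update_of_ne huw]
              exact ha' u huv.symm
            · rw [Function.update_of_ne huw, Function.update_of_ne hvw]
              refine h2 u v ?_ ?_ huv
              · rcases hu with hu | hu
                · exact Or.inl hu
                · exact Or.inr ((Finset.mem_insert.1 hu).resolve_left huw)
              · rcases hv with hv | hv
                · exact Or.inl hv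
                · exact Or.inr ((Finset.mem_insert.1 hv).resolve_left hvw)
  obtain ⟨ψ, h1, h2⟩ := key Finset.univ
  exact ⟨ψ, h1, fun u v huv => h2 u v (Or.inr (Finset.mem_univ u)) (Or.inr (Finset.mem_univ v)) huv⟩

section

variable {V C : Type} [Fintype V] [Fintype C] {G : SimpleGraph V} {m : ℕ}
  {H : Finset V} {κ : V → C} {Cs : Finset C} {x : C → V}

/-- D8 (file BC/S8.lean): the colouring of H, the centres, the shared and the private vertices, then
greedily all others (not in H, degree less than m = number of colours); x c sees every colour since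
its m - 1 neighbours have different colours, all ≠ c -/
theorem final_colouring (hS : Stars G m H κ Cs x) (f : V → C) (hf : SharedCol G H κ Cs x f)
    (g : C → V → C) (hg1 : ∀ c ∈ Cs, RowOK G H κ Cs x f c (g c))
    (hg2 : ∀ c ∈ Cs, ∀ c' ∈ Cs, PairOK G H Cs x g c c') :
    ∃ ψ : V → C, (∀ u v, G.Adj u v → ψ u ≠ ψ v) ∧ (∀ h ∈ H, ψ h = κ h) ∧
      ∀ c ∈ Cs, ψ (x c) = c ∧ IsBVertex G ψ (x c) := by
  classical
  -- the colouring of the four kinds of vertices
  let ψ0 : V → C := fun v => if v ∈ H then κ v else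
    if h : ∃ c ∈ Cs, x c = v then h.choose else
      if Shared G H Cs x v then f v else
        if h : ∃ c ∈ Cs, Priv G H Cs x c v then g h.choose v else κ v
  have e1 : ∀ v ∈ H, ψ0 v = κ v := fun v hv => if_pos hv
  have e2 : ∀ c ∈ Cs, ψ0 (x c) = c := by
    intro c hc
    have h : ∃ c' ∈ Cs, x c' = x c := ⟨c, hc, rfl⟩
    have h1 : ψ0 (x c) = h.choose := by
      show (if x c ∈ H then κ (x c) else
        if h : ∃ c' ∈ Cs, x c' = x c then h.choose else
          if Shared G H Cs x (x c) then f (x c) else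
            if h : ∃ c' ∈ Cs, Priv G H Cs x c' (x c) then g h.choose (x c) else κ (x c)) = _
      rw [if_neg (hS.xH c hc), dif_pos h]
    rw [h1]
    exact hS.xinj h.choose_spec.1 hc h.choose_spec.2
  have n1 : ∀ c ∈ Cs, ∀ v, G.Adj (x c) v → ¬ ∃ c' ∈ Cs, x c' = v := by
    rintro c hc v hcv ⟨c', hc', h⟩
    exact hS.not_centre hc hc' hcv h
  have e3 : ∀ z, Shared G H Cs x z → ψ0 z = f z := by
    intro z hz
    have hz' := hz
    obtain ⟨hzH, c, hc, -, -, -, hcz, -⟩ := hz'
    show (if z ∈ H then κ z else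
      if h : ∃ c' ∈ Cs, x c' = z then h.choose else
        if Shared G H Cs x z then f z else
          if h : ∃ c' ∈ Cs, Priv G H Cs x c' z then g h.choose z else κ z) = _
    rw [if_neg hzH, dif_neg (n1 c hc z hcz), if_pos hz]
  have e4 : ∀ c ∈ Cs, ∀ v, Priv G H Cs x c v → ψ0 v = g c v := by
    intro c hc v hv
    have h : ∃ c' ∈ Cs, Priv G H Cs x c' v := ⟨c, hc, hv⟩
    have hns : ¬ Shared G H Cs x v := fun hs => hs.not_priv hv
    have h1 : ψ0 v = g h.choose v := by
      show (if v ∈ H then κ v else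
        if h : ∃ c' ∈ Cs, x c' = v then h.choose else
          if Shared G H Cs x v then f v else
            if h : ∃ c' ∈ Cs, Priv G H Cs x c' v then g h.choose v else κ v) = _
      rw [if_neg hv.1, dif_neg (n1 c hc v hv.2.1), if_neg hns, dif_pos h]
    rw [h1, hv.2.2 _ h.choose_spec.1 h.choose_spec.2.2.1]
  -- proper on the four kinds
  have hsym : ∀ {p q : V → Prop}, (∀ u v, p u → q v → G.Adj u v → ψ0 u ≠ ψ0 v) →
      ∀ u v, q u → p v → G.Adj u v → ψ0 u ≠ ψ0 v :=
    fun h u v hu hv huv => (h v u hv hu huv.symm).symm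
  have p11 : ∀ u v, u ∈ H → v ∈ H → G.Adj u v → ψ0 u ≠ ψ0 v := by
    intro u v hu hv huv h
    rw [e1 u hu, e1 v hv] at h
    exact huv.ne (hS.kinj hu hv h)
  have p12 : ∀ u v, u ∈ H → (∃ c ∈ Cs, x c = v) → G.Adj u v → ψ0 u ≠ ψ0 v := by
    rintro u _ hu ⟨c, hc, rfl⟩ huv
    rw [e1 u hu, e2 c hc]
    exact hS.xk c hc u hu huv.symm
  have p13 : ∀ u v, u ∈ H → Shared G H Cs x v → G.Adj u v → ψ0 u ≠ ψ0 v := by
    intro u v hu hv huv
    rw [e1 u hu, e3 v hv]
    exact (hf.hn v hv u hu huv.symm).symm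
  have p14 : ∀ u v, u ∈ H → (∃ c ∈ Cs, Priv G H Cs x c v) → G.Adj u v → ψ0 u ≠ ψ0 v := by
    rintro u v hu ⟨c, hc, hv⟩ huv
    rw [e1 u hu, e4 c hc v hv]
    exact ((hg1 c hc).hn v hv u hu huv.symm).symm
  have p22 : ∀ u v, (∃ c ∈ Cs, x c = u) → (∃ c ∈ Cs, x c = v) → G.Adj u v →
      ψ0 u ≠ ψ0 v := by
    rintro _ _ ⟨c, hc, rfl⟩ ⟨c', hc', rfl⟩ huv
    exact absurd huv (hS.xadj c hc c' hc')
  have p23 : ∀ u v, (∃ c ∈ Cs, x c = u) → Shared G H Cs x v → G.Adj u v → ψ0 u ≠ ψ0 v := by
    rintro _ v ⟨c, hc, rfl⟩ hv huv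
    rw [e2 c hc, e3 v hv]
    exact (hf.cen v hv c hc huv).symm
  have p24 : ∀ u v, (∃ c ∈ Cs, x c = u) → (∃ c ∈ Cs, Priv G H Cs x c v) → G.Adj u v →
      ψ0 u ≠ ψ0 v := by
    rintro _ v ⟨c, hc, rfl⟩ ⟨c', hc', hv⟩ huv
    have : c = c' := hv.2.2 c hc huv
    subst this
    rw [e2 c hc, e4 c hc v hv]
    exact ((hg1 c hc).cen v hv).symm
  have p33 : ∀ u v, Shared G H Cs x u → Shared G H Cs x v → G.Adj u v → ψ0 u ≠ ψ0 v := by
    intro u v hu hv huv
    rw [e3 u hu, e3 v hv]
    exact hf.adj u v hu hv huv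
  have p34 : ∀ u v, Shared G H Cs x u → (∃ c ∈ Cs, Priv G H Cs x c v) → G.Adj u v →
      ψ0 u ≠ ψ0 v := by
    rintro u v hu ⟨c, hc, hv⟩ huv
    rw [e3 u hu, e4 c hc v hv]
    exact ((hg1 c hc).sn v hv u hu huv.symm).symm
  have p44 : ∀ u v, (∃ c ∈ Cs, Priv G H Cs x c u) → (∃ c ∈ Cs, Priv G H Cs x c v) →
      G.Adj u v → ψ0 u ≠ ψ0 v := by
    rintro u v ⟨c, hc, hu⟩ ⟨c', hc', hv⟩ huv
    rw [e4 c hc u hu, e4 c' hc' v hv]
    exact hg2 c hc c' hc' u v hu hv huv
  obtain ⟨ψ, h1, h2⟩ := greedy_extend G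
    (fun v => v ∈ H ∨ (∃ c ∈ Cs, x c = v) ∨ Shared G H Cs x v ∨ ∃ c ∈ Cs, Priv G H Cs x c v)
    ψ0 (by
      rintro u v (hu | hu | hu | hu) (hv | hv | hv | hv)
      · exact p11 u v hu hv
      · exact p12 u v hu hv
      · exact p13 u v hu hv
      · exact p14 u v hu hv
      · exact hsym p12 u v hu hv
      · exact p22 u v hu hv
      · exact p23 u v hu hv
      · exact p24 u v hu hv
      · exact hsym p13 u v hu hv
      · exact hsym p23 u v hu hv
      · exact p33 u v hu hv
      · exact p34 u v hu hv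
      · exact hsym p14 u v hu hv
      · exact hsym p24 u v hu hv
      · exact hsym p34 u v hu hv
      · exact p44 u v hu hv)
    (by
      intro v hv
      rw [hS.cardC]
      exact Nat.lt_of_succ_le (hS.deg v fun h => hv (Or.inl h)))
  have f1 : ∀ v ∈ H, ψ v = κ v := fun v hv => (h1 v (Or.inl hv)).trans (e1 v hv)
  have f2 : ∀ c ∈ Cs, ψ (x c) = c := fun c hc =>
    (h1 _ (Or.inr (Or.inl ⟨c, hc, rfl⟩))).trans (e2 c hc)
  have f3 : ∀ z, Shared G H Cs x z → ψ z = f z := fun z hz =>
    (h1 z (Or.inr (Or.inr (Or.inl hz)))).trans (e3 z hz)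
  have f4 : ∀ c ∈ Cs, ∀ v, Priv G H Cs x c v → ψ v = g c v := fun c hc v hv =>
    (h1 v (Or.inr (Or.inr (Or.inr ⟨c, hc, hv⟩)))).trans (e4 c hc v hv)
  refine ⟨ψ, h2, f1, fun c hc => ⟨f2 c hc, ?_⟩⟩
  -- the colours of the neighbours of `x c` are different
  have hinj : Set.InjOn ψ (nbr G (x c) : Set V) := by
    intro v hv v' hv' he
    rw [Finset.mem_coe, mem_nbr] at hv hv'
    by_contra hne
    by_cases hvH : v ∈ H
    · by_cases hvH' : v' ∈ H
      · exact hne (hS.xone c hc v hvH v' hvH' hv hv')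
      · rcases hS.shared_or_priv hc hvH' hv' with h | h
        · rw [f1 v hvH, f3 v' h] at he
          exact hf.hr v' h c hc hv' v hvH hv he.symm
        · rw [f1 v hvH, f4 c hc v' h] at he
          exact (hg1 c hc).hr v' h v hvH hv he.symm
    · rcases hS.shared_or_priv hc hvH hv with h | h
      · by_cases hvH' : v' ∈ H
        · rw [f3 v h, f1 v' hvH'] at he
          exact hf.hr v h c hc hv v' hvH' hv' he
        · rcases hS.shared_or_priv hc hvH' hv' with h' | h'
          · rw [f3 v h, f3 v' h'] at he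
            exact hf.row v v' h h' hne ⟨c, hc, hv, hv'⟩ he
          · rw [f3 v h, f4 c hc v' h'] at he
            exact (hg1 c hc).sr v' h' v h hv he.symm
      · by_cases hvH' : v' ∈ H
        · rw [f4 c hc v h, f1 v' hvH'] at he
          exact (hg1 c hc).hr v h v' hvH' hv' he
        · rcases hS.shared_or_priv hc hvH' hv' with h' | h'
          · rw [f4 c hc v h, f3 v' h'] at he
            exact (hg1 c hc).sr v h v' h' hv' he
          · rw [f4 c hc v h, f4 c hc v' h'] at he
            exact (hg1 c hc).inj v v' h h' hne he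
  have hcard : ((nbr G (x c)).image ψ).card + 1 = Fintype.card C := by
    rw [Finset.card_image_of_injOn hinj, hS.xdeg c hc, hS.cardC]
  have hcn : c ∉ (nbr G (x c)).image ψ := by
    intro h
    obtain ⟨v, hv, hvc⟩ := Finset.mem_image.1 h
    rw [mem_nbr] at hv
    exact h2 (x c) v hv ((f2 c hc).trans hvc.symm)
  have hall : insert c ((nbr G (x c)).image ψ) = Finset.univ := by
    apply Finset.eq_univ_of_card
    rw [Finset.card_insert_of_notMem hcn, hcard]
  intro a ha
  have ha' : a ∈ insert c ((nbr G (x c)).image ψ) := by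
    rw [hall]
    exact Finset.mem_univ a
  rcases Finset.mem_insert.1 ha' with h | h
  · exact absurd (h.trans (f2 c hc).symm) ha
  · obtain ⟨w, hw, hwa⟩ := Finset.mem_image.1 h
    exact ⟨w, mem_nbr.1 hw, hwa⟩

end

end Pool.Agent.Helper95.BC
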