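import Pool.Agent.Helper95.BC.S3
import Pool.Agent.Helper95.BC.S4
import Pool.Agent.Helper95.BC.S6c
import Pool.Agent.Helper95.BC.S7c
import Pool.Agent.Helper95.BC.S8
import Pool.Agent.Helper95.BC.S10
import Pool.Agent.Helper95.BC.Girth

/-!
# Assembly: graphs with many vertices of degree at least `m - 1`
-/

set_option autoImplicit false

namespace Pool.Agent.Helper95.BC

open Classical in
/-- `X` = candidates; the centres and the three stages give a colouring with b-vertices for all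
colours in `Cs` -/
theorem stars_colouring : ∃ m₀ : ℕ, ∀ m : ℕ, m₀ ≤ m → ∀ (V C : Type) [Fintype V] [Fintype C]
    [Nonempty V] (G : SimpleGraph V) (H X : Finset V) (κ : V → C) (Cs : Finset C),
    C4Free G → Fintype.card C = m → (∀ v, v ∉ H → (nbr G v).card + 1 ≤ m) →
    Set.InjOn κ (H : Set V) → (∀ v ∈ X, v ∉ H) → (∀ v ∈ X, (nbr G v).card + 1 = m) →
    (∀ x ∈ X, ∀ h ∈ H, ∀ h' ∈ H, G.Adj x h → G.Adj x h' → h = h') →
    (∀ x ∈ X, ∀ v, v ∉ H → G.Adj x v → 1000 * (H.filter (fun h => G.Adj v h)).card ≤ m) →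
    X.card ≤ 96 * m ^ 2 →
    (∀ c ∈ Cs, ∃ X' ⊆ X, 48 * m ^ 2 ≤ X'.card ∧ ∀ v ∈ X', ∀ h ∈ H, G.Adj v h → κ h ≠ c) →
    ∃ (x : C → V) (ψ : V → C), (∀ c ∈ Cs, x c ∈ X) ∧ (∀ u v, G.Adj u v → ψ u ≠ ψ v) ∧
      (∀ h ∈ H, ψ h = κ h) ∧ ∀ c ∈ Cs, ψ (x c) = c ∧ IsBVertex G ψ (x c) := by
  obtain ⟨m₁, h1⟩ := load_bound 96 3 40 (1 / 470) (by norm_num)
  obtain ⟨m₂, h2⟩ := load_bound 1 2 30 (1 / 340) (by norm_num)
  obtain ⟨m₃, h3⟩ := load_bound 1 2 7 (51 / 4000) (by norm_num)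
  refine ⟨max (max m₁ m₂) (max m₃ 1000), ?_⟩
  intro m hm V C _ _ _ G H X κ Cs hC4 hcard hdeg hκ hXH hXdeg hone hvH hX hcand
  have hm1 : m₁ ≤ m := ((le_max_left _ _).trans (le_max_left _ _)).trans hm
  have hm2 : m₂ ≤ m := ((le_max_right _ _).trans (le_max_left _ _)).trans hm
  have hm3 : m₃ ≤ m := ((le_max_left _ _).trans (le_max_right _ _)).trans hm
  have hm4 : 1000 ≤ m := ((le_max_right _ _).trans (le_max_right _ _)).trans hm
  have hcand' : ∀ c ∈ Cs, 48 * m ^ 2 ≤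
      (X.filter (fun v => ∀ h ∈ H, G.Adj v h → κ h ≠ c)).card := by
    intro c hc
    obtain ⟨X', h4, h5, h6⟩ := hcand c hc
    exact h5.trans (Finset.card_le_card fun v hv => Finset.mem_filter.2 ⟨h4 hv, h6 v hv⟩)
  obtain ⟨x, hx1, hx2, hx3, hx4, hx5⟩ := choose_centres G m (by omega) H X κ Cs hcard hXH hdeg
    hX hcand' (h1 m hm1)
  have hS : Stars G m H κ Cs x :=
    { c4 := hC4
      cardC := hcard
      deg := hdeg
      kinj := hκ
      xH := fun c hc => hXH _ (hx1 c hc)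
      xdeg := fun c hc => hXdeg _ (hx1 c hc)
      xone := fun c hc => hone _ (hx1 c hc)
      xk := hx2
      xadj := hx3
      xinj := hx4
      xm := fun c hc => hx5 _ (hXH _ (hx1 c hc)) (Or.inl (hx1 c hc))
      vm := fun c hc v hv hcv => hx5 v hv (Or.inr ⟨x c, hx1 c hc, hcv⟩)
      vH := fun c hc => hvH _ (hx1 c hc) }
  obtain ⟨f, hf, hf1⟩ := stage_one hS hm4 (h2 m hm2)
  obtain ⟨g, hg1, hg2⟩ := stage_two hS hm4 f hf hf1 (h3 m hm3)
  obtain ⟨ψ, hψ1, hψ2, hψ3⟩ := final_colouring hS f hf g hg1 hg2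
  exact ⟨x, ψ, hx1, hψ1, hψ2, hψ3⟩

open Classical in
theorem many_main : ∃ m₀ : ℕ, ∀ (V : Type) [Fintype V] (G : SimpleGraph V),
    C4Free G → m₀ ≤ mDegree G →
    100 * mDegree G ^ 2 ≤
      (Finset.univ.filter (fun v => mDegree G - 1 ≤ (nbr G v).card)).card →
    mDegree G ≤ bChrom G := by
  obtain ⟨m₁, h1⟩ := candidates
  obtain ⟨m₂, h2⟩ := stars_colouring
  refine ⟨max (max m₁ m₂) 1, ?_⟩
  intro V _ G hC4 hm hmany
  obtain ⟨_, hHcard⟩ := mDegree_spec G
  generalize mDegree G = m at *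
  have hm1 : m₁ ≤ m := ((le_max_left _ _).trans (le_max_left _ _)).trans hm
  have hm2 : m₂ ≤ m := ((le_max_right _ _).trans (le_max_left _ _)).trans hm
  have hm3 : 1 ≤ m := (le_max_right _ _).trans hm
  set H : Finset V := Finset.univ.filter (fun v => m ≤ (nbr G v).card) with hH
  have hmemH : ∀ v, v ∈ H ↔ m ≤ (nbr G v).card := fun v => by simp [hH]
  set D : Finset V := Finset.univ.filter (fun v => (nbr G v).card + 1 = m) with hD
  have hmemD : ∀ v, v ∈ D ↔ (nbr G v).card + 1 = m := fun v => by simp [hD]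
  have hdeg : ∀ v, v ∉ H → (nbr G v).card + 1 ≤ m := by
    intro v hv
    rw [hmemH] at hv
    omega
  have hDcard : 100 * m ^ 2 ≤ D.card + m := by
    refine hmany.trans ?_
    refine le_trans ?_ (Nat.add_le_add_left hHcard D.card)
    refine le_trans (Finset.card_le_card ?_) (Finset.card_union_le D H)
    intro v hv
    have hv' := (Finset.mem_filter.1 hv).2
    rw [Finset.mem_union, hmemD, hmemH]
    omega
  obtain ⟨X₁, hX₁D, hX₁c, hX₁one, hX₁v⟩ := h1 m hm1 V G H D hC4 hHcard hdeg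
  have hX₁ : 96 * m ^ 2 ≤ X₁.card := by nlinarith
  obtain ⟨X, hXX₁, hXcard⟩ := Finset.exists_subset_card_eq hX₁
  have hXdeg : ∀ v ∈ X, (nbr G v).card + 1 = m := fun v hv =>
    (hmemD v).1 (hX₁D (hXX₁ hv))
  have hXH : ∀ v ∈ X, v ∉ H := by
    intro v hv
    have := hXdeg v hv
    rw [hmemH]
    omega
  have hXne : X.Nonempty := by
    rw [← Finset.card_pos, hXcard]
    positivity
  have : Nonempty V := ⟨hXne.choose⟩
  have : NeZero m := ⟨by omega⟩
  -- the colours of H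
  obtain ⟨κ, hκ⟩ : ∃ κ : V → Fin m, Set.InjOn κ (H : Set V) := by
    have h3 : Nonempty ((H : Set V) ↪ Fin m) := by
      refine Function.Embedding.nonempty_of_card_le ?_
      simpa using hHcard
    obtain ⟨e⟩ := h3
    refine ⟨fun v => if hv : v ∈ H then e ⟨v, hv⟩ else 0, ?_⟩
    intro v hv w hw hvw
    have hv' : v ∈ H := hv
    have hw' : w ∈ H := hw
    simp only [hv', hw', dif_pos] at hvw
    exact congrArg Subtype.val (e.injective hvw)
  have hcardC : Fintype.card (Fin m) = m := Fintype.card_fin m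
  by_cases hstar : ∃ h ∈ H, 48 * m ^ 2 ≤ (X.filter (fun v => G.Adj v h)).card
  · -- half of the candidates are adjacent to `h₀`
    obtain ⟨h₀, hh₀, hbig⟩ := hstar
    obtain ⟨x, ψ, hx, hψ1, hψ2, hψ3⟩ := h2 m hm2 V (Fin m) G H (X.filter (fun v => G.Adj v h₀)) κ
      (Finset.univ.erase (κ h₀)) hC4 hcardC hdeg hκ
      (fun v hv => hXH v (Finset.mem_filter.1 hv).1)
      (fun v hv => hXdeg v (Finset.mem_filter.1 hv).1)
      (fun v hv => hX₁one v (hXX₁ (Finset.mem_filter.1 hv).1))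
      (fun v hv => hX₁v v (hXX₁ (Finset.mem_filter.1 hv).1))
      ((Finset.card_le_card (Finset.filter_subset _ _)).trans hXcard.le)
      (by
        intro c hc
        refine ⟨_, Finset.Subset.refl _, hbig, ?_⟩
        intro v hv h hh hvh
        have hv' := Finset.mem_filter.1 hv
        rw [hX₁one v (hXX₁ hv'.1) h hh h₀ hh₀ hvh hv'.2]
        exact fun h' => Finset.ne_of_mem_erase hc h'.symm)
    refine le_csSup (bddAbove_bCol G) ⟨ψ, hψ1, fun c => ?_⟩
    by_cases hc : c = κ h₀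
    · subst hc
      refine ⟨h₀, hψ2 h₀ hh₀, fun c' hc' => ?_⟩
      rw [hψ2 h₀ hh₀] at hc'
      have hc'' : c' ∈ Finset.univ.erase (κ h₀) := Finset.mem_erase.2 ⟨hc', Finset.mem_univ _⟩
      exact ⟨x c', (Finset.mem_filter.1 (hx c' hc'')).2.symm, (hψ3 c' hc'').1⟩
    · have hc'' : c ∈ Finset.univ.erase (κ h₀) := Finset.mem_erase.2 ⟨hc, Finset.mem_univ _⟩
      exact ⟨x c, (hψ3 c hc'').1, (hψ3 c hc'').2⟩
  · push Not at hstar
    obtain ⟨x, ψ, hx, hψ1, hψ2, hψ3⟩ := h2 m hm2 V (Fin m) G H X κ Finset.univ hC4 hcardC hdeg hκ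
      hXH hXdeg (fun v hv => hX₁one v (hXX₁ hv)) (fun v hv => hX₁v v (hXX₁ hv)) hXcard.le
      (by
        intro c _
        by_cases hex : ∃ h ∈ H, κ h = c
        · obtain ⟨h, hh, hhc⟩ := hex
          refine ⟨X.filter (fun v => ¬ G.Adj v h), Finset.filter_subset _ _, ?_, ?_⟩
          · have h4 := Finset.card_filter_add_card_filter_not (s := X) (fun v => G.Adj v h)
            have h5 := hstar h hh
            omega
          · intro v hv h' hh' hvh' hh'c
            have h6 : h' = h := hκ hh' hh (hh'c.trans hhc.symm)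
            rw [h6] at hvh'
            exact (Finset.mem_filter.1 hv).2 hvh'
        · push Not at hex
          exact ⟨X, Finset.Subset.refl _, by omega, fun v _ h hh _ => hex h hh⟩)
    refine le_csSup (bddAbove_bCol G) ⟨ψ, hψ1, fun c => ?_⟩
    exact ⟨x c, (hψ3 c (Finset.mem_univ c)).1, (hψ3 c (Finset.mem_univ c)).2⟩

open Classical in
theorem many_candidates : ∃ m₀ : ℕ, ∀ (V : Type) [Fintype V] (G : SimpleGraph V),
    5 ≤ G.egirth ∨ C4Free G → m₀ ≤ mDegree G →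
    100 * mDegree G ^ 2 ≤
      (Finset.univ.filter (fun v => mDegree G - 1 ≤ (nbr G v).card)).card →
    bChrom G = mDegree G := by
  obtain ⟨m₀, h⟩ := many_main
  refine ⟨m₀, fun V _ G hG hm hmany => ?_⟩
  exact le_antisymm (bChrom_le_mDegree G) (h V G (hG.elim (c4Free_of_egirth G) id) hm hmany)

end Pool.Agent.Helper95.BC
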