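import Pool.Agent.Helper95.BC.Defs

/-!
# The data of the assembly
-/

set_option autoImplicit false

namespace Pool.Agent.Helper95.BC

open Classical in
/-- A system of rows `W i`, `i ∈ I`, in a graph without 4-cycles. -/
structure RowSys {V : Type} [Fintype V] (G : SimpleGraph V) (m T : ℕ) (δ : ℝ) (I : Finset V)
    (W : V → Finset V) : Prop where
  c4 : C4Free G
  sub : ∀ i ∈ I, W i ⊆ nbr G i
  le : ∀ i ∈ I, (W i).card ≤ m
  ge : ∀ i ∈ I, (1 - δ) * m ≤ (W i).card
  disj : ∀ i ∈ I, Disjoint (W i) I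
  deg : ∀ i ∈ I, ∀ v ∈ W i, (nbr G v).card ≤ m
  rk : ∀ i ∈ I, ∀ v ∈ W i, (I.filter (fun j => v ∈ W j)).card ≤ T

/-- the items: the vertices in the rows -/
noncomputable def items {V : Type} (I : Finset V) (W : V → Finset V) : Finset V := by
  classical exact I.biUnion W

/-- a colouring of the items, injective on the rows and proper for the edges between items -/
structure RowCol {V C : Type} (G : SimpleGraph V) (I : Finset V)
    (W : V → Finset V) (φ : V → C) : Prop where
  inj : ∀ i ∈ I, Set.InjOn φ (W i : Set V)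
  proper : ∀ v ∈ items I W, ∀ w ∈ items I W, G.Adj v w → φ v ≠ φ w

/-- the labels of the vertices in `D ∪ E ∪ Hx` -/
structure Lab {V C : Type} [Fintype V] [DecidableEq V] (G : SimpleGraph V) (D E Hx : Finset V)
    (P : Finset C) (l : V → C) : Prop where
  mem : ∀ x ∈ D ∪ E ∪ Hx, l x ∈ P
  inj1 : Set.InjOn l ((D ∪ E : Finset V) : Set V)
  inj2 : Set.InjOn l (Hx : Set V)
  proper : ∀ x ∈ D ∪ E ∪ Hx, ∀ y ∈ D ∪ E ∪ Hx, G.Adj x y → l x ≠ l y

/-- the item `v` loses its colour: it is the label of a neighbour in `Q` -/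
def Lost {V C : Type} (G : SimpleGraph V) (Q : Finset V) (φ l : V → C) (v : V) : Prop :=
  ∃ x ∈ Q, G.Adj v x ∧ l x = φ v

open Classical in
/-- the colours seen by `y` on labelled vertices and on items that keep their colour -/
noncomputable def seen {V C : Type} [Fintype V] (G : SimpleGraph V) (I : Finset V)
    (W : V → Finset V) (P : Finset C) (Q : Finset V) (φ l : V → C) (y : V) : Finset C :=
  (nbr G y ∩ Q).image l ∪
    ((nbr G y ∩ (items I W)).filter (fun v => φ v ∈ P ∧ ¬ Lost G Q φ l v)).image φ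

end Pool.Agent.Helper95.BC
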